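import Pool.Agent.CorA.Targets

/-!
# NC4: recursion for the total size of the nodes with large oscillation
-/

set_option autoImplicit false

namespace Pool.Agent.CorA

open Complex Metric Set Filter Topology MeasureTheory
open Pool.Corona91698f Pool.Agent.CorE
open scoped Real BoundedContinuousFunction

namespace NC4_

theorem sum_lv_snoc (l : ℕ) (F : List D → ℝ) :
    ∑ v ∈ lv (l + 1), F v = ∑ p ∈ lv l, ∑ d : D, F (p ++ [d]) := by
  rw [sum_lv_add]
  refine Finset.sum_congr rfl fun p _ => ?_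
  have h := sum_lv_succ 0 (fun q => F (p ++ q))
  rw [zero_add] at h
  rw [h]
  refine Finset.sum_congr rfl fun d _ => ?_
  simp [lv]

theorem sum_lv_snoc_add (l k : ℕ) (F : List D → ℝ) :
    ∑ p ∈ lv l, ∑ d : D, ∑ x ∈ lv k, F (p ++ [d] ++ x) = ∑ v ∈ lv (l + 1 + k), F v := by
  rw [sum_lv_add, sum_lv_snoc]

theorem sum_wd_lv (N : ℕ) (hN : 1 ≤ N) (F : List D → ℝ) :
    ∑ u ∈ wd (N - 1), F u = ∑ l ∈ Finset.range N, ∑ u ∈ lv l, F u := by
  classical
  rw [← Finset.sum_biUnion]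
  · refine Finset.sum_congr ?_ fun _ _ => rfl
    ext u
    simp only [mem_wd, Finset.mem_biUnion, Finset.mem_range, mem_lv]
    constructor
    · intro h
      exact ⟨u.length, by omega, rfl⟩
    · rintro ⟨l, h1, h2⟩
      omega
  · intro i _ k _ hik
    rw [Function.onFun, Finset.disjoint_left]
    intro u h1 h2
    rw [mem_lv] at h1 h2
    exact hik (h1.symm.trans h2)

open Classical in
/-- The size of the words with oscillation at least `ε`. -/
noncomputable def gg {n : ℕ} (f : Fin n → ℂ → ℂ) (a : List D → ℝ) (ε : ℝ) (u : List D) : ℝ :=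
  if NC f ε u then a u else 0

theorem gg_nonneg {n : ℕ} (f : Fin n → ℂ → ℂ) {a : List D → ℝ} (ha : ∀ u, 0 ≤ a u) (ε : ℝ)
    (u : List D) : 0 ≤ gg f a ε u := by
  unfold gg
  split_ifs
  · exact ha u
  · exact le_refl _

theorem gg_le {n : ℕ} (f : Fin n → ℂ → ℂ) {a : List D → ℝ} (ha : ∀ u, 0 ≤ a u) (ε : ℝ)
    (u : List D) : gg f a ε u ≤ a u := by
  unfold gg
  split_ifs
  · exact le_refl _
  · exact ha u

theorem SN_eq {n : ℕ} (N : ℕ) (hN : 1 ≤ N) (f : Fin n → ℂ → ℂ) (a : List D → ℝ) (ε : ℝ) :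
    SN N f a ε = ∑ l ∈ Finset.range N, ∑ u ∈ lv l, gg f a ε u := by
  rw [← sum_wd_lv N hN]
  unfold SN gg
  rw [Finset.sum_filter]

theorem tele (M : ℕ → ℝ) (B : ℝ) (P k : ℕ) (h0 : ∀ l, 0 ≤ M l)
    (hB : ∀ l, l < P + 1 + k → M l ≤ B) :
    ∑ m ∈ Finset.range P, (M (m + 1 + k) - M (m + 1)) ≤ k * B := by
  induction k with
  | zero => simp
  | succ k ih =>
    have h1 := ih fun l hl => hB l (by omega)
    have h2 : ∑ m ∈ Finset.range P, (M (m + 1 + (k + 1)) - M (m + 1)) =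
        ∑ m ∈ Finset.range P, (M (m + 1 + k) - M (m + 1)) +
        ∑ m ∈ Finset.range P, (M ((m + 1) + 1 + k) - M (m + 1 + k)) := by
      rw [← Finset.sum_add_distrib]
      refine Finset.sum_congr rfl fun m _ => ?_
      rw [show m + 1 + (k + 1) = m + 1 + 1 + k by ring]
      ring
    have h3 := Finset.sum_range_sub (fun m => M (m + 1 + k)) P
    have h4 := hB (P + 1 + k) (by omega)
    have h5 := h0 (0 + 1 + k)
    rw [h2, h3]
    push_cast
    linarith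

theorem point {n : ℕ} {ε K ε' X : ℝ} {f : Fin n → ℂ → ℂ} {a : List D → ℝ}
    (hK : 1 ≤ K) (ha : ∀ u, 0 ≤ a u) (p : List D) (d : D)
    (h1 : NC f ε (p ++ [d]) → a p ≤ K * a (p ++ [d]) →
      (∀ e : D, a (p ++ [d, e]) ≤ K * a (p ++ [d])) → a (p ++ [d]) ≤ X) (hX : 0 ≤ X)
    (h3a : NC f ε (p ++ [d]) → NC f ε' p)
    (h3b : ∀ e, NC f ε (p ++ [d]) → NC f ε' (p ++ [d] ++ [e])) :
    gg f a ε (p ++ [d]) ≤
      1 / K * (gg f a ε' p + ∑ e : D, gg f a ε' (p ++ [d] ++ [e])) + X := by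
  have hK0 : 0 < K := by linarith
  have hs0 : 0 ≤ ∑ e : D, gg f a ε' (p ++ [d] ++ [e]) :=
    Finset.sum_nonneg fun e _ => gg_nonneg f ha _ _
  have hp0 := gg_nonneg f ha ε' p
  have hm : 0 ≤ 1 / K * (gg f a ε' p + ∑ e : D, gg f a ε' (p ++ [d] ++ [e])) := by positivity
  by_cases hN : NC f ε (p ++ [d])
  · have e0 : gg f a ε (p ++ [d]) = a (p ++ [d]) := if_pos hN
    rw [e0]
    by_cases c1 : a p ≤ K * a (p ++ [d])
    · by_cases c2 : ∀ e : D, a (p ++ [d, e]) ≤ K * a (p ++ [d])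
      · have := h1 hN c1 c2
        linarith
      · push Not at c2
        obtain ⟨e, he⟩ := c2
        have e1 : gg f a ε' (p ++ [d] ++ [e]) = a (p ++ [d] ++ [e]) := if_pos (h3b e hN)
        have e2 : gg f a ε' (p ++ [d] ++ [e]) ≤ ∑ e : D, gg f a ε' (p ++ [d] ++ [e]) :=
          Finset.single_le_sum (f := fun e => gg f a ε' (p ++ [d] ++ [e]))
            (fun e _ => gg_nonneg f ha _ _) (Finset.mem_univ e)
        have e3 : p ++ [d] ++ [e] = p ++ [d, e] := by simp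
        rw [e1, e3] at e2
        have e4 : a (p ++ [d]) ≤
            1 / K * (gg f a ε' p + ∑ e : D, gg f a ε' (p ++ [d] ++ [e])) := by
          rw [one_div, ← div_eq_inv_mul, le_div_iff₀ hK0]
          linarith
        linarith
    · push Not at c1
      have e1 : gg f a ε' p = a p := if_pos (h3a hN)
      have e4 : a (p ++ [d]) ≤
          1 / K * (gg f a ε' p + ∑ e : D, gg f a ε' (p ++ [d] ++ [e])) := by
        rw [one_div, ← div_eq_inv_mul, le_div_iff₀ hK0, e1]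
        linarith
      linarith
  · have e0 : gg f a ε (p ++ [d]) = 0 := if_neg hN
    rw [e0]
    linarith

theorem NC_mono {n : ℕ} {f : Fin n → ℂ → ℂ} {ε ε' : ℝ} (h : ε' ≤ ε) {u : List D}
    (hu : NC f ε u) : NC f ε' u := by
  obtain ⟨k, x, y, h1, h2, h3⟩ := hu
  exact ⟨k, x, y, h1, h2, h.trans h3⟩

theorem card_le (X : ℕ → ℝ) (B : ℝ) (N P k : ℕ) (hN : 1 ≤ N) (hP : P = N - (k + 1))
    (hX : ∀ l, l < N → X l ≤ B) (hB : 0 ≤ B) :
    ∑ l ∈ Finset.range N, X l ≤ (k + 1) * B + ∑ m ∈ Finset.range P, X (m + 1) := by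
  have h1 : P + 1 ≤ N := by omega
  have h2 : ∑ l ∈ Finset.range N, X l =
      ∑ l ∈ Finset.range (P + 1), X l + ∑ l ∈ Finset.Ico (P + 1) N, X l := by
    rw [Finset.range_eq_Ico, Finset.range_eq_Ico, Finset.sum_Ico_consecutive _ (by omega) h1]
  have h3 : ∑ l ∈ Finset.Ico (P + 1) N, X l ≤ k * B := by
    calc ∑ l ∈ Finset.Ico (P + 1) N, X l ≤ ∑ _l ∈ Finset.Ico (P + 1) N, B :=
          Finset.sum_le_sum fun l hl => hX l (Finset.mem_Ico.1 hl).2
      _ = ((N - (P + 1) : ℕ) : ℝ) * B := by simp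
      _ ≤ k * B := by
          refine mul_le_mul_of_nonneg_right ?_ hB
          exact_mod_cast (by omega : N - (P + 1) ≤ k)
  rw [h2, Finset.sum_range_succ']
  have h4 := hX 0 (by omega)
  linarith

theorem jb (N : ℕ) (hN : 1 ≤ N) : ∃ j : ℕ, 1 ≤ j ∧ (2 * j : ℝ) ≤ 8 * (1 + Real.log N) ∧
    (3 / 4 : ℝ) ^ j * N ≤ 1 := by
  have hN0 : (0 : ℝ) < N := by exact_mod_cast hN
  have hN1 : (1 : ℝ) ≤ N := by exact_mod_cast hN
  have hl : 0 ≤ Real.log N := Real.log_nonneg hN1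
  refine ⟨⌈4 * Real.log N⌉₊ + 1, by omega, ?_, ?_⟩
  · have h1 : (⌈4 * Real.log N⌉₊ : ℝ) < 4 * Real.log N + 1 :=
      Nat.ceil_lt_add_one (by positivity)
    push_cast
    linarith
  · set j := ⌈4 * Real.log N⌉₊ + 1 with hj
    have h1 : 4 * Real.log N ≤ j := by
      have := Nat.le_ceil (4 * Real.log N)
      rw [hj]
      push_cast
      linarith
    have h2 : (1 / 4 : ℝ) ≤ Real.log (4 / 3) := by
      have := Real.one_sub_inv_le_log_of_pos (show (0 : ℝ) < 4 / 3 by norm_num)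
      norm_num at this ⊢
      linarith
    have h3 : (N : ℝ) ≤ (4 / 3) ^ j := by
      have e1 : ((4 / 3 : ℝ)) ^ j = Real.exp (j * Real.log (4 / 3)) := by
        rw [mul_comm, Real.exp_mul, Real.exp_log (by norm_num), Real.rpow_natCast]
      rw [e1, ← Real.log_le_iff_le_exp hN0]
      have hj0 : (0 : ℝ) ≤ j := Nat.cast_nonneg _
      nlinarith
    calc (3 / 4 : ℝ) ^ j * N ≤ (3 / 4 : ℝ) ^ j * (4 / 3) ^ j :=
          mul_le_mul_of_nonneg_left h3 (by positivity)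
      _ = 1 := by
          rw [← mul_pow]
          norm_num

end NC4_

open NC4_ in
theorem p_NC4 (hNC1 : T_NC1) (hNC3 : T_NC3) (hMAS : T_MAS) : T_NC4 := by
  intro n C₀ hC₀
  obtain ⟨C1, hC1, H1⟩ := hNC1 n
  obtain ⟨C3, hC3, H3⟩ := hNC3
  obtain ⟨C2, hC2, H2⟩ := hMAS n
  set C : ℝ := C1 + C3 + 9 * C₀ + C1 * (2 * C₀ + 8 * (C2 * C₀)) with hC
  have hC20 : 0 < C2 * C₀ := by positivity
  have hq0 : 0 ≤ C1 * (2 * C₀ + 8 * (C2 * C₀)) := by positivity
  have hCC1 : C1 ≤ C := by linarith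
  have hCC3 : C3 ≤ C := by linarith
  refine ⟨C, by linarith, ?_⟩
  intro N δ ε K f h a hN hD hH hε hε1 hK
  have hK0 : 0 < K := by linarith
  have ha := hH.nn
  obtain ⟨hm1, -, hm3⟩ := H2 N δ C₀ f h a hD hH
  obtain ⟨j, hj1, hj2, hj3⟩ := jb N hN
  have hN1 : (1 : ℝ) ≤ N := by exact_mod_cast hN
  have hl : 0 ≤ Real.log N := Real.log_nonneg hN1
  set ε' : ℝ := ε ^ C / C with hε'
  have hee : ε' ≤ ε ^ C3 / C3 := by
    have h1 : ε ^ C ≤ ε ^ C3 := Real.rpow_le_rpow_of_exponent_ge hε hε1 hCC3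
    exact div_le_div₀ (Real.rpow_nonneg hε.le _) h1 (by linarith) hCC3
  have hKe : 1 ≤ K / ε := by
    rw [le_div_iff₀ hε]
    linarith
  set Y : ℝ := C1 * (K / ε) ^ C1 with hY
  have hY0 : 0 < Y := by
    have : 0 < (K / ε) ^ C1 := Real.rpow_pos_of_pos (by linarith) _
    positivity
  set P : ℕ := N - (2 * j + 1) with hP
  -- the levels
  set A : ℕ → ℝ := fun l => ∑ u ∈ lv l, a u with hA
  set G : ℕ → ℝ := fun l => ∑ u ∈ lv l, gg f a ε' u with hG
  set M : ℕ → ℝ := fun l => ∑ u ∈ lv l, ‖mm f h u‖ with hM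
  have hA0 : ∀ l, 0 ≤ A l := fun l => Finset.sum_nonneg fun u _ => ha u
  have hG0 : ∀ l, 0 ≤ G l := fun l => Finset.sum_nonneg fun u _ => gg_nonneg f ha _ _
  have hM0 : ∀ l, 0 ≤ M l := fun l => Finset.sum_nonneg fun u _ => norm_nonneg _
  have hAC : ∀ l, l < N → A l ≤ C₀ := fun l hl => hH.lev l hl
  have hMC : ∀ l, l < N → M l ≤ C2 * C₀ := by
    intro l hl
    calc M l ≤ ∑ u ∈ lv l, C2 * a u := Finset.sum_le_sum fun u hu => hm1 u (by
            rw [mem_lv.1 hu]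
            exact hl)
      _ = C2 * A l := by rw [← Finset.mul_sum]
      _ ≤ C2 * C₀ := mul_le_mul_of_nonneg_left (hAC l hl) (by linarith)
  have hlev : ∀ m, m < P → ∑ u ∈ lv (m + 1), gg f a ε u ≤
      1 / K * (4 * G m + G (m + 2)) +
      Y * ((3 / 4) ^ j * (A (m + 1 + j) + A (m + 1 + 2 * j)) +
        (M (m + 1 + 2 * j) - M (m + 1))) := by
    intro m hm
    rw [sum_lv_snoc]
    have hpt : ∀ p ∈ lv m, ∀ d : D, gg f a ε (p ++ [d]) ≤
        1 / K * (gg f a ε' p + ∑ e : D, gg f a ε' (p ++ [d] ++ [e])) +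
        Y * ((3 / 4) ^ j * (∑ x ∈ lv j, a (p ++ [d] ++ x) +
          ∑ x ∈ lv (2 * j), a (p ++ [d] ++ x)) +
          (∑ x ∈ lv (2 * j), ‖mm f h (p ++ [d] ++ x)‖ - ‖mm f h (p ++ [d])‖)) := by
      intro p hp d
      have hpl : p.length = m := mem_lv.1 hp
      have hlen : (p ++ [d]).length + 2 * j < N := by
        simp only [List.length_append, List.length_cons, List.length_nil]
        omega
      apply point hK ha p d
      · intro b1 b2 b3
        exact H1 N j δ C₀ ε K f h a p d hD hH hε hε1 hK hj1 (by omega) b1 b2 b3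
      · have b1 : ‖mm f h (p ++ [d])‖ ≤ ∑ x ∈ lv (2 * j), ‖mm f h (p ++ [d] ++ x)‖ := by
          rw [hm3 (p ++ [d]) (2 * j) hlen]
          exact norm_sum_le _ _
        have b2 : 0 ≤ ∑ x ∈ lv j, a (p ++ [d] ++ x) := Finset.sum_nonneg fun x _ => ha _
        have b3 : 0 ≤ ∑ x ∈ lv (2 * j), a (p ++ [d] ++ x) := Finset.sum_nonneg fun x _ => ha _
        have b4 : (0 : ℝ) ≤ (3 / 4) ^ j := by positivity
        have b5 := mul_nonneg b4 (add_nonneg b2 b3)
        exact mul_nonneg hY0.le (by linarith)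
      · intro b1
        exact NC_mono hee ((H3 n δ ε f p d hD hε hε1).2 b1)
      · intro e b1
        exact NC_mono hee ((H3 n δ ε f (p ++ [d]) e hD hε hε1).1 b1)
    calc ∑ p ∈ lv m, ∑ d : D, gg f a ε (p ++ [d]) ≤ ∑ p ∈ lv m, ∑ d : D,
          (1 / K * (gg f a ε' p + ∑ e : D, gg f a ε' (p ++ [d] ++ [e])) +
          Y * ((3 / 4) ^ j * (∑ x ∈ lv j, a (p ++ [d] ++ x) +
            ∑ x ∈ lv (2 * j), a (p ++ [d] ++ x)) +
            (∑ x ∈ lv (2 * j), ‖mm f h (p ++ [d] ++ x)‖ - ‖mm f h (p ++ [d])‖))) :=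
          Finset.sum_le_sum fun p hp => Finset.sum_le_sum fun d _ => hpt p hp d
      _ = 1 / K * (∑ p ∈ lv m, ∑ d : D, gg f a ε' p +
            ∑ p ∈ lv m, ∑ d : D, ∑ e : D, gg f a ε' (p ++ [d] ++ [e])) +
          Y * ((3 / 4) ^ j * (∑ p ∈ lv m, ∑ d : D, ∑ x ∈ lv j, a (p ++ [d] ++ x) +
            ∑ p ∈ lv m, ∑ d : D, ∑ x ∈ lv (2 * j), a (p ++ [d] ++ x)) +
            (∑ p ∈ lv m, ∑ d : D, ∑ x ∈ lv (2 * j), ‖mm f h (p ++ [d] ++ x)‖ -
              ∑ p ∈ lv m, ∑ d : D, ‖mm f h (p ++ [d])‖)) := by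
          simp only [Finset.sum_add_distrib, ← Finset.mul_sum, Finset.sum_sub_distrib]
      _ = 1 / K * (4 * G m + G (m + 2)) +
          Y * ((3 / 4) ^ j * (A (m + 1 + j) + A (m + 1 + 2 * j)) +
            (M (m + 1 + 2 * j) - M (m + 1))) := by
          rw [sum_lv_snoc_add m j a, sum_lv_snoc_add m (2 * j) a,
            sum_lv_snoc_add m (2 * j) (fun u => ‖mm f h u‖),
            ← sum_lv_snoc m (fun u => ‖mm f h u‖)]
          have e1 : ∑ p ∈ lv m, ∑ d : D, gg f a ε' p = 4 * G m := by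
            simp only [Finset.sum_const, Finset.card_univ, nsmul_eq_mul, hG]
            rw [Finset.mul_sum]
            refine Finset.sum_congr rfl fun p _ => ?_
            norm_num
          have e2 : ∑ p ∈ lv m, ∑ d : D, ∑ e : D, gg f a ε' (p ++ [d] ++ [e]) =
              G (m + 2) := by
            rw [← sum_lv_snoc m (fun u => ∑ e : D, gg f a ε' (u ++ [e])), ← sum_lv_snoc (m + 1)]
          rw [e1, e2]
  have hSe := SN_eq N hN f a ε
  have hSe' := SN_eq N hN f a ε'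
  have hc := card_le (fun l => ∑ u ∈ lv l, gg f a ε u) C₀ N P (2 * j) hN hP (fun l hl => by
    refine le_trans (Finset.sum_le_sum fun u _ => gg_le f ha ε u) (hAC l hl)) hC₀.le
  have hsum : ∑ m ∈ Finset.range P, ∑ u ∈ lv (m + 1), gg f a ε u ≤
      1 / K * (4 * ∑ m ∈ Finset.range P, G m + ∑ m ∈ Finset.range P, G (m + 2)) +
      Y * ((3 / 4) ^ j * (∑ m ∈ Finset.range P, A (m + 1 + j) +
        ∑ m ∈ Finset.range P, A (m + 1 + 2 * j)) +
        ∑ m ∈ Finset.range P, (M (m + 1 + 2 * j) - M (m + 1))) := by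
    refine le_trans (Finset.sum_le_sum fun m hm => hlev m (Finset.mem_range.1 hm)) ?_
    apply le_of_eq
    simp only [Finset.sum_add_distrib, ← Finset.mul_sum]
  -- bounds of the pieces
  have hg1 : ∑ m ∈ Finset.range P, G m ≤ SN N f a ε' := by
    rw [hSe']
    exact Finset.sum_le_sum_of_subset_of_nonneg (Finset.range_mono (by omega)) fun l _ _ => hG0 l
  have hg2 : ∑ m ∈ Finset.range P, G (m + 2) ≤ SN N f a ε' := by
    rw [hSe']
    by_cases hP0 : P = 0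
    · rw [hP0]
      simpa using Finset.sum_nonneg fun l _ => hG0 l
    · have e1 : ∑ m ∈ Finset.range P, G (m + 2) = ∑ l ∈ Finset.Ico 2 (P + 2), G l := by
        rw [Finset.sum_Ico_eq_sum_range]
        simp only [Nat.add_sub_cancel]
        exact Finset.sum_congr rfl fun m _ => by rw [add_comm]
      rw [e1]
      refine Finset.sum_le_sum_of_subset_of_nonneg ?_ fun l _ _ => hG0 l
      intro l hl'
      rw [Finset.mem_Ico] at hl'
      rw [Finset.mem_range]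
      omega
  have ha1 : ∀ k, k ≤ 2 * j → ∑ m ∈ Finset.range P, A (m + 1 + k) ≤ N * C₀ := by
    intro k hk
    calc ∑ m ∈ Finset.range P, A (m + 1 + k) ≤ ∑ _m ∈ Finset.range P, C₀ :=
          Finset.sum_le_sum fun m hm => hAC _ (by
            have := Finset.mem_range.1 hm
            omega)
      _ = P * C₀ := by simp
      _ ≤ N * C₀ := by
          refine mul_le_mul_of_nonneg_right ?_ hC₀.le
          exact_mod_cast (by omega : P ≤ N)
  have ht : ∑ m ∈ Finset.range P, (M (m + 1 + 2 * j) - M (m + 1)) ≤ 2 * j * (C2 * C₀) := by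
    by_cases hP0 : P = 0
    · rw [hP0]
      simp only [Finset.range_zero, Finset.sum_empty]
      positivity
    · have := tele M (C2 * C₀) P (2 * j) hM0 (fun l hl => hMC l (by omega))
      push_cast at this
      exact this
  have h34 : (3 / 4 : ℝ) ^ j * (∑ m ∈ Finset.range P, A (m + 1 + j) +
        ∑ m ∈ Finset.range P, A (m + 1 + 2 * j)) ≤ 2 * C₀ := by
    have b1 := ha1 j (by omega)
    have b2 := ha1 (2 * j) (le_refl _)
    calc (3 / 4 : ℝ) ^ j * (∑ m ∈ Finset.range P, A (m + 1 + j) +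
        ∑ m ∈ Finset.range P, A (m + 1 + 2 * j)) ≤ (3 / 4 : ℝ) ^ j * (N * C₀ + N * C₀) :=
          mul_le_mul_of_nonneg_left (add_le_add b1 b2) (by positivity)
      _ = ((3 / 4 : ℝ) ^ j * N) * (2 * C₀) := by ring
      _ ≤ 1 * (2 * C₀) := mul_le_mul_of_nonneg_right hj3 (by positivity)
      _ = 2 * C₀ := one_mul _
  set L : ℝ := 1 + Real.log N with hL
  have hL1 : 1 ≤ L := by linarith
  have hYle : Y * (2 * C₀ + 8 * (C2 * C₀)) ≤ (K / ε) ^ C * (C1 * (2 * C₀ + 8 * (C2 * C₀))) := by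
    have : (K / ε) ^ C1 ≤ (K / ε) ^ C := Real.rpow_le_rpow_of_exponent_le hKe hCC1
    calc Y * (2 * C₀ + 8 * (C2 * C₀)) =
          (K / ε) ^ C1 * (C1 * (2 * C₀ + 8 * (C2 * C₀))) := by rw [hY]; ring
      _ ≤ _ := mul_le_mul_of_nonneg_right this hq0
  have hp1 : 1 ≤ (K / ε) ^ C := Real.one_le_rpow hKe (by linarith)
  have hin : (3 / 4 : ℝ) ^ j * (∑ m ∈ Finset.range P, A (m + 1 + j) +
        ∑ m ∈ Finset.range P, A (m + 1 + 2 * j)) +
        ∑ m ∈ Finset.range P, (M (m + 1 + 2 * j) - M (m + 1)) ≤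
        (2 * C₀ + 8 * (C2 * C₀)) * L := by
    have b1 : (2 * j : ℝ) * (C2 * C₀) ≤ 8 * L * (C2 * C₀) :=
      mul_le_mul_of_nonneg_right hj2 hC20.le
    have b2 : 2 * C₀ * 1 ≤ 2 * C₀ * L := mul_le_mul_of_nonneg_left hL1 (by positivity)
    calc _ ≤ 2 * C₀ + 2 * j * (C2 * C₀) := add_le_add h34 ht
      _ ≤ 2 * C₀ * L + 8 * L * (C2 * C₀) := add_le_add (by linarith) b1
      _ = _ := by ring
  have hz1 : Y * ((3 / 4 : ℝ) ^ j * (∑ m ∈ Finset.range P, A (m + 1 + j) +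
        ∑ m ∈ Finset.range P, A (m + 1 + 2 * j)) +
        ∑ m ∈ Finset.range P, (M (m + 1 + 2 * j) - M (m + 1))) ≤
        (K / ε) ^ C * (C1 * (2 * C₀ + 8 * (C2 * C₀))) * L := by
    calc _ ≤ Y * ((2 * C₀ + 8 * (C2 * C₀)) * L) := mul_le_mul_of_nonneg_left hin hY0.le
      _ = (Y * (2 * C₀ + 8 * (C2 * C₀))) * L := by ring
      _ ≤ _ := mul_le_mul_of_nonneg_right hYle (by linarith)
  have hz2 : ((2 * j : ℕ) + 1 : ℝ) * C₀ ≤ (K / ε) ^ C * (9 * C₀) * L := by
    have b1 : ((2 * j : ℕ) + 1 : ℝ) ≤ 9 * L := by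
      push_cast
      linarith
    calc ((2 * j : ℕ) + 1 : ℝ) * C₀ ≤ 9 * L * C₀ := mul_le_mul_of_nonneg_right b1 hC₀.le
      _ = 1 * (9 * C₀ * L) := by ring
      _ ≤ (K / ε) ^ C * (9 * C₀ * L) := mul_le_mul_of_nonneg_right hp1 (by positivity)
      _ = _ := by ring
  have hz3 : 1 / K * (4 * ∑ m ∈ Finset.range P, G m + ∑ m ∈ Finset.range P, G (m + 2)) ≤
      5 / K * SN N f a ε' := by
    calc 1 / K * (4 * ∑ m ∈ Finset.range P, G m + ∑ m ∈ Finset.range P, G (m + 2)) ≤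
          1 / K * (5 * SN N f a ε') :=
          mul_le_mul_of_nonneg_left (by linarith) (by positivity)
      _ = 5 / K * SN N f a ε' := by ring
  have hfin : (K / ε) ^ C * (C1 * (2 * C₀ + 8 * (C2 * C₀))) * L +
      (K / ε) ^ C * (9 * C₀) * L ≤ C * (K / ε) ^ C * L := by
    have b1 : C1 * (2 * C₀ + 8 * (C2 * C₀)) + 9 * C₀ ≤ C := by linarith
    have b2 : 0 ≤ (K / ε) ^ C * L := by positivity
    calc (K / ε) ^ C * (C1 * (2 * C₀ + 8 * (C2 * C₀))) * L + (K / ε) ^ C * (9 * C₀) * L =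
          (C1 * (2 * C₀ + 8 * (C2 * C₀)) + 9 * C₀) * ((K / ε) ^ C * L) := by ring
      _ ≤ C * ((K / ε) ^ C * L) := mul_le_mul_of_nonneg_right b1 b2
      _ = C * (K / ε) ^ C * L := by ring
  have hc' : SN N f a ε ≤ ((2 * j : ℕ) + 1 : ℝ) * C₀ +
      ∑ m ∈ Finset.range P, ∑ u ∈ lv (m + 1), gg f a ε u := by
    rw [hSe]
    exact hc
  linarith

end Pool.Agent.CorA
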