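import Pool.Agent.CorA.Targets
import Pool.Agent.CorE.P_SLF

/-!
# MAI: local solutions with small pairing
-/

set_option autoImplicit false

namespace Pool.Agent.CorA

open Complex Metric Set Filter Topology MeasureTheory
open Pool.Corona91698f Pool.Agent.CorE
open scoped Real BoundedContinuousFunction

namespace MAI_

open Pool.Agent.CorE.SLF_ (rad rad_pos rad_mul circ circ_NR circ_par cm_eq)

/-! ### geometry of the circles -/

theorem circ_Om {N : ℕ} {u : List D} (hu : u.length ≤ N) {z : ℂ}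
    (hz : dist (Psi u z) ctr = 77 / 100) : z ∈ OmR (73 / 100) N := by
  intro q hq
  by_contra hlt
  push Not at hlt
  have hql := mem_lv.1 hq
  have h1 : dist (Psi q z) ctr ≤ 78 / 100 := by linarith
  have h2 : dist (Psi u z) ctr ≤ 78 / 100 := by rw [hz]; norm_num
  have hpre : u <+: q := by
    rcases chain h2 h1 with h | h
    · exact h
    · have h3 := h.eq_of_length_le (by omega)
      rw [h3]
  obtain ⟨x, rfl⟩ := hpre
  by_cases hx : x = []
  · subst hx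
    rw [List.append_nil, hz] at hlt
    norm_num at hlt
  · have h3 := near_append hx h1
    rw [hz] at h3
    norm_num at h3

theorem circ_par' {u : List D} {z : ℂ} (hz : dist (Psi u z) ctr = 77 / 100) : z ∈ NR (par u) := by
  have h := annulus_par (v := u) (y := Psi u z) (by rw [hz]; norm_num) (by rw [hz]; norm_num)
  rwa [Phi_Psi] at h

theorem circ_X {u : List D} {z : ℂ} (hz : dist (Psi u z) ctr = 77 / 100) : Psi u z ∈ nodeX :=
  nodeV_subset (circ_NR hz)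

theorem ctr_X : ctr ∈ nodeX := by
  refine ⟨by rw [dist_self]; norm_num, fun d => ?_⟩
  by_contra hlt
  push Not at hlt
  have h1 := dist_sq (psi d ctr) ctr
  have h0 : 0 ≤ dist (psi d ctr) ctr := dist_nonneg
  have h2 : dist (psi d ctr) ctr ^ 2 = 2 := by
    rw [h1]
    obtain ⟨a, b⟩ := d
    cases a <;> cases b <;> simp [psi, dig, ctr] <;> norm_num
  nlinarith

theorem cc_X (u : List D) : Psi u (cc u) ∈ nodeX := by
  unfold cc
  rw [Psi_Phi]
  exact ctr_X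

/-! ### the contour means -/

theorem cm_le (u : List D) (F : ℂ → ℂ) {M : ℝ}
    (hM : ∀ z, dist (Psi u z) ctr = 77 / 100 → ‖F z‖ ≤ M) : ‖cm u F‖ ≤ rad u * M := by
  rw [cm_eq]
  exact circleIntegral.norm_two_pi_i_inv_smul_integral_le_of_norm_le_const (rad_pos u).le
    fun z hz => hM z (circ hz)

theorem cm_max (u : List D) {F : ℂ → ℂ} (hF : ContinuousOn F (sphere (cc u) (rad u))) :
    ∃ z, dist (Psi u z) ctr = 77 / 100 ∧ ‖cm u F‖ ≤ rad u * ‖F z‖ := by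
  obtain ⟨z, hz, hmax⟩ := (isCompact_sphere (cc u) (rad u)).exists_isMaxOn
    (NormedSpace.sphere_nonempty.2 (rad_pos u).le) hF.norm
  refine ⟨z, circ hz, ?_⟩
  rw [cm_eq]
  exact circleIntegral.norm_two_pi_i_inv_smul_integral_le_of_norm_le_const (rad_pos u).le
    fun w hw => hmax hw

theorem BB_cont {n : ℕ} {f : Fin n → ℂ → ℂ} {g : Option (List D) → Fin n → ℂ → ℂ} {B : ℝ}
    (hg : LS n f g B) {N : ℕ} {h : Fin n → Fin n → ℂ → ℂ}
    (hh : ∀ i j, DifferentiableOn ℂ (h i j) (OmR (73 / 100) N)) {u : List D}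
    (hu : u.length ≤ N) : ContinuousOn (BB g h u) (sphere (cc u) (rad u)) := by
  show ContinuousOn (fun z => ∑ i, ∑ j, g (some u) i z * g (par u) j z * h i j z) _
  refine continuousOn_finsetSum _ fun i _ => continuousOn_finsetSum _ fun j _ => ?_
  refine ((?_ : ContinuousOn (g (some u) i) _).mul (?_ : ContinuousOn (g (par u) j) _)).mul
    (?_ : ContinuousOn (h i j) _)
  · exact (hg.diff (some u) i).continuousOn.mono fun z hz => circ_NR (circ hz)
  · exact (hg.diff (par u) j).continuousOn.mono fun z hz => circ_par' (circ hz)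
  · exact (hh i j).continuousOn.mono fun z hz => circ_Om hu (circ hz)

theorem BB_le {n : ℕ} {f : Fin n → ℂ → ℂ} {g : Option (List D) → Fin n → ℂ → ℂ} {B : ℝ}
    (hg : LS n f g B) (hB : 0 ≤ B) (h : Fin n → Fin n → ℂ → ℂ) {u : List D} {z : ℂ}
    (hz : dist (Psi u z) ctr = 77 / 100) : ‖BB g h u z‖ ≤ B ^ 2 * ∑ i, ∑ j, ‖h i j z‖ := by
  unfold BB
  calc ‖∑ i, ∑ j, g (some u) i z * g (par u) j z * h i j z‖
      ≤ ∑ i, ∑ j, ‖g (some u) i z * g (par u) j z * h i j z‖ :=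
        (norm_sum_le _ _).trans (Finset.sum_le_sum fun i _ => norm_sum_le _ _)
    _ ≤ ∑ i, ∑ j, B ^ 2 * ‖h i j z‖ := by
        refine Finset.sum_le_sum fun i _ => Finset.sum_le_sum fun j _ => ?_
        rw [norm_mul, norm_mul, sq]
        refine mul_le_mul_of_nonneg_right ?_ (norm_nonneg _)
        exact mul_le_mul (hg.bd _ _ _ (circ_NR hz)) (hg.bd _ _ _ (circ_par' hz))
          (norm_nonneg _) hB
    _ = B ^ 2 * ∑ i, ∑ j, ‖h i j z‖ := by
        rw [Finset.mul_sum]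
        refine Finset.sum_congr rfl fun i _ => ?_
        rw [Finset.mul_sum]

/-- inner squares -/
theorem cm_in {n : ℕ} {f : Fin n → ℂ → ℂ} {g : Option (List D) → Fin n → ℂ → ℂ} {B : ℝ}
    (hg : LS n f g B) (hB : 0 ≤ B) {N : ℕ} {h : Fin n → Fin n → ℂ → ℂ} {a : List D → ℝ}
    {C₀ : ℝ} (hD : HD n N h a C₀) {u : List D} (hu : u.length < N) :
    ‖cm u (BB g h u)‖ ≤ (n : ℝ) ^ 2 * B ^ 2 * a u := by
  have h1 : ‖cm u (BB g h u)‖ ≤ rad u * (B ^ 2 * ((n : ℝ) ^ 2 * (3 ^ u.length * a u))) := by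
    refine cm_le u _ fun z hz => (BB_le hg hB h hz).trans ?_
    refine mul_le_mul_of_nonneg_left ?_ (by positivity)
    calc ∑ i, ∑ j, ‖h i j z‖ ≤ ∑ _i : Fin n, ∑ _j : Fin n, 3 ^ u.length * a u :=
          Finset.sum_le_sum fun i _ => Finset.sum_le_sum fun j _ => hD.up u hu i j z (circ_X hz)
      _ = (n : ℝ) ^ 2 * (3 ^ u.length * a u) := by
          simp only [Finset.sum_const, Finset.card_univ, Fintype.card_fin, nsmul_eq_mul]
          ring
  have h2 := rad_mul u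
  have h3 : rad u * (B ^ 2 * ((n : ℝ) ^ 2 * (3 ^ u.length * a u))) =
      77 / 100 * ((n : ℝ) ^ 2 * B ^ 2 * a u) := by
    rw [← h2]
    ring
  have h4 : 0 ≤ (n : ℝ) ^ 2 * B ^ 2 * a u := by
    have := hD.nn u
    positivity
  linarith

/-- the squares of the last level -/
theorem cm_last {n : ℕ} {f : Fin n → ℂ → ℂ} {g : Option (List D) → Fin n → ℂ → ℂ} {B : ℝ}
    (hg : LS n f g B) (hB : 0 ≤ B) {N : ℕ} {h : Fin n → Fin n → ℂ → ℂ} {a : List D → ℝ}
    {C₀ : ℝ} (hD : HD n N h a C₀) :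
    ∑ q ∈ lv N, ‖cm q (BB g h q)‖ ≤ (n : ℝ) ^ 2 * B ^ 2 * C₀ := by
  have hex : ∀ q : List D, ∃ z, q ∈ lv N → dist (Psi q z) ctr = 77 / 100 ∧
      ‖cm q (BB g h q)‖ ≤ rad q * ‖BB g h q z‖ := by
    intro q
    by_cases hq : q ∈ lv N
    · obtain ⟨z, hz⟩ := cm_max q (BB_cont hg hD.diff (mem_lv.1 hq).le)
      exact ⟨z, fun _ => hz⟩
    · exact ⟨0, fun h => absurd h hq⟩
  choose zz hzz using hex
  have h1 : ∀ q ∈ lv N, ‖cm q (BB g h q)‖ ≤
      B ^ 2 * ∑ i, ∑ j, (1 / 3) ^ N * ‖h i j (zz q)‖ := by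
    intro q hq
    obtain ⟨h2, h3⟩ := hzz q hq
    have h4 := BB_le hg hB h h2
    have h5 : rad q ≤ (1 / 3) ^ N := by
      unfold rad
      rw [mem_lv.1 hq]
      have : (0 : ℝ) < (1 / 3) ^ N := by positivity
      linarith
    calc ‖cm q (BB g h q)‖ ≤ rad q * ‖BB g h q (zz q)‖ := h3
      _ ≤ (1 / 3) ^ N * (B ^ 2 * ∑ i, ∑ j, ‖h i j (zz q)‖) :=
          mul_le_mul h5 h4 (norm_nonneg _) (by positivity)
      _ = B ^ 2 * ∑ i, ∑ j, (1 / 3) ^ N * ‖h i j (zz q)‖ := by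
          simp only [Finset.mul_sum]
          refine Finset.sum_congr rfl fun i _ => Finset.sum_congr rfl fun j _ => ?_
          ring
  calc ∑ q ∈ lv N, ‖cm q (BB g h q)‖
      ≤ ∑ q ∈ lv N, B ^ 2 * ∑ i, ∑ j, (1 / 3) ^ N * ‖h i j (zz q)‖ := Finset.sum_le_sum h1
    _ = B ^ 2 * ∑ i, ∑ j, ∑ q ∈ lv N, (1 / 3) ^ N * ‖h i j (zz q)‖ := by
        rw [← Finset.mul_sum, Finset.sum_comm]
        congr 1
        refine Finset.sum_congr rfl fun i _ => ?_
        rw [Finset.sum_comm]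
    _ ≤ B ^ 2 * ∑ _i : Fin n, ∑ _j : Fin n, C₀ := by
        refine mul_le_mul_of_nonneg_left ?_ (by positivity)
        exact Finset.sum_le_sum fun i _ => Finset.sum_le_sum fun j _ =>
          hD.bot zz (fun q hq => (hzz q hq).1) i j
    _ = (n : ℝ) ^ 2 * B ^ 2 * C₀ := by
        simp only [Finset.sum_const, Finset.card_univ, Fintype.card_fin, nsmul_eq_mul]
        ring

/-! ### sums over words -/

theorem sum_wd (M : ℕ) (F : List D → ℝ) :
    ∑ v ∈ wd M, F v = ∑ l ∈ Finset.range (M + 1), ∑ v ∈ lv l, F v := by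
  rw [← Finset.sum_fiberwise_of_maps_to (s := wd M) (t := Finset.range (M + 1))
    (g := List.length) (fun x hx => Finset.mem_range.2 (Nat.lt_succ_of_le (mem_wd.1 hx)))]
  refine Finset.sum_congr rfl fun l hl => ?_
  congr 1
  ext v
  rw [Finset.mem_filter, mem_wd, mem_lv]
  have := Finset.mem_range.1 hl
  constructor
  · exact fun h => h.2
  · intro h
    exact ⟨by omega, h⟩

theorem split_last {N : ℕ} (hN : 1 ≤ N) (F : List D → ℝ) :
    ∑ v ∈ wd N, F v = ∑ v ∈ wd (N - 1), F v + ∑ v ∈ lv N, F v := by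
  obtain ⟨M, rfl⟩ : ∃ M, N = M + 1 := ⟨N - 1, by omega⟩
  rw [sum_wd, sum_wd, Finset.sum_range_succ, Nat.add_sub_cancel]

theorem sum_all {n N : ℕ} {h : Fin n → Fin n → ℂ → ℂ} {a : List D → ℝ} {C₀ : ℝ} (hN : 1 ≤ N)
    (hD : HD n N h a C₀) : ∑ v ∈ wd (N - 1), a v ≤ N * C₀ := by
  obtain ⟨M, rfl⟩ : ∃ M, N = M + 1 := ⟨N - 1, by omega⟩
  rw [sum_wd, Nat.add_sub_cancel]
  calc ∑ l ∈ Finset.range (M + 1), ∑ v ∈ lv l, a v ≤ ∑ _l ∈ Finset.range (M + 1), C₀ :=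
        Finset.sum_le_sum fun l hl => hD.lev l (Finset.mem_range.1 hl)
    _ = ((M + 1 : ℕ) : ℝ) * C₀ := by rw [Finset.sum_const, Finset.card_range, nsmul_eq_mul]

theorem a_nil {n N : ℕ} {h : Fin n → Fin n → ℂ → ℂ} {a : List D → ℝ} {C₀ : ℝ} (hN : 1 ≤ N)
    (hD : HD n N h a C₀) : a [] ≤ C₀ := by
  have h1 := hD.lev 0 hN
  simpa [lv] using h1

/-! ### the frozen constants -/

theorem rule_dist {n : ℕ} {F : List D → Fin n → ℂ} {nc : List D → Prop} {tol : List D → ℝ}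
    {Cs : List D → Fin n → ℂ} (hR : Rule F nc tol Cs) {e : ℝ} (he : 0 ≤ e)
    (htol : ∀ u, tol u ≤ e) (u : List D) : dist (F u) (Cs u) ≤ e := by
  rcases List.eq_nil_or_concat u with rfl | ⟨p, d, h0⟩
  · rw [hR.1, dist_self]
    exact he
  · rw [List.concat_eq_append] at h0
    subst h0
    by_cases h1 : nc p
    · rw [(hR.2 p d).1 h1, dist_self]
      exact he
    · by_cases h2 : dist (F (p ++ [d])) (Cs p) ≤ tol (p ++ [d])
      · rw [(hR.2 p d).2.1 h1 h2]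
        exact h2.trans (htol _)
      · rw [(hR.2 p d).2.2 h1 (not_le.1 h2), dist_self]
        exact he

theorem rule_keep {n : ℕ} {F : List D → Fin n → ℂ} {nc : List D → Prop} {tol : List D → ℝ}
    {Cs : List D → Fin n → ℂ} (hR : Rule F nc tol Cs) {u : List D} (hu : u ≠ [])
    (h1 : ¬ nc u.dropLast) (h2 : ¬ Reset F nc tol Cs u) : Cs u = Cs u.dropLast := by
  rcases List.eq_nil_or_concat u with h0 | ⟨p, d, h0⟩
  · exact absurd h0 hu
  · rw [List.concat_eq_append] at h0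
    subst h0
    rw [List.dropLast_concat] at h1 ⊢
    refine (hR.2 p d).2.1 h1 ?_
    by_contra h3
    exact h2 ⟨hu, by rw [List.dropLast_concat]; exact h1,
      by rw [List.dropLast_concat]; exact not_le.1 h3⟩

theorem osc {n : ℕ} {f : Fin n → ℂ → ℂ} {ε : ℝ} {u : List D} (h : ¬ NC f ε u) (k : Fin n)
    {x y : ℂ} (hx : Psi u x ∈ nodeX) (hy : Psi u y ∈ nodeX) : ‖f k x - f k y‖ < ε := by
  by_contra h1
  exact h ⟨k, x, y, hx, hy, not_lt.1 h1⟩

/-- the drift -/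
theorem drift {n : ℕ} {f : Fin n → ℂ → ℂ} {ε : ℝ} (hε : 0 < ε) (p : List D) (d : D)
    (h1 : ¬ NC f ε p) (h2 : ¬ NC f ε (p ++ [d])) : dist (FF f (p ++ [d])) (FF f p) ≤ 2 * ε := by
  rw [dist_pi_le_iff (by linarith)]
  intro k
  unfold FF
  set z : ℂ := Phi (p ++ [d]) (ctr + ((77 / 100 : ℝ) : ℂ)) with hz
  have hz1 : dist (Psi (p ++ [d]) z) ctr = 77 / 100 := by
    rw [hz, Psi_Phi, dist_eq_norm, add_sub_cancel_left, Complex.norm_real]
    norm_num
  have h3 := osc h2 k (cc_X (p ++ [d])) (circ_X hz1)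
  have h4 := osc h1 k (nodeV_subset (circ_par hz1)) (cc_X p)
  calc dist (f k (cc (p ++ [d]))) (f k (cc p))
      ≤ dist (f k (cc (p ++ [d]))) (f k z) + dist (f k z) (f k (cc p)) := dist_triangle _ _ _
    _ ≤ 2 * ε := by
        rw [dist_eq_norm, dist_eq_norm]
        linarith

/-! ### growth -/

theorem growth (c γ : ℝ) (hc : 0 ≤ c) (hγ : 0 < γ) : ∃ G : ℝ, 0 < G ∧ ∀ N : ℕ, 1 ≤ N →
    (1 + Real.log N) ^ c ≤ G * (N : ℝ) ^ γ := by
  set s := γ / (c + 1) with hs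
  have hs0 : 0 < s := by positivity
  refine ⟨(1 + 1 / s) ^ c, by positivity, fun N hN => ?_⟩
  have hN1 : (1 : ℝ) ≤ N := by exact_mod_cast hN
  have hN0 : (0 : ℝ) ≤ N := by linarith
  have h1 : Real.log N ≤ (N : ℝ) ^ s / s := Real.log_le_rpow_div hN0 hs0
  have h2 : (1 : ℝ) ≤ (N : ℝ) ^ s := Real.one_le_rpow hN1 hs0.le
  have h3 : 1 + Real.log N ≤ (1 + 1 / s) * (N : ℝ) ^ s := by
    have : (1 + 1 / s) * (N : ℝ) ^ s = (N : ℝ) ^ s + (N : ℝ) ^ s / s := by ring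
    linarith
  have h4 : 0 ≤ Real.log N := Real.log_nonneg hN1
  calc (1 + Real.log N) ^ c ≤ ((1 + 1 / s) * (N : ℝ) ^ s) ^ c :=
        Real.rpow_le_rpow (by linarith) h3 hc
    _ = (1 + 1 / s) ^ c * ((N : ℝ) ^ s) ^ c := Real.mul_rpow (by positivity) (by positivity)
    _ = (1 + 1 / s) ^ c * (N : ℝ) ^ (s * c) := by rw [← Real.rpow_mul hN0]
    _ ≤ (1 + 1 / s) ^ c * (N : ℝ) ^ γ := by
        refine mul_le_mul_of_nonneg_left ?_ (by positivity)
        refine Real.rpow_le_rpow_of_exponent_le hN1 ?_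
        rw [hs, div_mul_eq_mul_div, div_le_iff₀ (by linarith)]
        nlinarith

theorem four_pow {N J : ℕ} (hN : 1 ≤ N) (hJ : Real.log N ≤ J) : (1 / 4 : ℝ) ^ J * N ≤ 1 := by
  have hN0 : (0 : ℝ) < N := by exact_mod_cast hN
  have h1 : (N : ℝ) ≤ 4 ^ J := by
    calc (N : ℝ) = Real.exp (Real.log N) := (Real.exp_log hN0).symm
      _ ≤ Real.exp J := Real.exp_le_exp.2 hJ
      _ = Real.exp 1 ^ J := by rw [← Real.exp_nat_mul, mul_one]
      _ ≤ 4 ^ J := by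
          refine pow_le_pow_left₀ (Real.exp_pos _).le ?_ _
          have := Real.exp_one_lt_d9
          linarith
  have h2 : (1 / 4 : ℝ) ^ J * 4 ^ J = 1 := by
    rw [← mul_pow]
    norm_num
  calc (1 / 4 : ℝ) ^ J * N ≤ (1 / 4 : ℝ) ^ J * 4 ^ J :=
        mul_le_mul_of_nonneg_left h1 (by positivity)
    _ = 1 := h2

theorem sum_insert_le {a : List D → ℝ} (ha : ∀ u, 0 ≤ a u) (s : Finset (List D)) :
    ∑ u ∈ insert [] s, a u ≤ a [] + ∑ u ∈ s, a u := by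
  by_cases h : ([] : List D) ∈ s
  · rw [Finset.insert_eq_of_mem h]
    linarith [ha []]
  · rw [Finset.sum_insert h]

open Classical in
/-- the pairing is bounded by sums of sizes -/
theorem TB_le {n N : ℕ} {f : Fin n → ℂ → ℂ} {g : Option (List D) → Fin n → ℂ → ℂ} {B : ℝ}
    (hg : LS n f g B) (hB : 0 ≤ B) {h : Fin n → Fin n → ℂ → ℂ} {a : List D → ℝ}
    {C₀ : ℝ} (hN : 1 ≤ N) (hD : HD n N h a C₀) {ε : ℝ} {tol : List D → ℝ}
    {Cs : List D → Fin n → ℂ} (hR : Rule (FF f) (NC f ε) tol Cs)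
    (hz : ∀ u : List D, u.length < N → u ≠ [] → ¬ NC f ε u → ¬ NC f ε u.dropLast →
      Cs u = Cs u.dropLast → cm u (BB g h u) = 0) :
    ‖TB N g h‖ ≤ (n : ℝ) ^ 2 * B ^ 2 * C₀ + (n : ℝ) ^ 2 * B ^ 2 * (a [] + SN N f a ε +
      ∑ u ∈ (wd (N - 1)).filter (fun u => NC f ε u.dropLast), a u +
      ∑ u ∈ (wd (N - 1)).filter (fun u => Reset (FF f) (NC f ε) tol Cs u ∧ ¬ NC f ε u ∧
        ¬ Strong a u), a u +
      ∑ u ∈ (wd (N - 1)).filter (fun u => Reset (FF f) (NC f ε) tol Cs u ∧ ¬ NC f ε u ∧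
        Strong a u), a u) := by
  have hK : 0 ≤ (n : ℝ) ^ 2 * B ^ 2 := by positivity
  have hpt : ∀ u ∈ wd (N - 1), ‖cm u (BB g h u)‖ ≤ (n : ℝ) ^ 2 * B ^ 2 *
      ((if u = [] then a u else 0) + (if NC f ε u then a u else 0) +
      (if NC f ε u.dropLast then a u else 0) +
      (if (Reset (FF f) (NC f ε) tol Cs u ∧ ¬ NC f ε u ∧ ¬ Strong a u) then a u else 0) +
      (if (Reset (FF f) (NC f ε) tol Cs u ∧ ¬ NC f ε u ∧ Strong a u) then a u else 0)) := by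
    intro u hu
    have hl : u.length < N := by
      have := mem_wd.1 hu
      omega
    have h0 := cm_in hg hB hD hl
    have hnn := hD.nn u
    have e1 : 0 ≤ (if u = [] then a u else 0) := by split_ifs <;> linarith
    have e2 : 0 ≤ (if NC f ε u then a u else 0) := by split_ifs <;> linarith
    have e3 : 0 ≤ (if NC f ε u.dropLast then a u else 0) := by split_ifs <;> linarith
    have e4 : 0 ≤ (if (Reset (FF f) (NC f ε) tol Cs u ∧ ¬ NC f ε u ∧ ¬ Strong a u)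
      then a u else 0) := by split_ifs <;> linarith
    have e5 : 0 ≤ (if (Reset (FF f) (NC f ε) tol Cs u ∧ ¬ NC f ε u ∧ Strong a u)
      then a u else 0) := by split_ifs <;> linarith
    by_cases c1 : u = []
    · refine h0.trans (mul_le_mul_of_nonneg_left ?_ hK)
      rw [if_pos c1] at e1 ⊢
      linarith
    by_cases c2 : NC f ε u
    · refine h0.trans (mul_le_mul_of_nonneg_left ?_ hK)
      rw [if_pos c2] at e2 ⊢
      linarith
    by_cases c3 : NC f ε u.dropLast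
    · refine h0.trans (mul_le_mul_of_nonneg_left ?_ hK)
      rw [if_pos c3] at e3 ⊢
      linarith
    by_cases c4 : Reset (FF f) (NC f ε) tol Cs u
    · refine h0.trans (mul_le_mul_of_nonneg_left ?_ hK)
      by_cases c5 : Strong a u
      · rw [if_pos (⟨c4, c2, c5⟩ : Reset (FF f) (NC f ε) tol Cs u ∧ ¬ NC f ε u ∧
          Strong a u)] at e5 ⊢
        linarith
      · rw [if_pos (⟨c4, c2, c5⟩ : Reset (FF f) (NC f ε) tol Cs u ∧ ¬ NC f ε u ∧
          ¬ Strong a u)] at e4 ⊢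
        linarith
    · rw [hz u hl c1 c2 c3 (rule_keep hR c1 c3 c4), norm_zero]
      positivity
  have hs1 : ∑ u ∈ wd (N - 1), (if u = [] then a u else 0) = a [] := by
    rw [Finset.sum_ite_eq', if_pos (mem_wd.2 (by simp))]
  have h1 := Finset.sum_le_sum hpt
  rw [← Finset.mul_sum, Finset.sum_add_distrib, Finset.sum_add_distrib, Finset.sum_add_distrib,
    Finset.sum_add_distrib, hs1, ← Finset.sum_filter, ← Finset.sum_filter, ← Finset.sum_filter,
    ← Finset.sum_filter] at h1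
  have h2 := cm_last hg hB hD
  unfold TB SN
  calc ‖∑ u ∈ wd N, cm u (BB g h u)‖ ≤ ∑ u ∈ wd N, ‖cm u (BB g h u)‖ := norm_sum_le _ _
    _ = ∑ u ∈ wd (N - 1), ‖cm u (BB g h u)‖ + ∑ u ∈ lv N, ‖cm u (BB g h u)‖ :=
        split_last hN _
    _ ≤ _ := by
        rw [add_comm]
        exact add_le_add h2 h1

end MAI_

open MAI_

open Classical in
theorem p_MAI (hNCS : T_NCS) (hNC3 : T_NC3) (hFRZ : T_FRZ) (hCST : T_CST) (hRES : T_RES)
    (hWEK : T_WEK) (hSRT : T_SRT) : T_MAI := by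
  intro n δ γ C₀ hδ hγ hC₀
  have he0 : 0 < δ ^ 2 / (4 * (n : ℝ) + 4) := by positivity
  set e : ℝ := δ ^ 2 / (4 * (n : ℝ) + 4) with he
  obtain ⟨Cs, ε₁, hCs, hε₁, hS⟩ := hSRT n C₀ e hC₀ he0
  obtain ⟨Cn, hCn, hNC⟩ := hNCS n C₀ (γ / 2) hC₀ (by linarith)
  obtain ⟨C3, hC3, h3⟩ := hNC3
  obtain ⟨B, hB, hF⟩ := hFRZ n δ hδ
  obtain ⟨J₀, hJ₀⟩ := exists_nat_ge (e / (16 * min ε₁ 1))
  obtain ⟨G1, hG1, hg1⟩ := growth Cn (γ / 2) (by linarith) (by linarith)
  obtain ⟨G2, hG2, hg2⟩ := growth (C3 * Cn) (γ / 2) (by positivity) (by linarith)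
  obtain ⟨G3, hG3, hg3⟩ := growth 1 γ (by norm_num) hγ
  set L : ℝ := 16 * (J₀ + 2) / e with hL
  have hL0 : 0 < L := by positivity
  set X : ℝ := Cn * (L ^ Cn * G1) with hX
  set Y : ℝ := Cn * (C3 ^ Cn * (L ^ (C3 * Cn) * G2)) with hY
  have hX0 : 0 ≤ X := by positivity
  have hY0 : 0 ≤ Y := by positivity
  refine ⟨B, (n : ℝ) ^ 2 * B ^ 2 * (5 * C₀ + X + Y + Cs * G3 + Cs * (3 * C₀ + Y)) + 1, hB,
    by positivity, ?_⟩
  intro N f h a hN hdat hD
  have hN1 : (1 : ℝ) ≤ N := by exact_mod_cast hN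
  have hN0 : (0 : ℝ) < N := by linarith
  have hlog : 0 ≤ Real.log N := Real.log_nonneg hN1
  set J : ℕ := ⌈Real.log N⌉₊ + J₀ with hJ
  have hJc : (J : ℝ) = (⌈Real.log N⌉₊ : ℝ) + J₀ := by rw [hJ]; push_cast; ring
  have hc1 : Real.log N ≤ (⌈Real.log N⌉₊ : ℝ) := Nat.le_ceil _
  have hc2 : (⌈Real.log N⌉₊ : ℝ) < Real.log N + 1 := Nat.ceil_lt_add_one hlog
  have hJ₀0 : (0 : ℝ) ≤ J₀ := Nat.cast_nonneg _
  set ε : ℝ := e / (16 * ((J : ℝ) + 1)) with hε
  have hε0 : 0 < ε := by positivity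
  have hm : 0 < min ε₁ 1 := lt_min hε₁ one_pos
  have hε2 : ε ≤ min ε₁ 1 := by
    rw [hε, div_le_iff₀ (by positivity)]
    have h1 := (div_le_iff₀ (by positivity)).1 hJ₀
    have h2 : (J₀ : ℝ) ≤ (J : ℝ) + 1 := by linarith
    calc e ≤ J₀ * (16 * min ε₁ 1) := h1
      _ ≤ ((J : ℝ) + 1) * (16 * min ε₁ 1) := mul_le_mul_of_nonneg_right h2 (by positivity)
      _ = min ε₁ 1 * (16 * ((J : ℝ) + 1)) := by ring
  have hεε₁ : ε ≤ ε₁ := hε2.trans (min_le_left _ _)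
  have hε1 : ε ≤ 1 := hε2.trans (min_le_right _ _)
  have hεe : ε ≤ e / 16 := by
    rw [hε]
    refine div_le_div_of_nonneg_left he0.le (by norm_num) ?_
    nlinarith [Nat.cast_nonneg (α := ℝ) J]
  have hinv : 1 / ε ≤ L * (1 + Real.log N) := by
    rw [hε, hL, one_div_div, div_mul_eq_mul_div, div_le_div_iff_of_pos_right he0]
    nlinarith
  set tol : List D → ℝ := fun u => if Strong a u then e / 4 else e / 2 with htoldef
  have htolS : ∀ u, Strong a u → tol u = e / 4 := fun u hu => if_pos hu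
  have htolN : ∀ u, ¬ Strong a u → tol u = e / 2 := fun u hu => if_neg hu
  have htol : ∀ u, tol u ≤ e / 2 := by
    intro u
    by_cases hu : Strong a u
    · rw [htolS u hu]
      linarith
    · rw [htolN u hu]
  obtain ⟨Cc, hR⟩ := (hCST n (FF f) (NC f ε) tol).1
  have hcal : ∀ u, ¬ NC f ε u → ∀ k z, Psi u z ∈ nodeX → ‖f k z - Cc u k‖ ≤ e := by
    intro u hu k z hz
    have h1 := osc hu k hz (cc_X u)
    have h2 : dist (FF f u k) (Cc u k) ≤ e / 2 :=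
      (dist_le_pi_dist _ _ k).trans (rule_dist hR (by positivity) htol u)
    unfold FF at h2
    rw [dist_eq_norm] at h2
    calc ‖f k z - Cc u k‖ ≤ ‖f k z - f k (cc u)‖ + ‖f k (cc u) - Cc u k‖ :=
          norm_sub_le_norm_sub_add_norm_sub _ _ _
      _ ≤ e := by linarith
  obtain ⟨g, hg, hg0⟩ := hF f Cc (fun u => ¬ NC f ε u) hdat hcal
  refine ⟨g, hg, ?_⟩
  have hTB := TB_le hg (by linarith) hN hD hR (fun u hu hne hc hp hk => by
    have h1 : ‖cm u (BB g h u)‖ ≤ Pool.Agent.CorE.SLF_.rad u * 0 := cm_le u _ fun z hz => by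
      have hpar : z ∈ NR (some u.dropLast) := by
        have := circ_par' hz
        unfold par at this
        rwa [if_neg hne] at this
      rw [hg0 h u z hne hc hp hk (Pool.Agent.CorE.SLF_.circ_NR hz) hpar
        (fun i j => hD.anti i j z (circ_Om hu.le hz)), norm_zero]
    rw [mul_zero] at h1
    exact norm_le_zero_iff.1 h1)
  have hweak : ∑ u ∈ (wd (N - 1)).filter (fun u => Reset (FF f) (NC f ε) tol Cc u ∧
      ¬ NC f ε u ∧ ¬ Strong a u), a u ≤ 2 * C₀ := by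
    calc ∑ u ∈ (wd (N - 1)).filter (fun u => Reset (FF f) (NC f ε) tol Cc u ∧
          ¬ NC f ε u ∧ ¬ Strong a u), a u
        ≤ ∑ u ∈ (wd (N - 1)).filter (fun u => ∀ i : ℕ, i < J → i ≤ u.length →
            ¬ Strong a (u.take (u.length - i))), a u := by
          refine Finset.sum_le_sum_of_subset_of_nonneg ?_ (fun u _ _ => hD.nn u)
          intro u hu
          rw [Finset.mem_filter] at hu ⊢
          refine ⟨hu.1, hRES n J (FF f) (NC f ε) a tol Cc e he0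
            (fun u => ⟨htolS u, htolN u⟩) hR (fun p d h1 h2 => ?_) u hu.2.1 hu.2.2.1 hu.2.2.2⟩
          refine (drift hε0 p d h1 h2).trans (le_of_eq ?_)
          rw [hε]
          field_simp
          ring
      _ ≤ 2 * (1 / 4) ^ J * ∑ u ∈ wd (N - 1), a u := hWEK (N - 1) J a hD.nn
      _ ≤ 2 * (1 / 4) ^ J * (N * C₀) :=
          mul_le_mul_of_nonneg_left (sum_all hN hD) (by positivity)
      _ = 2 * C₀ * ((1 / 4) ^ J * N) := by ring
      _ ≤ 2 * C₀ * 1 :=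
          mul_le_mul_of_nonneg_left (four_pow hN (by linarith)) (by positivity)
      _ = 2 * C₀ := mul_one _
  have hP : ∑ u ∈ (wd (N - 1)).filter (fun u => NC f ε u.dropLast), a u ≤
      C₀ + SN N f a (ε ^ C3 / C3) := by
    unfold SN
    calc ∑ u ∈ (wd (N - 1)).filter (fun u => NC f ε u.dropLast), a u
        ≤ ∑ u ∈ insert [] ((wd (N - 1)).filter (fun u => NC f (ε ^ C3 / C3) u)), a u := by
          refine Finset.sum_le_sum_of_subset_of_nonneg ?_ (fun u _ _ => hD.nn u)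
          intro u hu
          rw [Finset.mem_filter] at hu
          rcases List.eq_nil_or_concat u with h0 | ⟨p, d, h0⟩
          · rw [h0]
            exact Finset.mem_insert_self _ _
          · rw [List.concat_eq_append] at h0
            subst h0
            rw [List.dropLast_concat] at hu
            exact Finset.mem_insert_of_mem (Finset.mem_filter.2
              ⟨hu.1, (h3 n δ ε f p d hdat hε0 hε1).1 hu.2⟩)
      _ ≤ a [] + ∑ u ∈ (wd (N - 1)).filter (fun u => NC f (ε ^ C3 / C3) u), a u :=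
          sum_insert_le hD.nn _
      _ ≤ _ := by linarith [a_nil hN hD]
  have hNN : (N : ℝ) ^ (γ / 2) * (N : ℝ) ^ (γ / 2) = (N : ℝ) ^ γ := by
    rw [← Real.rpow_add hN0, add_halves]
  have hNp : 0 ≤ (N : ℝ) ^ (γ / 2) := by positivity
  have hi0 : 0 ≤ 1 / ε := by positivity
  have hl0 : 0 ≤ 1 + Real.log N := by linarith
  have hS1 : SN N f a ε ≤ X * (N : ℝ) ^ γ := by
    have h1 := hNC N δ ε f h a hN hdat hD hε0 hε1
    have h2 : (1 / ε) ^ Cn ≤ L ^ Cn * (G1 * (N : ℝ) ^ (γ / 2)) := by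
      calc (1 / ε) ^ Cn ≤ (L * (1 + Real.log N)) ^ Cn := Real.rpow_le_rpow hi0 hinv (by linarith)
        _ = L ^ Cn * (1 + Real.log N) ^ Cn := Real.mul_rpow hL0.le hl0
        _ ≤ L ^ Cn * (G1 * (N : ℝ) ^ (γ / 2)) :=
            mul_le_mul_of_nonneg_left (hg1 N hN) (by positivity)
    calc SN N f a ε ≤ Cn * (1 / ε) ^ Cn * (N : ℝ) ^ (γ / 2) := h1
      _ ≤ Cn * (L ^ Cn * (G1 * (N : ℝ) ^ (γ / 2))) * (N : ℝ) ^ (γ / 2) :=
          mul_le_mul_of_nonneg_right (mul_le_mul_of_nonneg_left h2 (by linarith)) hNp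
      _ = X * ((N : ℝ) ^ (γ / 2) * (N : ℝ) ^ (γ / 2)) := by rw [hX]; ring
      _ = X * (N : ℝ) ^ γ := by rw [hNN]
  have hε'0 : 0 < ε ^ C3 / C3 := by positivity
  have hε'1 : ε ^ C3 / C3 ≤ 1 := by
    rw [div_le_one (by linarith)]
    exact (Real.rpow_le_one hε0.le hε1 (by linarith)).trans hC3
  have hS2 : SN N f a (ε ^ C3 / C3) ≤ Y * (N : ℝ) ^ γ := by
    have h1 := hNC N δ (ε ^ C3 / C3) f h a hN hdat hD hε'0 hε'1
    have h2 : (1 / (ε ^ C3 / C3)) ^ Cn = C3 ^ Cn * (1 / ε) ^ (C3 * Cn) := by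
      rw [one_div_div, div_eq_mul_inv, ← Real.inv_rpow hε0.le, ← one_div,
        Real.mul_rpow (by linarith) (by positivity), ← Real.rpow_mul hi0]
    have h4 : (1 / ε) ^ (C3 * Cn) ≤ L ^ (C3 * Cn) * (G2 * (N : ℝ) ^ (γ / 2)) := by
      calc (1 / ε) ^ (C3 * Cn) ≤ (L * (1 + Real.log N)) ^ (C3 * Cn) :=
            Real.rpow_le_rpow hi0 hinv (by positivity)
        _ = L ^ (C3 * Cn) * (1 + Real.log N) ^ (C3 * Cn) := Real.mul_rpow hL0.le hl0
        _ ≤ L ^ (C3 * Cn) * (G2 * (N : ℝ) ^ (γ / 2)) :=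
            mul_le_mul_of_nonneg_left (hg2 N hN) (by positivity)
    rw [h2] at h1
    calc SN N f a (ε ^ C3 / C3)
        ≤ Cn * (C3 ^ Cn * (1 / ε) ^ (C3 * Cn)) * (N : ℝ) ^ (γ / 2) := h1
      _ ≤ Cn * (C3 ^ Cn * (L ^ (C3 * Cn) * (G2 * (N : ℝ) ^ (γ / 2)))) * (N : ℝ) ^ (γ / 2) := by
          refine mul_le_mul_of_nonneg_right (mul_le_mul_of_nonneg_left ?_ (by linarith)) hNp
          exact mul_le_mul_of_nonneg_left h4 (by positivity)
      _ = Y * ((N : ℝ) ^ (γ / 2) * (N : ℝ) ^ (γ / 2)) := by rw [hY]; ring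
      _ = Y * (N : ℝ) ^ γ := by rw [hNN]
  have hstr := hS N δ ε f h a tol Cc hN hdat hD hε0 hεε₁ htolS hR
  have hlogN : 1 + Real.log N ≤ G3 * (N : ℝ) ^ γ := by
    have := hg3 N hN
    rwa [Real.rpow_one] at this
  have hT1 : (1 : ℝ) ≤ (N : ℝ) ^ γ := Real.one_le_rpow hN1 hγ.le
  have ha := a_nil hN hD
  set T : ℝ := (N : ℝ) ^ γ with hT
  set S1 := SN N f a ε
  set S2 := SN N f a (ε ^ C3 / C3)
  set P := ∑ u ∈ (wd (N - 1)).filter (fun u => NC f ε u.dropLast), a u with hPdef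
  set W := ∑ u ∈ (wd (N - 1)).filter (fun u => Reset (FF f) (NC f ε) tol Cc u ∧ ¬ NC f ε u ∧
    ¬ Strong a u), a u with hWdef
  set St := ∑ u ∈ (wd (N - 1)).filter (fun u => Reset (FF f) (NC f ε) tol Cc u ∧ ¬ NC f ε u ∧
    Strong a u), a u with hStdef
  have hK : 0 ≤ (n : ℝ) ^ 2 * B ^ 2 := by positivity
  have hCs0 : 0 ≤ Cs := by linarith
  have hC0T : C₀ ≤ C₀ * T := le_mul_of_one_le_right hC₀.le hT1
  have hSt : St ≤ (Cs * G3 + Cs * (3 * C₀ + Y)) * T := by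
    have h1 : Cs * (1 + Real.log N) ≤ Cs * (G3 * T) := mul_le_mul_of_nonneg_left hlogN hCs0
    have h2 : Cs * (P + W) ≤ Cs * ((3 * C₀ + Y) * T) := by
      refine mul_le_mul_of_nonneg_left ?_ hCs0
      have : (3 * C₀ + Y) * T = 3 * (C₀ * T) + Y * T := by ring
      linarith
    have h4 : (Cs * G3 + Cs * (3 * C₀ + Y)) * T = Cs * (G3 * T) + Cs * ((3 * C₀ + Y) * T) := by
      ring
    linarith
  have hsum : C₀ + (a [] + S1 + P + W + St) ≤
      (5 * C₀ + X + Y + Cs * G3 + Cs * (3 * C₀ + Y)) * T := by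
    have : (5 * C₀ + X + Y + Cs * G3 + Cs * (3 * C₀ + Y)) * T = 5 * (C₀ * T) + X * T + Y * T +
      (Cs * G3 + Cs * (3 * C₀ + Y)) * T := by ring
    linarith
  calc ‖TB N g h‖ ≤ (n : ℝ) ^ 2 * B ^ 2 * C₀ +
        (n : ℝ) ^ 2 * B ^ 2 * (a [] + S1 + P + W + St) := hTB
    _ = (n : ℝ) ^ 2 * B ^ 2 * (C₀ + (a [] + S1 + P + W + St)) := by ring
    _ ≤ (n : ℝ) ^ 2 * B ^ 2 * ((5 * C₀ + X + Y + Cs * G3 + Cs * (3 * C₀ + Y)) * T) :=
        mul_le_mul_of_nonneg_left hsum hK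
    _ ≤ ((n : ℝ) ^ 2 * B ^ 2 * (5 * C₀ + X + Y + Cs * G3 + Cs * (3 * C₀ + Y)) + 1) * T := by
        have : ((n : ℝ) ^ 2 * B ^ 2 * (5 * C₀ + X + Y + Cs * G3 + Cs * (3 * C₀ + Y)) + 1) * T =
          (n : ℝ) ^ 2 * B ^ 2 * ((5 * C₀ + X + Y + Cs * G3 + Cs * (3 * C₀ + Y)) * T) + T := by
          ring
        linarith

end Pool.Agent.CorA
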