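import Pool.Agent.CorA.Targets

/-!
# ALB, block MAS: the vector measure
-/

set_option autoImplicit false

namespace Pool.Agent.CorA

open Complex Metric Set Filter Topology MeasureTheory
open Pool.Corona91698f Pool.Agent.CorE
open scoped Real BoundedContinuousFunction

namespace MAS_

theorem dist_cc (v : List D) (z : ℂ) : dist (Psi v z) ctr = 3 ^ v.length * dist z (cc v) := by
  have h := dist_Psi v z (cc v)
  unfold cc at h ⊢
  rwa [Psi_Phi] at h

/-- points of the circle of `v` are in its node -/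
theorem circ_X {v : List D} {z : ℂ} (hz : z ∈ sphere (cc v) (77 / 100 * (1 / 3) ^ v.length)) :
    Psi v z ∈ nodeX := by
  have h1 : dist (Psi v z) ctr = 77 / 100 := by
    rw [dist_cc, mem_sphere.1 hz]
    have : (3 : ℝ) ^ v.length * (77 / 100 * (1 / 3) ^ v.length) =
        77 / 100 * (3 * (1 / 3)) ^ v.length := by
      rw [mul_pow]; ring
    rw [this]
    norm_num
  refine ⟨by linarith, fun d => ?_⟩
  have h2 := dist_psi_ge d (Psi v z)
  linarith

theorem X_notMem {v : List D} {z : ℂ} (hz : Psi v z ∈ nodeX) : z ∉ squareCantor := by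
  have h2 := Phi_notMem (v := v) (nodeX_subset hz)
  rwa [Phi_Psi] at h2

/-- the node of a short word avoids the discs of level `N` -/
theorem Nd_sub {N : ℕ} {p : List D} (hp : p.length < N) : Nd (some p) ⊆ OmR (73 / 100) N := by
  intro z hz q hq
  have h1 : ¬ anc (some p) q := by
    intro h
    have h2 : q <+: p := h
    have h3 := h2.length_le
    rw [mem_lv.1 hq] at h3
    omega
  have h4 := Nd_not_anc hz h1
  linarith

/-- the factor in a component -/
noncomputable def fac {n : ℕ} (f : Fin n → ℂ → ℂ) (o : Option (Fin n)) (z : ℂ) : ℂ :=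
  match o with
  | none => 1
  | some k => f k z

theorem mm_apply {n : ℕ} (f : Fin n → ℂ → ℂ) (h : Fin n → Fin n → ℂ → ℂ) (u : List D)
    (x : Fin n × Fin n × Option (Fin n)) :
    mm f h u x = cm u (fun z => fac f x.2.2 z * h x.1 x.2.1 z) := rfl

theorem fac_le {n : ℕ} {δ : ℝ} {f : Fin n → ℂ → ℂ} (hf : Dat n δ f) (o : Option (Fin n)) {z : ℂ}
    (hz : z ∉ squareCantor) : ‖fac f o z‖ ≤ 1 := by
  cases o with
  | none => simp [fac]
  | some k => exact hf.le k z hz

theorem fac_diff {n : ℕ} {δ : ℝ} {f : Fin n → ℂ → ℂ} (hf : Dat n δ f) (o : Option (Fin n)) :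
    DifferentiableOn ℂ (fac f o) squareCantorᶜ := by
  cases o with
  | none =>
    have : fac f none = fun _ => (1 : ℂ) := rfl
    rw [this]
    exact differentiableOn_const _
  | some k => exact hf.diff k

theorem cm_le {v : List D} {F : ℂ → ℂ} {c : ℝ}
    (hF : ∀ z ∈ sphere (cc v) (77 / 100 * (1 / 3) ^ v.length), ‖F z‖ ≤ 3 ^ v.length * c)
    (hc : 0 ≤ c) : ‖cm v F‖ ≤ c := by
  unfold cm
  have h1 := circleIntegral.norm_two_pi_i_inv_smul_integral_le_of_norm_le_const
    (c := cc v) (R := 77 / 100 * (1 / 3) ^ v.length) (f := F) (C := 3 ^ v.length * c)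
    (by positivity) hF
  rw [smul_eq_mul] at h1
  refine h1.trans ?_
  have : (77 / 100 * (1 / 3) ^ v.length : ℝ) * (3 ^ v.length * c) =
      77 / 100 * (3 * (1 / 3)) ^ v.length * c := by
    rw [mul_pow]; ring
  rw [this]
  norm_num
  linarith

theorem sum_lv_succ' {E : Type*} [AddCommMonoid E] (n : ℕ) (F : List D → E) :
    ∑ v ∈ lv (n + 1), F v = ∑ d : D, ∑ v ∈ lv n, F (d :: v) := by
  simp only [lv]
  rw [Finset.sum_image (by
    rintro ⟨d, v⟩ _ ⟨d', v'⟩ _ h
    have h3 := (List.cons.inj h)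
    rw [Prod.mk.injEq]
    exact h3), Finset.sum_product]

end MAS_

open MAS_ in
theorem p_MAS (hADD : T_ADD) : T_MAS := by
  intro n
  set K : ℝ := (Fintype.card (Fin n × Fin n × Option (Fin n)) : ℝ) with hK
  have hK0 : 0 ≤ K := Nat.cast_nonneg _
  refine ⟨K + 1, by linarith, ?_⟩
  intro N δ C₀ f h a hf hh
  have step : ∀ p : List D, p.length + 1 < N → mm f h p = ∑ d : D, mm f h (p ++ [d]) := by
    intro p hp
    ext x
    have e1 : (∑ d : D, mm f h (p ++ [d])) x = ∑ d : D, mm f h (p ++ [d]) x := by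
      simp
    rw [e1, mm_apply]
    simp only [mm_apply]
    refine hADD p _ ?_
    refine ((fac_diff hf _).mono fun z hz => Nd_notMem hz).mul ?_
    exact (hh.diff _ _).mono (Nd_sub (by omega))
  refine ⟨fun u hu => ?_, step, ?_⟩
  · have hcomp : ∀ x, ‖mm f h u x‖ ≤ a u := by
      intro x
      rw [mm_apply]
      refine cm_le (fun z hz => ?_) (hh.nn u)
      have hX := circ_X hz
      rw [norm_mul]
      have h1 := fac_le hf x.2.2 (X_notMem hX)
      have h2 := hh.up u hu x.1 x.2.1 z hX
      calc ‖fac f x.2.2 z‖ * ‖h x.1 x.2.1 z‖ ≤ 1 * ‖h x.1 x.2.1 z‖ :=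
            mul_le_mul_of_nonneg_right h1 (norm_nonneg _)
        _ = ‖h x.1 x.2.1 z‖ := one_mul _
        _ ≤ _ := h2
    rw [EuclideanSpace.norm_eq]
    refine Real.sqrt_le_iff.2 ⟨mul_nonneg (by linarith) (hh.nn u), ?_⟩
    calc ∑ x, ‖mm f h u x‖ ^ 2 ≤ ∑ _x : Fin n × Fin n × Option (Fin n), (a u) ^ 2 :=
          Finset.sum_le_sum fun x _ => pow_le_pow_left₀ (norm_nonneg _) (hcomp x) 2
      _ = K * (a u) ^ 2 := by
          rw [Finset.sum_const, nsmul_eq_mul, hK]
          rfl
      _ ≤ ((K + 1) * a u) ^ 2 := by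
          rw [mul_pow]
          refine mul_le_mul_of_nonneg_right ?_ (sq_nonneg _)
          nlinarith
  · intro u k
    induction k generalizing u with
    | zero =>
      intro _
      simp [lv]
    | succ k ih =>
      intro huk
      rw [step u (by omega), sum_lv_succ']
      refine Finset.sum_congr rfl fun d _ => ?_
      rw [ih (u ++ [d]) (by simp only [List.length_append, List.length_singleton]; omega)]
      refine Finset.sum_congr rfl fun y _ => ?_
      rw [List.append_assoc]
      rfl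

end Pool.Agent.CorA
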