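import Pool.Agent.CorA.Targets

/-!
# The variation is distributed over a tree of words
-/

set_option autoImplicit false

namespace Pool.Agent.CorA

open Complex Metric Set Filter Topology MeasureTheory
open Pool.Corona91698f Pool.Agent.CorE
open scoped Real BoundedContinuousFunction

namespace VAR_

variable {E : Type} [NormedAddCommGroup E]

open Classical in
/-- The words of length `M` above `x`. -/
noncomputable def Ab (M : ℕ) (x : List D) : Finset (List D) := (lv M).filter fun v => x <+: v

theorem mem_Ab {M : ℕ} {x v : List D} : v ∈ Ab M x ↔ v.length = M ∧ x <+: v := by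
  classical
  unfold Ab
  rw [Finset.mem_filter, mem_lv]

theorem comparable {x y v : List D} (hx : x <+: v) (hy : y <+: v) (h : x.length ≤ y.length) :
    x <+: y := List.prefix_of_prefix_length_le hx hy h

theorem eq_of_le {x y : List D} (h : x <+: y) (hl : y.length ≤ x.length) : x = y :=
  List.IsPrefix.eq_of_length_le h hl

theorem sum_Ab {N : ℕ} (m : List D → E)
    (hm : ∀ p : List D, p.length + 1 < N → m p = ∑ d : D, m (p ++ [d])) :
    ∀ (k : ℕ) (x : List D), x.length + k = N - 1 → m x = ∑ v ∈ Ab (N - 1) x, m v := by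
  classical
  intro k
  induction k with
  | zero =>
    intro x hx
    have e : Ab (N - 1) x = {x} := by
      ext v
      rw [mem_Ab, Finset.mem_singleton]
      constructor
      · rintro ⟨h1, h2⟩
        exact (eq_of_le h2 (by omega)).symm
      · rintro rfl
        exact ⟨by omega, List.prefix_refl _⟩
    rw [e, Finset.sum_singleton]
  | succ k ih =>
    intro x hx
    rw [hm x (by omega)]
    have h1 : ∀ d ∈ (Finset.univ : Finset D), m (x ++ [d]) =
        ∑ v ∈ Ab (N - 1) (x ++ [d]), m v := by
      intro d _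
      exact ih _ (by rw [List.length_append, List.length_singleton]; omega)
    rw [Finset.sum_congr rfl h1]
    have hdis : Set.PairwiseDisjoint (↑(Finset.univ : Finset D))
        (fun d => Ab (N - 1) (x ++ [d])) := by
      intro d _ d' _ hdd
      rw [Function.onFun, Finset.disjoint_left]
      intro v hv hv'
      have a1 := (mem_Ab.1 hv).2
      have a2 := (mem_Ab.1 hv').2
      have a3 := comparable a1 a2 (by simp)
      have a4 := eq_of_le a3 (by simp)
      have a5 := List.append_cancel_left a4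
      exact hdd (by simpa using a5)
    rw [← Finset.sum_biUnion hdis]
    refine Finset.sum_congr ?_ fun _ _ => rfl
    ext v
    rw [Finset.mem_biUnion]
    constructor
    · rintro ⟨d, -, hd⟩
      rw [mem_Ab] at hd ⊢
      exact ⟨hd.1, (List.prefix_append _ _).trans hd.2⟩
    · intro hv
      rw [mem_Ab] at hv
      obtain ⟨h1, w, rfl⟩ := hv
      cases w with
      | nil =>
        exfalso
        rw [List.append_nil] at h1
        omega
      | cons d w =>
        refine ⟨d, Finset.mem_univ _, mem_Ab.2 ⟨h1, w, ?_⟩⟩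
        simp

open Classical in
/-- The words of length `M` whose longest initial word in `R` is `x`. -/
noncomputable def Sx (M : ℕ) (R : List D → Prop) (x : List D) : Finset (List D) :=
  (lv M).filter fun v => x <+: v ∧ ∀ t, x <+: t → t <+: v → R t → t = x

theorem mem_Sx {M : ℕ} {R : List D → Prop} {x v : List D} :
    v ∈ Sx M R x ↔ v.length = M ∧ x <+: v ∧ ∀ t, x <+: t → t <+: v → R t → t = x := by
  classical
  unfold Sx
  rw [Finset.mem_filter, mem_lv]

theorem mem_nxt {N : ℕ} {R : List D → Prop} {x u : List D} :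
    u ∈ nxt N R x ↔ u.length ≤ N - 1 ∧ x <+: u ∧ u ≠ x ∧ R u ∧
      ∀ t, x <+: t → t <+: u → R t → t = x ∨ t = u := by
  classical
  unfold nxt
  rw [Finset.mem_filter, mem_wd]

theorem split {N : ℕ} (m : List D → E) (R : List D → Prop) {x : List D}
    (hm : ∀ p : List D, p.length + 1 < N → m p = ∑ d : D, m (p ++ [d]))
    (hx : x.length ≤ N - 1) :
    m x = ∑ v ∈ Sx (N - 1) R x, m v + ∑ u ∈ nxt N R x, m u := by
  classical
  have h1 : ∀ u ∈ nxt N R x, m u = ∑ v ∈ Ab (N - 1) u, m v := by
    intro u hu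
    rw [mem_nxt] at hu
    exact sum_Ab m hm (N - 1 - u.length) u (by omega)
  have hdis : Set.PairwiseDisjoint (↑(nxt N R x)) (fun u => Ab (N - 1) u) := by
    intro u hu u' hu' huu
    rw [Finset.mem_coe, mem_nxt] at hu hu'
    rw [Function.onFun, Finset.disjoint_left]
    intro v hv hv'
    have a1 := (mem_Ab.1 hv).2
    have a2 := (mem_Ab.1 hv').2
    rcases le_total u.length u'.length with h | h
    · have a3 := comparable a1 a2 h
      rcases hu'.2.2.2.2 u hu.2.1 a3 hu.2.2.2.1 with h' | h'
      · exact hu.2.2.1 h'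
      · exact huu h'
    · have a3 := comparable a2 a1 h
      rcases hu.2.2.2.2 u' hu'.2.1 a3 hu'.2.2.2.1 with h' | h'
      · exact hu'.2.2.1 h'
      · exact huu h'.symm
  rw [Finset.sum_congr rfl h1, ← Finset.sum_biUnion hdis,
    sum_Ab m hm (N - 1 - x.length) x (by omega), ← Finset.sum_union]
  · refine Finset.sum_congr ?_ fun _ _ => rfl
    ext v
    rw [Finset.mem_union, Finset.mem_biUnion, mem_Ab, mem_Sx]
    constructor
    · rintro ⟨v1, v2⟩
      by_cases h : ∀ t, x <+: t → t <+: v → R t → t = x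
      · exact Or.inl ⟨v1, v2, h⟩
      · right
        have hex : ∃ k : ℕ, ∃ t : List D, t.length = k ∧ x <+: t ∧ t <+: v ∧ R t ∧ t ≠ x := by
          by_contra hc
          refine h fun t t1 t2 t3 => ?_
          by_contra t4
          exact hc ⟨t.length, t, rfl, t1, t2, t3, t4⟩
        obtain ⟨t, t0, t1, t2, t3, t4⟩ := Nat.find_spec hex
        have hmin := fun k (hk : k < Nat.find hex) => Nat.find_min hex hk
        refine ⟨t, mem_nxt.2 ⟨?_, t1, t4, t3, ?_⟩, mem_Ab.2 ⟨v1, t2⟩⟩
        · have := t2.length_le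
          omega
        · intro s s1 s2 s3
          by_cases hs : s = x
          · exact Or.inl hs
          · right
            refine eq_of_le s2 ?_
            by_contra hlt
            exact hmin s.length (by omega) ⟨s, rfl, s1, s2.trans t2, s3, hs⟩
    · rintro (⟨v1, v2, -⟩ | ⟨u, hu, hv⟩)
      · exact ⟨v1, v2⟩
      · rw [mem_nxt] at hu
        rw [mem_Ab] at hv
        exact ⟨hv.1, hu.2.1.trans hv.2⟩
  · rw [Finset.disjoint_left]
    intro v hv hv'
    rw [mem_Sx] at hv
    rw [Finset.mem_biUnion] at hv'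
    obtain ⟨u, hu, hv'⟩ := hv'
    rw [mem_nxt] at hu
    rw [mem_Ab] at hv'
    exact hu.2.2.1 (hv.2.2 u hu.2.1 hv'.2 hu.2.2.2.1)

theorem disj_Sx (M : ℕ) (R : List D → Prop) {x x' v : List D} (hx : R x) (hx' : R x')
    (h : v ∈ Sx M R x) (h' : v ∈ Sx M R x') : x = x' := by
  rw [mem_Sx] at h h'
  rcases le_total x.length x'.length with hl | hl
  · have a := comparable h.2.1 h'.2.1 hl
    exact (h.2.2 x' a h'.2.1 hx').symm
  · have a := comparable h'.2.1 h.2.1 hl
    exact h'.2.2 x a h.2.1 hx

theorem disj_nxt (N : ℕ) (R : List D → Prop) {x x' u : List D} (hx : R x) (hx' : R x')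
    (h : u ∈ nxt N R x) (h' : u ∈ nxt N R x') : x = x' := by
  rw [mem_nxt] at h h'
  rcases le_total x.length x'.length with hl | hl
  · have a := comparable h.2.1 h'.2.1 hl
    rcases h.2.2.2.2 x' a h'.2.1 hx' with h1 | h1
    · exact h1.symm
    · exact absurd h1.symm h'.2.2.1
  · have a := comparable h'.2.1 h.2.1 hl
    rcases h'.2.2.2.2 x a h.2.1 hx with h1 | h1
    · exact h1
    · exact absurd h1.symm h.2.2.1

end VAR_

open VAR_

open Classical in
theorem p_VAR : T_VAR := by
  intro E _ N m R hN hR0 hm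
  have hmem : ∀ x ∈ (wd (N - 1)).filter R, x.length ≤ N - 1 ∧ R x := by
    intro x hx
    rw [Finset.mem_filter, mem_wd] at hx
    exact hx
  have hr : ∀ x ∈ (wd (N - 1)).filter R, ‖m x - ∑ u ∈ nxt N R x, m u‖ ≤
      ∑ v ∈ Sx (N - 1) R x, ‖m v‖ := by
    intro x hx
    have e : m x - ∑ u ∈ nxt N R x, m u = ∑ v ∈ Sx (N - 1) R x, m v := by
      rw [split m R hm (hmem x hx).1, add_sub_cancel_right]
    rw [e]
    exact norm_sum_le _ _
  have h1 : ∑ x ∈ (wd (N - 1)).filter R, ∑ u ∈ nxt N R x, ‖m u‖ ≤
      ∑ x ∈ (wd (N - 1)).filter R, ‖m x‖ := by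
    rw [← Finset.sum_biUnion]
    · refine Finset.sum_le_sum_of_subset_of_nonneg ?_ fun _ _ _ => norm_nonneg _
      intro u hu
      rw [Finset.mem_biUnion] at hu
      obtain ⟨x, -, hu⟩ := hu
      rw [mem_nxt] at hu
      rw [Finset.mem_filter, mem_wd]
      exact ⟨hu.1, hu.2.2.2.1⟩
    · intro x hx x' hx' hxx
      rw [Function.onFun, Finset.disjoint_left]
      intro u hu hu'
      exact hxx (disj_nxt N R (hmem x hx).2 (hmem x' hx').2 hu hu')
  have h2 : ∑ x ∈ (wd (N - 1)).filter R, ∑ v ∈ Sx (N - 1) R x, ‖m v‖ ≤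
      ∑ v ∈ lv (N - 1), ‖m v‖ := by
    rw [← Finset.sum_biUnion]
    · refine Finset.sum_le_sum_of_subset_of_nonneg ?_ fun _ _ _ => norm_nonneg _
      intro v hv
      rw [Finset.mem_biUnion] at hv
      obtain ⟨x, -, hv⟩ := hv
      rw [mem_Sx] at hv
      exact mem_lv.2 hv.1
    · intro x hx x' hx' hxx
      rw [Function.onFun, Finset.disjoint_left]
      intro u hu hu'
      exact hxx (disj_Sx _ R (hmem x hx).2 (hmem x' hx').2 hu hu')
  have h3 := Finset.sum_le_sum hr
  rw [Finset.sum_sub_distrib, Finset.sum_add_distrib]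
  linarith

end Pool.Agent.CorA
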