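import Pool.Agent.CorA.Targets

/-!
# NC3: oscillation passes to the neighbours
-/

set_option autoImplicit false

namespace Pool.Agent.CorA

open Complex Metric Set Filter Topology MeasureTheory
open Pool.Corona91698f Pool.Agent.CorE
open scoped Real BoundedContinuousFunction

namespace NC3_

theorem mono {ε C C' : ℝ} (hε : 0 < ε) (hε1 : ε ≤ 1) (hC : 1 ≤ C) (h : C ≤ C') :
    ε ^ C' / C' ≤ ε ^ C / C := by
  have h1 : ε ^ C' ≤ ε ^ C := Real.rpow_le_rpow_of_exponent_ge hε hε1 h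
  have h2 : 0 ≤ ε ^ C := by positivity
  exact div_le_div₀ h2 h1 (by linarith) h

theorem nc_mono {n : ℕ} {f : Fin n → ℂ → ℂ} {ε ε' : ℝ} {u : List D} (h : NC f ε u)
    (hε : ε' ≤ ε) : NC f ε' u := by
  obtain ⟨k, x, y, hx, hy, h1⟩ := h
  exact ⟨k, x, y, hx, hy, hε.trans h1⟩

theorem le_four (E : ℝ) (hE : 0 ≤ E) : E ≤ (4 : ℝ) ^ E := by
  rw [Real.rpow_def_of_pos (by norm_num)]
  have h1 := Real.add_one_le_exp (Real.log 4 * E)
  have h2 : (1 : ℝ) ≤ Real.log 4 := by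
    have h3 : Real.log 4 = 2 * Real.log 2 := by
      rw [show (4 : ℝ) = 2 ^ 2 by norm_num, Real.log_pow]
      norm_num
    have := Real.log_two_gt_d9
    linarith
  nlinarith

theorem core (hLAV : T_LAV) (hPRD : T_PRD) (b : ℂ) (s : ℝ) (hs : 0 < s)
    (hb : closedBall b (4 * s) ⊆ VV) : ∃ C : ℝ, 1 ≤ C ∧ ∀ (F : ℂ → ℂ) (ε : ℝ) (y : ℂ),
    DifferentiableOn ℂ F VV → (∀ z ∈ VV, ‖F z‖ ≤ 2) → 0 < ε → ε ≤ 1 → y ∈ nodeX →
    ε / 2 ≤ ‖F y‖ → ∃ w, dist w b = s ∧ ε ^ C / C ≤ ‖F w‖ := by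
  obtain ⟨C, hC, h⟩ := hLAV b s hs hb
  obtain ⟨θ, hθ⟩ : ∃ θ, θ = min (s / C) 1 := ⟨_, rfl⟩
  have hC0 : 0 < C := by linarith
  have hθ0 : 0 < θ := by
    rw [hθ]
    exact lt_min (by positivity) one_pos
  have hθ1 : θ ≤ 1 := by
    rw [hθ]
    exact min_le_right _ _
  have hθs : θ ≤ s / C := by
    rw [hθ]
    exact min_le_left _ _
  have hlog : Real.log θ ≤ 0 := Real.log_nonpos hθ0.le hθ1
  obtain ⟨E, hE⟩ : ∃ E, E = C + C * -Real.log θ := ⟨_, rfl⟩
  have hE1 : 1 ≤ E := by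
    rw [hE]
    have : 0 ≤ C * -Real.log θ := mul_nonneg hC0.le (by linarith)
    linarith
  have hEC : E ≤ (4 : ℝ) ^ E := le_four E (by linarith)
  refine ⟨(4 : ℝ) ^ E, hE1.trans hEC, ?_⟩
  intro F ε y hF hM hε hε1 hy hyF
  obtain ⟨m, a, hm, ha⟩ := h F 2 (ε / 2) y hF hM (by positivity) hy hyF
  obtain ⟨w, hw, hp⟩ := hPRD m a b s hs
  refine ⟨w, hw, ?_⟩
  have h1 := ha w (mem_closedBall.2 hw.le)
  have h2 : θ ^ m ≤ ∏ i, (dist w (a i) / C) := by
    have h3 : s ^ m ≤ ∏ i, max (dist b (a i)) s := by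
      calc s ^ m = ∏ _i : Fin m, s := by simp
        _ ≤ ∏ i, max (dist b (a i)) s :=
          Finset.prod_le_prod (fun _ _ => hs.le) fun i _ => le_max_right _ _
    calc θ ^ m ≤ (s / C) ^ m := by gcongr
      _ = s ^ m / C ^ m := by rw [div_pow]
      _ ≤ (∏ i, dist w (a i)) / C ^ m := by
          gcongr
          exact h3.trans hp
      _ = ∏ i, (dist w (a i) / C) := by
          rw [Finset.prod_div_distrib]
          simp
  have hq : 0 < ε / 4 := by positivity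
  have e1 : Real.log (2 / (ε / 2)) = - Real.log (ε / 4) := by
    rw [← Real.log_inv]
    congr 1
    field_simp
    norm_num
  have h4 : (ε / 4) ^ (C * -Real.log θ) ≤ θ ^ m := by
    rw [Real.rpow_def_of_pos hq, ← Real.rpow_natCast θ m, Real.rpow_def_of_pos hθ0]
    refine Real.exp_le_exp.2 ?_
    rw [e1] at hm
    nlinarith
  have h5 : 2 * (ε / 4) ^ E ≤ ‖F w‖ := by
    have e2 : ε / 2 / 2 = ε / 4 := by ring
    rw [e2] at h1
    calc 2 * (ε / 4) ^ E = 2 * (ε / 4) ^ C * (ε / 4) ^ (C * -Real.log θ) := by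
          rw [hE, Real.rpow_add hq]
          ring
      _ ≤ 2 * (ε / 4) ^ C * ∏ i, (dist w (a i) / C) := by
          gcongr
          exact h4.trans h2
      _ ≤ ‖F w‖ := h1
  refine le_trans ?_ h5
  have h6 : ε ^ ((4 : ℝ) ^ E) ≤ ε ^ E := Real.rpow_le_rpow_of_exponent_ge hε hε1 hEC
  have h7 : 0 < (4 : ℝ) ^ E := by positivity
  rw [Real.div_rpow hε.le (by norm_num)]
  have h8 : 0 ≤ ε ^ E / (4 : ℝ) ^ E := by positivity
  calc ε ^ ((4 : ℝ) ^ E) / (4 : ℝ) ^ E ≤ ε ^ E / (4 : ℝ) ^ E := by gcongr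
    _ ≤ 2 * (ε ^ E / (4 : ℝ) ^ E) := by linarith

theorem VV_notMem {z : ℂ} (hz : z ∈ VV) : z ∉ squareCantor := by
  intro h
  obtain ⟨d, hd⟩ := exists_psi_mem h
  have h1 := squareCantor_dist' hd
  have h2 := hz.2 d
  linarith

theorem Phi_VV {u : List D} {z : ℂ} (hz : z ∈ VV) : Phi u z ∈ squareCantorᶜ := by
  intro h
  refine VV_notMem hz (mem_of_Phi_mem ?_ h)
  have := hz.1
  linarith

theorem osc {n : ℕ} {δ ε C : ℝ} {f : Fin n → ℂ → ℂ} {b : ℂ} {s : ℝ} (hbV : b ∈ VV)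
    (hcore : ∀ (F : ℂ → ℂ) (ε : ℝ) (y : ℂ),
      DifferentiableOn ℂ F VV → (∀ z ∈ VV, ‖F z‖ ≤ 2) → 0 < ε → ε ≤ 1 → y ∈ nodeX →
      ε / 2 ≤ ‖F y‖ → ∃ w, dist w b = s ∧ ε ^ C / C ≤ ‖F w‖)
    (hf : Dat n δ f) (hε : 0 < ε) (hε1 : ε ≤ 1) {u : List D} (h : NC f ε u) :
    ∃ k w, dist w b = s ∧ ε ^ C / C ≤ ‖f k (Phi u w) - f k (Phi u b)‖ := by
  obtain ⟨k, x, y, hx, hy, hxy⟩ := h
  have hF : DifferentiableOn ℂ (fun z => f k (Phi u z) - f k (Phi u b)) VV := by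
    refine DifferentiableOn.sub ?_ (differentiableOn_const _)
    exact (hf.diff k).comp (differentiable_Phi u).differentiableOn fun z hz => Phi_VV hz
  have hM : ∀ z ∈ VV, ‖f k (Phi u z) - f k (Phi u b)‖ ≤ 2 := by
    intro z hz
    have h1 := hf.le k _ (Phi_VV (u := u) hz)
    have h2 := hf.le k _ (Phi_VV (u := u) hbV)
    have h3 := norm_sub_le (f k (Phi u z)) (f k (Phi u b))
    linarith
  have h4 : ε / 2 ≤ ‖f k x - f k (Phi u b)‖ ∨ ε / 2 ≤ ‖f k y - f k (Phi u b)‖ := by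
    by_contra hcon
    rw [not_or, not_le, not_le] at hcon
    have h5 : ‖f k x - f k y‖ ≤ ‖f k x - f k (Phi u b)‖ + ‖f k y - f k (Phi u b)‖ := by
      have := norm_sub_le (f k x - f k (Phi u b)) (f k y - f k (Phi u b))
      have e : f k x - f k (Phi u b) - (f k y - f k (Phi u b)) = f k x - f k y := by ring
      rw [e] at this
      exact this
    linarith
  rcases h4 with h4 | h4
  · obtain ⟨w, hw, h5⟩ := hcore _ ε (Psi u x) hF hM hε hε1 hx (by
      rw [Phi_Psi]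
      exact h4)
    exact ⟨k, w, hw, h5⟩
  · obtain ⟨w, hw, h5⟩ := hcore _ ε (Psi u y) hF hM hε hε1 hy (by
      rw [Phi_Psi]
      exact h4)
    exact ⟨k, w, hw, h5⟩

/-! ### The two discs -/

theorem ctr_add {r : ℝ} (hr : 0 ≤ r) : dist (ctr + r) ctr = r := by
  rw [dist_eq_norm, add_sub_cancel_left, Complex.norm_real, Real.norm_of_nonneg hr]

theorem near {z : ℂ} {r t : ℝ} (hr : 0 ≤ r) (h : dist z (ctr + r) ≤ t) :
    r - t ≤ dist z ctr ∧ dist z ctr ≤ r + t := by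
  have h1 := ctr_add hr
  have h2 := dist_triangle z (ctr + r) ctr
  have h3 := dist_triangle (ctr + (r : ℂ)) z ctr
  rw [dist_comm (ctr + (r : ℂ)) z] at h3
  constructor <;> linarith

theorem down_dist {d : D} {z : ℂ} {t : ℝ} (h : dist z (phi d (ctr + (77 / 100 : ℝ))) ≤ t) :
    dist (psi d z) (ctr + (77 / 100 : ℝ)) ≤ 3 * t := by
  have h1 := dist_psi d z (phi d (ctr + (77 / 100 : ℝ)))
  rw [psi_phi] at h1
  rw [h1]
  linarith

theorem down_VV (d : D) :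
    closedBall (phi d (ctr + (77 / 100 : ℝ))) (4 * (3 / 1000)) ⊆ VV := by
  intro z hz
  have h1 := near (by norm_num) (down_dist (mem_closedBall.1 hz))
  refine ⟨?_, fun e => ?_⟩
  · have h2 := dist_le_of_psi d z
    linarith [h1.2]
  · by_cases he : e = d
    · rw [he]
      linarith [h1.1]
    · have h3 := other_far he (y := psi d z) (by linarith [h1.2])
      rw [phi_psi] at h3
      linarith

theorem down_node {d : D} {w : ℂ} (h : dist w (phi d (ctr + (77 / 100 : ℝ))) ≤ 3 / 1000) :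
    psi d w ∈ nodeX := by
  have h1 := near (by norm_num) (down_dist h)
  refine ⟨by linarith [h1.2], fun e => ?_⟩
  have h2 := dist_psi_ge e (psi d w)
  linarith [h1.1]

theorem up_VV : closedBall (ctr + (85 / 100 : ℝ)) (4 * (1 / 100)) ⊆ VV := by
  intro z hz
  have h1 := near (by norm_num) (mem_closedBall.1 hz)
  refine ⟨by linarith [h1.2], fun e => ?_⟩
  have h2 := dist_psi_ge e z
  linarith [h1.1]

theorem up_node {d : D} {w : ℂ} (h : dist w (ctr + (85 / 100 : ℝ)) ≤ 1 / 100) :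
    phi d w ∈ nodeX := by
  have h1 := near (by norm_num) h
  refine ⟨?_, fun e => ?_⟩
  · have h2 := dist_le_of_psi d (phi d w)
    rw [psi_phi] at h2
    linarith [h1.2]
  · by_cases he : e = d
    · rw [he, psi_phi]
      linarith [h1.1]
    · have h3 := other_far he (y := w) (by linarith [h1.2])
      linarith

end NC3_

open NC3_ in
/-- Oscillation passes to the neighbours. -/
theorem p_NC3 (hLAV : T_LAV) (hPRD : T_PRD) : T_NC3 := by
  choose A hA1 hA using fun d : D => core hLAV hPRD (phi d (ctr + (77 / 100 : ℝ))) (3 / 1000)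
    (by norm_num) (down_VV d)
  obtain ⟨B, hB1, hB⟩ := core hLAV hPRD (ctr + (85 / 100 : ℝ)) (1 / 100) (by norm_num) up_VV
  have hsum : ∀ d, A d ≤ ∑ d, A d := fun d =>
    Finset.single_le_sum (fun e _ => (zero_le_one.trans (hA1 e))) (Finset.mem_univ d)
  have hsum0 : 1 ≤ ∑ d, A d := (hA1 (true, true)).trans (hsum _)
  refine ⟨∑ d, A d + B, by linarith, ?_⟩
  intro n δ ε f p d hf hε hε1
  have hbd : phi d (ctr + (77 / 100 : ℝ)) ∈ VV :=
    down_VV d (mem_closedBall_self (by norm_num))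
  have hbu : ctr + (85 / 100 : ℝ) ∈ VV := up_VV (mem_closedBall_self (by norm_num))
  refine ⟨fun h => ?_, fun h => ?_⟩
  · obtain ⟨k, w, hw, h1⟩ := osc hbd (hA d) hf hε hε1 h
    refine nc_mono (ε := ε ^ A d / A d) ⟨k, Phi p w, Phi p _, ?_, ?_, h1⟩
      (mono hε hε1 (hA1 d) (by linarith [hsum d]))
    · rw [Psi_snoc, Psi_Phi]
      exact down_node hw.le
    · rw [Psi_snoc, Psi_Phi]
      exact down_node (by rw [dist_self]; norm_num)
  · obtain ⟨k, w, hw, h1⟩ := osc hbu hB hf hε hε1 h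
    refine nc_mono (ε := ε ^ B / B) ⟨k, Phi (p ++ [d]) w, Phi (p ++ [d]) _, ?_, ?_, h1⟩
      (mono hε hε1 hB1 (by linarith))
    · rw [Phi_snoc, Psi_Phi]
      exact up_node hw.le
    · rw [Phi_snoc, Psi_Phi]
      exact up_node (by rw [dist_self]; norm_num)

end Pool.Agent.CorA
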