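import Pool.Agent.CorA.Targets

/-!
# NC1: the estimate at a node with large oscillation
-/

set_option autoImplicit false

namespace Pool.Agent.CorA

open Complex Metric Set Filter Topology MeasureTheory
open Pool.Corona91698f Pool.Agent.CorE
open scoped Real BoundedContinuousFunction

namespace NC1_

/-! ### geometry -/

theorem keepgt {t : ℝ} (ht : 7073 / 10000 ≤ t) (x : List D) {z : ℂ} (hz : t < dist z ctr) :
    t < dist (Psi x z) ctr := by
  induction x generalizing z with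
  | nil => simpa using hz
  | cons d x ih =>
    rw [Psi_cons]
    have h1 := dist_psi_ge d z
    exact ih (by linarith)

theorem keep (x : List D) {z : ℂ} (hz : 1 ≤ dist z ctr) : 1 ≤ dist (Psi x z) ctr := by
  induction x generalizing z with
  | nil => simpa using hz
  | cons d x ih =>
    rw [Psi_cons]
    have h1 := dist_psi_ge d z
    exact ih (by linarith)

theorem farq (v : List D) : ∀ (q : List D) (z : ℂ), v.length ≤ q.length → ¬ v <+: q →
    dist (Psi v z) ctr < 1 → 1 ≤ dist (Psi q z) ctr := by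
  induction v with
  | nil =>
    intro q z _ h
    exact absurd (List.nil_prefix) h
  | cons d v ih =>
    intro q z hl h hz
    cases q with
    | nil => simp at hl
    | cons d' q =>
      rw [Psi_cons] at hz ⊢
      by_cases hd : d = d'
      · subst hd
        refine ih q _ (by simpa using hl) (fun h' => h ?_) hz
        exact (List.cons_prefix_cons).2 ⟨rfl, h'⟩
      · refine keep q ?_
        by_contra hlt
        push Not at hlt
        refine hd (psi_disj (z := z) ?_ hlt)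
        by_contra h2
        push Not at h2
        have := keep v h2
        linarith

theorem memOm {N : ℕ} {v : List D} {z : ℂ} (hv : v.length < N) (h1 : dist (Psi v z) ctr < 1)
    (h2 : ∀ e : D, 73 / 100 < dist (psi e (Psi v z)) ctr) : z ∈ OmR (73 / 100) N := by
  intro q hq
  have hq' := mem_lv.1 hq
  by_cases hp : v <+: q
  · obtain ⟨x, rfl⟩ := hp
    cases x with
    | nil =>
      rw [List.append_nil] at hq'
      omega
    | cons e x =>
      rw [Psi_append, Psi_cons]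
      exact keepgt (by norm_num) x (h2 e)
  · have := farq v q z (by omega) hp h1
    linarith

theorem exists_q (N : ℕ) : ∀ z : ℂ, z ∈ squareCantor → ∃ q ∈ lv N, Psi q z ∈ squareCantor := by
  induction N with
  | zero =>
    intro z hz
    exact ⟨[], by rw [mem_lv]; rfl, by simpa using hz⟩
  | succ N ih =>
    intro z hz
    obtain ⟨d, hd⟩ := exists_psi_mem hz
    obtain ⟨q, hq, hq'⟩ := ih _ hd
    refine ⟨d :: q, ?_, by rw [Psi_cons]; exact hq'⟩
    rw [mem_lv] at hq ⊢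
    simp [hq]

theorem Om_notMem {N : ℕ} {z : ℂ} (hz : z ∈ OmR (73 / 100) N) : z ∉ squareCantor := by
  intro hE
  obtain ⟨q, hq, hq'⟩ := exists_q N z hE
  have h1 := squareCantor_dist' hq'
  have h2 := hz q hq
  linarith

theorem VV_nodeU {y : ℂ} (hy : y ∈ VV) : y ∈ nodeU :=
  ⟨by linarith [hy.1], fun d => by linarith [hy.2 d]⟩

theorem VV_Om {N : ℕ} {u : List D} (hu : u.length < N) {y : ℂ} (hy : y ∈ VV) :
    Phi u y ∈ OmR (73 / 100) N := by
  refine memOm hu ?_ ?_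
  · rw [Psi_Phi]
    linarith [hy.1]
  · intro e
    rw [Psi_Phi]
    exact hy.2 e

theorem phi_low (d : D) : 47 / 100 ≤ dist (phi d ctr) ctr := by
  refine le_of_pow_le_pow_left₀ (n := 2) (by norm_num) dist_nonneg ?_
  rw [dist_sq]
  have h3re : (phi d ctr).re = (1 / 2 + 2 * (if d.1 then 1 else 0)) / 3 := by
    unfold phi dig ctr
    simp
  have h3im : (phi d ctr).im = (1 / 2 + 2 * (if d.2 then 1 else 0)) / 3 := by
    unfold phi dig ctr
    simp
  rw [h3re, h3im]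
  simp only [ctr]
  rcases d with ⟨a, b⟩
  cases a <;> cases b <;> norm_num

theorem psi_low {y : ℂ} {r : ℝ} (hy : dist y ctr ≤ r) (e : D) :
    3 * (47 / 100 - r) ≤ dist (psi e y) ctr := by
  rw [dist_psi_ctr]
  have h1 := phi_low e
  have h2 := dist_triangle (phi e ctr) y ctr
  rw [dist_comm (phi e ctr) y] at h2
  linarith

theorem ball_VV : closedBall ctr (4 * (1 / 20)) ⊆ VV := by
  intro y hy
  have h1 := mem_closedBall.1 hy
  refine ⟨by linarith, fun e => ?_⟩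
  have := psi_low h1 e
  linarith

theorem circ_nodeX {w : ℂ} (hw : dist w ctr = 1 / 20) : w ∈ nodeX := by
  refine ⟨by rw [hw]; norm_num, fun e => ?_⟩
  have := psi_low hw.le e
  linarith

/-- the size of `h` near the node of `u = p ++ [d]` -/
theorem bound2 {n N : ℕ} {h : Fin n → Fin n → ℂ → ℂ} {a : List D → ℝ} {C₀ K : ℝ}
    (hHD : HD n N h a C₀) {p : List D} {d : D} (hl : p.length + 2 < N) (hK : 1 ≤ K)
    (hp : a p ≤ K * a (p ++ [d])) (hc : ∀ e : D, a (p ++ [d, e]) ≤ K * a (p ++ [d]))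
    (i j : Fin n) {y : ℂ} (hy : y ∈ VV) :
    ‖h i j (Phi (p ++ [d]) y)‖ ≤ 3 * K * (3 ^ (p.length + 1) * a (p ++ [d])) := by
  have ha : 0 ≤ a (p ++ [d]) := hHD.nn _
  have h3 : (0 : ℝ) < 3 ^ p.length := by positivity
  have hpos : 0 ≤ 3 ^ (p.length + 1) * a (p ++ [d]) := by positivity
  by_cases c1 : dist y ctr ≤ 80 / 100
  · by_cases c2 : ∀ e : D, 74 / 100 ≤ dist (psi e y) ctr
    · have h4 := hHD.up (p ++ [d]) (by simp; omega) i j (Phi (p ++ [d]) y)
        (by rw [Psi_Phi]; exact ⟨c1, c2⟩)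
      rw [List.length_append, List.length_singleton] at h4
      refine h4.trans ?_
      have : 1 * (3 ^ (p.length + 1) * a (p ++ [d])) ≤
          3 * K * (3 ^ (p.length + 1) * a (p ++ [d])) :=
        mul_le_mul_of_nonneg_right (by linarith) hpos
      linarith
    · push Not at c2
      obtain ⟨e, he⟩ := c2
      have h5 : Psi (p ++ [d, e]) (Phi (p ++ [d]) y) = psi e y := by
        have e1 : p ++ [d, e] = (p ++ [d]) ++ [e] := by simp
        rw [e1, Psi_snoc, Psi_Phi]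
      have h4 := hHD.up (p ++ [d, e]) (by simp; omega) i j (Phi (p ++ [d]) y) (by
        rw [h5]
        refine ⟨by linarith, fun e' => ?_⟩
        have h6 := dist_psi_ge e' (psi e y)
        have h7 := hy.2 e
        linarith)
      have h8 : (p ++ [d, e]).length = p.length + 1 + 1 := by simp
      rw [h8] at h4
      refine h4.trans ?_
      calc (3 : ℝ) ^ (p.length + 1 + 1) * a (p ++ [d, e])
          ≤ 3 ^ (p.length + 1 + 1) * (K * a (p ++ [d])) :=
            mul_le_mul_of_nonneg_left (hc e) (by positivity)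
        _ = 3 * K * (3 ^ (p.length + 1) * a (p ++ [d])) := by ring
  · push Not at c1
    have h5 : Psi p (Phi (p ++ [d]) y) = phi d y := by
      rw [Phi_snoc, Psi_Phi]
    have h4 := hHD.up p (by omega) i j (Phi (p ++ [d]) y) (by
      rw [h5]
      refine ⟨?_, fun e => ?_⟩
      · have h6 := dist_triangle (phi d y) (phi d ctr) ctr
        have h7 := dist_phi' d y ctr
        have h8 := dist_phi_ctr d
        have h9 := hy.1
        linarith
      · by_cases hed : e = d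
        · rw [hed, psi_phi]
          linarith
        · by_contra hlt
          push Not at hlt
          refine hed (psi_disj (z := phi d y) (by linarith) ?_)
          rw [psi_phi]
          linarith [hy.1])
    refine h4.trans ?_
    calc (3 : ℝ) ^ p.length * a p ≤ 3 ^ p.length * (K * a (p ++ [d])) :=
          mul_le_mul_of_nonneg_left hp h3.le
      _ ≤ 3 ^ p.length * (K * a (p ++ [d])) * 9 := by
          have : 0 ≤ 3 ^ p.length * (K * a (p ++ [d])) := by positivity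
          linarith
      _ = 3 * K * (3 ^ (p.length + 1) * a (p ++ [d])) := by ring

/-! ### coefficients -/

theorem exists_ab (c₀ c₁ : ℂ) : ∃ α β : ℂ, ‖α‖ ^ 2 + ‖β‖ ^ 2 = 1 ∧ α * c₀ + β * c₁ = 0 := by
  by_cases h : c₀ = 0 ∧ c₁ = 0
  · refine ⟨1, 0, by simp, ?_⟩
    rw [h.1, h.2]
    ring
  · have hpos : 0 < ‖c₀‖ ^ 2 + ‖c₁‖ ^ 2 := by
      by_contra hle
      push Not at hle
      refine h ⟨?_, ?_⟩
      · have h1 : ‖c₀‖ ^ 2 ≤ 0 := by nlinarith [sq_nonneg ‖c₀‖, sq_nonneg ‖c₁‖]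
        have h2 : ‖c₀‖ = 0 := by
          have := le_antisymm h1 (sq_nonneg _)
          exact pow_eq_zero_iff (two_ne_zero) |>.1 this
        exact norm_eq_zero.1 h2
      · have h1 : ‖c₁‖ ^ 2 ≤ 0 := by nlinarith [sq_nonneg ‖c₀‖, sq_nonneg ‖c₁‖]
        have h2 : ‖c₁‖ = 0 := by
          have := le_antisymm h1 (sq_nonneg _)
          exact pow_eq_zero_iff (two_ne_zero) |>.1 this
        exact norm_eq_zero.1 h2
    set r : ℝ := Real.sqrt (‖c₀‖ ^ 2 + ‖c₁‖ ^ 2) with hr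
    have hr0 : 0 < r := Real.sqrt_pos.2 hpos
    have hr2 : r ^ 2 = ‖c₀‖ ^ 2 + ‖c₁‖ ^ 2 := Real.sq_sqrt hpos.le
    refine ⟨c₁ / (r : ℂ), -c₀ / (r : ℂ), ?_, ?_⟩
    · rw [norm_div, norm_div, norm_neg, Complex.norm_real, Real.norm_of_nonneg hr0.le, div_pow,
        div_pow, ← add_div, hr2, add_comm]
      exact div_self hpos.ne'
    · ring

theorem low_ab {α β s t : ℂ} {ε : ℝ} (h : ‖α‖ ^ 2 + ‖β‖ ^ 2 = 1) (hs : ‖s‖ ≤ 1) (hε : 0 < ε)
    (hε1 : ε ≤ 1) (hst : ε ≤ ‖s - t‖) : ε / 4 ≤ ‖α + β * s‖ ∨ ε / 4 ≤ ‖α + β * t‖ := by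
  by_cases hb : 1 / 2 ≤ ‖β‖
  · by_contra hcon
    push Not at hcon
    obtain ⟨h1, h2⟩ := hcon
    have h3 : ‖β * (s - t)‖ ≤ ‖α + β * s‖ + ‖α + β * t‖ := by
      have : β * (s - t) = (α + β * s) - (α + β * t) := by ring
      rw [this]
      exact norm_sub_le _ _
    rw [norm_mul] at h3
    have h4 : 1 / 2 * ε ≤ ‖β‖ * ‖s - t‖ := mul_le_mul hb hst hε.le (norm_nonneg _)
    linarith
  · push Not at hb
    left
    have h1 : 3 / 4 ≤ ‖α‖ := by
      by_contra hlt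
      push Not at hlt
      have h2 := norm_nonneg α
      have h3 := norm_nonneg β
      nlinarith
    have h4 : ‖α‖ ≤ ‖α + β * s‖ + ‖β * s‖ := by
      have : α = (α + β * s) - β * s := by ring
      calc ‖α‖ = ‖(α + β * s) - β * s‖ := by rw [← this]
        _ ≤ _ := norm_sub_le _ _
    have h5 : ‖β * s‖ ≤ 1 / 2 := by
      rw [norm_mul]
      have h6 : ‖β‖ * ‖s‖ ≤ 1 / 2 * 1 := mul_le_mul hb.le hs (norm_nonneg _) (by norm_num)
      linarith
    linarith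

/-! ### a common lower bound -/

theorem exists_w (hPRD : T_PRD) {C : ℝ} (hC : 1 ≤ C) {F₁ F₂ : ℂ → ℂ} {M₁ μ₁ M₂ μ₂ : ℝ}
    (hM₁ : 0 < M₁) (hμ₁ : 0 < μ₁) (hM₂ : 0 < M₂) (hμ₂ : 0 < μ₂)
    {m₁ m₂ : ℕ} {a₁ : Fin m₁ → ℂ} {a₂ : Fin m₂ → ℂ}
    (h₁ : (m₁ : ℝ) ≤ C * Real.log (M₁ / μ₁)) (h₂ : (m₂ : ℝ) ≤ C * Real.log (M₂ / μ₂))
    (k₁ : ∀ z ∈ closedBall ctr (1 / 20), M₁ * (μ₁ / M₁) ^ C * ∏ i, (dist z (a₁ i) / C) ≤ ‖F₁ z‖)
    (k₂ : ∀ z ∈ closedBall ctr (1 / 20), M₂ * (μ₂ / M₂) ^ C * ∏ i, (dist z (a₂ i) / C) ≤ ‖F₂ z‖) :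
    ∃ w, dist w ctr = 1 / 20 ∧ M₁ * M₂ *
      (M₁ / μ₁ * (M₂ / μ₂)) ^ (-(C + C * Real.log (20 * C))) ≤ ‖F₁ w‖ * ‖F₂ w‖ := by
  obtain ⟨w, hw, hprod⟩ := hPRD (m₁ + m₂) (Fin.append a₁ a₂) ctr (1 / 20) (by norm_num)
  refine ⟨w, hw, ?_⟩
  have hwb : w ∈ closedBall ctr (1 / 20) := mem_closedBall.2 hw.le
  have hC0 : 0 < C := by linarith
  have hX1 : 0 < M₁ / μ₁ := div_pos hM₁ hμ₁
  have hX2 : 0 < M₂ / μ₂ := div_pos hM₂ hμ₂
  set X : ℝ := M₁ / μ₁ * (M₂ / μ₂) with hX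
  have hX0 : 0 < X := mul_pos hX1 hX2
  -- the products
  have e1 : (1 / 20 : ℝ) ^ (m₁ + m₂) ≤ ∏ i, dist w (Fin.append a₁ a₂ i) := by
    refine le_trans ?_ hprod
    have h3 : ∏ _i : Fin (m₁ + m₂), (1 / 20 : ℝ) ≤
        ∏ i, max (dist ctr (Fin.append a₁ a₂ i)) (1 / 20) :=
      Finset.prod_le_prod (fun _ _ => by norm_num) fun i _ => le_max_right _ _
    rwa [Finset.prod_const, Finset.card_univ, Fintype.card_fin] at h3
  have e2 : ∏ i, dist w (Fin.append a₁ a₂ i) =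
      (∏ i, dist w (a₁ i)) * ∏ i, dist w (a₂ i) := by
    rw [Fin.prod_univ_add]
    simp only [Fin.append_left, Fin.append_right]
  have e3 : (∏ i, (dist w (a₁ i) / C)) * ∏ i, (dist w (a₂ i) / C) =
      (∏ i, dist w (Fin.append a₁ a₂ i)) / C ^ (m₁ + m₂) := by
    rw [e2, Finset.prod_div_distrib, Finset.prod_div_distrib, Finset.prod_const,
      Finset.prod_const, Finset.card_univ, Finset.card_univ, Fintype.card_fin,
      Fintype.card_fin, pow_add, div_mul_div_comm]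
  have e4 : (1 / (20 * C)) ^ (m₁ + m₂) ≤
      (∏ i, (dist w (a₁ i) / C)) * ∏ i, (dist w (a₂ i) / C) := by
    rw [e3, le_div_iff₀ (by positivity), ← mul_pow]
    have : 1 / (20 * C) * C = 1 / 20 := by field_simp
    rw [this]
    exact e1
  -- the power
  have hl0 : 0 ≤ Real.log (20 * C) := Real.log_nonneg (by linarith)
  have e5 : X ^ (-(C * Real.log (20 * C))) ≤ (1 / (20 * C)) ^ (m₁ + m₂) := by
    have h5 : (1 / (20 * C)) ^ (m₁ + m₂) =
        Real.exp (-(((m₁ + m₂ : ℕ) : ℝ) * Real.log (20 * C))) := by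
      rw [one_div, inv_pow, Real.exp_neg, Real.exp_nat_mul, Real.exp_log (by positivity)]
    rw [h5, Real.rpow_def_of_pos hX0]
    refine Real.exp_le_exp.2 ?_
    have h6 : ((m₁ + m₂ : ℕ) : ℝ) ≤ C * Real.log X := by
      rw [hX, Real.log_mul hX1.ne' hX2.ne']
      push_cast
      linarith
    have h7 := mul_le_mul_of_nonneg_right h6 hl0
    linarith
  have e6 : (μ₁ / M₁) ^ C * (μ₂ / M₂) ^ C = X ^ (-C) := by
    rw [← Real.mul_rpow (by positivity) (by positivity), Real.rpow_neg hX0.le,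
      ← Real.inv_rpow hX0.le]
    congr 1
    rw [hX, mul_inv, inv_div, inv_div]
  have hP1 : 0 ≤ ∏ i, (dist w (a₁ i) / C) :=
    Finset.prod_nonneg fun i _ => div_nonneg dist_nonneg hC0.le
  have hP2 : 0 ≤ ∏ i, (dist w (a₂ i) / C) :=
    Finset.prod_nonneg fun i _ => div_nonneg dist_nonneg hC0.le
  have hR1 : 0 ≤ (μ₁ / M₁) ^ C := Real.rpow_nonneg (by positivity) _
  have hR2 : 0 ≤ (μ₂ / M₂) ^ C := Real.rpow_nonneg (by positivity) _
  have hfin := mul_le_mul (k₁ w hwb) (k₂ w hwb)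
    (mul_nonneg (mul_nonneg hM₂.le hR2) hP2) (norm_nonneg _)
  refine le_trans ?_ hfin
  have hXe : X ^ (-(C + C * Real.log (20 * C))) = X ^ (-C) * X ^ (-(C * Real.log (20 * C))) := by
    rw [← Real.rpow_add hX0]
    congr 1
    ring
  rw [hXe]
  have hXC : 0 ≤ X ^ (-C) := Real.rpow_nonneg hX0.le _
  calc M₁ * M₂ * (X ^ (-C) * X ^ (-(C * Real.log (20 * C))))
      = M₁ * M₂ * X ^ (-C) * X ^ (-(C * Real.log (20 * C))) := by ring
    _ ≤ M₁ * M₂ * X ^ (-C) * ((∏ i, (dist w (a₁ i) / C)) * ∏ i, (dist w (a₂ i) / C)) :=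
        mul_le_mul_of_nonneg_left (e5.trans e4) (by positivity)
    _ = M₁ * (μ₁ / M₁) ^ C * (∏ i, (dist w (a₁ i) / C)) *
          (M₂ * (μ₂ / M₂) ^ C * ∏ i, (dist w (a₂ i) / C)) := by
        rw [← e6]
        ring

/-! ### contour means -/

theorem rad_nonneg (v : List D) : (0 : ℝ) ≤ 77 / 100 * (1 / 3) ^ v.length := by positivity

theorem circ {v : List D} {z : ℂ}
    (hz : z ∈ sphere (cc v) (77 / 100 * (1 / 3) ^ v.length)) : dist (Psi v z) ctr = 77 / 100 := by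
  have h1 : Psi v (cc v) = ctr := Psi_Phi v ctr
  have h2 := dist_Psi v z (cc v)
  rw [h1, mem_sphere.1 hz] at h2
  rw [h2]
  have h3 : (3 : ℝ) ^ v.length * (1 / 3) ^ v.length = 1 := by
    rw [← mul_pow]
    norm_num
  calc (3 : ℝ) ^ v.length * (77 / 100 * (1 / 3) ^ v.length) =
      77 / 100 * (3 ^ v.length * (1 / 3) ^ v.length) := by ring
    _ = 77 / 100 := by rw [h3, mul_one]

theorem sphere_Om {N : ℕ} {v : List D} (hv : v.length < N) :
    sphere (cc v) (77 / 100 * (1 / 3) ^ v.length) ⊆ OmR (73 / 100) N := by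
  intro z hz
  have h1 := circ hz
  refine memOm hv (by rw [h1]; norm_num) fun e => ?_
  have h2 := dist_psi_ge e (Psi v z)
  rw [h1] at h2
  linarith

theorem cm_lin {N : ℕ} {v : List D} (hv : v.length < N) {g h : ℂ → ℂ} (α β : ℂ)
    (hg : DifferentiableOn ℂ g (OmR (73 / 100) N)) (hh : DifferentiableOn ℂ h (OmR (73 / 100) N)) :
    cm v (fun z => (α + β * g z) * h z) =
      α * cm v (fun z => 1 * h z) + β * cm v (fun z => g z * h z) := by
  have hs := sphere_Om hv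
  have i1 : CircleIntegrable (fun z => α * (1 * h z)) (cc v) (77 / 100 * (1 / 3) ^ v.length) :=
    ((continuousOn_const.mul (continuousOn_const.mul hh.continuousOn)).mono hs).circleIntegrable
      (rad_nonneg v)
  have i2 : CircleIntegrable (fun z => β * (g z * h z)) (cc v)
      (77 / 100 * (1 / 3) ^ v.length) :=
    ((continuousOn_const.mul (hg.continuousOn.mul hh.continuousOn)).mono hs).circleIntegrable
      (rad_nonneg v)
  have e : (fun z => (α + β * g z) * h z) = fun z => α * (1 * h z) + β * (g z * h z) := by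
    funext z
    ring
  unfold cm
  rw [e, circleIntegral.integral_add i1 i2, circleIntegral.integral_const_mul α,
    circleIntegral.integral_const_mul β]
  ring

/-- the vector of the coefficients -/
noncomputable def ev {n : ℕ} (i j k : Fin n) (α β : ℂ) :
    EuclideanSpace ℂ (Fin n × Fin n × Option (Fin n)) :=
  EuclideanSpace.single (i, j, none) (starRingEnd ℂ α) +
    EuclideanSpace.single (i, j, some k) (starRingEnd ℂ β)

theorem inner_ev {n : ℕ} (i j k : Fin n) (α β : ℂ)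
    (v : EuclideanSpace ℂ (Fin n × Fin n × Option (Fin n))) :
    inner ℂ (ev i j k α β) v = α * v (i, j, none) + β * v (i, j, some k) := by
  unfold ev
  rw [inner_add_left, EuclideanSpace.inner_single_left, EuclideanSpace.inner_single_left,
    Complex.conj_conj, Complex.conj_conj]

theorem norm_ev {n : ℕ} (i j k : Fin n) {α β : ℂ} (h : ‖α‖ ^ 2 + ‖β‖ ^ 2 = 1) :
    ‖ev i j k α β‖ ≤ 1 := by
  have h1 : inner ℂ (ev i j k α β) (ev i j k α β) = ((‖α‖ ^ 2 + ‖β‖ ^ 2 : ℝ) : ℂ) := by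
    rw [inner_ev]
    have e1 : (ev i j k α β) (i, j, none) = starRingEnd ℂ α := by
      unfold ev
      simp
    have e2 : (ev i j k α β) (i, j, some k) = starRingEnd ℂ β := by
      unfold ev
      simp
    rw [e1, e2, Complex.mul_conj, Complex.mul_conj, Complex.normSq_eq_norm_sq,
      Complex.normSq_eq_norm_sq]
    push_cast
    ring
  have h2 := inner_self_eq_norm_sq_to_K (𝕜 := ℂ) (ev i j k α β)
  rw [h1, h] at h2
  have h3 : ‖ev i j k α β‖ ^ 2 = 1 := by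
    have h4 : ((1 : ℝ) : ℂ) = ((‖ev i j k α β‖ ^ 2 : ℝ) : ℂ) := by
      rw [h2]
      push_cast
      rfl
    exact_mod_cast h4.symm
  have h5 := norm_nonneg (ev i j k α β)
  nlinarith

/-! ### arithmetic -/

theorem arith1 {CG CM Y G au P J : ℝ} (hCG : 1 ≤ CG) (hCM : 1 ≤ CM) (hY : 1 ≤ Y) (hG : 1 ≤ G)
    (hau : 0 < au) (hP : 0 ≤ P) (hJ : 0 ≤ J)
    (h : ∀ η : ℝ, 0 < η → au * Y⁻¹ ≤ CG * G * (2 * P + (η * (CM * au) + (2 + 1 / η) * J))) :
    au ≤ 8 * CG ^ 2 * CM * Y ^ 2 * G ^ 2 * (P + J) := by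
  have hY0 : 0 < Y := by linarith
  have hQ : 1 ≤ CG * G := by nlinarith
  set Q : ℝ := CG * G with hQd
  have hQ0 : 0 < Q := by linarith
  have hCM0 : 0 < CM := by linarith
  have hR : 1 ≤ Q * CM * Y := by
    have h1 : 1 ≤ Q * CM := by nlinarith
    nlinarith
  have hη : 0 < 1 / (2 * (Q * CM * Y)) := by positivity
  have h1 := h _ hη
  have e1 : Q * (2 * P + (1 / (2 * (Q * CM * Y)) * (CM * au) +
      (2 + 1 / (1 / (2 * (Q * CM * Y)))) * J)) =
      Q * (2 * P + (2 + 2 * (Q * CM * Y)) * J) + au * Y⁻¹ / 2 := by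
    field_simp
    ring
  rw [e1] at h1
  have h2 : au * Y⁻¹ ≤ 2 * (Q * (2 * P + (2 + 2 * (Q * CM * Y)) * J)) := by linarith
  have h3 : au ≤ 2 * (Q * (2 * P + (2 + 2 * (Q * CM * Y)) * J)) * Y := by
    have := mul_le_mul_of_nonneg_right h2 hY0.le
    rwa [mul_assoc, inv_mul_cancel₀ hY0.ne', mul_one] at this
  have h4 : 2 * P + (2 + 2 * (Q * CM * Y)) * J ≤ 4 * (Q * CM * Y) * (P + J) := by
    have h5 : 2 * P ≤ 4 * (Q * CM * Y) * P := mul_le_mul_of_nonneg_right (by linarith) hP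
    have h6 : (2 + 2 * (Q * CM * Y)) * J ≤ 4 * (Q * CM * Y) * J :=
      mul_le_mul_of_nonneg_right (by linarith) hJ
    linarith
  calc au ≤ 2 * (Q * (2 * P + (2 + 2 * (Q * CM * Y)) * J)) * Y := h3
    _ ≤ 2 * (Q * (4 * (Q * CM * Y) * (P + J))) * Y := by
        refine mul_le_mul_of_nonneg_right ?_ hY0.le
        exact mul_le_mul_of_nonneg_left (mul_le_mul_of_nonneg_left h4 hQ0.le) (by norm_num)
    _ = 8 * CG ^ 2 * CM * Y ^ 2 * G ^ 2 * (P + J) := by
        rw [hQd]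
        ring

theorem arith2 {CG CM c T K : ℝ} (hCG : 1 ≤ CG) (hCM : 1 ≤ CM) (hc : 1 ≤ c) (hT : 1 ≤ T)
    (hK : 1 ≤ K) (hKT : K ≤ T) :
    8 * CG ^ 2 * CM * ((24 * T) ^ c) ^ 2 * ((2 * K * (24 * T) ^ c) ^ CG) ^ 2 ≤
      max (8 * CG ^ 2 * CM * ((24 : ℝ) ^ c) ^ 2 * ((2 * (24 : ℝ) ^ c) ^ CG) ^ 2)
        (2 * c + 2 * ((c + 1) * CG)) *
      T ^ (max (8 * CG ^ 2 * CM * ((24 : ℝ) ^ c) ^ 2 * ((2 * (24 : ℝ) ^ c) ^ CG) ^ 2)
        (2 * c + 2 * ((c + 1) * CG))) := by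
  have hT0 : 0 < T := by linarith
  have hK0 : 0 < K := by linarith
  set B : ℝ := 8 * CG ^ 2 * CM * ((24 : ℝ) ^ c) ^ 2 * ((2 * (24 : ℝ) ^ c) ^ CG) ^ 2 with hB
  set E : ℝ := 2 * c + 2 * ((c + 1) * CG) with hE
  have hB0 : 0 ≤ B := by
    rw [hB]
    positivity
  have e1 : (24 * T) ^ c = 24 ^ c * T ^ c := Real.mul_rpow (by norm_num) hT0.le
  have e2 : (2 * K * (24 * T) ^ c) ^ CG ≤ (2 * (24 : ℝ) ^ c) ^ CG * T ^ ((c + 1) * CG) := by
    have h1 : 2 * K * (24 * T) ^ c ≤ (2 * (24 : ℝ) ^ c) * T ^ (c + 1) := by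
      rw [e1, Real.rpow_add hT0, Real.rpow_one]
      have h2 : 0 ≤ (24 : ℝ) ^ c * T ^ c := by positivity
      calc 2 * K * (24 ^ c * T ^ c) ≤ 2 * T * (24 ^ c * T ^ c) :=
            mul_le_mul_of_nonneg_right (by linarith) h2
        _ = 2 * 24 ^ c * (T ^ c * T) := by ring
    calc (2 * K * (24 * T) ^ c) ^ CG ≤ ((2 * (24 : ℝ) ^ c) * T ^ (c + 1)) ^ CG :=
          Real.rpow_le_rpow (by positivity) h1 (by linarith)
      _ = (2 * (24 : ℝ) ^ c) ^ CG * (T ^ (c + 1)) ^ CG :=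
          Real.mul_rpow (by positivity) (by positivity)
      _ = (2 * (24 : ℝ) ^ c) ^ CG * T ^ ((c + 1) * CG) := by
          rw [← Real.rpow_mul hT0.le]
  have e3 : 8 * CG ^ 2 * CM * ((24 * T) ^ c) ^ 2 * ((2 * K * (24 * T) ^ c) ^ CG) ^ 2 ≤
      B * T ^ E := by
    have h3 : ((2 * K * (24 * T) ^ c) ^ CG) ^ 2 ≤
        ((2 * (24 : ℝ) ^ c) ^ CG * T ^ ((c + 1) * CG)) ^ 2 :=
      pow_le_pow_left₀ (by positivity) e2 2
    have h4 : T ^ E = (T ^ c) ^ 2 * (T ^ ((c + 1) * CG)) ^ 2 := by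
      rw [← Real.rpow_natCast (T ^ c) 2, ← Real.rpow_natCast (T ^ ((c + 1) * CG)) 2,
        ← Real.rpow_mul hT0.le, ← Real.rpow_mul hT0.le, ← Real.rpow_add hT0, hE]
      congr 1
      push_cast
      ring
    calc 8 * CG ^ 2 * CM * ((24 * T) ^ c) ^ 2 * ((2 * K * (24 * T) ^ c) ^ CG) ^ 2
        ≤ 8 * CG ^ 2 * CM * ((24 * T) ^ c) ^ 2 *
            ((2 * (24 : ℝ) ^ c) ^ CG * T ^ ((c + 1) * CG)) ^ 2 :=
          mul_le_mul_of_nonneg_left h3 (by positivity)
      _ = B * T ^ E := by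
          rw [h4, hB, e1]
          ring
  refine e3.trans ?_
  have h5 : T ^ E ≤ T ^ (max B E) := Real.rpow_le_rpow_of_exponent_le hT (le_max_right _ _)
  have h6 : 0 ≤ T ^ (max B E) := Real.rpow_nonneg hT0.le _
  calc B * T ^ E ≤ B * T ^ (max B E) := mul_le_mul_of_nonneg_left h5 hB0
    _ ≤ max B E * T ^ (max B E) := mul_le_mul_of_nonneg_right (le_max_left _ _) h6

end NC1_

open NC1_ in
theorem p_NC1 (hLAV : T_LAV) (hPRD : T_PRD) (hGLL : T_GLL) (hVEC : T_VEC) (hMAS : T_MAS) :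
    T_NC1 := by
  intro n
  obtain ⟨CL, hCL1, hL⟩ := hLAV ctr (1 / 20) (by norm_num) ball_VV
  obtain ⟨CG, hCG1, hG⟩ := hGLL
  obtain ⟨CM, hCM1, hM⟩ := hMAS n
  set c : ℝ := CL + CL * Real.log (20 * CL) with hcdef
  have hlog : 0 ≤ Real.log (20 * CL) := Real.log_nonneg (by linarith)
  have hc1 : 1 ≤ c := by
    have : 0 ≤ CL * Real.log (20 * CL) := mul_nonneg (by linarith) hlog
    linarith
  refine ⟨max (8 * CG ^ 2 * CM * ((24 : ℝ) ^ c) ^ 2 * ((2 * (24 : ℝ) ^ c) ^ CG) ^ 2)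
        (2 * c + 2 * ((c + 1) * CG)), ?_, ?_⟩
  · refine le_trans ?_ (le_max_right _ _)
    have : 0 ≤ (c + 1) * CG := mul_nonneg (by linarith) (by linarith)
    linarith
  intro N j δ C₀ ε K f h a p d hDat hHD hε hε1 hK hj hlen hNC hap hae
  obtain ⟨hm1, _, hm3⟩ := hM N δ C₀ f h a hDat hHD
  have hul : (p ++ [d]).length = p.length + 1 := by simp
  have hsumm : mm f h (p ++ [d]) = ∑ x ∈ lv (2 * j), mm f h (p ++ [d] ++ x) :=
    hm3 (p ++ [d]) (2 * j) (by omega)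
  have hT1 : 1 ≤ K / ε := by
    rw [le_div_iff₀ hε]
    linarith
  have hKT : K ≤ K / ε := by
    rw [le_div_iff₀ hε]
    nlinarith
  set P : ℝ := (3 / 4) ^ j * (∑ x ∈ lv j, a (p ++ [d] ++ x) +
    ∑ x ∈ lv (2 * j), a (p ++ [d] ++ x)) with hPdef
  set J : ℝ := ∑ x ∈ lv (2 * j), ‖mm f h (p ++ [d] ++ x)‖ - ‖mm f h (p ++ [d])‖ with hJdef
  have hP0 : 0 ≤ P := by
    have h1 : 0 ≤ ∑ x ∈ lv j, a (p ++ [d] ++ x) := Finset.sum_nonneg fun x _ => hHD.nn _
    have h2 : 0 ≤ ∑ x ∈ lv (2 * j), a (p ++ [d] ++ x) := Finset.sum_nonneg fun x _ => hHD.nn _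
    positivity
  have hJ0 : 0 ≤ J := by
    have : ‖mm f h (p ++ [d])‖ ≤ ∑ x ∈ lv (2 * j), ‖mm f h (p ++ [d] ++ x)‖ := by
      rw [hsumm]
      exact norm_sum_le _ _
    linarith
  rcases eq_or_lt_of_le (hHD.nn (p ++ [d])) with h0 | hau
  · rw [← h0]
    have h1 : (1 : ℝ) ≤ max (8 * CG ^ 2 * CM * ((24 : ℝ) ^ c) ^ 2 *
        ((2 * (24 : ℝ) ^ c) ^ CG) ^ 2) (2 * c + 2 * ((c + 1) * CG)) := by
      refine le_trans ?_ (le_max_right _ _)
      have : 0 ≤ (c + 1) * CG := mul_nonneg (by linarith) (by linarith)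
      linarith
    have h2 : 0 ≤ (K / ε) ^ (max (8 * CG ^ 2 * CM * ((24 : ℝ) ^ c) ^ 2 *
        ((2 * (24 : ℝ) ^ c) ^ CG) ^ 2) (2 * c + 2 * ((c + 1) * CG))) :=
      Real.rpow_nonneg (by linarith) _
    exact mul_nonneg (mul_nonneg (by linarith) h2) (by linarith)
  -- the main case
  obtain ⟨i, i', z₀, hz₀, hz₀'⟩ := hHD.att (p ++ [d]) (by omega)
  rw [hul] at hz₀'
  obtain ⟨k, x, y, hx, hy, hxy⟩ := hNC
  have hnot : ∀ (v : List D) (z : ℂ), Psi v z ∈ nodeX → z ∉ squareCantor := by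
    intro v z hz
    have := Phi_notMem (v := v) (nodeX_subset hz)
    rwa [Phi_Psi] at this
  obtain ⟨α, β, hab, hab0⟩ := exists_ab ((mm f h (p ++ [d])) (i, i', none))
    ((mm f h (p ++ [d])) (i, i', some k))
  have hα1 : ‖α‖ ≤ 1 := by nlinarith [norm_nonneg α, sq_nonneg ‖β‖]
  have hβ1 : ‖β‖ ≤ 1 := by nlinarith [norm_nonneg β, sq_nonneg ‖α‖]
  have hg2 : ∀ z, z ∉ squareCantor → ‖α + β * f k z‖ ≤ 2 := by
    intro z hz
    have h1 := hDat.le k z hz
    have h2 : ‖β * f k z‖ ≤ 1 * 1 := by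
      rw [norm_mul]
      exact mul_le_mul hβ1 h1 (norm_nonneg _) (by norm_num)
    have h3 := norm_add_le α (β * f k z)
    linarith
  obtain ⟨z₁, hz₁, hz₁'⟩ : ∃ z₁, Psi (p ++ [d]) z₁ ∈ nodeX ∧ ε / 4 ≤ ‖α + β * f k z₁‖ := by
    rcases low_ab hab (hDat.le k x (hnot _ x hx)) hε hε1 hxy with h1 | h1
    · exact ⟨x, hx, h1⟩
    · exact ⟨y, hy, h1⟩
  have hVVnot : ∀ y ∈ VV, Phi (p ++ [d]) y ∉ squareCantor := fun y hy =>
    Phi_notMem (VV_nodeU hy)
  have hF1 : DifferentiableOn ℂ (fun y => α + β * f k (Phi (p ++ [d]) y)) VV := by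
    have h1 : DifferentiableOn ℂ (fun y => f k (Phi (p ++ [d]) y)) VV :=
      (hDat.diff k).comp (differentiable_Phi _).differentiableOn fun y hy => hVVnot y hy
    exact (differentiableOn_const _).add ((differentiableOn_const _).mul h1)
  have hF2 : DifferentiableOn ℂ (fun y => h i i' (Phi (p ++ [d]) y)) VV :=
    (hHD.diff i i').comp (differentiable_Phi _).differentiableOn fun y hy =>
      VV_Om (by omega) hy
  set μ : ℝ := 3 ^ (p.length + 1) * a (p ++ [d]) with hμ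
  have hμ0 : 0 < μ := by positivity
  obtain ⟨m₁, a₁, hm₁, hk₁⟩ := hL (fun y => α + β * f k (Phi (p ++ [d]) y)) 2 (ε / 4)
    (Psi (p ++ [d]) z₁) hF1 (fun y hy => hg2 _ (hVVnot y hy)) (by positivity) hz₁
    (by rw [Phi_Psi]; exact hz₁')
  obtain ⟨m₂, a₂, hm₂, hk₂⟩ := hL (fun y => h i i' (Phi (p ++ [d]) y)) (3 * K * μ) μ
    (Psi (p ++ [d]) z₀) hF2 (fun y hy => bound2 hHD (by omega) hK hap hae i i' hy) hμ0 hz₀
    (by rw [Phi_Psi]; exact hz₀')
  obtain ⟨w, hw, hwlow⟩ := exists_w hPRD hCL1 (by norm_num) (by positivity) (by positivity) hμ0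
    hm₁ hm₂ hk₁ hk₂
  rw [← hcdef] at hwlow
  have eX : 2 / (ε / 4) * (3 * K * μ / μ) = 24 * (K / ε) := by
    field_simp
    ring
  rw [eX] at hwlow
  have hZ0 : 0 < 24 * (K / ε) := by positivity
  set Y : ℝ := (24 * (K / ε)) ^ c with hY
  have hY1 : 1 ≤ Y := Real.one_le_rpow (by linarith) (by linarith)
  have hY0 : 0 < Y := by linarith
  rw [Real.rpow_neg hZ0.le, ← hY] at hwlow
  -- the function H
  set H : ℂ → ℂ := fun z => (α + β * f k z) * h i i' z with hH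
  have hfOm : DifferentiableOn ℂ (f k) (OmR (73 / 100) N) :=
    (hDat.diff k).mono fun z hz => Om_notMem hz
  have hHdiff : DifferentiableOn ℂ H (OmR (73 / 100) N) :=
    ((differentiableOn_const _).add ((differentiableOn_const _).mul hfOm)).mul (hHD.diff i i')
  have hAlow : 3 ^ (p.length + 1) * (a (p ++ [d]) * Y⁻¹) ≤ ‖H (Phi (p ++ [d]) w)‖ := by
    have h1 : ‖H (Phi (p ++ [d]) w)‖ =
        ‖α + β * f k (Phi (p ++ [d]) w)‖ * ‖h i i' (Phi (p ++ [d]) w)‖ := norm_mul _ _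
    rw [h1]
    refine le_trans ?_ hwlow
    have h2 : μ * Y⁻¹ ≤ 2 * (3 * K * μ) * Y⁻¹ := by
      refine mul_le_mul_of_nonneg_right ?_ (by positivity)
      nlinarith
    calc 3 ^ (p.length + 1) * (a (p ++ [d]) * Y⁻¹) = μ * Y⁻¹ := by rw [hμ]; ring
      _ ≤ _ := h2
  have hup : ∀ v : List D, v.length < N → ∀ z, Psi v z ∈ nodeX →
      ‖H z‖ ≤ 3 ^ v.length * (2 * a v) := by
    intro v hv z hz
    have h1 := hg2 z (hnot v z hz)
    have h2 := hHD.up v hv i i' z hz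
    calc ‖H z‖ = ‖α + β * f k z‖ * ‖h i i' z‖ := norm_mul _ _
      _ ≤ 2 * (3 ^ v.length * a v) := mul_le_mul h1 h2 (norm_nonneg _) (by norm_num)
      _ = 3 ^ v.length * (2 * a v) := by ring
  have hA0 : 0 < a (p ++ [d]) * Y⁻¹ := by positivity
  have hKY1 : 1 ≤ 2 * K * Y := by nlinarith
  have hbp : 2 * a p ≤ 2 * K * Y * (a (p ++ [d]) * Y⁻¹) := by
    have e1 : 2 * K * Y * (a (p ++ [d]) * Y⁻¹) = 2 * (K * a (p ++ [d])) := by
      field_simp
    rw [e1]
    linarith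
  have hGl := hG N j p d H (fun v => 2 * a v) (a (p ++ [d]) * Y⁻¹) (2 * K * Y)
    (Phi (p ++ [d]) w) hj hlen hHdiff hup hA0 hKY1 (by rw [Psi_Phi]; exact circ_nodeX hw)
    hAlow hbp
  -- the contour means
  have hcm : ∀ x ∈ lv (2 * j), ‖cm (p ++ [d] ++ x) H‖ =
      ‖(inner ℂ (ev i i' k α β) (mm f h (p ++ [d] ++ x)) : ℂ)‖ := by
    intro x hx
    have hxl := mem_lv.1 hx
    have h1 : (p ++ [d] ++ x).length < N := by
      rw [List.length_append, hul, hxl]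
      omega
    rw [hH, cm_lin h1 α β hfOm (hHD.diff i i'), inner_ev]
    rfl
  have hin : inner ℂ (ev i i' k α β) (∑ x ∈ lv (2 * j), mm f h (p ++ [d] ++ x)) = (0 : ℂ) := by
    rw [← hsumm, inner_ev]
    exact hab0
  have hmu : ‖mm f h (p ++ [d])‖ ≤ CM * a (p ++ [d]) := hm1 _ (by omega)
  have hall : ∀ η : ℝ, 0 < η → a (p ++ [d]) * Y⁻¹ ≤ CG * (2 * K * Y) ^ CG *
      (2 * P + (η * (CM * a (p ++ [d])) + (2 + 1 / η) * J)) := by
    intro η hη
    have hV := hVEC (EuclideanSpace ℂ (Fin n × Fin n × Option (Fin n))) (List D) (lv (2 * j))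
      (fun x => mm f h (p ++ [d] ++ x)) (ev i i' k α β) η (norm_ev i i' k hab) hin hη
    rw [← hsumm, ← hJdef] at hV
    rw [Finset.sum_congr rfl hcm] at hGl
    refine hGl.trans ?_
    refine mul_le_mul_of_nonneg_left ?_ (by positivity)
    have e2 : (3 / 4 : ℝ) ^ j * (∑ x ∈ lv j, 2 * a (p ++ [d] ++ x) +
        ∑ x ∈ lv (2 * j), 2 * a (p ++ [d] ++ x)) = 2 * P := by
      rw [← Finset.mul_sum, ← Finset.mul_sum, hPdef]
      ring
    have h3 : η * ‖mm f h (p ++ [d])‖ ≤ η * (CM * a (p ++ [d])) :=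
      mul_le_mul_of_nonneg_left hmu hη.le
    linarith
  have hG1 : 1 ≤ (2 * K * Y) ^ CG := Real.one_le_rpow hKY1 (by linarith)
  have hfin := arith1 hCG1 hCM1 hY1 hG1 hau hP0 hJ0 hall
  have hfin2 := arith2 hCG1 hCM1 hc1 hT1 hK hKT
  rw [← hY] at hfin2
  exact hfin.trans (mul_le_mul_of_nonneg_right hfin2 (by linarith))

end Pool.Agent.CorA
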