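import Pool.Agent.CorA.Targets
import Pool.Agent.CorE.P_GEO

/-!
# ALB, block AVS: a holomorphic function is large on many squares
-/

set_option autoImplicit false

namespace Pool.Agent.CorA

open Complex Metric Set Filter Topology MeasureTheory
open Pool.Corona91698f Pool.Agent.CorE
open scoped Real BoundedContinuousFunction

namespace AVS_

theorem exp_nat (n : ℕ) : (27 / 10 : ℝ) ^ n ≤ Real.exp n := by
  have h1 : (27 / 10 : ℝ) ≤ Real.exp 1 := by
    have := Real.exp_one_gt_d9
    linarith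
  have h2 : Real.exp n = Real.exp 1 ^ n := by
    rw [← Real.exp_nat_mul, mul_one]
  rw [h2]
  exact pow_le_pow_left₀ (by norm_num) h1 n

theorem log_three : Real.log 3 ≤ 3 / 2 := by
  have h1 : Real.log 9 ≤ 3 := by
    rw [Real.log_le_iff_le_exp (by norm_num)]
    have h2 := exp_nat 3
    norm_num at h2
    linarith
  have h2 : Real.log 9 = 2 * Real.log 3 := by
    rw [show (9 : ℝ) = 3 ^ 2 by norm_num, Real.log_pow]
    norm_num
  linarith

theorem log_ge {t : ℝ} {n : ℕ} (ht : 0 < t) (h : 1 ≤ (27 / 10 : ℝ) ^ n * t) :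
    -(n : ℝ) ≤ Real.log t := by
  rw [Real.le_log_iff_exp_le ht, Real.exp_neg, inv_le_iff_one_le_mul₀ (Real.exp_pos _)]
  have h1 := exp_nat n
  nlinarith [mul_le_mul_of_nonneg_right h1 ht.le]

theorem card_lv (j : ℕ) : ∑ _x ∈ lv j, (1 : ℝ) = 4 ^ j := by
  induction j with
  | zero => simp [lv]
  | succ j ih =>
    rw [sum_lv_succ, Finset.sum_congr rfl fun d _ => ih]
    rw [Finset.sum_const, Finset.card_univ, Fintype.card_prod, Fintype.card_bool, pow_succ]
    simp
    ring

/-- the size of a factor -/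
noncomputable def tt (j : ℕ) (a : ℂ) (x : List D) : ℝ :=
  max (dist (Phi x ctr) a) (5 / 100 * (1 / 3) ^ j) / (9 / 5)

theorem tt_pos (j : ℕ) (a : ℂ) (x : List D) : 0 < tt j a x := by
  unfold tt
  have h1 : (0 : ℝ) < 5 / 100 * (1 / 3) ^ j := by positivity
  have h2 := le_max_right (dist (Phi x ctr) a) (5 / 100 * (1 / 3) ^ j)
  positivity

theorem tt_cons (j : ℕ) (a : ℂ) (d : D) (x : List D) :
    tt (j + 1) a (d :: x) = tt j (psi d a) x / 3 := by
  unfold tt
  have h1 : dist (Phi (d :: x) ctr) a = dist (Phi x ctr) (psi d a) / 3 := by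
    rw [Phi_cons]
    conv_lhs => rw [← phi_psi d a]
    exact dist_phi' d _ _
  have h2 : 5 / 100 * ((1 / 3 : ℝ) ^ j * (1 / 3)) = (5 / 100 * (1 / 3 : ℝ) ^ j) / 3 := by ring
  rw [h1, pow_succ, h2, max_div_div_right (by norm_num : (0 : ℝ) ≤ 3)]
  ring

theorem far_log (j : ℕ) (a : ℂ) (x : List D) (ha : 1 ≤ dist a ctr) :
    -2 ≤ Real.log (tt j a x) := by
  have h1 := GEO_.near x
  have h2 : (0 : ℝ) < (1 / 3) ^ x.length := by positivity
  have h3 := dist_triangle a (Phi x ctr) ctr
  rw [dist_comm a (Phi x ctr)] at h3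
  have h4 : (29 / 100 : ℝ) ≤ dist (Phi x ctr) a := by linarith
  have h5 : (29 / 180 : ℝ) ≤ tt j a x := by
    unfold tt
    rw [le_div_iff₀ (by norm_num)]
    refine le_trans ?_ (le_max_left _ _)
    linarith
  have h6 := log_ge (n := 2) (tt_pos j a x) (by norm_num; linarith)
  push_cast at h6
  linarith

theorem mean_log (j : ℕ) : ∀ a : ℂ, -(4 * 4 ^ j : ℝ) ≤ ∑ x ∈ lv j, Real.log (tt j a x) := by
  induction j with
  | zero =>
    intro a
    have h0 : (1 / 36 : ℝ) ≤ tt 0 a [] := by
      unfold tt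
      rw [le_div_iff₀ (by norm_num)]
      refine le_trans ?_ (le_max_right _ _)
      norm_num
    have h1 := log_ge (n := 4) (tt_pos 0 a []) (by norm_num; linarith)
    simp only [lv, Finset.sum_singleton]
    push_cast at h1
    linarith
  | succ j ih =>
    intro a
    rw [sum_lv_succ]
    obtain ⟨d₀, hd₀⟩ := exists_far a
    have h4 : (0 : ℝ) < 4 ^ j := by positivity
    have key : ∀ d : D, ∑ x ∈ lv j, Real.log (tt (j + 1) a (d :: x)) =
        ∑ x ∈ lv j, Real.log (tt j (psi d a) x) - 4 ^ j * Real.log 3 := by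
      intro d
      rw [← card_lv j, Finset.sum_mul, ← Finset.sum_sub_distrib]
      refine Finset.sum_congr rfl fun x _ => ?_
      rw [tt_cons, Real.log_div (tt_pos _ _ _).ne' (by norm_num), one_mul]
    have low : ∀ d : D, -(2 * 4 ^ j) - 4 ^ j * Real.log 3 +
        (if d = d₀ then -(2 * 4 ^ j) else (0 : ℝ)) ≤
        ∑ x ∈ lv j, Real.log (tt (j + 1) a (d :: x)) := by
      intro d
      rw [key]
      by_cases hd : d = d₀
      · rw [if_pos hd]
        have := ih (psi d a)
        linarith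
      · rw [if_neg hd]
        have h5 : -(2 * 4 ^ j : ℝ) ≤ ∑ x ∈ lv j, Real.log (tt j (psi d a) x) := by
          rw [← card_lv j, Finset.mul_sum, ← Finset.sum_neg_distrib]
          refine Finset.sum_le_sum fun x _ => ?_
          have := far_log j (psi d a) x (hd₀ d hd)
          linarith
        linarith
    refine le_trans ?_ (Finset.sum_le_sum fun d _ => low d)
    rw [Finset.sum_add_distrib, Finset.sum_ite_eq' Finset.univ d₀, if_pos (Finset.mem_univ _),
      Finset.sum_const, Finset.card_univ, Fintype.card_prod, Fintype.card_bool, pow_succ]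
    have h6 := mul_le_mul_of_nonneg_left log_three h4.le
    simp only [nsmul_eq_mul]
    push_cast
    linarith

/-- the sum of the products -/
theorem sum_prod (j m : ℕ) (a : Fin m → ℂ) :
    4 ^ j * Real.exp (-(4 * m)) ≤ ∑ x ∈ lv j, ∏ i, tt j (a i) x := by
  have h1 : ∀ x ∈ lv j, Real.exp (-(4 * (m : ℝ))) * (1 + (∑ i, Real.log (tt j (a i) x) + 4 * m)) ≤
      ∏ i, tt j (a i) x := by
    intro x _
    have h2 : ∏ i, tt j (a i) x = Real.exp (∑ i, Real.log (tt j (a i) x)) := by
      rw [Real.exp_sum]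
      exact Finset.prod_congr rfl fun i _ => (Real.exp_log (tt_pos _ _ _)).symm
    have h3 : Real.exp (∑ i, Real.log (tt j (a i) x)) =
        Real.exp (-(4 * (m : ℝ))) * Real.exp (∑ i, Real.log (tt j (a i) x) + 4 * m) := by
      rw [← Real.exp_add]
      congr 1
      ring
    rw [h2, h3]
    refine mul_le_mul_of_nonneg_left ?_ (Real.exp_pos _).le
    have h4 := Real.add_one_le_exp (∑ i, Real.log (tt j (a i) x) + 4 * (m : ℝ))
    linarith
  refine le_trans ?_ (Finset.sum_le_sum h1)
  rw [← Finset.mul_sum, mul_comm]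
  refine mul_le_mul_of_nonneg_left ?_ (Real.exp_pos _).le
  rw [Finset.sum_add_distrib, Finset.sum_add_distrib, card_lv, Finset.sum_comm]
  have h5 : -(4 * 4 ^ j : ℝ) * m ≤ ∑ i : Fin m, ∑ x ∈ lv j, Real.log (tt j (a i) x) := by
    refine le_trans (le_of_eq ?_) (Finset.sum_le_sum fun i _ => mean_log j (a i))
    rw [Finset.sum_const, Finset.card_univ, Fintype.card_fin, nsmul_eq_mul]
    ring
  have h6 : ∑ _x ∈ lv j, (4 * (m : ℝ)) = 4 * m * 4 ^ j := by
    rw [← card_lv j, Finset.mul_sum]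
    simp
  rw [h6]
  linarith

theorem phi_ctr_ge (d : D) : 47 / 100 ≤ dist (phi d ctr) ctr := by
  refine le_of_pow_le_pow_left₀ (n := 2) (by norm_num) dist_nonneg ?_
  rw [dist_sq]
  have h3re : (phi d ctr).re = (1 / 2 + 2 * (if d.1 then 1 else 0)) / 3 := by
    unfold phi dig ctr
    simp
  have h3im : (phi d ctr).im = (1 / 2 + 2 * (if d.2 then 1 else 0)) / 3 := by
    unfold phi dig ctr
    simp
  rw [h3re, h3im]
  simp only [ctr]
  rcases d with ⟨a, b⟩
  cases a <;> cases b <;> norm_num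

end AVS_

open AVS_ in
theorem p_AVS (hLGA : T_LGA) (hPRD : T_PRD) : T_AVS := by
  obtain ⟨C, hC, hL⟩ := hLGA (8 / 9) (by norm_num) (by norm_num)
  refine ⟨C + 4 * C, by linarith, ?_⟩
  intro G M μ y₀ j hG hM hμ hy hGy
  have hyM : ‖G y₀‖ ≤ M := hM y₀ (by rw [mem_ball]; linarith)
  have hM0 : 0 < M := by linarith
  have hr : (0 : ℝ) < 5 / 100 * (1 / 3) ^ j := by positivity
  obtain ⟨m, a, hm, hlow⟩ := hL ctr (9 / 10) M μ G y₀ (by norm_num) hμ hG hM (by linarith) hGy
  choose zz hz1 hz2 using fun x : List D => hPRD m a (Phi x ctr) (5 / 100 * (1 / 3) ^ j) hr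
  refine ⟨zz, fun x hx => ?_, ?_⟩
  · have hxl := mem_lv.1 hx
    have h1 : dist (Psi x (zz x)) ctr = 5 / 100 := by
      have h2 := dist_Psi x (zz x) (Phi x ctr)
      rw [Psi_Phi, hz1, hxl] at h2
      rw [h2]
      have h3 : (3 : ℝ) ^ j * (1 / 3) ^ j = 1 := by
        rw [← mul_pow]
        norm_num
      linear_combination (5 / 100 : ℝ) * h3
    refine ⟨by rw [h1]; norm_num, fun d => ?_⟩
    rw [dist_psi_ctr]
    have h4 := phi_ctr_ge d
    have h5 := dist_triangle (phi d ctr) (Psi x (zz x)) ctr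
    rw [dist_comm (phi d ctr) (Psi x (zz x))] at h5
    linarith
  · set A : ℝ := M * (μ / M) ^ C with hA
    have hA0 : 0 < A := by positivity
    have h1 : ∀ x ∈ lv j, A * ∏ i, tt j (a i) x ≤ ‖G (zz x)‖ := by
      intro x _
      have h2 : dist (zz x) ctr ≤ 8 / 9 * (9 / 10) := by
        have h3 := dist_triangle (zz x) (Phi x ctr) ctr
        rw [hz1] at h3
        have h4 := GEO_.near x
        have h5 : (0 : ℝ) < (1 / 3) ^ x.length := by positivity
        have h6 : ((1 : ℝ) / 3) ^ j ≤ 1 := pow_le_one₀ (by norm_num) (by norm_num)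
        linarith
      refine le_trans ?_ (hlow (zz x) h2)
      refine mul_le_mul_of_nonneg_left ?_ hA0.le
      have e1 : ∏ i, tt j (a i) x =
          (∏ i, max (dist (Phi x ctr) (a i)) (5 / 100 * (1 / 3) ^ j)) / (9 / 5) ^ m := by
        unfold tt
        rw [Finset.prod_div_distrib, Finset.prod_const, Finset.card_univ, Fintype.card_fin]
      have e2 : ∏ i, (dist (zz x) (a i) / (2 * (9 / 10))) =
          (∏ i, dist (zz x) (a i)) / (9 / 5) ^ m := by
        rw [Finset.prod_div_distrib, Finset.prod_const, Finset.card_univ, Fintype.card_fin]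
        norm_num
      rw [e1, e2]
      exact div_le_div_of_nonneg_right (hz2 x) (by positivity)
    refine le_trans ?_ (Finset.sum_le_sum h1)
    rw [← Finset.mul_sum]
    have h7 := mul_le_mul_of_nonneg_left (sum_prod j m a) hA0.le
    refine le_trans ?_ h7
    have hq : 0 < μ / M := by positivity
    have h8 : (μ / M) ^ (C + 4 * C) = (μ / M) ^ C * (μ / M) ^ (4 * C) := Real.rpow_add hq _ _
    have h9 : (μ / M) ^ (4 * C) ≤ Real.exp (-(4 * m)) := by
      rw [Real.rpow_def_of_pos hq]
      refine Real.exp_le_exp.2 ?_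
      have h10 : Real.log (μ / M) = -Real.log (M / μ) := by
        rw [← Real.log_inv, inv_div]
      rw [h10]
      linarith
    rw [h8, hA]
    calc 4 ^ j * (M * ((μ / M) ^ C * (μ / M) ^ (4 * C)))
        ≤ 4 ^ j * (M * ((μ / M) ^ C * Real.exp (-(4 * m)))) := by gcongr
      _ = M * (μ / M) ^ C * (4 ^ j * Real.exp (-(4 * m))) := by ring

end Pool.Agent.CorA
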