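import Pool.Agent.CorA.Targets

/-!
# ALB, target PRD: a product of distances is large somewhere on a circle
-/

set_option autoImplicit false

namespace Pool.Agent.CorA

open Complex Metric Set Filter Topology MeasureTheory
open Pool.Corona91698f Pool.Agent.CorE
open scoped Real BoundedContinuousFunction

namespace PRD_

open Classical in
/-- the factor of `a` -/
noncomputable def q (x : ℂ) (r : ℝ) (a z : ℂ) : ℂ :=
  if r ≤ dist x a then z - a else (r : ℂ) - (starRingEnd ℂ) (a - x) * (z - x) / r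

theorem q_centre {x : ℂ} {r : ℝ} (hr : 0 < r) (a : ℂ) : ‖q x r a x‖ = max (dist x a) r := by
  unfold q
  split_ifs with h
  · rw [max_eq_left h, Complex.dist_eq]
  · push Not at h
    rw [max_eq_right h.le]
    simp [abs_of_pos hr]

theorem q_sphere {x : ℂ} {r : ℝ} (hr : 0 < r) (a : ℂ) {z : ℂ} (hz : dist z x = r) :
    ‖q x r a z‖ = dist z a := by
  unfold q
  split_ifs with h
  · rw [Complex.dist_eq]
  · have hr0 : (r : ℂ) ≠ 0 := by exact_mod_cast hr.ne'
    have hw : ‖z - x‖ = r := by rw [← Complex.dist_eq, hz]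
    have h1 : (z - x) * (starRingEnd ℂ) (z - x) = (r : ℂ) ^ 2 := by
      rw [Complex.mul_conj, Complex.normSq_eq_norm_sq, hw]
      push_cast
      ring
    have h2 : ((r : ℂ) - (starRingEnd ℂ) (a - x) * (z - x) / r) *
        ((starRingEnd ℂ) (z - x) / r) = (starRingEnd ℂ) (z - a) := by
      have h3 : (starRingEnd ℂ) (z - a) = (starRingEnd ℂ) (z - x) - (starRingEnd ℂ) (a - x) := by
        rw [← map_sub]
        congr 1
        ring
      rw [h3]
      calc ((r : ℂ) - (starRingEnd ℂ) (a - x) * (z - x) / r) * ((starRingEnd ℂ) (z - x) / r)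
          = (r / r) * (starRingEnd ℂ) (z - x) -
            (starRingEnd ℂ) (a - x) * ((z - x) * (starRingEnd ℂ) (z - x)) / r ^ 2 := by ring
        _ = (starRingEnd ℂ) (z - x) - (starRingEnd ℂ) (a - x) := by
            rw [h1, div_self hr0, one_mul, mul_div_assoc, div_self (pow_ne_zero 2 hr0), mul_one]
    have h4 : ‖(starRingEnd ℂ) (z - x) / r‖ = 1 := by
      rw [norm_div, RCLike.norm_conj, hw, Complex.norm_real, Real.norm_of_nonneg hr.le,
        div_self hr.ne']
    calc ‖(r : ℂ) - (starRingEnd ℂ) (a - x) * (z - x) / r‖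
        = ‖(r : ℂ) - (starRingEnd ℂ) (a - x) * (z - x) / r‖ *
          ‖(starRingEnd ℂ) (z - x) / r‖ := by rw [h4, mul_one]
      _ = ‖(starRingEnd ℂ) (z - a)‖ := by rw [← norm_mul, h2]
      _ = dist z a := by rw [RCLike.norm_conj, Complex.dist_eq]

theorem q_diff (x : ℂ) (r : ℝ) (a : ℂ) : Differentiable ℂ (q x r a) := by
  unfold q
  split_ifs with h
  · fun_prop
  · fun_prop

end PRD_

open PRD_ in
theorem p_PRD : T_PRD := by
  intro m a x r hr
  obtain ⟨Q, hQ⟩ : ∃ Q : ℂ → ℂ, Q = fun z => ∏ i, q x r (a i) z := ⟨_, rfl⟩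
  have hd : Differentiable ℂ Q := by
    rw [hQ]
    refine Differentiable.fun_finsetProd fun i _ => q_diff x r (a i)
  have hne : (sphere x r).Nonempty := (NormedSpace.sphere_nonempty).2 hr.le
  obtain ⟨z, hz, hmax⟩ := (isCompact_sphere x r).exists_isMaxOn hne
    (hd.continuous.norm.continuousOn (s := sphere x r))
  refine ⟨z, hz, ?_⟩
  have h1 : ‖Q x‖ ≤ ‖Q z‖ := by
    refine Complex.norm_le_of_forall_mem_frontier_norm_le (isBounded_ball (x := x) (r := r))
      hd.diffContOnCl (fun y hy => ?_) (subset_closure (mem_ball_self hr))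
    rw [frontier_ball x hr.ne'] at hy
    exact hmax hy
  have h2 : ‖Q x‖ = ∏ i, max (dist x (a i)) r := by
    rw [hQ, norm_prod]
    exact Finset.prod_congr rfl fun i _ => q_centre hr (a i)
  have h3 : ‖Q z‖ = ∏ i, dist z (a i) := by
    rw [hQ, norm_prod]
    exact Finset.prod_congr rfl fun i _ => q_sphere hr (a i) hz
  rw [← h2, ← h3]
  exact h1

end Pool.Agent.CorA
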