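import Pool.Agent.CorA.Targets

/-!
# ALB-DCM: Laurent decomposition with several holes and bounds
-/

set_option autoImplicit false

namespace Pool.Agent.CorA

open Complex Metric Set Filter Topology MeasureTheory
open Pool.Corona91698f Pool.Agent.CorE
open scoped Real BoundedContinuousFunction

namespace DCM_

/-! ### geometry of the tree -/

theorem dPsi (v : List D) (z : ℂ) : dist (Psi v z) ctr = 3 ^ v.length * dist z (cc v) := by
  have h := dist_Psi v z (Phi v ctr)
  rw [Psi_Phi] at h
  exact h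

theorem rr (n : ℕ) : (3 : ℝ) ^ n * (1 / 3) ^ n = 1 := by
  rw [← mul_pow]
  norm_num

theorem lt_iff (v : List D) (s : ℝ) (z : ℂ) :
    s * (1 / 3) ^ v.length < dist z (cc v) ↔ s < dist (Psi v z) ctr := by
  have h1 := rr v.length
  have h3 : (0 : ℝ) < 3 ^ v.length := by positivity
  have hr : (0 : ℝ) < (1 / 3) ^ v.length := by positivity
  rw [dPsi]
  constructor
  · intro h
    calc s = 3 ^ v.length * (s * (1 / 3) ^ v.length) := by linear_combination (-s) * h1
      _ < 3 ^ v.length * dist z (cc v) := mul_lt_mul_of_pos_left h h3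
  · intro h
    calc s * (1 / 3) ^ v.length < 3 ^ v.length * dist z (cc v) * (1 / 3) ^ v.length :=
          mul_lt_mul_of_pos_right h hr
      _ = dist z (cc v) := by linear_combination (dist z (cc v)) * h1

theorem gt_iff (v : List D) (s : ℝ) (z : ℂ) :
    dist z (cc v) < s * (1 / 3) ^ v.length ↔ dist (Psi v z) ctr < s := by
  have h1 := rr v.length
  have h3 : (0 : ℝ) < 3 ^ v.length := by positivity
  have hr : (0 : ℝ) < (1 / 3) ^ v.length := by positivity
  rw [dPsi]
  constructor
  · intro h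
    calc 3 ^ v.length * dist z (cc v) < 3 ^ v.length * (s * (1 / 3) ^ v.length) :=
          mul_lt_mul_of_pos_left h h3
      _ = s := by linear_combination s * h1
  · intro h
    calc dist z (cc v) = 3 ^ v.length * dist z (cc v) * (1 / 3) ^ v.length := by
          linear_combination (-dist z (cc v)) * h1
      _ < s * (1 / 3) ^ v.length := mul_lt_mul_of_pos_right h hr

theorem down {t : ℝ} (ht : 71 / 100 ≤ t) (y : List D) : ∀ w : ℂ, t ≤ dist w ctr →
    t ≤ dist (Psi y w) ctr := by
  induction y with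
  | nil => intro w h; simpa using h
  | cons d y ih =>
    intro w h
    rw [Psi_cons]
    refine ih _ ?_
    have := dist_psi_ge d w
    linarith

theorem down' {t : ℝ} (ht : 71 / 100 ≤ t) (y : List D) {w : ℂ} (h : t < dist w ctr) :
    t < dist (Psi y w) ctr := by
  have h1 := down (t := dist w ctr) (by linarith) y w le_rfl
  linarith

theorem up {w : ℂ} (y : List D) (h : dist (Psi y w) ctr < 1) : dist w ctr < 1 := by
  by_contra hc
  push Not at hc
  have := down (t := 1) (by norm_num) y w hc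
  linarith

theorem split (u : List D) : ∀ (q : List D) (z : ℂ), dist (Psi u z) ctr < 1 →
    u.length ≤ q.length → (∃ y, q = u ++ y) ∨ 1 ≤ dist (Psi q z) ctr := by
  induction u with
  | nil => intro q z _ _; exact Or.inl ⟨q, rfl⟩
  | cons e u ih =>
    intro q z h hl
    cases q with
    | nil => simp at hl
    | cons e' q =>
      rw [Psi_cons] at h
      rw [Psi_cons]
      by_cases hee : e' = e
      · subst hee
        rcases ih q (psi e' z) h (by simpa using hl) with ⟨y, hy⟩ | h1
        · exact Or.inl ⟨y, by rw [hy]; rfl⟩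
        · exact Or.inr h1
      · right
        refine down (by norm_num) q _ ?_
        by_contra hc
        push Not at hc
        exact hee (psi_disj hc (up u h))

/-- the annulus around a square -/
theorem ann {N : ℕ} {v : List D} (hv : v.length < N) {z : ℂ} (h1 : 73 / 100 < dist (Psi v z) ctr)
    (h2 : dist (Psi v z) ctr < 1) : z ∈ OmR (73 / 100) N := by
  intro q hq
  rw [mem_lv] at hq
  rcases split v q z h2 (by omega) with ⟨y, hy⟩ | h3
  · rw [hy, Psi_append]
    exact down' (by norm_num) y h1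
  · linarith

/-- the region between the square of `u` and those of the words `u ++ x` -/
theorem reg {N k : ℕ} {u : List D} (hu : u.length + k < N) {z : ℂ}
    (h1 : dist (Psi u z) ctr < 1) (h2 : ∀ x ∈ lv k, 735 / 1000 < dist (Psi (u ++ x) z) ctr) :
    z ∈ OmR (73 / 100) N := by
  intro q hq
  rw [mem_lv] at hq
  rcases split u q z h1 (by omega) with ⟨y, hy⟩ | h3
  · have hyl : u.length + y.length = N := by rw [← hq, hy, List.length_append]
    have e : q = (u ++ y.take k) ++ y.drop k := by
      rw [hy, List.append_assoc, List.take_append_drop]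
    have h4 := h2 (y.take k) (by rw [mem_lv, List.length_take]; omega)
    rw [e, Psi_append]
    refine down' (by norm_num) _ ?_
    linarith
  · linarith

theorem other {k : ℕ} {u x x' : List D} (hx : x ∈ lv k) (hx' : x' ∈ lv k) {z : ℂ}
    (h : dist (Psi (u ++ x) z) ctr < 1) (h' : dist (Psi (u ++ x') z) ctr < 1) : x = x' := by
  rw [mem_lv] at hx hx'
  rcases split (u ++ x) (u ++ x') z h (by simp [hx, hx']) with ⟨y, hy⟩ | h3
  · have hl : y.length = 0 := by
      have := congrArg List.length hy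
      simp only [List.length_append] at this
      omega
    rw [List.length_eq_zero_iff] at hl
    rw [hl, List.append_nil] at hy
    exact (List.append_cancel_left hy).symm
  · linarith

/-! ### one hole -/

/-- the outer part -/
noncomputable def HV (v : List D) (H : ℂ → ℂ) (z : ℂ) : ℂ :=
  -((2 * π * I : ℂ)⁻¹ • ∮ ζ in C(cc v, 735 / 1000 * (1 / 3) ^ v.length), (ζ - z)⁻¹ • H ζ)

/-- the inner part -/
noncomputable def HP (v : List D) (H : ℂ → ℂ) (z : ℂ) : ℂ :=
  (2 * π * I : ℂ)⁻¹ • ∮ ζ in C(cc v, 9 / 10 * (1 / 3) ^ v.length), (ζ - z)⁻¹ • H ζ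

theorem isOpen_OmR (r : ℝ) (N : ℕ) : IsOpen (OmR r N) := by
  have : OmR r N = ⋂ q ∈ lv N, {z : ℂ | r < dist (Psi q z) ctr} := by
    ext z
    simp [OmR]
  rw [this]
  exact isOpen_biInter_finset fun q _ =>
    isOpen_lt continuous_const ((differentiable_Psi q).continuous.dist continuous_const)

theorem sph {v : List D} {s : ℝ} {ζ : ℂ} (h : ζ ∈ sphere (cc v) (s * (1 / 3) ^ v.length)) :
    dist (Psi v ζ) ctr = s := by
  rw [mem_sphere] at h
  rw [dPsi, h]
  linear_combination s * rr v.length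

theorem contS {N : ℕ} {v : List D} (hv : v.length < N) {H : ℂ → ℂ}
    (hH : DifferentiableOn ℂ H (OmR (73 / 100) N)) {s : ℝ} (h1 : 73 / 100 < s) (h2 : s < 1) :
    ContinuousOn H (sphere (cc v) (s * (1 / 3) ^ v.length)) := by
  refine hH.continuousOn.mono fun ζ hζ => ?_
  have := sph hζ
  exact ann hv (by linarith) (by linarith)

theorem HV_diff {N : ℕ} {v : List D} (hv : v.length < N) {H : ℂ → ℂ}
    (hH : DifferentiableOn ℂ H (OmR (73 / 100) N)) {z : ℂ}
    (hz : 735 / 1000 < dist (Psi v z) ctr) : DifferentiableAt ℂ (HV v H) z := by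
  have h1 := contS hv hH (s := 735 / 1000) (by norm_num) (by norm_num)
  have h2 : z ∉ sphere (cc v) (735 / 1000 * (1 / 3) ^ v.length) := by
    intro h
    have := sph h
    linarith
  exact ((differentiableAt_cauchyInt (by positivity) h1 h2).const_smul
    ((2 * π * I : ℂ)⁻¹)).neg

theorem HP_diff {N : ℕ} {v : List D} (hv : v.length < N) {H : ℂ → ℂ}
    (hH : DifferentiableOn ℂ H (OmR (73 / 100) N)) {z : ℂ}
    (hz : dist (Psi v z) ctr < 9 / 10) : DifferentiableAt ℂ (HP v H) z := by
  have h1 := contS hv hH (s := 9 / 10) (by norm_num) (by norm_num)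
  have h2 : z ∉ sphere (cc v) (9 / 10 * (1 / 3) ^ v.length) := by
    intro h
    have := sph h
    linarith
  exact (differentiableAt_cauchyInt (by positivity) h1 h2).const_smul
    ((2 * π * I : ℂ)⁻¹)

theorem HVP {N : ℕ} {v : List D} (hv : v.length < N) {H : ℂ → ℂ}
    (hH : DifferentiableOn ℂ H (OmR (73 / 100) N)) {z : ℂ}
    (h1 : 735 / 1000 < dist (Psi v z) ctr) (h2 : dist (Psi v z) ctr < 9 / 10) :
    H z = HP v H z + HV v H z := by
  have hr : (0 : ℝ) < (1 / 3) ^ v.length := by positivity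
  have hw : DifferentiableOn ℂ H {z | 73 / 100 * (1 / 3) ^ v.length < dist z (cc v) ∧
      dist z (cc v) < 1 * (1 / 3) ^ v.length} := by
    refine hH.mono fun y hy => ?_
    exact ann hv ((lt_iff v _ y).1 hy.1) ((gt_iff v _ y).1 hy.2)
  have h := cauchy_annulus (c := cc v) (r₁ := 73 / 100 * (1 / 3) ^ v.length)
    (ra := 735 / 1000 * (1 / 3) ^ v.length) (rb := 9 / 10 * (1 / 3) ^ v.length)
    (r₂ := 1 * (1 / 3) ^ v.length) (by positivity) (by linarith) (by linarith) hw
    ((lt_iff v _ z).2 h1) ((gt_iff v _ z).2 h2)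
  have h2pi : (2 * π * I : ℂ) ≠ 0 := by
    simp [Real.pi_ne_zero]
  have h6 : H z = (2 * π * I : ℂ)⁻¹ • ((∮ ζ in C(cc v, 9 / 10 * (1 / 3) ^ v.length),
      (ζ - z)⁻¹ • H ζ) - (∮ ζ in C(cc v, 735 / 1000 * (1 / 3) ^ v.length),
      (ζ - z)⁻¹ • H ζ)) := by
    rw [h, smul_smul, inv_mul_cancel₀ h2pi, one_smul]
  rw [h6, smul_sub, HP, HV, sub_eq_add_neg]

theorem cm_eq {N : ℕ} {v : List D} (hv : v.length < N) {H : ℂ → ℂ}
    (hH : DifferentiableOn ℂ H (OmR (73 / 100) N)) :
    (∮ ζ in C(cc v, 735 / 1000 * (1 / 3) ^ v.length), H ζ) = (2 * π * I : ℂ) * cm v H := by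
  have hr : (0 : ℝ) < (1 / 3) ^ v.length := by positivity
  have h2pi : (2 * π * I : ℂ) ≠ 0 := by
    simp [Real.pi_ne_zero]
  rw [cm, ← mul_assoc, mul_inv_cancel₀ h2pi, one_mul]
  have key : ∀ x : ℂ, 735 / 1000 * (1 / 3) ^ v.length ≤ dist x (cc v) →
      dist x (cc v) ≤ 77 / 100 * (1 / 3) ^ v.length → DifferentiableAt ℂ H x := by
    intro x h1 h2
    refine hH.differentiableAt ((isOpen_OmR _ N).mem_nhds (ann hv ?_ ?_))
    · exact (lt_iff v _ x).1 (by linarith)
    · exact (gt_iff v _ x).1 (by linarith)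
  refine (circleIntegral_eq_of_differentiable_on_annulus_off_countable (c := cc v)
    (by positivity) (by linarith) (f := H) (s := ∅) countable_empty ?_ ?_).symm
  · intro x hx
    exact (key x (not_lt.1 hx.2) hx.1).continuousAt.continuousWithinAt
  · intro x hx
    exact key x (not_le.1 hx.1.2).le (mem_ball.1 hx.1.1).le

theorem bound {N : ℕ} {v : List D} (hv : v.length < N) {H : ℂ → ℂ}
    (hH : DifferentiableOn ℂ H (OmR (73 / 100) N)) {A : ℝ}
    (hA : ∀ z, Psi v z ∈ nodeX → ‖H z‖ ≤ 3 ^ v.length * A) {z : ℂ}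
    (hz : 74 / 100 ≤ dist (Psi v z) ctr) :
    ‖HV v H z‖ ≤ 1000 * (‖cm v H‖ / dist z (cc v) +
      3 ^ v.length * A / (1 + dist (Psi v z) ctr) ^ 2) := by
  obtain ⟨r, hr⟩ : ∃ r : ℝ, r = (1 / 3) ^ v.length := ⟨_, rfl⟩
  obtain ⟨t, ht⟩ : ∃ t : ℝ, t = dist (Psi v z) ctr := ⟨_, rfl⟩
  obtain ⟨K, hK⟩ : ∃ K : ℝ, K = 3 ^ v.length := ⟨_, rfl⟩
  have hr0 : 0 < r := by rw [hr]; positivity
  have hK0 : 0 < K := by rw [hK]; positivity
  have hKr : K * r = 1 := by rw [hK, hr]; exact rr _
  have hd : dist z (cc v) = r * t := by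
    rw [ht, dPsi, ← hK]
    linear_combination (-dist z (cc v)) * hKr
  have hd' : ‖z - cc v‖ = r * t := by rw [← dist_eq_norm, hd]
  have ht0 : 74 / 100 ≤ t := by rw [ht]; exact hz
  have hS : ∀ ζ ∈ sphere (cc v) (735 / 1000 * (1 / 3) ^ v.length), ‖H ζ‖ ≤ K * A := by
    intro ζ hζ
    have h1 := sph hζ
    rw [hK]
    refine hA ζ ⟨by rw [h1]; norm_num, fun d => ?_⟩
    have := dist_psi_ge d (Psi v ζ)
    rw [h1] at this
    linarith
  have hA0 : 0 ≤ K * A := by
    have h1 : cc v + (735 / 1000 * (1 / 3) ^ v.length : ℝ) ∈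
        sphere (cc v) (735 / 1000 * (1 / 3) ^ v.length) := by
      rw [mem_sphere, dist_eq_norm, add_sub_cancel_left, Complex.norm_real, Real.norm_eq_abs,
        abs_of_pos (by positivity)]
    exact (norm_nonneg _).trans (hS _ h1)
  have hc := contS hv hH (s := 735 / 1000) (by norm_num) (by norm_num)
  have hzc : z - cc v ≠ 0 := by
    intro h
    rw [h, norm_zero] at hd'
    nlinarith
  have hfar : ∀ ζ ∈ sphere (cc v) (735 / 1000 * (1 / 3) ^ v.length),
      r * ((1 + t) / 400) ≤ ‖z - ζ‖ := by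
    intro ζ hζ
    rw [mem_sphere, ← hr] at hζ
    have h1 : dist z (cc v) ≤ dist z ζ + dist ζ (cc v) := dist_triangle _ _ _
    rw [← dist_eq_norm]
    nlinarith
  have hne : ∀ ζ ∈ sphere (cc v) (735 / 1000 * (1 / 3) ^ v.length), z - ζ ≠ 0 := by
    intro ζ hζ h
    have := hfar ζ hζ
    rw [h, norm_zero] at this
    have h2 : 0 < r * ((1 + t) / 400) := by positivity
    linarith
  -- splitting of the kernel
  have e1 : HV v H z = (z - cc v)⁻¹ * cm v H +
      (2 * π * I : ℂ)⁻¹ • ∮ ζ in C(cc v, 735 / 1000 * (1 / 3) ^ v.length),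
        ((ζ - cc v) / ((z - cc v) * (z - ζ))) • H ζ := by
    have h2pi : (2 * π * I : ℂ) ≠ 0 := by
      simp [Real.pi_ne_zero]
    have e2 : cm v H = (2 * π * I : ℂ)⁻¹ •
        ∮ ζ in C(cc v, 735 / 1000 * (1 / 3) ^ v.length), H ζ := by
      rw [cm_eq hv hH, smul_eq_mul, ← mul_assoc, inv_mul_cancel₀ h2pi, one_mul]
    have e3 : (z - cc v)⁻¹ * cm v H = (2 * π * I : ℂ)⁻¹ •
        ∮ ζ in C(cc v, 735 / 1000 * (1 / 3) ^ v.length), (z - cc v)⁻¹ • H ζ := by
      rw [circleIntegral.integral_smul, e2, smul_comm, smul_eq_mul (z - cc v)⁻¹]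
    have i1 : CircleIntegrable (fun ζ => (z - cc v)⁻¹ • H ζ) (cc v)
        (735 / 1000 * (1 / 3) ^ v.length) := by
      refine ContinuousOn.circleIntegrable (by positivity) ?_
      exact hc.const_smul ((z - cc v)⁻¹)
    have i2 : CircleIntegrable (fun ζ => ((ζ - cc v) / ((z - cc v) * (z - ζ))) • H ζ) (cc v)
        (735 / 1000 * (1 / 3) ^ v.length) := by
      refine ContinuousOn.circleIntegrable (by positivity) ?_
      have j1 : ContinuousOn (fun ζ : ℂ => (ζ - cc v) / ((z - cc v) * (z - ζ)))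
          (sphere (cc v) (735 / 1000 * (1 / 3) ^ v.length)) := by
        refine ContinuousOn.div (continuousOn_id.sub continuousOn_const)
          (continuousOn_const.mul (continuousOn_const.sub continuousOn_id)) ?_
        intro ζ hζ
        exact mul_ne_zero hzc (hne ζ hζ)
      exact j1.smul hc
    rw [e3, ← smul_add, ← circleIntegral.integral_add i1 i2, HV, ← smul_neg]
    congr 1
    have e4 : -(∮ ζ in C(cc v, 735 / 1000 * (1 / 3) ^ v.length), (ζ - z)⁻¹ • H ζ) =
        ∮ ζ in C(cc v, 735 / 1000 * (1 / 3) ^ v.length), (-1 : ℂ) • ((ζ - z)⁻¹ • H ζ) := by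
      rw [circleIntegral.integral_smul, neg_one_smul]
    rw [e4]
    refine circleIntegral.integral_congr (by positivity) fun ζ hζ => ?_
    have h1 := hne ζ hζ
    have h2 : ζ - z ≠ 0 := by
      intro h
      apply h1
      linear_combination -h
    simp only [smul_eq_mul]
    field_simp
    ring
  have h5 : ‖(2 * π * I : ℂ)⁻¹ • ∮ ζ in C(cc v, 735 / 1000 * (1 / 3) ^ v.length),
      ((ζ - cc v) / ((z - cc v) * (z - ζ))) • H ζ‖ ≤ 1000 * (K * A / (1 + t) ^ 2) := by
    have h6 := circleIntegral.norm_two_pi_i_inv_smul_integral_le_of_norm_le_const (c := cc v)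
      (f := fun ζ => ((ζ - cc v) / ((z - cc v) * (z - ζ))) • H ζ)
      (R := 735 / 1000 * (1 / 3) ^ v.length)
      (C := 735 / 1000 * r / ((r * t) * (r * ((1 + t) / 400))) * (K * A)) (by positivity) (by
        intro ζ hζ
        rw [norm_smul, norm_div, norm_mul, hd']
        have h7 := hfar ζ hζ
        have h8 : ‖ζ - cc v‖ = 735 / 1000 * r := by
          rw [← dist_eq_norm, mem_sphere.1 hζ, hr]
        rw [h8]
        have h9 : 0 < r * ((1 + t) / 400) := by positivity
        have h10 : 0 < r * t := by positivity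
        refine mul_le_mul ?_ (hS ζ hζ) (norm_nonneg _) (by positivity)
        gcongr)
    refine h6.trans ?_
    rw [← hr]
    have h11 : 735 / 1000 * r * (735 / 1000 * r / ((r * t) * (r * ((1 + t) / 400))) * (K * A)) =
        (735 / 1000) ^ 2 * 400 * (K * A) / (t * (1 + t)) := by
      have : (1 + t) ≠ 0 := by positivity
      have : t ≠ 0 := by positivity
      field_simp
    rw [h11, ← mul_div_assoc, div_le_div_iff₀ (by positivity) (by positivity)]
    have h12 : (735 / 1000 : ℝ) ^ 2 * 400 * (1 + t) ^ 2 ≤ 1000 * (t * (1 + t)) := by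
      have : (735 / 1000 : ℝ) ^ 2 * 400 * (1 + t) ≤ 1000 * t := by
        norm_num
        linarith
      nlinarith
    calc (735 / 1000 : ℝ) ^ 2 * 400 * (K * A) * (1 + t) ^ 2 =
          (K * A) * ((735 / 1000) ^ 2 * 400 * (1 + t) ^ 2) := by ring
      _ ≤ (K * A) * (1000 * (t * (1 + t))) := mul_le_mul_of_nonneg_left h12 hA0
      _ = 1000 * (K * A) * (t * (1 + t)) := by ring
  rw [← hK, ← ht, e1]
  refine (norm_add_le _ _).trans ?_
  rw [norm_mul, norm_inv, hd', hd]
  have h13 : (r * t)⁻¹ * ‖cm v H‖ ≤ 1000 * (‖cm v H‖ / (r * t)) := by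
    rw [mul_comm, ← div_eq_mul_inv]
    have : 0 ≤ ‖cm v H‖ / (r * t) := by positivity
    linarith
  linarith

end DCM_

open DCM_ in
theorem p_DCM : T_DCM := by
  classical
  refine ⟨1000, by norm_num, ?_⟩
  intro N k u H A hN hH hA
  have hlen : ∀ x ∈ lv k, (u ++ x).length = u.length + k := by
    intro x hx
    rw [mem_lv] at hx
    rw [List.length_append, hx]
  have hlt : ∀ x ∈ lv k, (u ++ x).length < N := by
    intro x hx
    rw [hlen x hx]
    exact hN
  let base : ℂ → ℂ := fun z => H z - ∑ x ∈ lv k, HV (u ++ x) H z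
  let inner : List D → ℂ → ℂ := fun x z =>
    HP (u ++ x) H z - ∑ x' ∈ (lv k).erase x, HV (u ++ x') H z
  have claim1 : ∀ x ∈ lv k, ∀ z : ℂ, 735 / 1000 < dist (Psi (u ++ x) z) ctr →
      dist (Psi (u ++ x) z) ctr < 9 / 10 → base z = inner x z := by
    intro x hx z h1 h2
    have e1 := HVP (hlt x hx) hH h1 h2
    have e2 := Finset.add_sum_erase (lv k) (fun x => HV (u ++ x) H z) hx
    simp only [base, inner]
    rw [← e2, e1]
    ring
  let Ho : ℂ → ℂ := fun z =>
    if h : ∃ x ∈ lv k, dist (Psi (u ++ x) z) ctr < 4 / 5 then inner h.choose z else base z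
  have claim2 : ∀ x ∈ lv k, ∀ z : ℂ, dist (Psi (u ++ x) z) ctr < 9 / 10 → Ho z = inner x z := by
    intro x hx z hz
    by_cases h : ∃ x ∈ lv k, dist (Psi (u ++ x) z) ctr < 4 / 5
    · have h1 := h.choose_spec
      have h2 : h.choose = x := other (u := u) (z := z) h1.1 hx (by linarith [h1.2]) (by linarith)
      simp only [Ho]
      rw [dif_pos h, h2]
    · simp only [Ho]
      rw [dif_neg h]
      push Not at h
      exact claim1 x hx z (by have := h x hx; linarith) hz
  have claim3 : ∀ z : ℂ, (∀ x ∈ lv k, 735 / 1000 < dist (Psi (u ++ x) z) ctr) →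
      Ho z = base z := by
    intro z hz
    by_cases h : ∃ x ∈ lv k, dist (Psi (u ++ x) z) ctr < 4 / 5
    · have h1 := h.choose_spec
      simp only [Ho]
      rw [dif_pos h]
      exact (claim1 _ h1.1 z (hz _ h1.1) (by linarith [h1.2])).symm
    · simp only [Ho]
      rw [dif_neg h]
  refine ⟨Ho, fun x z => HV (u ++ x) H z, ?_, ?_, ?_⟩
  · intro z hz
    have hz1 : dist (Psi u z) ctr < 1 := hz
    refine DifferentiableAt.differentiableWithinAt ?_
    by_cases h : ∃ x ∈ lv k, dist (Psi (u ++ x) z) ctr < 9 / 10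
    · obtain ⟨x, hx, hd⟩ := h
      have hop : IsOpen {z : ℂ | dist (Psi (u ++ x) z) ctr < 9 / 10} :=
        isOpen_lt ((differentiable_Psi _).continuous.dist continuous_const) continuous_const
      have h1 : DifferentiableAt ℂ (inner x) z := by
        refine (HP_diff (hlt x hx) hH hd).sub (DifferentiableAt.fun_sum fun x' hx' => ?_)
        have hne := Finset.ne_of_mem_erase hx'
        have hx'' := Finset.mem_of_mem_erase hx'
        refine HV_diff (hlt x' hx'') hH ?_
        by_contra hlt'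
        push Not at hlt'
        exact hne (other hx'' hx (by linarith) (by linarith))
      refine h1.congr_of_eventuallyEq ?_
      filter_upwards [hop.mem_nhds hd] with y hy
      exact claim2 x hx y hy
    · push Not at h
      have hop : IsOpen {z : ℂ | ∀ x ∈ lv k, 735 / 1000 < dist (Psi (u ++ x) z) ctr} := by
        have : {z : ℂ | ∀ x ∈ lv k, 735 / 1000 < dist (Psi (u ++ x) z) ctr}
            = ⋂ x ∈ lv k, {z : ℂ | 735 / 1000 < dist (Psi (u ++ x) z) ctr} := by ext; simp
        rw [this]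
        exact isOpen_biInter_finset fun x _ =>
          isOpen_lt continuous_const ((differentiable_Psi _).continuous.dist continuous_const)
      have hzm : z ∈ {z : ℂ | ∀ x ∈ lv k, 735 / 1000 < dist (Psi (u ++ x) z) ctr} :=
        fun x hx => by
          have := h x hx
          linarith
      have hzO : z ∈ OmR (73 / 100) N := reg hN hz1 hzm
      have h1 : DifferentiableAt ℂ base z :=
        (hH.differentiableAt ((isOpen_OmR _ N).mem_nhds hzO)).sub
          (DifferentiableAt.fun_sum fun x hx => HV_diff (hlt x hx) hH (hzm x hx))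
      refine h1.congr_of_eventuallyEq ?_
      filter_upwards [hop.mem_nhds hzm] with y hy
      exact claim3 y hy
  · intro z _ h2
    rw [claim3 z h2]
    simp only [base]
    ring
  · intro x hx z hz
    have h1 := bound (hlt x hx) hH (A := A x) (fun y hy => by
      rw [hlen x hx]
      exact hA x hx y hy) hz
    rw [hlen x hx] at h1
    exact h1

end Pool.Agent.CorA
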