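import Pool.Agent.CorA.Targets

/-!
# Target GLL: the growth lemma
-/

set_option autoImplicit false

namespace Pool.Agent.CorA

open Complex Metric Set Filter Topology MeasureTheory
open Pool.Corona91698f Pool.Agent.CorE
open scoped Real BoundedContinuousFunction

namespace GLL_

theorem ge_Psi (x : List D) : ∀ y : ℂ, 74 / 100 ≤ dist y ctr → 74 / 100 ≤ dist (Psi x y) ctr := by
  induction x with
  | nil => exact fun y h => h
  | cons d x ih =>
    intro y h
    rw [Psi_cons]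
    refine ih _ ?_
    have := dist_psi_ge d y
    linarith

theorem le_of_Psi (x : List D) : ∀ y : ℂ, dist (Psi x y) ctr ≤ 8 / 10 → dist y ctr ≤ 8 / 10 := by
  induction x with
  | nil => exact fun y h => h
  | cons d x ih =>
    intro y h
    rw [Psi_cons] at h
    have h1 := ih _ h
    have := dist_le_of_psi d y
    linarith

theorem Phi_le (x : List D) : dist (Phi x ctr) ctr ≤ 7073 / 10000 := by
  induction x with
  | nil =>
    rw [Phi_nil, dist_self]
    norm_num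
  | cons d x ih =>
    rw [Phi_cons]
    have h1 := dist_triangle (phi d (Phi x ctr)) (phi d ctr) ctr
    have h2 := dist_phi' d (Phi x ctr) ctr
    have h3 := dist_phi_ctr d
    linarith

theorem ctr_nodeX : ctr ∈ nodeX := by
  refine ⟨by rw [dist_self]; norm_num, fun d => ?_⟩
  have h1 : dist (psi d ctr) ctr ^ 2 = 2 := by
    rw [dist_sq]
    rcases d with ⟨a, b⟩
    cases a <;> cases b <;> norm_num [psi, dig, ctr]
  have h2 : 0 ≤ dist (psi d ctr) ctr := dist_nonneg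
  nlinarith

/-- the distances to the squares below -/
theorem far {y : ℂ} (hy : ∀ e : D, 74 / 100 ≤ dist (psi e y) ctr) {x' : List D} (hx : x' ≠ []) :
    74 / 100 ≤ dist (Psi x' y) ctr ∧ 1 / 100 ≤ dist y (Phi x' ctr) := by
  obtain ⟨e, x, rfl⟩ := List.exists_cons_of_ne_nil hx
  rw [Psi_cons, Phi_cons]
  refine ⟨ge_Psi x _ (hy e), ?_⟩
  have h1 := dist_psi e y (phi e (Phi x ctr))
  rw [psi_phi] at h1
  have h2 := dist_triangle (psi e y) (Phi x ctr) ctr
  have h3 := Phi_le x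
  have h4 := hy e
  linarith

theorem dist_cc (u x' : List D) (z : ℂ) :
    dist z (cc (u ++ x')) = (1 / 3) ^ u.length * dist (Psi u z) (Phi x' ctr) := by
  have h1 := dist_Psi u z (cc (u ++ x'))
  rw [cc, Phi_append, Psi_Phi] at h1
  rw [h1, cc, Phi_append, ← mul_assoc, ← mul_pow]
  norm_num

theorem dist_app (u x' : List D) (z : ℂ) :
    dist (Psi (u ++ x') z) ctr = 3 ^ x'.length * dist (Psi u z) (Phi x' ctr) := by
  have h1 := dist_Psi x' (Psi u z) (Phi x' ctr)
  rw [Psi_Phi] at h1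
  rw [Psi_append, h1]

/-- the bound of one term near the square of `u` -/
theorem term {C : ℝ} (hC : 0 < C) {j : ℕ} (hj : 1 ≤ j) {u x' : List D} (hx : x' ∈ lv (2 * j))
    {z : ℂ} (hy : ∀ e : D, 74 / 100 ≤ dist (psi e (Psi u z)) ctr) {m b v : ℝ} (hm : 0 ≤ m)
    (hb : 0 ≤ b)
    (h : v ≤ C * (m / dist z (cc (u ++ x')) + 3 ^ (u.length + 2 * j) * b /
      (1 + dist (Psi (u ++ x') z) ctr) ^ 2)) :
    (1 / 3) ^ u.length * v ≤ 10000 * C * (m + (1 / 9) ^ j * b) := by
  have hl : x'.length = 2 * j := mem_lv.1 hx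
  have hne : x' ≠ [] := by
    rintro rfl
    simp at hl
    omega
  obtain ⟨-, h2⟩ := far hy hne
  rw [dist_cc, dist_app, hl] at h
  set t := dist (Psi u z) (Phi x' ctr) with ht
  have ht0 : 0 < t := by linarith
  have h3 : (0 : ℝ) < (1 / 3) ^ u.length := by positivity
  have e1 : m / ((1 / 3) ^ u.length * t) ≤ 3 ^ u.length * (100 * m) := by
    rw [div_le_iff₀ (by positivity)]
    have e2 : (3 : ℝ) ^ u.length * (100 * m) * ((1 / 3) ^ u.length * t) = m * (100 * t) := by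
      have : (3 : ℝ) ^ u.length * (1 / 3) ^ u.length = 1 := by
        rw [← mul_pow]
        norm_num
      calc _ = (3 : ℝ) ^ u.length * (1 / 3) ^ u.length * (m * (100 * t)) := by ring
        _ = _ := by rw [this, one_mul]
    rw [e2]
    nlinarith
  have e3 : 3 ^ (u.length + 2 * j) * b / (1 + 3 ^ (2 * j) * t) ^ 2 ≤
      3 ^ u.length * (10000 * ((1 / 9) ^ j * b)) := by
    rw [div_le_iff₀ (by positivity)]
    have e4 : ((3 : ℝ) ^ (2 * j)) ^ 2 * (1 / 10000) ≤ (1 + 3 ^ (2 * j) * t) ^ 2 := by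
      have e5 : (3 : ℝ) ^ (2 * j) * (1 / 100) ≤ 1 + 3 ^ (2 * j) * t := by
        have : (3 : ℝ) ^ (2 * j) * (1 / 100) ≤ 3 ^ (2 * j) * t := by gcongr
        linarith
      calc ((3 : ℝ) ^ (2 * j)) ^ 2 * (1 / 10000) = ((3 : ℝ) ^ (2 * j) * (1 / 100)) ^ 2 := by ring
        _ ≤ _ := by gcongr
    have e6 : (1 / 9 : ℝ) ^ j * 3 ^ (2 * j) = 1 := by
      rw [pow_mul, ← mul_pow]
      norm_num
    calc 3 ^ (u.length + 2 * j) * b = 3 ^ u.length * (10000 * ((1 / 9) ^ j * b)) *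
          (((3 : ℝ) ^ (2 * j)) ^ 2 * (1 / 10000)) := by
          rw [pow_add]
          calc (3 : ℝ) ^ u.length * 3 ^ (2 * j) * b =
              3 ^ u.length * b * 3 ^ (2 * j) * 1 := by ring
            _ = 3 ^ u.length * b * 3 ^ (2 * j) * ((1 / 9 : ℝ) ^ j * 3 ^ (2 * j)) := by rw [e6]
            _ = _ := by ring
      _ ≤ _ := by gcongr
  calc (1 / 3) ^ u.length * v
      ≤ (1 / 3) ^ u.length * (C * (m / ((1 / 3) ^ u.length * t) +
        3 ^ (u.length + 2 * j) * b / (1 + 3 ^ (2 * j) * t) ^ 2)) := by gcongr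
    _ ≤ (1 / 3) ^ u.length * (C * (3 ^ u.length * (100 * m) +
        3 ^ u.length * (10000 * ((1 / 9) ^ j * b)))) := by gcongr
    _ = ((1 / 3 : ℝ) ^ u.length * 3 ^ u.length) * (C * (100 * m + 10000 * ((1 / 9) ^ j * b))) := by
        ring
    _ = C * (100 * m + 10000 * ((1 / 9) ^ j * b)) := by
        rw [← mul_pow]
        norm_num
    _ ≤ _ := by
        have : 0 ≤ C * m := by positivity
        nlinarith

end GLL_

open GLL_

theorem p_GLL (hAVS : T_AVS) (hDCM : T_DCM) (hHVS : T_HVS) : T_GLL := by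
  obtain ⟨Ca, hCa, hA⟩ := hAVS
  obtain ⟨C₁, hC₁, hD⟩ := hDCM
  obtain ⟨Ch, hCh, hH⟩ := hHVS
  refine ⟨20000 * C₁ + (4 : ℝ) ^ Ca * (1 + C₁ * Ch) + Ca, ?_, ?_⟩
  · have : 0 < (4 : ℝ) ^ Ca := by positivity
    have : 0 < (4 : ℝ) ^ Ca * (1 + C₁ * Ch) := by positivity
    linarith
  intro N j p d H b A K y₀ hj hN hHd hb hA0 hK hy₀ hy₁ hbp
  obtain ⟨C, hCd⟩ : ∃ C : ℝ, C = 20000 * C₁ + (4 : ℝ) ^ Ca * (1 + C₁ * Ch) + Ca := ⟨_, rfl⟩
  rw [← hCd]
  have h4 : 0 < (4 : ℝ) ^ Ca := by positivity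
  have h4' : 0 < (4 : ℝ) ^ Ca * (1 + C₁ * Ch) := by positivity
  obtain ⟨u, hu⟩ : ∃ u : List D, u = p ++ [d] := ⟨_, rfl⟩
  have hul : u.length = p.length + 1 := by
    rw [hu]
    simp
  rw [← hu] at hy₀ ⊢
  rw [← hul] at hN hy₁
  have hb0 : ∀ v : List D, v.length < N → 0 ≤ b v := by
    intro v hv
    have h1 := hb v hv (Phi v ctr) (by rw [Psi_Phi]; exact ctr_nodeX)
    have h2 := (norm_nonneg _).trans h1
    have h3 : (0 : ℝ) < 3 ^ v.length := by positivity
    exact (mul_nonneg_iff_of_pos_left h3).1 h2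
  obtain ⟨Ho, Hv, hHo, hdec, hHv⟩ := hD N (2 * j) u H (fun x => b (u ++ x)) hN hHd (by
    intro x hx z hz
    have hl : (u ++ x).length = u.length + 2 * j := by
      rw [List.length_append, mem_lv.1 hx]
    have := hb (u ++ x) (by rw [hl]; exact hN) z hz
    rwa [hl] at this)
  have hb2 : ∀ x ∈ lv (2 * j), 0 ≤ b (u ++ x) := fun x hx =>
    hb0 _ (by rw [List.length_append, mem_lv.1 hx]; exact hN)
  have hb1 : ∀ x ∈ lv j, 0 ≤ b (u ++ x) := fun x hx =>
    hb0 _ (by rw [List.length_append, mem_lv.1 hx]; omega)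
  obtain ⟨S1, hS1⟩ : ∃ S : ℝ, S = ∑ x ∈ lv j, b (u ++ x) := ⟨_, rfl⟩
  obtain ⟨S2, hS2⟩ : ∃ S : ℝ, S = ∑ x ∈ lv (2 * j), b (u ++ x) := ⟨_, rfl⟩
  obtain ⟨S3, hS3⟩ : ∃ S : ℝ, S = ∑ x ∈ lv (2 * j), ‖cm (u ++ x) H‖ := ⟨_, rfl⟩
  rw [← hS1, ← hS2, ← hS3]
  have hS10 : 0 ≤ S1 := hS1 ▸ Finset.sum_nonneg hb1
  have hS20 : 0 ≤ S2 := hS2 ▸ Finset.sum_nonneg hb2
  have hS30 : 0 ≤ S3 := hS3 ▸ Finset.sum_nonneg fun x _ => norm_nonneg _
  have hKC : 1 ≤ K ^ C := Real.one_le_rpow hK (by rw [hCd]; positivity)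
  have hKCa : K ^ Ca ≤ K ^ C := Real.rpow_le_rpow_of_exponent_le hK (by rw [hCd]; linarith)
  have hT : 0 ≤ (3 / 4) ^ j * (S1 + S2) + S3 := by positivity
  -- the sum of the terms near the square of `u`
  have hsum : ∀ z : ℂ, (∀ e : D, 74 / 100 ≤ dist (psi e (Psi u z)) ctr) →
      (∀ x ∈ lv (2 * j), 74 / 100 ≤ dist (Psi (u ++ x) z) ctr) ∧
      (1 / 3) ^ u.length * ∑ x ∈ lv (2 * j), ‖Hv x z‖ ≤ 10000 * C₁ * (S3 + (1 / 9) ^ j * S2) := by
    intro z hz
    have hne : ∀ x ∈ lv (2 * j), x ≠ [] := by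
      rintro x hx rfl
      have := mem_lv.1 hx
      simp at this
      omega
    have h1 : ∀ x ∈ lv (2 * j), 74 / 100 ≤ dist (Psi (u ++ x) z) ctr := by
      intro x hx
      rw [Psi_append]
      exact (far hz (hne x hx)).1
    refine ⟨h1, ?_⟩
    rw [Finset.mul_sum, hS3, hS2, Finset.mul_sum, ← Finset.sum_add_distrib, Finset.mul_sum]
    exact Finset.sum_le_sum fun x hx => term hC₁ hj hx hz (norm_nonneg _) (hb2 x hx)
      (hHv x hx z (h1 x hx))
  have h9 : (1 / 9 : ℝ) ^ j ≤ (3 / 4) ^ j :=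
    pow_le_pow_left₀ (by norm_num) (by norm_num) j
  have hQ : S3 + (1 / 9) ^ j * S2 ≤ (3 / 4) ^ j * (S1 + S2) + S3 := by
    have e1 : (1 / 9 : ℝ) ^ j * S2 ≤ (3 / 4) ^ j * S2 := by gcongr
    have e2 : 0 ≤ (3 / 4 : ℝ) ^ j * S1 := by positivity
    linarith
  by_cases hcase : A / 2 ≤ 10000 * C₁ * (S3 + (1 / 9) ^ j * S2)
  · calc A ≤ 20000 * C₁ * (S3 + (1 / 9) ^ j * S2) := by linarith
      _ ≤ 20000 * C₁ * ((3 / 4) ^ j * (S1 + S2) + S3) := by gcongr
      _ ≤ C * K ^ C * ((3 / 4) ^ j * (S1 + S2) + S3) := by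
          refine mul_le_mul_of_nonneg_right ?_ hT
          have h0 : 0 ≤ C := by rw [hCd]; positivity
          have h01 : 20000 * C₁ ≤ C := by rw [hCd]; linarith
          have h02 : C * 1 ≤ C * K ^ C := mul_le_mul_of_nonneg_left hKC h0
          linarith
  · push Not at hcase
    obtain ⟨G, hG⟩ : ∃ G : ℂ → ℂ, G = fun y => (((1 / 3) ^ u.length : ℝ) : ℂ) * Ho (Phi u y) :=
      ⟨_, rfl⟩
    have hGn : ∀ y, ‖G y‖ = (1 / 3) ^ u.length * ‖Ho (Phi u y)‖ := by
      intro y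
      rw [hG]
      simp only [norm_mul, Complex.norm_real]
      rw [Real.norm_of_nonneg (by positivity)]
    have hGd : DifferentiableOn ℂ G {y | dist y ctr < 1} := by
      rw [hG]
      refine DifferentiableOn.const_mul ?_ _
      refine hHo.comp (differentiable_Phi u).differentiableOn fun y hy => ?_
      show dist (Psi u (Phi u y)) ctr < 1
      rw [Psi_Phi]
      exact hy
    -- the circle
    have hcir : ∀ y, dist y ctr = 9 / 10 → ‖G y‖ ≤ 2 * K * A := by
      intro y hy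
      obtain ⟨z, hz⟩ : ∃ z, z = Phi u y := ⟨_, rfl⟩
      have hPz : Psi u z = y := by rw [hz, Psi_Phi]
      have h1 : ∀ e : D, 74 / 100 ≤ dist (psi e (Psi u z)) ctr := by
        intro e
        rw [hPz]
        have := dist_psi_ge e y
        linarith
      obtain ⟨h2, h3⟩ := hsum z h1
      have h5 := hdec z (by rw [hPz, hy]; norm_num) (fun x hx => by
        have := h2 x hx
        linarith)
      have h6 : ‖Ho z‖ ≤ ‖H z‖ + ∑ x ∈ lv (2 * j), ‖Hv x z‖ := by
        have e1 : Ho z = H z - ∑ x ∈ lv (2 * j), Hv x z := by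
          rw [h5]
          ring
        rw [e1]
        exact (norm_sub_le _ _).trans (by gcongr; exact norm_sum_le _ _)
      have hw : Psi p z ∈ nodeX := by
        have e1 : psi d (Psi p z) = y := by
          rw [← Psi_snoc, ← hu, hPz]
        refine ⟨?_, fun e => ?_⟩
        · have := dist_le_of_psi d (Psi p z)
          rw [e1, hy] at this
          linarith
        · by_cases he : e = d
          · rw [he, e1, hy]
            norm_num
          · by_contra hcon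
            push Not at hcon
            exact he (psi_disj (z := Psi p z) (by linarith) (by rw [e1, hy]; norm_num))
      have h7 := hb p (by omega) z hw
      have h8 : (1 / 3) ^ u.length * ‖H z‖ ≤ K * A := by
        have e3 : (1 / 3 : ℝ) ^ u.length * 3 ^ p.length = 1 / 3 := by
          rw [hul, pow_succ, mul_assoc, mul_comm (1 / 3 : ℝ) (3 ^ p.length), ← mul_assoc,
            ← mul_pow]
          norm_num
        calc (1 / 3) ^ u.length * ‖H z‖ ≤ (1 / 3) ^ u.length * (3 ^ p.length * b p) := by gcongr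
          _ = (1 / 3 : ℝ) ^ u.length * 3 ^ p.length * b p := by ring
          _ = 1 / 3 * b p := by rw [e3]
          _ ≤ 1 / 3 * (K * A) := by gcongr
          _ ≤ K * A := by
              have : 0 ≤ K * A := by positivity
              linarith
      rw [hGn, ← hz]
      calc (1 / 3) ^ u.length * ‖Ho z‖
          ≤ (1 / 3) ^ u.length * (‖H z‖ + ∑ x ∈ lv (2 * j), ‖Hv x z‖) := by gcongr
        _ = (1 / 3) ^ u.length * ‖H z‖ + (1 / 3) ^ u.length * ∑ x ∈ lv (2 * j), ‖Hv x z‖ := by ring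
        _ ≤ K * A + A / 2 := by linarith
        _ ≤ 2 * K * A := by nlinarith
    have hball : ∀ y ∈ closedBall ctr (9 / 10 : ℝ), ‖G y‖ ≤ 2 * K * A := by
      intro y hy
      have e1 : closedBall ctr (9 / 10 : ℝ) ⊆ {y | dist y ctr < 1} := fun w hw => by
        rw [mem_closedBall] at hw
        show dist w ctr < 1
        linarith
      have e2 := (hGd.mono e1)
      refine Complex.norm_le_of_forall_mem_frontier_norm_le (U := ball ctr (9 / 10))
        isBounded_ball (hGd.diffContOnCl_ball e1) (fun w hw => ?_) ?_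
      · rw [frontier_ball _ (by norm_num), mem_sphere] at hw
        exact hcir w hw
      · rw [closure_ball _ (by norm_num)]
        exact hy
    -- the point
    have hpt : A / 2 ≤ ‖G (Psi u y₀)‖ := by
      obtain ⟨h2, h3⟩ := hsum y₀ hy₀.2
      have h5 := hdec y₀ (by have := hy₀.1; linarith) (fun x hx => by
        have := h2 x hx
        linarith)
      have h6 : ‖H y₀‖ ≤ ‖Ho y₀‖ + ∑ x ∈ lv (2 * j), ‖Hv x y₀‖ := by
        rw [h5]
        exact (norm_add_le _ _).trans (by gcongr; exact norm_sum_le _ _)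
      have h7 : A ≤ (1 / 3) ^ u.length * ‖H y₀‖ := by
        have e1 : (1 / 3 : ℝ) ^ u.length * 3 ^ u.length = 1 := by
          rw [← mul_pow]
          norm_num
        calc A = (1 / 3 : ℝ) ^ u.length * 3 ^ u.length * A := by rw [e1, one_mul]
          _ = (1 / 3) ^ u.length * (3 ^ u.length * A) := by ring
          _ ≤ _ := by gcongr
      rw [hGn, Phi_Psi]
      have h8 : (1 / 3 : ℝ) ^ u.length * ‖H y₀‖ ≤ (1 / 3) ^ u.length * ‖Ho y₀‖ +
          (1 / 3) ^ u.length * ∑ x ∈ lv (2 * j), ‖Hv x y₀‖ := by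
        rw [← mul_add]
        gcongr
      linarith
    have hM : 0 < 2 * K * A := by positivity
    obtain ⟨zz, hz1, hz2⟩ := hA G (2 * K * A) (A / 2) (Psi u y₀) j
      (hGd.mono fun w hw => by
        rw [mem_ball] at hw
        show dist w ctr < 1
        linarith)
      (fun w hw => hball w (ball_subset_closedBall hw)) (by positivity)
      (by have := hy₀.1; linarith) hpt
    obtain ⟨zx, hzx⟩ : ∃ zx : List D → ℂ, zx = fun x => Phi u (zz x) := ⟨_, rfl⟩
    have hzP : ∀ x, Psi u (zx x) = zz x := by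
      intro x
      rw [hzx]
      exact Psi_Phi u (zz x)
    have hzn : ∀ x ∈ lv j, Psi (u ++ x) (zx x) ∈ nodeX := by
      intro x hx
      rw [Psi_append, hzP]
      exact hz1 x hx
    have hone : ∀ x ∈ lv j, (1 / 3) ^ j * ‖G (zz x)‖ ≤ b (u ++ x) +
        ∑ x' ∈ lv (2 * j), (1 / 3) ^ (u.length + j) * ‖Hv x' (zx x)‖ := by
      intro x hx
      have h2 : ∀ x' ∈ lv (2 * j), 74 / 100 ≤ dist (Psi (u ++ x') (zx x)) ctr := fun x' hx' =>
        (hH j u x' zx hj hx' hzn).1 x hx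
      have h5 := hdec (zx x) (by
        have := le_of_Psi x (zz x) (by have := (hz1 x hx).1; linarith)
        rw [hzP]
        linarith) (fun x' hx' => by
          have := h2 x' hx'
          linarith)
      have h6 : ‖Ho (zx x)‖ ≤ ‖H (zx x)‖ + ∑ x' ∈ lv (2 * j), ‖Hv x' (zx x)‖ := by
        have e1 : Ho (zx x) = H (zx x) - ∑ x' ∈ lv (2 * j), Hv x' (zx x) := by
          rw [h5]
          ring
        rw [e1]
        exact (norm_sub_le _ _).trans (by gcongr; exact norm_sum_le _ _)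
      have hl : (u ++ x).length = u.length + j := by
        rw [List.length_append, mem_lv.1 hx]
      have h7 := hb (u ++ x) (by rw [hl]; omega) (zx x) (hzn x hx)
      rw [hl] at h7
      have e2 : (1 / 3 : ℝ) ^ (u.length + j) * 3 ^ (u.length + j) = 1 := by
        rw [← mul_pow]
        norm_num
      have e3 : Phi u (zz x) = zx x := by rw [hzx]
      rw [hGn, e3, ← Finset.mul_sum]
      calc (1 / 3) ^ j * ((1 / 3) ^ u.length * ‖Ho (zx x)‖)
          = (1 / 3) ^ (u.length + j) * ‖Ho (zx x)‖ := by rw [pow_add]; ring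
        _ ≤ (1 / 3) ^ (u.length + j) * (3 ^ (u.length + j) * b (u ++ x) +
            ∑ x' ∈ lv (2 * j), ‖Hv x' (zx x)‖) := by
            gcongr
            linarith
        _ = (1 / 3 : ℝ) ^ (u.length + j) * 3 ^ (u.length + j) * b (u ++ x) +
            (1 / 3) ^ (u.length + j) * ∑ x' ∈ lv (2 * j), ‖Hv x' (zx x)‖ := by ring
        _ = _ := by rw [e2, one_mul]
    -- the double sum
    have htwo : ∀ x' ∈ lv (2 * j), ∑ x ∈ lv j, (1 / 3) ^ (u.length + j) * ‖Hv x' (zx x)‖ ≤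
        C₁ * Ch * ((4 / 3) ^ j * ‖cm (u ++ x') H‖ + (1 / 3) ^ j * b (u ++ x')) := by
      intro x' hx'
      obtain ⟨k1, k2, k3⟩ := hH j u x' zx hj hx' hzn
      calc ∑ x ∈ lv j, (1 / 3) ^ (u.length + j) * ‖Hv x' (zx x)‖
          ≤ ∑ x ∈ lv j, (1 / 3) ^ (u.length + j) * (C₁ * (‖cm (u ++ x') H‖ /
              dist (zx x) (cc (u ++ x')) + 3 ^ (u.length + 2 * j) * b (u ++ x') /
              (1 + dist (Psi (u ++ x') (zx x)) ctr) ^ 2)) := by
            refine Finset.sum_le_sum fun x hx => ?_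
            have := hHv x' hx' (zx x) (k1 x hx)
            gcongr
        _ = C₁ * ‖cm (u ++ x') H‖ * ∑ x ∈ lv j, (1 / 3) ^ (u.length + j) /
              dist (zx x) (cc (u ++ x')) +
            C₁ * b (u ++ x') * ∑ x ∈ lv j, (1 / 3) ^ (u.length + j) * 3 ^ (u.length + 2 * j) /
              (1 + dist (Psi (u ++ x') (zx x)) ctr) ^ 2 := by
            rw [Finset.mul_sum, Finset.mul_sum, ← Finset.sum_add_distrib]
            refine Finset.sum_congr rfl fun x _ => ?_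
            ring
        _ ≤ C₁ * ‖cm (u ++ x') H‖ * (Ch * (4 / 3) ^ j) +
            C₁ * b (u ++ x') * (Ch * (1 / 3) ^ j) := by
            have := hb2 x' hx'
            gcongr
        _ = _ := by ring
    have hall : (1 / 3) ^ j * ∑ x ∈ lv j, ‖G (zz x)‖ ≤
        S1 + C₁ * Ch * ((4 / 3) ^ j * S3 + (1 / 3) ^ j * S2) := by
      rw [Finset.mul_sum]
      calc ∑ x ∈ lv j, (1 / 3) ^ j * ‖G (zz x)‖
          ≤ ∑ x ∈ lv j, (b (u ++ x) +
            ∑ x' ∈ lv (2 * j), (1 / 3) ^ (u.length + j) * ‖Hv x' (zx x)‖) :=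
            Finset.sum_le_sum hone
        _ = S1 + ∑ x' ∈ lv (2 * j), ∑ x ∈ lv j, (1 / 3) ^ (u.length + j) * ‖Hv x' (zx x)‖ := by
            rw [Finset.sum_add_distrib, hS1, Finset.sum_comm]
        _ ≤ S1 + ∑ x' ∈ lv (2 * j),
            C₁ * Ch * ((4 / 3) ^ j * ‖cm (u ++ x') H‖ + (1 / 3) ^ j * b (u ++ x')) := by
            gcongr with x' hx'
            exact htwo x' hx'
        _ = _ := by
            rw [← Finset.mul_sum, Finset.sum_add_distrib, ← Finset.mul_sum, ← Finset.mul_sum,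
              hS3, hS2]
    -- conclusion
    have hmu : A / 2 / (2 * K * A) = (4 * K)⁻¹ := by
      field_simp
      ring
    rw [hmu] at hz2
    have hK0 : 0 < K := by linarith
    have hpw : ((4 * K)⁻¹ : ℝ) ^ Ca = (4 ^ Ca * K ^ Ca)⁻¹ := by
      rw [Real.inv_rpow (by positivity), Real.mul_rpow (by norm_num) hK0.le]
    rw [hpw] at hz2
    set P := (4 : ℝ) ^ Ca * K ^ Ca with hP
    have hP0 : 0 < P := by positivity
    have f1 : (4 / 3) ^ j * (2 * K * A * P⁻¹) ≤
        S1 + C₁ * Ch * ((4 / 3) ^ j * S3 + (1 / 3) ^ j * S2) := by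
      calc (4 / 3) ^ j * (2 * K * A * P⁻¹) = (1 / 3) ^ j * (4 ^ j * (2 * K * A * P⁻¹)) := by
            rw [← mul_assoc ((1 / 3 : ℝ) ^ j), ← mul_pow]
            norm_num
        _ ≤ (1 / 3) ^ j * ∑ x ∈ lv j, ‖G (zz x)‖ := by gcongr
        _ ≤ _ := hall
    have f2 : (3 / 4 : ℝ) ^ j * (4 / 3) ^ j = 1 := by
      rw [← mul_pow]
      norm_num
    have f3 : (3 / 4 : ℝ) ^ j * (1 / 3) ^ j ≤ (3 / 4) ^ j := by
      have : (1 / 3 : ℝ) ^ j ≤ 1 := pow_le_one₀ (by norm_num) (by norm_num)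
      have h0 : (0 : ℝ) < (3 / 4) ^ j := by positivity
      nlinarith
    have f4 : 2 * K * A * P⁻¹ ≤ (1 + C₁ * Ch) * ((3 / 4) ^ j * (S1 + S2) + S3) := by
      have f5 : (3 / 4 : ℝ) ^ j * ((4 / 3) ^ j * (2 * K * A * P⁻¹)) ≤
          (3 / 4) ^ j * (S1 + C₁ * Ch * ((4 / 3) ^ j * S3 + (1 / 3) ^ j * S2)) := by gcongr
      have f6 : (3 / 4 : ℝ) ^ j * ((4 / 3) ^ j * (2 * K * A * P⁻¹)) = 2 * K * A * P⁻¹ := by
        rw [← mul_assoc, f2, one_mul]
      have f7 : (3 / 4 : ℝ) ^ j * (S1 + C₁ * Ch * ((4 / 3) ^ j * S3 + (1 / 3) ^ j * S2)) =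
          (3 / 4) ^ j * S1 + C₁ * Ch * S3 + C₁ * Ch * (((3 / 4) ^ j * (1 / 3) ^ j) * S2) := by
        calc _ = (3 / 4) ^ j * S1 + C₁ * Ch * (((3 / 4 : ℝ) ^ j * (4 / 3) ^ j) * S3) +
              C₁ * Ch * (((3 / 4) ^ j * (1 / 3) ^ j) * S2) := by ring
          _ = _ := by rw [f2, one_mul]
      rw [f6, f7] at f5
      have f8 : C₁ * Ch * (((3 / 4) ^ j * (1 / 3) ^ j) * S2) ≤ C₁ * Ch * ((3 / 4) ^ j * S2) := by
        gcongr
      have g1 : 0 ≤ (3 / 4 : ℝ) ^ j * S2 := by positivity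
      have g2 : 0 ≤ C₁ * Ch * ((3 / 4 : ℝ) ^ j * S1) := by positivity
      nlinarith
    have f9 : A ≤ 2 * K * A := by nlinarith
    have hT' : 0 ≤ (1 + C₁ * Ch) * ((3 / 4) ^ j * (S1 + S2) + S3) := by positivity
    calc A ≤ 2 * K * A := f9
      _ = P * (2 * K * A * P⁻¹) := by field_simp
      _ ≤ P * ((1 + C₁ * Ch) * ((3 / 4) ^ j * (S1 + S2) + S3)) := by gcongr
      _ = (4 ^ Ca * (1 + C₁ * Ch)) * K ^ Ca * ((3 / 4) ^ j * (S1 + S2) + S3) := by
          rw [hP]
          ring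
      _ ≤ C * K ^ C * ((3 / 4) ^ j * (S1 + S2) + S3) := by
          have h01 : 4 ^ Ca * (1 + C₁ * Ch) ≤ C := by rw [hCd]; linarith
          have h02 : 0 ≤ C := h4'.le.trans h01
          gcongr

end Pool.Agent.CorA
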