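import Pool.Agent.CorA.P_VEC

/-!
# Vectors of different directions cost variation
-/

set_option autoImplicit false

namespace Pool.Agent.CorA

open Complex Metric Set Filter Topology MeasureTheory
open Pool.Corona91698f Pool.Agent.CorE
open scoped Real BoundedContinuousFunction

theorem p_ANG : T_ANG := by
  intro c hc
  refine ⟨1 + 2 / c ^ 2, by positivity, fun E _ _ ι s t x X hts hx => ?_⟩
  classical
  have hV0 : 0 ≤ ∑ i ∈ s, ‖x i‖ + ‖X - ∑ i ∈ s, x i‖ - ‖X‖ := by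
    have h1 : ‖X‖ ≤ ‖∑ i ∈ s, x i‖ + ‖X - ∑ i ∈ s, x i‖ := by
      have := norm_add_le (∑ i ∈ s, x i) (X - ∑ i ∈ s, x i)
      rwa [add_sub_cancel] at this
    have h2 : ‖∑ i ∈ s, x i‖ ≤ ∑ i ∈ s, ‖x i‖ := norm_sum_le _ _
    linarith
  have h2c : 0 < 2 / c ^ 2 := by positivity
  by_cases h0 : X = 0
  · have h1 : ∑ i ∈ t, ‖x i‖ ≤ ∑ i ∈ s, ‖x i‖ :=
      Finset.sum_le_sum_of_subset_of_nonneg hts fun i _ _ => norm_nonneg _
    have h2 : ∑ i ∈ s, ‖x i‖ ≤ ∑ i ∈ s, ‖x i‖ + ‖X - ∑ i ∈ s, x i‖ - ‖X‖ := by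
      rw [h0, norm_zero]
      have := norm_nonneg (0 - ∑ i ∈ s, x i)
      linarith
    nlinarith
  · have hn : 0 < ‖X‖ := norm_pos_iff.2 h0
    set v : E := ((‖X‖⁻¹ : ℝ) : ℂ) • X with hv
    have hv1 : ‖v‖ = 1 := by
      rw [hv, norm_smul, Complex.norm_real, Real.norm_of_nonneg (by positivity)]
      exact inv_mul_cancel₀ hn.ne'
    have hvX : (inner ℂ v X : ℂ).re = ‖X‖ := by
      rw [hv, inner_smul_left, inner_self_eq_norm_sq_to_K, Complex.conj_ofReal]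
      have : ((‖X‖⁻¹ : ℝ) : ℂ) * (((‖X‖ : ℝ) : ℂ)) ^ 2 = ((‖X‖ : ℝ) : ℂ) := by
        push_cast
        have : ((‖X‖ : ℝ) : ℂ) ≠ 0 := by exact_mod_cast hn.ne'
        field_simp
      erw [this]
      exact Complex.ofReal_re _
    have hV : ∑ i ∈ s, ‖x i‖ + ‖X - ∑ i ∈ s, x i‖ - ‖X‖ =
        ∑ i ∈ s, (‖x i‖ - (inner ℂ v (x i) : ℂ).re) +
          (‖X - ∑ i ∈ s, x i‖ - (inner ℂ v (X - ∑ i ∈ s, x i) : ℂ).re) := by
      rw [Finset.sum_sub_distrib, inner_sub_right, Complex.sub_re, hvX, inner_sum,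
        Complex.re_sum]
      ring
    have h1 : ∀ i ∈ t, c ^ 2 / 2 * ‖x i‖ ≤ ‖x i‖ - (inner ℂ v (x i) : ℂ).re := by
      intro i hi
      have h2 := hx i hi ((inner ℂ v (x i) : ℂ) * ((‖X‖⁻¹ : ℝ) : ℂ))
      rw [mul_smul, ← hv] at h2
      have h3 := VEC_.norm_sq_perp hv1 (x i)
      have h4 : (c * ‖x i‖) ^ 2 ≤ ‖x i - (inner ℂ v (x i) : ℂ) • v‖ ^ 2 :=
        pow_le_pow_left₀ (by positivity) h2 2
      rw [h3] at h4
      have h5 := Complex.re_le_norm (inner ℂ v (x i) : ℂ)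
      have h6 := norm_inner_le_norm (𝕜 := ℂ) v (x i)
      rw [hv1, one_mul] at h6
      have h7 : 0 ≤ ‖(inner ℂ v (x i) : ℂ)‖ := norm_nonneg _
      have h8 : c ^ 2 / 2 * ‖x i‖ ≤ ‖x i‖ - ‖(inner ℂ v (x i) : ℂ)‖ := by
        rcases (norm_nonneg (x i)).eq_or_lt with h | h
        · rw [← h] at h6 ⊢
          linarith
        · have h9 : c ^ 2 / 2 * ‖x i‖ * (2 * ‖x i‖) ≤
              (‖x i‖ - ‖(inner ℂ v (x i) : ℂ)‖) * (2 * ‖x i‖) := by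
            nlinarith [mul_nonneg (sub_nonneg.2 h6) (sub_nonneg.2 h6)]
          exact le_of_mul_le_mul_right h9 (by positivity)
      linarith
    have h2 : c ^ 2 / 2 * ∑ i ∈ t, ‖x i‖ ≤
        ∑ i ∈ s, ‖x i‖ + ‖X - ∑ i ∈ s, x i‖ - ‖X‖ := by
      rw [hV, Finset.mul_sum]
      have h3 := Finset.sum_le_sum h1
      have h4 : ∑ i ∈ t, (‖x i‖ - (inner ℂ v (x i) : ℂ).re) ≤
          ∑ i ∈ s, (‖x i‖ - (inner ℂ v (x i) : ℂ).re) :=
        Finset.sum_le_sum_of_subset_of_nonneg hts fun i _ _ =>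
          sub_nonneg.2 (VEC_.re_le hv1 _)
      have h5 := sub_nonneg.2 (VEC_.re_le hv1 (X - ∑ i ∈ s, x i))
      linarith
    set V := ∑ i ∈ s, ‖x i‖ + ‖X - ∑ i ∈ s, x i‖ - ‖X‖ with hVdef
    have h3 : ∑ i ∈ t, ‖x i‖ ≤ 2 / c ^ 2 * V := by
      rw [div_mul_eq_mul_div, le_div_iff₀ (by positivity)]
      linarith
    linarith

end Pool.Agent.CorA
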