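import Pool.Agent.CorA.Targets

/-!
# BLA: removal of zeros by Blaschke factors

Project ALB (helper24), block BLA. First for the unit disc, by the lemma of Schwarz and induction.
-/

set_option autoImplicit false

namespace Pool.Agent.CorA

open Complex Metric Set Filter Topology MeasureTheory
open Pool.Corona91698f Pool.Agent.CorE
open scoped Real BoundedContinuousFunction

namespace BLA_

theorem id1 (a z : ℂ) : ‖1 - (starRingEnd ℂ) a * z‖ ^ 2 - ‖z - a‖ ^ 2 =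
    (1 - ‖a‖ ^ 2) * (1 - ‖z‖ ^ 2) := by
  rw [← Complex.normSq_eq_norm_sq, ← Complex.normSq_eq_norm_sq, ← Complex.normSq_eq_norm_sq,
    ← Complex.normSq_eq_norm_sq]
  simp only [Complex.normSq_apply, Complex.sub_re, Complex.sub_im, Complex.mul_re, Complex.mul_im,
    Complex.one_re, Complex.one_im, Complex.conj_re, Complex.conj_im]
  ring

theorem den_ne {a z : ℂ} (ha : ‖a‖ < 1) (hz : ‖z‖ < 1) : 1 - (starRingEnd ℂ) a * z ≠ 0 := by
  intro h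
  have h1 : (starRingEnd ℂ) a * z = 1 := (sub_eq_zero.1 h).symm
  have h2 : ‖a‖ * ‖z‖ = 1 := by
    have := congrArg norm h1
    rwa [norm_mul, RCLike.norm_conj, norm_one] at this
  nlinarith [norm_nonneg a, norm_nonneg z]

theorem den_le {a z : ℂ} (ha : ‖a‖ < 1) (hz : ‖z‖ < 1) : ‖1 - (starRingEnd ℂ) a * z‖ ≤ 2 := by
  calc ‖1 - (starRingEnd ℂ) a * z‖ ≤ ‖(1 : ℂ)‖ + ‖(starRingEnd ℂ) a * z‖ := norm_sub_le _ _
    _ = 1 + ‖a‖ * ‖z‖ := by rw [norm_one, norm_mul, RCLike.norm_conj]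
    _ ≤ 2 := by nlinarith [norm_nonneg a, norm_nonneg z]

theorem b_lt {a z : ℂ} (ha : ‖a‖ < 1) (hz : ‖z‖ < 1) :
    ‖(z - a) / (1 - (starRingEnd ℂ) a * z)‖ < 1 := by
  have h1 := norm_pos_iff.2 (den_ne ha hz)
  rw [norm_div, div_lt_one h1]
  have h2 := id1 a z
  have h3 : 0 < (1 - ‖a‖ ^ 2) * (1 - ‖z‖ ^ 2) := by
    refine mul_pos ?_ ?_
    · nlinarith [norm_nonneg a]
    · nlinarith [norm_nonneg z]
  exact lt_of_pow_lt_pow_left₀ 2 h1.le (by linarith)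

theorem inv_b {a z : ℂ} (ha : ‖a‖ < 1) (hz : ‖z‖ < 1) :
    ((z - a) / (1 - (starRingEnd ℂ) a * z) - -a) /
      (1 - (starRingEnd ℂ) (-a) * ((z - a) / (1 - (starRingEnd ℂ) a * z))) = z := by
  have h1 := den_ne ha hz
  have h2 := den_ne ha ha
  have e1 : (z - a) / (1 - (starRingEnd ℂ) a * z) - -a =
      z * (1 - (starRingEnd ℂ) a * a) / (1 - (starRingEnd ℂ) a * z) := by
    rw [sub_neg_eq_add, div_add' _ _ _ h1]
    congr 1
    ring
  have e2 : 1 - (starRingEnd ℂ) (-a) * ((z - a) / (1 - (starRingEnd ℂ) a * z)) =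
      (1 - (starRingEnd ℂ) a * a) / (1 - (starRingEnd ℂ) a * z) := by
    rw [map_neg, eq_div_iff h1]
    have h3 : (z - a) / (1 - (starRingEnd ℂ) a * z) * (1 - (starRingEnd ℂ) a * z) = z - a :=
      div_mul_cancel₀ _ h1
    linear_combination (starRingEnd ℂ) a * h3
  rw [e1, e2, div_div_div_cancel_right₀ h1, mul_div_cancel_right₀ _ h2]

theorem pick {G : ℂ → ℂ} {M : ℝ} {a : ℂ} (hG : DifferentiableOn ℂ G (ball 0 1))
    (hM : ∀ z ∈ ball (0 : ℂ) 1, ‖G z‖ ≤ M) (ha : ‖a‖ < 1) (h0 : G a = 0) {z : ℂ}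
    (hz : ‖z‖ < 1) : ‖G z‖ ≤ M * ‖(z - a) / (1 - (starRingEnd ℂ) a * z)‖ := by
  have hna : ‖-a‖ < 1 := by rwa [norm_neg]
  obtain ⟨φ, hφ⟩ : ∃ φ : ℂ → ℂ, φ = fun w => (w - -a) / (1 - (starRingEnd ℂ) (-a) * w) := ⟨_, rfl⟩
  have hφm : MapsTo φ (ball 0 1) (ball 0 1) := by
    intro w hw
    rw [mem_ball_zero_iff] at hw ⊢
    rw [hφ]
    exact b_lt hna hw
  have hφd : DifferentiableOn ℂ φ (ball 0 1) := by
    rw [hφ]
    refine DifferentiableOn.div (by fun_prop) (by fun_prop) fun w hw => ?_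
    exact den_ne hna (mem_ball_zero_iff.1 hw)
  have hφ0 : φ 0 = a := by
    rw [hφ]
    simp
  have hh0 : (G ∘ φ) 0 = 0 := by
    show G (φ 0) = 0
    rw [hφ0, h0]
  have h1 := dist_le_div_mul_dist_of_mapsTo_ball (f := G ∘ φ) (R₂ := M) (hG.comp hφd hφm)
    (by
      intro w hw
      rw [hh0, mem_closedBall_zero_iff]
      exact hM _ (hφm hw)) (mem_ball_zero_iff.2 (b_lt ha hz))
  rw [hh0, dist_zero_right, dist_zero_right, div_one] at h1
  have h2 : (G ∘ φ) ((z - a) / (1 - (starRingEnd ℂ) a * z)) = G z := by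
    show G (φ _) = G z
    rw [hφ]
    show G (((z - a) / (1 - (starRingEnd ℂ) a * z) - -a) /
      (1 - (starRingEnd ℂ) (-a) * ((z - a) / (1 - (starRingEnd ℂ) a * z)))) = G z
    rw [inv_b ha hz]
  rwa [h2] at h1

/-- removal of one zero -/
theorem one {s t : ℝ} (hs0 : 0 ≤ s) (hs : s < 1) (ht0 : 0 ≤ t) (ht : t < 1) {G : ℂ → ℂ}
    {M μ : ℝ} {a y : ℂ} (hG : DifferentiableOn ℂ G (ball 0 1))
    (hM : ∀ z ∈ ball (0 : ℂ) 1, ‖G z‖ ≤ M) (ha : ‖a‖ ≤ t) (h0 : G a = 0) (hy : ‖y‖ ≤ s)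
    (hGy : μ ≤ ‖G y‖) : ∃ G' : ℂ → ℂ, DifferentiableOn ℂ G' (ball 0 1) ∧
      (∀ z ∈ ball (0 : ℂ) 1, ‖G' z‖ ≤ M) ∧
      μ / (1 - (1 - t ^ 2) * (1 - s ^ 2) / 8) ≤ ‖G' y‖ ∧
      ∀ z ∈ ball (0 : ℂ) 1, ‖z - a‖ / 2 * ‖G' z‖ ≤ ‖G z‖ := by
  have ha1 : ‖a‖ < 1 := ha.trans_lt ht
  have hy1 : ‖y‖ < 1 := hy.trans_lt hs
  obtain ⟨G', hG'⟩ : ∃ G' : ℂ → ℂ, G' = fun z => dslope G a z * (1 - (starRingEnd ℂ) a * z) :=
    ⟨_, rfl⟩
  have hab : a ∈ ball (0 : ℂ) 1 := mem_ball_zero_iff.2 ha1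
  have hd : DifferentiableOn ℂ G' (ball 0 1) := by
    rw [hG']
    refine DifferentiableOn.mul ?_ (by fun_prop)
    exact (Complex.differentiableOn_dslope (isOpen_ball.mem_nhds hab)).2 hG
  have hmul : ∀ z, (z - a) * dslope G a z = G z := by
    intro z
    have := sub_smul_dslope G a z
    rw [smul_eq_mul, h0, sub_zero] at this
    exact this
  have hne : ∀ z ∈ ball (0 : ℂ) 1, z ≠ a → ‖G' z‖ ≤ M := by
    intro z hz hza
    have hz1 := mem_ball_zero_iff.1 hz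
    have h1 := pick hG hM ha1 h0 hz1
    have h2 : 0 < ‖z - a‖ := norm_pos_iff.2 (sub_ne_zero.2 hza)
    have h3 : 0 < ‖1 - (starRingEnd ℂ) a * z‖ := norm_pos_iff.2 (den_ne ha1 hz1)
    rw [← hmul z, norm_mul, norm_div, ← mul_div_assoc, le_div_iff₀ h3] at h1
    rw [hG', norm_mul]
    have h4 : ‖z - a‖ * (‖dslope G a z‖ * ‖1 - (starRingEnd ℂ) a * z‖) ≤ ‖z - a‖ * M := by
      linarith
    exact le_of_mul_le_mul_left h4 h2
  refine ⟨G', hd, fun z hz => ?_, ?_, fun z hz => ?_⟩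
  · by_cases hza : z = a
    · rw [hza]
      have hc : ContinuousAt G' a := (hd.differentiableAt (isOpen_ball.mem_nhds hab)).continuousAt
      have hc1 : Tendsto (fun z => ‖G' z‖) (𝓝[≠] a) (𝓝 ‖G' a‖) :=
        hc.norm.tendsto.mono_left nhdsWithin_le_nhds
      refine le_of_tendsto hc1 ?_
      have h1 : ∀ᶠ z in 𝓝[≠] a, z ∈ ball (0 : ℂ) 1 :=
        nhdsWithin_le_nhds (isOpen_ball.mem_nhds hab)
      have h2 : ∀ᶠ z in 𝓝[≠] a, z ≠ a := eventually_nhdsWithin_of_forall fun _ h => h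
      filter_upwards [h1, h2] with z h3 h4 using hne z h3 h4
    · exact hne z hz hza
  · have h3 : 0 < ‖1 - (starRingEnd ℂ) a * y‖ := norm_pos_iff.2 (den_ne ha1 hy1)
    have hk : 0 < (1 - t ^ 2) * (1 - s ^ 2) := by
      refine mul_pos ?_ ?_ <;> nlinarith
    have hk1 : (1 - t ^ 2) * (1 - s ^ 2) ≤ 1 := by
      have h5 : 0 ≤ 1 - s ^ 2 := by nlinarith
      nlinarith [sq_nonneg t, sq_nonneg s]
    have hθ : 0 < 1 - (1 - t ^ 2) * (1 - s ^ 2) / 8 := by linarith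
    have hb : ‖y - a‖ ≤ (1 - (1 - t ^ 2) * (1 - s ^ 2) / 8) * ‖1 - (starRingEnd ℂ) a * y‖ := by
      refine (pow_le_pow_iff_left₀ (norm_nonneg _) (mul_nonneg hθ.le (norm_nonneg _))
        two_ne_zero).1 ?_
      have h5 := id1 a y
      have h6 : (1 - t ^ 2) * (1 - s ^ 2) ≤ (1 - ‖a‖ ^ 2) * (1 - ‖y‖ ^ 2) := by
        have h7 : ‖a‖ ^ 2 ≤ t ^ 2 := by gcongr
        have h8 : ‖y‖ ^ 2 ≤ s ^ 2 := by gcongr
        have h9 : 0 ≤ 1 - s ^ 2 := by nlinarith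
        have h10 : 0 ≤ 1 - t ^ 2 := by nlinarith
        nlinarith
      have h11 := den_le ha1 hy1
      have h12 : ‖1 - (starRingEnd ℂ) a * y‖ ^ 2 ≤ 4 := by nlinarith
      have h13 : 0 ≤ ‖1 - (starRingEnd ℂ) a * y‖ ^ 2 := by positivity
      rw [mul_pow]
      nlinarith [sq_nonneg ((1 - t ^ 2) * (1 - s ^ 2) / 8)]
    rw [div_le_iff₀ hθ]
    refine hGy.trans ?_
    rw [← hmul y, norm_mul, hG', norm_mul]
    calc ‖y - a‖ * ‖dslope G a y‖ ≤ (1 - (1 - t ^ 2) * (1 - s ^ 2) / 8) *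
          ‖1 - (starRingEnd ℂ) a * y‖ * ‖dslope G a y‖ := by gcongr
      _ = _ := by ring
  · have hz1 := mem_ball_zero_iff.1 hz
    have h1 := den_le ha1 hz1
    rw [← hmul z, norm_mul, hG', norm_mul]
    calc ‖z - a‖ / 2 * (‖dslope G a z‖ * ‖1 - (starRingEnd ℂ) a * z‖)
        ≤ ‖z - a‖ / 2 * (‖dslope G a z‖ * 2) := by gcongr
      _ = ‖z - a‖ * ‖dslope G a z‖ := by ring

/-- all zeros, unit disc -/
theorem all {s t : ℝ} (hs0 : 0 ≤ s) (hs : s < 1) (ht0 : 0 ≤ t) (ht : t < 1) {M : ℝ} {y : ℂ}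
    (hy : ‖y‖ ≤ s) (L : ℝ) (hL : L = -Real.log (1 - (1 - t ^ 2) * (1 - s ^ 2) / 8)) (k : ℕ) :
    ∀ (μ : ℝ) (G : ℂ → ℂ), 0 < μ → DifferentiableOn ℂ G (ball 0 1) →
    (∀ z ∈ ball (0 : ℂ) 1, ‖G z‖ ≤ M) → μ ≤ ‖G y‖ → Real.log (M / μ) < k * L →
    ∃ (m : ℕ) (a : Fin m → ℂ) (G₁ : ℂ → ℂ), (m : ℝ) * L ≤ Real.log (M / μ) ∧
      DifferentiableOn ℂ G₁ (ball 0 1) ∧ (∀ z ∈ ball (0 : ℂ) 1, ‖G₁ z‖ ≤ M) ∧ μ ≤ ‖G₁ y‖ ∧
      (∀ z : ℂ, ‖z‖ ≤ t → G₁ z ≠ 0) ∧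
      ∀ z ∈ ball (0 : ℂ) 1, (∏ i, ‖z - a i‖ / 2) * ‖G₁ z‖ ≤ ‖G z‖ := by
  have hk : 0 < (1 - t ^ 2) * (1 - s ^ 2) := by
    refine mul_pos ?_ ?_ <;> nlinarith
  have hk1 : (1 - t ^ 2) * (1 - s ^ 2) ≤ 1 := by
    have h5 : 0 ≤ 1 - s ^ 2 := by nlinarith
    nlinarith [sq_nonneg t, sq_nonneg s]
  have hθ : 0 < 1 - (1 - t ^ 2) * (1 - s ^ 2) / 8 := by linarith
  have hθ1 : 1 - (1 - t ^ 2) * (1 - s ^ 2) / 8 ≤ 1 := by linarith
  have hyb : y ∈ ball (0 : ℂ) 1 := mem_ball_zero_iff.2 (hy.trans_lt hs)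
  have hnn : ∀ (μ : ℝ) (G : ℂ → ℂ), 0 < μ → (∀ z ∈ ball (0 : ℂ) 1, ‖G z‖ ≤ M) → μ ≤ ‖G y‖ →
      0 ≤ Real.log (M / μ) := by
    intro μ G hμ hM hG
    refine Real.log_nonneg ?_
    rw [one_le_div hμ]
    exact hG.trans (hM y hyb)
  induction k with
  | zero =>
    intro μ G hμ _ hM hG hlt
    have := hnn μ G hμ hM hG
    rw [Nat.cast_zero, zero_mul] at hlt
    linarith
  | succ k ih =>
    intro μ G hμ hd hM hG hlt
    by_cases hz : ∃ a : ℂ, ‖a‖ ≤ t ∧ G a = 0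
    · obtain ⟨a, ha, h0⟩ := hz
      obtain ⟨G', h1, h2, h3, h4⟩ := one hs0 hs ht0 ht hd hM ha h0 hy hG
      have hM0 : 0 < M := hμ.trans_le (hG.trans (hM y hyb))
      have e1 : Real.log (M / (μ / (1 - (1 - t ^ 2) * (1 - s ^ 2) / 8))) =
          Real.log (M / μ) - L := by
        rw [hL, sub_neg_eq_add, ← Real.log_mul (by positivity) hθ.ne']
        congr 1
        field_simp
      obtain ⟨m, a', G₁, h5, h6, h7, h8, h9, h10⟩ := ih _ G' (div_pos hμ hθ) h1 h2 h3 (by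
        rw [e1]
        push_cast at hlt
        linarith)
      refine ⟨m + 1, Fin.cons a a', G₁, ?_, h6, h7, ?_, h9, fun z hz => ?_⟩
      · rw [e1] at h5
        push_cast
        linarith
      · refine le_trans ?_ h8
        rw [le_div_iff₀ hθ]
        nlinarith
      · rw [Fin.prod_univ_succ]
        simp only [Fin.cons_zero, Fin.cons_succ]
        calc ‖z - a‖ / 2 * (∏ i, ‖z - a' i‖ / 2) * ‖G₁ z‖
            = ‖z - a‖ / 2 * ((∏ i, ‖z - a' i‖ / 2) * ‖G₁ z‖) := by ring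
          _ ≤ ‖z - a‖ / 2 * ‖G' z‖ := by
              gcongr
              exact h10 z hz
          _ ≤ ‖G z‖ := h4 z hz
    · push Not at hz
      refine ⟨0, Fin.elim0, G, ?_, hd, hM, hG, hz, fun z _ => ?_⟩
      · rw [Nat.cast_zero, zero_mul]
        exact hnn μ G hμ hM hG
      · simp

end BLA_

open BLA_ in
/-- **BLA** -/
theorem p_BLA : T_BLA := by
  intro s t hs0 hs ht0 ht
  have hk : 0 < (1 - t ^ 2) * (1 - s ^ 2) := by
    refine mul_pos ?_ ?_ <;> nlinarith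
  have hk1 : (1 - t ^ 2) * (1 - s ^ 2) ≤ 1 := by
    have h5 : 0 ≤ 1 - s ^ 2 := by nlinarith
    nlinarith [sq_nonneg t, sq_nonneg s]
  obtain ⟨L, hL⟩ : ∃ L : ℝ, L = -Real.log (1 - (1 - t ^ 2) * (1 - s ^ 2) / 8) := ⟨_, rfl⟩
  have hL0 : 0 < L := by
    rw [hL, neg_pos]
    exact Real.log_neg (by linarith) (by linarith)
  refine ⟨1 / L, by positivity, ?_⟩
  intro c R M μ G y₀ hR hμ hd hM hy hGy
  have hRc : (R : ℂ) ≠ 0 := by exact_mod_cast hR.ne'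
  have hmap : MapsTo (fun w : ℂ => c + R * w) (ball 0 1) (ball c R) := by
    intro w hw
    rw [mem_ball_zero_iff] at hw
    rw [mem_ball_iff_norm, add_sub_cancel_left, norm_mul, Complex.norm_real,
      Real.norm_of_nonneg hR.le]
    nlinarith
  have hnorm : ∀ z : ℂ, ‖(z - c) / R‖ = dist z c / R := by
    intro z
    rw [norm_div, Complex.norm_real, Real.norm_of_nonneg hR.le, dist_eq_norm]
  have hback : ∀ z ∈ ball c R, (z - c) / R ∈ ball (0 : ℂ) 1 := by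
    intro z hz
    rw [mem_ball_zero_iff, hnorm, div_lt_one hR]
    exact hz
  have hinv : ∀ z : ℂ, c + R * ((z - c) / R) = z := by
    intro z
    field_simp
    ring
  obtain ⟨k, hk'⟩ := exists_nat_gt (Real.log (M / μ) / L)
  rw [div_lt_iff₀ hL0] at hk'
  obtain ⟨m, a, G₁, h1, h2, h3, h4, h5, h6⟩ := all hs0 hs ht0 ht (M := M) (y := (y₀ - c) / R)
    (by
      rw [hnorm, div_le_iff₀ hR]
      exact hy) L hL k μ (fun w => G (c + R * w)) hμ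
    (hd.comp (by fun_prop) hmap) (fun z hz => hM _ (hmap hz)) (by
      rw [hinv]
      exact hGy) hk'
  refine ⟨m, fun i => c + R * a i, fun z => G₁ ((z - c) / R), ?_, ?_, ?_, h4, ?_, ?_⟩
  · rw [one_div, inv_mul_eq_div, le_div_iff₀ hL0]
    exact h1
  · exact h2.comp (by fun_prop) hback
  · exact fun z hz => h3 _ (hback z hz)
  · intro z hz
    refine h5 _ ?_
    rw [hnorm, div_le_iff₀ hR]
    exact hz
  · intro z hz
    have h7 := h6 _ (hback z hz)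
    have h8 : ∀ i, dist z (c + R * a i) / (2 * R) = ‖(z - c) / R - a i‖ / 2 := by
      intro i
      have e : (z - c) / R - a i = (z - (c + R * a i)) / R := by
        field_simp
        ring
      rw [e, norm_div, Complex.norm_real, Real.norm_of_nonneg hR.le, dist_eq_norm]
      field_simp
    simp only [h8]
    simp only [hinv] at h7
    exact h7

end Pool.Agent.CorA
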