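import Pool.Agent.CorA.Targets

/-!
# CorA, CAU: the Cauchy transform of a functional
-/

set_option autoImplicit false

namespace Pool.Agent.CorA

open Complex Metric Set Filter Topology MeasureTheory
open Pool.Corona91698f Pool.Agent.CorE
open scoped Real BoundedContinuousFunction

namespace CAU_

/-! ### The kernel as a function with values in the bounded continuous functions -/

/-- the kernel `ζ ↦ (ζ - z)⁻¹` -/
noncomputable def kk {Γ : Set ℂ} (hΓ : IsCompact Γ) (z : ℂ) : Γ →ᵇ ℂ :=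
  Ring.inverse (idX hΓ - algebraMap ℂ (Γ →ᵇ ℂ) z)

theorem isUnit_kk {Γ : Set ℂ} (hΓ : IsCompact Γ) {z : ℂ} (hz : z ∉ Γ) :
    IsUnit (idX hΓ - algebraMap ℂ (Γ →ᵇ ℂ) z) := by
  have : CompactSpace Γ := isCompact_iff_compactSpace.1 hΓ
  have hne : ∀ ζ : Γ, (ζ : ℂ) - z ≠ 0 := fun ζ h => hz (by rw [← sub_eq_zero.1 h]; exact ζ.2)
  have hc : Continuous fun ζ : Γ => ((ζ : ℂ) - z)⁻¹ :=
    (continuous_subtype_val.sub continuous_const).inv₀ hne
  refine IsUnit.of_mul_eq_one (BoundedContinuousFunction.mkOfCompact ⟨_, hc⟩) ?_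
  ext ζ
  simp only [BoundedContinuousFunction.mul_apply, BoundedContinuousFunction.sub_apply, idX_apply,
    BoundedContinuousFunction.algebraMap_apply, BoundedContinuousFunction.mkOfCompact_apply,
    ContinuousMap.coe_mk, BoundedContinuousFunction.coe_one, Pi.one_apply, smul_eq_mul,
    mul_one]
  exact mul_inv_cancel₀ (hne ζ)

theorem kk_apply {Γ : Set ℂ} (hΓ : IsCompact Γ) {z : ℂ} (hz : z ∉ Γ) (ζ : Γ) :
    kk hΓ z ζ = ((ζ : ℂ) - z)⁻¹ := by
  have hne : (ζ : ℂ) - z ≠ 0 := fun h => hz (by rw [← sub_eq_zero.1 h]; exact ζ.2)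
  have h1 := Ring.mul_inverse_cancel _ (isUnit_kk hΓ hz)
  have h2 := congrArg (fun f : Γ →ᵇ ℂ => f ζ) h1
  simp only [BoundedContinuousFunction.mul_apply, BoundedContinuousFunction.sub_apply, idX_apply,
    BoundedContinuousFunction.algebraMap_apply, BoundedContinuousFunction.coe_one, Pi.one_apply,
    smul_eq_mul, mul_one] at h2
  exact eq_inv_of_mul_eq_one_right h2

theorem kk_eq {Γ : Set ℂ} (hΓ : IsCompact Γ) {z : ℂ} (hz : z ∉ Γ) (k : Γ →ᵇ ℂ)
    (hk : ∀ ζ : Γ, k ζ = ((ζ : ℂ) - z)⁻¹) : k = kk hΓ z := by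
  ext ζ
  rw [hk, kk_apply hΓ hz]

theorem kk_diff {Γ : Set ℂ} (hΓ : IsCompact Γ) {z : ℂ} (hz : z ∉ Γ) :
    DifferentiableAt ℂ (kk hΓ) z := by
  have h1 : DifferentiableAt ℂ (Ring.inverse : (Γ →ᵇ ℂ) → (Γ →ᵇ ℂ))
      (idX hΓ - algebraMap ℂ (Γ →ᵇ ℂ) z) := differentiableAt_inverse (isUnit_kk hΓ hz)
  have h2 : DifferentiableAt ℂ (fun w : ℂ => idX hΓ - algebraMap ℂ (Γ →ᵇ ℂ) w) z :=
    (differentiableAt_const _).sub (algebraMapCLM ℂ (Γ →ᵇ ℂ)).differentiableAt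
  exact h1.comp z h2

/-- functionals commute with circle integrals -/
theorem circle_comm {E F : Type*} [NormedAddCommGroup E] [NormedSpace ℂ E] [CompleteSpace E]
    [NormedAddCommGroup F] [NormedSpace ℂ F] [CompleteSpace F] (L : E →L[ℂ] F) {f : ℂ → E}
    {c : ℂ} {R : ℝ} (hf : CircleIntegrable f c R) :
    L (∮ z in C(c, R), f z) = ∮ z in C(c, R), L (f z) := by
  unfold circleIntegral
  rw [← ContinuousLinearMap.intervalIntegral_comp_comm L hf.out]
  refine intervalIntegral.integral_congr fun θ _ => ?_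
  simp only [map_smul]

/-! ### Separated discs -/

/-- circles of radius `0.73 l` around points with distances at least `2 l` -/
structure Ctx {ι : Type} (S : Finset ι) (c : ι → ℂ) (l : ℝ) (Γ : Set ℂ) : Prop where
  hl : 0 < l
  sep : ∀ q ∈ S, ∀ q' ∈ S, q ≠ q' → 2 * l ≤ dist (c q) (c q')
  mem : ∀ z, z ∈ Γ ↔ ∃ q ∈ S, dist z (c q) = 73 / 100 * l

variable {ι : Type} {S : Finset ι} {c : ι → ℂ} {l : ℝ} {Γ : Set ℂ}

theorem Ctx.cpt (h : Ctx S c l Γ) : IsCompact Γ := by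
  have h1 : Γ = ⋃ q ∈ S, sphere (c q) (73 / 100 * l) := by
    ext z
    rw [h.mem]
    simp only [mem_iUnion, mem_sphere, exists_prop]
  rw [h1]
  exact S.finite_toSet.isCompact_biUnion fun q _ => isCompact_sphere _ _

theorem Ctx.far (h : Ctx S c l Γ) {q q' : ι} (hq : q ∈ S) (hq' : q' ∈ S) (hne : q ≠ q')
    (z : ℂ) : 2 * l - dist z (c q') ≤ dist z (c q) := by
  have h1 := h.sep q hq q' hq' hne
  have h2 := dist_triangle_left (c q) (c q') z
  linarith

theorem Ctx.notMem (h : Ctx S c l Γ) {q : ι} (hq : q ∈ S) {z : ℂ} (hz : dist z (c q) ≤ l)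
    (hz' : dist z (c q) ≠ 73 / 100 * l) : z ∉ Γ := by
  intro hz1
  obtain ⟨q', hq', hd⟩ := (h.mem z).1 hz1
  have hl := h.hl
  by_cases hqq : q' = q
  · rw [hqq] at hd
    exact hz' hd
  · have h1 := h.far hq' hq hqq z
    linarith

/-- the transform vanishes inside the circles -/
theorem Ctx.vanish (h : Ctx S c l Γ) (M : (Γ →ᵇ ℂ) →L[ℂ] ℂ)
    (hM : ∀ q ∈ S, ∀ z, dist z (c q) ≤ 727 / 1000 * l → M (kk h.cpt z) = 0) {q : ι} (hq : q ∈ S)
    {z : ℂ} (hz : dist z (c q) < 73 / 100 * l) : M (kk h.cpt z) = 0 := by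
  have hl := h.hl
  have hnot : ∀ w ∈ ball (c q) (73 / 100 * l), w ∉ Γ := by
    intro w hw
    rw [mem_ball] at hw
    exact h.notMem hq (by linarith) hw.ne
  have hd : DifferentiableOn ℂ (fun w => M (kk h.cpt w)) (ball (c q) (73 / 100 * l)) := by
    intro w hw
    exact (M.differentiableAt.comp w (kk_diff h.cpt (hnot w hw))).differentiableWithinAt
  have ha := hd.analyticOnNhd isOpen_ball
  have h0 : c q ∈ ball (c q) (73 / 100 * l) := mem_ball_self (by positivity)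
  have hev : (fun w => M (kk h.cpt w)) =ᶠ[𝓝 (c q)] 0 := by
    filter_upwards [ball_mem_nhds (c q) (show 0 < 727 / 1000 * l by positivity)] with w hw
    exact hM q hq w (mem_ball.1 hw).le
  exact ha.eqOn_zero_of_preconnected_of_eventuallyEq_zero (convex_ball _ _).isPreconnected h0 hev
    (mem_ball.2 hz)

theorem Ctx.cint (h : Ctx S c l Γ) {q : ι} (hq : q ∈ S) {φ : ℂ → ℂ}
    (hφ : DifferentiableOn ℂ φ {z | 727 / 1000 * l < dist z (c q) ∧ dist z (c q) < 78 / 100 * l})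
    {R : ℝ} (h1 : 727 / 1000 * l < R) (h2 : R < 78 / 100 * l) (h3 : R ≠ 73 / 100 * l) :
    CircleIntegrable (fun z => φ z • kk h.cpt z) (c q) R := by
  have hl := h.hl
  refine ContinuousOn.circleIntegrable (by nlinarith) ?_
  intro z hz
  rw [mem_sphere] at hz
  have h4 : ContinuousWithinAt φ (sphere (c q) R) z := by
    refine (hφ.continuousOn z ⟨by linarith, by linarith⟩).mono ?_
    intro w hw
    rw [mem_sphere] at hw
    exact ⟨by linarith, by linarith⟩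
  have h5 : z ∉ Γ := h.notMem hq (by linarith) (by rw [hz]; exact h3)
  exact h4.smul (kk_diff h.cpt h5).continuousAt.continuousWithinAt

theorem two_pi_ne : (2 * π * I : ℂ) ≠ 0 := by
  simp [Real.pi_ne_zero, Complex.I_ne_zero]

/-- the part of the Laurent decomposition which belongs to the circle `q` -/
noncomputable def Ps (hΓ : IsCompact Γ) (c : ι → ℂ) (l : ℝ) (φ : ι → ℂ → ℂ) (q : ι) : Γ →ᵇ ℂ :=
  (2 * π * I : ℂ)⁻¹ • ((∮ z in C(c q, 7285 / 10000 * l), φ q z • kk hΓ z) -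
    ∮ z in C(c q, 77 / 100 * l), φ q z • kk hΓ z)

/-- the values of the circle integrals -/
theorem Ctx.eval (h : Ctx S c l Γ) {q : ι} (hq : q ∈ S) {φ : ℂ → ℂ}
    (hφ : DifferentiableOn ℂ φ {z | 727 / 1000 * l < dist z (c q) ∧ dist z (c q) < 78 / 100 * l})
    {R : ℝ} (h1 : 727 / 1000 * l < R) (h2 : R < 78 / 100 * l) (h3 : R ≠ 73 / 100 * l) (ζ : Γ) :
    (∮ z in C(c q, R), φ z • kk h.cpt z : Γ →ᵇ ℂ) ζ =
      -∮ z in C(c q, R), (z - (ζ : ℂ))⁻¹ • φ z := by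
  have hl := h.hl
  have h4 := circle_comm (BoundedContinuousFunction.evalCLM ℂ ζ) (h.cint hq hφ h1 h2 h3)
  have h5 : (BoundedContinuousFunction.evalCLM ℂ ζ)
      (∮ z in C(c q, R), φ z • kk h.cpt z : Γ →ᵇ ℂ) =
      (∮ z in C(c q, R), φ z • kk h.cpt z : Γ →ᵇ ℂ) ζ := rfl
  rw [← h5, h4, ← neg_one_mul, ← circleIntegral.integral_const_mul]
  refine circleIntegral.integral_congr (by nlinarith) fun z hz => ?_
  rw [mem_sphere] at hz
  have h6 : z ∉ Γ := h.notMem hq (by linarith) (by rw [hz]; exact h3)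
  have h7 : (BoundedContinuousFunction.evalCLM ℂ ζ) (φ z • kk h.cpt z) =
      φ z • kk h.cpt z ζ := rfl
  simp only [h7]
  rw [kk_apply h.cpt h6, ← neg_sub z (ζ : ℂ), inv_neg, smul_eq_mul, smul_eq_mul]
  ring

/-- on its own circle -/
theorem Ctx.own (h : Ctx S c l Γ) {q : ι} (hq : q ∈ S) {φ : ι → ℂ → ℂ}
    (hφ : DifferentiableOn ℂ (φ q)
      {z | 727 / 1000 * l < dist z (c q) ∧ dist z (c q) < 78 / 100 * l})
    (ζ : Γ) (hζ : dist (ζ : ℂ) (c q) = 73 / 100 * l) : Ps h.cpt c l φ q ζ = φ q ζ := by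
  have hl := h.hl
  unfold Ps
  have h1 := h.eval hq hφ (R := 7285 / 10000 * l) (by nlinarith) (by nlinarith)
    (by intro h2; nlinarith) ζ
  have h2 := h.eval hq hφ (R := 77 / 100 * l) (by nlinarith) (by nlinarith)
    (by intro h2; nlinarith) ζ
  rw [BoundedContinuousFunction.smul_apply, BoundedContinuousFunction.sub_apply, h1, h2]
  have h3 := cauchy_annulus (c := c q) (r₁ := 727 / 1000 * l) (ra := 7285 / 10000 * l)
    (rb := 77 / 100 * l) (r₂ := 78 / 100 * l) (by positivity) (by nlinarith) (by nlinarith) hφ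
    (z := (ζ : ℂ)) (by rw [hζ]; nlinarith) (by rw [hζ]; nlinarith)
  rw [neg_sub_neg, h3, smul_eq_mul, smul_eq_mul, ← mul_assoc, inv_mul_cancel₀ two_pi_ne, one_mul]

/-- on the other circles -/
theorem Ctx.other (h : Ctx S c l Γ) {q : ι} (hq : q ∈ S) {φ : ι → ℂ → ℂ}
    (hφ : DifferentiableOn ℂ (φ q)
      {z | 727 / 1000 * l < dist z (c q) ∧ dist z (c q) < 78 / 100 * l})
    (ζ : Γ) (hζ : 78 / 100 * l ≤ dist (ζ : ℂ) (c q)) : Ps h.cpt c l φ q ζ = 0 := by
  have hl := h.hl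
  unfold Ps
  have h1 := h.eval hq hφ (R := 7285 / 10000 * l) (by nlinarith) (by nlinarith)
    (by intro h2; nlinarith) ζ
  have h2 := h.eval hq hφ (R := 77 / 100 * l) (by nlinarith) (by nlinarith)
    (by intro h2; nlinarith) ζ
  rw [BoundedContinuousFunction.smul_apply, BoundedContinuousFunction.sub_apply, h1, h2]
  have hf : DifferentiableOn ℂ (fun z => (z - (ζ : ℂ))⁻¹ • φ q z)
      {z | 727 / 1000 * l < dist z (c q) ∧ dist z (c q) < 78 / 100 * l} := by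
    have h5 : DifferentiableOn ℂ (fun z : ℂ => (z - (ζ : ℂ))⁻¹)
        {z | 727 / 1000 * l < dist z (c q) ∧ dist z (c q) < 78 / 100 * l} := by
      refine (differentiableOn_id.sub_const _).inv fun z hz => ?_
      intro h3
      have h4 : z = ζ := sub_eq_zero.1 h3
      rw [h4] at hz
      linarith [hz.2]
    exact h5.smul hφ
  have hopen : IsOpen {z | 727 / 1000 * l < dist z (c q) ∧ dist z (c q) < 78 / 100 * l} :=
    (isOpen_lt continuous_const (continuous_id.dist continuous_const)).inter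
      (isOpen_lt (continuous_id.dist continuous_const) continuous_const)
  have h3 := circleIntegral_eq_of_differentiable_on_annulus_off_countable (c := c q)
    (r := 7285 / 10000 * l) (R := 77 / 100 * l) (by positivity) (by nlinarith)
    (f := fun z => (z - (ζ : ℂ))⁻¹ • φ q z) (s := ∅) countable_empty
    (by
      refine hf.continuousOn.mono ?_
      rintro z ⟨hz1, hz2⟩
      rw [mem_closedBall] at hz1
      rw [mem_ball, not_lt] at hz2
      exact ⟨by linarith, by linarith⟩)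
    (by
      rintro z ⟨⟨hz1, hz2⟩, -⟩
      rw [mem_ball] at hz1
      rw [mem_closedBall, not_le] at hz2
      exact hf.differentiableAt (hopen.mem_nhds ⟨by linarith, by linarith⟩))
  rw [h3, sub_self, smul_zero]

/-- the decomposition on all circles -/
theorem Ctx.decomp (h : Ctx S c l Γ) {φ : ι → ℂ → ℂ}
    (hφ : ∀ q ∈ S, DifferentiableOn ℂ (φ q)
      {z | 727 / 1000 * l < dist z (c q) ∧ dist z (c q) < 78 / 100 * l})
    (ψ' : Γ →ᵇ ℂ) (hψ : ∀ q ∈ S, ∀ z : Γ, dist (z : ℂ) (c q) = 73 / 100 * l → ψ' z = φ q z) :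
    ψ' = ∑ q ∈ S, Ps h.cpt c l φ q := by
  have hl := h.hl
  ext ζ
  obtain ⟨q0, hq0, hd⟩ := (h.mem ζ).1 ζ.2
  have h1 : (∑ q ∈ S, Ps h.cpt c l φ q) ζ = ∑ q ∈ S, Ps h.cpt c l φ q ζ := by
    rw [BoundedContinuousFunction.coe_sum, Finset.sum_apply]
  rw [h1, Finset.sum_eq_single_of_mem q0 hq0, h.own hq0 (hφ q0 hq0) ζ hd, hψ q0 hq0 ζ hd]
  intro q hq hne
  refine h.other hq (hφ q hq) ζ ?_
  have h2 := h.far hq hq0 hne (ζ : ℂ)
  linarith

/-- the functional on one part -/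
theorem Ctx.apply_ps (h : Ctx S c l Γ) (M : (Γ →ᵇ ℂ) →L[ℂ] ℂ)
    (hM : ∀ q ∈ S, ∀ z, dist z (c q) ≤ 727 / 1000 * l → M (kk h.cpt z) = 0) {q : ι} (hq : q ∈ S)
    {φ : ι → ℂ → ℂ} (hφ : DifferentiableOn ℂ (φ q)
      {z | 727 / 1000 * l < dist z (c q) ∧ dist z (c q) < 78 / 100 * l}) :
    M (Ps h.cpt c l φ q) =
      -∮ z in C(c q, 77 / 100 * l), φ q z * ((2 * π * I : ℂ)⁻¹ * M (kk h.cpt z)) := by
  have hl := h.hl
  unfold Ps
  have h1 := circle_comm M (h.cint hq hφ (R := 7285 / 10000 * l) (by nlinarith) (by nlinarith)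
    (by intro h2; nlinarith))
  have h2 := circle_comm M (h.cint hq hφ (R := 77 / 100 * l) (by nlinarith) (by nlinarith)
    (by intro h2; nlinarith))
  rw [map_smul, map_sub, h1, h2]
  have h3 : (∮ z in C(c q, 7285 / 10000 * l), M (φ q z • kk h.cpt z)) = 0 := by
    have h4 : (∮ z in C(c q, 7285 / 10000 * l), M (φ q z • kk h.cpt z)) =
        ∮ z in C(c q, 7285 / 10000 * l), (0 : ℂ) * (0 : ℂ) := by
      refine circleIntegral.integral_congr (by positivity) fun z hz => ?_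
      rw [mem_sphere] at hz
      simp only [map_smul]
      rw [h.vanish M hM hq (by rw [hz]; nlinarith), smul_zero, mul_zero]
    rw [h4, circleIntegral.integral_const_mul, zero_mul]
  rw [h3, zero_sub, smul_neg, smul_eq_mul, ← circleIntegral.integral_const_mul]
  congr 1
  refine circleIntegral.integral_congr (by positivity) fun z _ => ?_
  simp only [map_smul, smul_eq_mul]
  ring

/-- distances in the coordinates of the squares -/
theorem dist_cc {N : ℕ} {q : List D} (hq : q ∈ lv N) (z : ℂ) :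
    dist (Psi q z) ctr = 3 ^ N * dist z (cc q) := by
  have h1 : ctr = Psi q (cc q) := by
    unfold cc
    rw [Psi_Phi]
  rw [mem_lv] at hq
  conv_lhs => rw [h1]
  rw [dist_Psi, hq]

theorem lt_iff {N : ℕ} {q : List D} (hq : q ∈ lv N) (z : ℂ) (r : ℝ) :
    r < dist (Psi q z) ctr ↔ r * (1 / 3) ^ N < dist z (cc q) := by
  rw [dist_cc hq, one_div, inv_pow, ← div_eq_mul_inv, div_lt_iff₀ (by positivity), mul_comm]

theorem gt_iff {N : ℕ} {q : List D} (hq : q ∈ lv N) (z : ℂ) (r : ℝ) :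
    dist (Psi q z) ctr < r ↔ dist z (cc q) < r * (1 / 3) ^ N := by
  rw [dist_cc hq, one_div, inv_pow, ← div_eq_mul_inv, lt_div_iff₀ (by positivity), mul_comm]

theorem eq_iff {N : ℕ} {q : List D} (hq : q ∈ lv N) (z : ℂ) (r : ℝ) :
    dist (Psi q z) ctr = r ↔ dist z (cc q) = r * (1 / 3) ^ N := by
  rw [dist_cc hq, one_div, inv_pow, ← div_eq_mul_inv, eq_div_iff (by positivity), mul_comm]

theorem ctx (hGEO : T_GEO) (N : ℕ) : Ctx (lv N) cc ((1 / 3) ^ N) (Gm N) where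
  hl := by positivity
  sep := (hGEO N).1.2
  mem := by
    intro z
    constructor
    · rintro ⟨q, hq, h⟩
      exact ⟨q, hq, (eq_iff hq z _).1 h⟩
    · rintro ⟨q, hq, h⟩
      exact ⟨q, hq, (eq_iff hq z _).2 h⟩

/-- decay at infinity -/
theorem decay {Γ : Set ℂ} (hΓ : IsCompact Γ) (M : (Γ →ᵇ ℂ) →L[ℂ] ℂ) (hM : ‖M‖ ≤ 2)
    (h1 : M 1 = 0) : ∃ B R : ℝ, 1 ≤ R ∧ ∀ z, R < dist z ctr →
      ‖(2 * π * I : ℂ)⁻¹ * M (kk hΓ z)‖ ≤ B / dist z ctr ^ 2 := by
  obtain ⟨R₁, hR₁⟩ := hΓ.isBounded.subset_closedBall ctr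
  set R₀ : ℝ := max R₁ 0 with hR₀
  have hR₀0 : 0 ≤ R₀ := le_max_right _ _
  have hΓR : ∀ ζ ∈ Γ, dist ζ ctr ≤ R₀ := fun ζ hζ => (mem_closedBall.1 (hR₁ hζ)).trans
    (le_max_left _ _)
  refine ⟨4 * R₀, 2 * R₀ + 1, by linarith, ?_⟩
  intro z hz
  have hz0 : 0 < dist z ctr := by linarith
  have hzΓ : z ∉ Γ := fun h => by linarith [hΓR z h]
  have hzc : z - ctr ≠ 0 := by
    rw [sub_ne_zero]
    exact dist_pos.1 hz0
  have h2 : M (kk hΓ z) = M (kk hΓ z + (z - ctr)⁻¹ • (1 : Γ →ᵇ ℂ)) := by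
    rw [map_add, map_smul, h1, smul_zero, add_zero]
  have h3 : ‖kk hΓ z + (z - ctr)⁻¹ • (1 : Γ →ᵇ ℂ)‖ ≤ 2 * R₀ / dist z ctr ^ 2 := by
    rw [BoundedContinuousFunction.norm_le (by positivity)]
    intro ζ
    have h4 : (kk hΓ z + (z - ctr)⁻¹ • (1 : Γ →ᵇ ℂ)) ζ =
        ((ζ : ℂ) - z)⁻¹ + (z - ctr)⁻¹ := by
      rw [BoundedContinuousFunction.add_apply, BoundedContinuousFunction.smul_apply,
        kk_apply hΓ hzΓ, BoundedContinuousFunction.coe_one, Pi.one_apply, smul_eq_mul, mul_one]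
    have hζz : (ζ : ℂ) - z ≠ 0 := fun h => hzΓ (by rw [← sub_eq_zero.1 h]; exact ζ.2)
    have h5 : ((ζ : ℂ) - z)⁻¹ + (z - ctr)⁻¹ = ((ζ : ℂ) - ctr) / (((ζ : ℂ) - z) * (z - ctr)) := by
      field_simp
      ring
    have h6 : dist z ctr / 2 ≤ ‖(ζ : ℂ) - z‖ := by
      have h7 := dist_triangle_left z ctr (ζ : ℂ)
      have h8 := hΓR ζ ζ.2
      rw [← dist_eq_norm]
      linarith
    rw [h4, h5, norm_div, norm_mul, ← dist_eq_norm (ζ : ℂ) ctr, ← dist_eq_norm z ctr]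
    have h9 : 0 < ‖(ζ : ℂ) - z‖ := norm_pos_iff.2 hζz
    rw [div_le_div_iff₀ (by positivity) (by positivity)]
    have h8 := hΓR ζ ζ.2
    have h10 : 0 ≤ dist (ζ : ℂ) ctr := dist_nonneg
    calc dist (ζ : ℂ) ctr * dist z ctr ^ 2 ≤ R₀ * dist z ctr ^ 2 :=
          mul_le_mul_of_nonneg_right h8 (by positivity)
      _ = 2 * R₀ * (dist z ctr / 2 * dist z ctr) := by ring
      _ ≤ 2 * R₀ * (‖(ζ : ℂ) - z‖ * dist z ctr) :=
          mul_le_mul_of_nonneg_left (mul_le_mul_of_nonneg_right h6 hz0.le) (by positivity)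
  have h11 : ‖(2 * π * I : ℂ)⁻¹‖ ≤ 1 := by
    rw [norm_inv, norm_mul, norm_mul, Complex.norm_I, Complex.norm_two, Complex.norm_real,
      Real.norm_eq_abs, abs_of_pos Real.pi_pos, mul_one]
    refine inv_le_one_of_one_le₀ ?_
    linarith [Real.pi_gt_three]
  rw [h2, norm_mul]
  calc ‖(2 * π * I : ℂ)⁻¹‖ * ‖M (kk hΓ z + (z - ctr)⁻¹ • (1 : Γ →ᵇ ℂ))‖
      ≤ 1 * (2 * (2 * R₀ / dist z ctr ^ 2)) := by
        refine mul_le_mul h11 ?_ (norm_nonneg _) zero_le_one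
        refine (M.le_opNorm _).trans ?_
        exact mul_le_mul hM h3 (norm_nonneg _) (by norm_num)
    _ = 4 * R₀ / dist z ctr ^ 2 := by ring

end CAU_

open CAU_ in
/-- CAU -/
theorem p_CAU (hGEO : T_GEO) : T_CAU := by
  intro N M hM han
  have h := ctx hGEO N
  have hMk : ∀ q ∈ lv N, ∀ z, dist z (cc q) ≤ 727 / 1000 * (1 / 3) ^ N → M (kk h.cpt z) = 0 := by
    intro q hq z hz
    have hl := h.hl
    refine han (fun ζ => (ζ - z)⁻¹) ⟨?_, ?_⟩ (kk h.cpt z) fun ζ => ?_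
    · refine (differentiableOn_id.sub_const _).inv fun w hw => ?_
      intro h3
      have h4 : w = z := sub_eq_zero.1 h3
      have h5 := (lt_iff hq w _).1 (hw q hq)
      rw [h4] at h5
      linarith
    · refine ⟨1, dist z ctr + 1, fun w hw => ?_⟩
      have h6 := dist_triangle w z ctr
      rw [norm_inv, ← dist_eq_norm]
      exact inv_le_one_of_one_le₀ (by linarith)
    · exact kk_apply h.cpt (h.notMem hq (by linarith) (by intro h7; rw [h7] at hz; linarith)) ζ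
  have hM1 : M 1 = 0 := by
    refine han (fun _ => 1) ⟨differentiableOn_const _, 1, 0, fun z _ => ?_⟩ 1 fun z => rfl
    rw [norm_one]
  have hnot : ∀ z ∈ OmR (73 / 100) N, z ∉ Gm N := by
    rintro z hz ⟨q, hq, hd⟩
    have := hz q hq
    rw [hd] at this
    exact lt_irrefl _ this
  refine ⟨fun z => (2 * π * I : ℂ)⁻¹ * M (kk h.cpt z), hM, han, ?_, ?_, ?_, ?_⟩
  · intro z hz
    exact ((M.differentiableAt.comp z (kk_diff h.cpt (hnot z hz))).const_mul
      _).differentiableWithinAt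
  · exact decay h.cpt M hM hM1
  · intro z hz k hk
    rw [kk_eq h.cpt (hnot z hz) k hk]
  · intro φ ψ' hφ hψ
    have hφ' : ∀ q ∈ lv N, DifferentiableOn ℂ (φ q) {z | 727 / 1000 * (1 / 3) ^ N < dist z (cc q) ∧
        dist z (cc q) < 78 / 100 * (1 / 3) ^ N} := by
      intro q hq
      refine (hφ q hq).mono ?_
      rintro z ⟨hz1, hz2⟩
      exact ⟨(lt_iff hq z _).2 hz1, (gt_iff hq z _).2 hz2⟩
    have hψ' := h.decomp hφ' ψ' (fun q hq z hz => hψ q hq z ((eq_iff hq _ _).2 hz))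
    rw [hψ', map_sum, neg_mul, Finset.mul_sum, ← Finset.sum_neg_distrib]
    refine Finset.sum_congr rfl fun q hq => ?_
    rw [h.apply_ps M hMk hq (hφ' q hq)]
    unfold cm
    rw [← mul_assoc, mul_inv_cancel₀ two_pi_ne, one_mul, mem_lv.1 hq]

end Pool.Agent.CorA
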