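import Pool.Agent.CorA.Targets

/-!
# The frozen constants
-/

set_option autoImplicit false

namespace Pool.Agent.CorA

open Complex Metric Set Filter Topology MeasureTheory
open Pool.Corona91698f Pool.Agent.CorE
open scoped Real BoundedContinuousFunction

namespace CST_

open Classical in
/-- The constants along the reversed word. -/
noncomputable def go {n : ℕ} (F : List D → Fin n → ℂ) (nc : List D → Prop) (tol : List D → ℝ) :
    List D → Fin n → ℂ
  | [] => F []
  | d :: v => if nc v.reverse then F (v.reverse ++ [d]) else
      if dist (F (v.reverse ++ [d])) (go F nc tol v) ≤ tol (v.reverse ++ [d]) then go F nc tol v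
      else F (v.reverse ++ [d])

theorem rule_go {n : ℕ} (F : List D → Fin n → ℂ) (nc : List D → Prop) (tol : List D → ℝ) :
    Rule F nc tol (fun u => go F nc tol u.reverse) := by
  refine ⟨rfl, fun p d => ⟨fun h => ?_, fun h h' => ?_, fun h h' => ?_⟩⟩
  · simp only [List.reverse_append, List.reverse_cons, List.reverse_nil, List.nil_append,
      List.singleton_append, go, List.reverse_reverse]
    rw [if_pos (show nc p.reverse.reverse by rwa [List.reverse_reverse])]
  · simp only [List.reverse_append, List.reverse_cons, List.reverse_nil, List.nil_append,
      List.singleton_append, go, List.reverse_reverse]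
    rw [if_neg (show ¬ nc p.reverse.reverse by rwa [List.reverse_reverse]), if_pos h']
  · simp only [List.reverse_append, List.reverse_cons, List.reverse_nil, List.nil_append,
      List.singleton_append, go, List.reverse_reverse]
    rw [if_neg (show ¬ nc p.reverse.reverse by rwa [List.reverse_reverse]),
      if_neg (not_le.2 h')]

end CST_

open CST_

theorem p_CST : T_CST := by
  intro n F nc tol
  refine ⟨⟨_, rule_go F nc tol⟩, fun Cs hCs p => ?_⟩
  induction p using List.reverseRecOn with
  | nil =>
    refine ⟨[], List.prefix_refl _, Or.inl rfl, hCs.1, ?_, ?_⟩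
    · intro t _ h2 _
      exact List.prefix_nil.1 h2
    · intro t _ h2 h3
      exact absurd (List.prefix_nil.1 h2) h3
  | append_singleton p d ih =>
    by_cases hR : RR F nc tol Cs (p ++ [d])
    · refine ⟨p ++ [d], List.prefix_refl _, hR, ?_, ?_, ?_⟩
      · rcases hR with h | h | h
        · simp at h
        · rw [List.dropLast_concat] at h
          exact (hCs.2 p d).1 h
        · obtain ⟨-, h1, h2⟩ := h
          rw [List.dropLast_concat] at h1 h2
          exact (hCs.2 p d).2.2 h1 h2
      · intro t h1 h2 _
        exact (List.IsPrefix.eq_of_length_le h1 h2.length_le).symm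
      · intro t h1 h2 h3
        exact absurd (List.IsPrefix.eq_of_length_le h1 h2.length_le).symm h3
    · obtain ⟨x, hx, hRx, hCx, hu, hn⟩ := ih
      have hnc : ¬ nc p := by
        intro h
        exact hR (Or.inr (Or.inl (by rwa [List.dropLast_concat])))
      have hd : dist (F (p ++ [d])) (Cs p) ≤ tol (p ++ [d]) := by
        by_contra h
        exact hR (Or.inr (Or.inr ⟨by simp, by rwa [List.dropLast_concat], by
          rw [List.dropLast_concat]
          exact not_le.1 h⟩))
      refine ⟨x, hx.trans (List.prefix_append _ _), hRx, ?_, ?_, ?_⟩
      · rw [(hCs.2 p d).2.1 hnc hd, hCx]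
      · intro t h1 h2 h3
        rcases List.prefix_concat_iff.1 h2 with h | h
        · exact absurd (h ▸ h3) hR
        · exact hu t h1 h h3
      · intro t h1 h2 h3
        rcases List.prefix_concat_iff.1 h2 with h | h
        · exact absurd h h3
        · by_cases htp : t = p
          · rw [htp]
            exact hnc
          · exact hn t h1 h htp

end Pool.Agent.CorA
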