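import Pool.Agent.CorA.Targets
import Pool.Agent.CorE.P_LPO

/-!
# The Cousin problem with weights depending on the level
-/

set_option autoImplicit false

namespace Pool.Agent.CorA

open Complex Metric Set Filter Topology MeasureTheory
open Pool.Corona91698f Pool.Agent.CorE
open scoped Real BoundedContinuousFunction

namespace CWT_

theorem Sg_deep (k : ℕ) : ∀ (j : ℕ) (z : ℂ), 151 / 100 < 3 ^ k * infDist z squareCantor →
    Sg (k + j) z ≤ (190 - 65 * (4 / 9) ^ k) * (4 / 9) ^ j := by
  induction k with
  | zero =>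
    intro j z hz
    have h1 := infDist_le_dist_ctr z
    simp only [pow_zero, one_mul] at hz
    have hd : 80 / 100 ≤ dist z ctr := by linarith
    have h2 := Sg_far j (z := z) (by linarith)
    have h3 : (9 / 100 : ℝ) ^ 2 ≤ (dist z ctr - 71 / 100) ^ 2 := by
      gcongr
      linarith
    have h4 : 1 / (dist z ctr - 71 / 100) ^ 2 ≤ 123.5 := by
      rw [div_le_iff₀ (by nlinarith)]
      nlinarith
    have h5 : (0 : ℝ) < (4 / 9) ^ j := by positivity
    rw [Nat.zero_add]
    nlinarith
  | succ k ih =>
    intro j z hz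
    obtain ⟨d₀, hd₀⟩ := exists_far z
    have h0 : Sg (k + j) (psi d₀ z) ≤ (190 - 65 * (4 / 9) ^ k) * (4 / 9) ^ j := by
      refine ih j _ ?_
      have h2 := infDist_psi d₀ z
      have h3 : (0 : ℝ) < 3 ^ k := by positivity
      rw [pow_succ] at hz
      nlinarith
    have h1 := sum_D_le (fun d => Sg (k + j) (psi d z)) d₀ _ (12 * (4 / 9) ^ (k + j)) h0
      (fun d hd => Sg_far_one (k + j) (hd₀ d hd))
    have e : k + 1 + j = (k + j) + 1 := by ring
    rw [e]
    have h5 : (0 : ℝ) < (4 / 9) ^ j := by positivity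
    have h6 : (0 : ℝ) < (4 / 9) ^ k := by positivity
    calc Sg (k + j + 1) z = ∑ d : D, Sg (k + j) (psi d z) := rfl
      _ ≤ _ := h1
      _ ≤ (190 - 65 * (4 / 9) ^ (k + 1)) * (4 / 9) ^ j := by
        rw [pow_add, pow_succ]
        nlinarith [mul_pos h5 h6]

theorem Sg_deep' {k : ℕ} (j : ℕ) {z : ℂ} (hz : 151 / 100 < 3 ^ k * infDist z squareCantor) :
    Sg (k + j) z ≤ 190 * (4 / 9) ^ j := by
  have h := Sg_deep k j z hz
  have h5 : (0 : ℝ) < (4 / 9) ^ j := by positivity
  have h6 : (0 : ℝ) < (4 / 9) ^ k := by positivity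
  nlinarith [mul_pos h5 h6]

theorem summable_shift {μ : ℕ → ℝ} (hs : Summable fun l : ℕ => μ l * (4 / 9 : ℝ) ^ l) (k : ℕ) :
    Summable fun l : ℕ => μ (k + l) * (4 / 9 : ℝ) ^ l := by
  have h1 := ((summable_nat_add_iff k).2 hs).mul_left ((9 / 4 : ℝ) ^ k)
  refine h1.congr fun l => ?_
  have e : (9 / 4 : ℝ) ^ k * (4 / 9) ^ k = 1 := by
    rw [← mul_pow]
    norm_num
  rw [pow_add, add_comm l k]
  calc (9 / 4 : ℝ) ^ k * (μ (k + l) * ((4 / 9) ^ l * (4 / 9) ^ k)) =
        ((9 / 4 : ℝ) ^ k * (4 / 9) ^ k) * (μ (k + l) * (4 / 9) ^ l) := by ring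
    _ = μ (k + l) * (4 / 9) ^ l := by rw [e, one_mul]

theorem sum_words {μ : ℕ → ℝ} (hμ : ∀ l, 0 ≤ μ l)
    (hs : Summable fun l : ℕ => μ l * (4 / 9 : ℝ) ^ l) {k : ℕ} {z : ℂ}
    (hz : 151 / 100 < 3 ^ k * infDist z squareCantor) (s : Finset (List D)) :
    ∑ v ∈ s, μ v.length * th (Psi v z) ≤
      190 * (∑ l ∈ Finset.range (k + 1), μ l + ∑' l, μ (k + l) * (4 / 9 : ℝ) ^ l) := by
  set n := s.sup List.length with hn
  have h1 : ∑ v ∈ s, μ v.length * th (Psi v z) ≤ ∑ v ∈ wd n, μ v.length * th (Psi v z) := by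
    refine Finset.sum_le_sum_of_subset_of_nonneg ?_ fun v _ _ =>
      mul_nonneg (hμ _) (th_pos _).le
    intro v hv
    exact mem_wd.2 (Finset.le_sup (f := List.length) hv)
  have h2 : ∑ v ∈ wd n, μ v.length * th (Psi v z) = ∑ l ∈ Finset.range (n + 1), μ l * Sg l z := by
    rw [LPO_.sum_wd_lv]
    refine Finset.sum_congr rfl fun l _ => ?_
    rw [← sum_lv, Finset.mul_sum]
    exact Finset.sum_congr rfl fun v hv => by rw [mem_lv.1 hv]
  have h3 : ∑ l ∈ Finset.range (n + 1), μ l * Sg l z ≤
      ∑ l ∈ Finset.range (k + (n + 1)), μ l * Sg l z := by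
    refine Finset.sum_le_sum_of_subset_of_nonneg ?_ fun l _ _ =>
      mul_nonneg (hμ _) (Sg_nonneg _ _)
    intro l hl
    rw [Finset.mem_range] at hl ⊢
    omega
  rw [Finset.sum_range_add (fun l => μ l * Sg l z) k (n + 1)] at h3
  have h4 : ∑ l ∈ Finset.range k, μ l * Sg l z ≤ 190 * ∑ l ∈ Finset.range (k + 1), μ l := by
    have a1 : ∑ l ∈ Finset.range k, μ l * Sg l z ≤ ∑ l ∈ Finset.range k, 190 * μ l := by
      refine Finset.sum_le_sum fun l _ => ?_
      have := Sg_le' l z
      have := hμ l
      nlinarith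
    rw [← Finset.mul_sum] at a1
    rw [Finset.sum_range_succ]
    have := hμ k
    nlinarith
  have hs' := summable_shift hs k
  have h5 : ∑ j ∈ Finset.range (n + 1), μ (k + j) * Sg (k + j) z ≤
      190 * ∑' l, μ (k + l) * (4 / 9 : ℝ) ^ l := by
    have a1 : ∑ j ∈ Finset.range (n + 1), μ (k + j) * Sg (k + j) z ≤
        ∑ j ∈ Finset.range (n + 1), 190 * (μ (k + j) * (4 / 9) ^ j) := by
      refine Finset.sum_le_sum fun j _ => ?_
      have a2 := Sg_deep' j hz
      have a3 := hμ (k + j)
      nlinarith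
    rw [← Finset.mul_sum] at a1
    refine a1.trans (mul_le_mul_of_nonneg_left ?_ (by norm_num))
    exact hs'.sum_le_tsum _ fun j _ => mul_nonneg (hμ _) (by positivity)
  linarith

theorem split0 {w : ℂ → ℂ} {M : ℝ} (hM0 : 0 ≤ M)
    (hw : DifferentiableOn ℂ w {z | (74 / 100 : ℝ) < dist z ctr ∧ dist z ctr < 80 / 100})
    (hM : ∀ z, (74 / 100 : ℝ) < dist z ctr → dist z ctr < 80 / 100 → ‖w z‖ ≤ M) :
    ∃ win wout : ℂ → ℂ,
      DifferentiableOn ℂ win (ball ctr (79 / 100) ∩ squareCantorᶜ) ∧
      DifferentiableOn ℂ wout {z | (75 / 100 : ℝ) < dist z ctr} ∧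
      (∀ z, (75 / 100 : ℝ) < dist z ctr → dist z ctr < 79 / 100 → w z = win z - wout z) ∧
      (∀ z, dist z ctr < 78 / 100 → ‖win z‖ ≤ 2000000 * M * th z) ∧
      (∀ z, (76 / 100 : ℝ) < dist z ctr → ‖wout z‖ ≤ 2000000 * M * th z) := by
  rcases hM0.eq_or_lt with h | h
  · refine ⟨fun _ => 0, fun _ => 0, differentiableOn_const _, differentiableOn_const _, ?_, ?_,
      ?_⟩
    · intro z h1 h2
      have := hM z (by linarith) (by linarith)
      rw [← h] at this
      rw [sub_zero]
      exact norm_le_zero_iff.1 this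
    · intro z _
      rw [norm_zero, ← h]
      simp
    · intro z _
      rw [norm_zero, ← h]
      simp
  · obtain ⟨win, wout, h1, h2, h3, h4, h5, -⟩ := split_node h hw hM
    exact ⟨win, wout, h1, h2, h3, h4, h5⟩

end CWT_

open CWT_

theorem p_CWT : T_CWT := by
  classical
  refine ⟨2000000 * 190, by norm_num, fun w μ hμ hs hw hM => ?_⟩
  choose win wout hwin hwout hwe hwinb hwoutb using
    fun v => split0 (hμ v.length) (hw v) (hM v)
  let term : Option (List D) → List D → ℂ → ℂ := fun R v z =>
    if anc R v then win v (Psi v z) else wout v (Psi v z)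
  have hterm : ∀ R v z, z ∈ Nd R → ‖term R v z‖ ≤ 2000000 * (μ v.length * th (Psi v z)) := by
    intro R v z hz
    simp only [term]
    rw [← mul_assoc]
    split_ifs with h
    · exact hwinb v _ (Nd_anc hz h)
    · exact hwoutb v _ (Nd_not_anc hz h)
  have hsm : ∀ z, z ∉ squareCantor → Summable fun v : List D => μ v.length * th (Psi v z) := by
    intro z hz
    obtain ⟨k, hk⟩ := exists_k hz
    exact summable_of_sum_le (fun v => mul_nonneg (hμ _) (th_pos _).le)
      fun s => sum_words hμ hs hk s
  have hsum : ∀ R z, z ∈ Nd R → Summable fun v => term R v z := by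
    intro R z hz
    exact Summable.of_norm_bounded ((hsm z (Nd_notMem hz)).mul_left 2000000)
      (fun v => hterm R v z hz)
  refine ⟨fun R z => ∑' v, term R v z, ?_, ?_, ?_⟩
  · intro R z₀ hz₀
    have hE := Nd_notMem hz₀
    have hη := infDist_pos' hE
    have hop : IsOpen (Nd R ∩ ball z₀ (infDist z₀ squareCantor / 2)) :=
      (isOpen_Nd R).inter isOpen_ball
    have hz₀V : z₀ ∈ Nd R ∩ ball z₀ (infDist z₀ squareCantor / 2) :=
      ⟨hz₀, mem_ball_self (by positivity)⟩
    have hd : DifferentiableOn ℂ (fun z => ∑' v, term R v z)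
        (Nd R ∩ ball z₀ (infDist z₀ squareCantor / 2)) := by
      refine differentiableOn_tsum_of_summable_norm
        (u := fun v => 2000000 * (20 * (μ v.length * th (Psi v z₀))))
        (((hsm z₀ hE).mul_left 20).mul_left _) (fun v => ?_) hop ?_
      · intro z hz
        have hzN := hz.1
        refine DifferentiableAt.differentiableWithinAt ?_
        have hPd := differentiable_Psi v z
        by_cases h : anc R v
        · have e : (term R v) = fun z => win v (Psi v z) := by
            funext y
            simp only [term]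
            rw [if_pos h]
          rw [e]
          have hop2 : IsOpen (ball ctr (79 / 100) ∩ squareCantorᶜ) :=
            isOpen_ball.inter isClosed_squareCantor.isOpen_compl
          have hm : Psi v z ∈ ball ctr (79 / 100) ∩ squareCantorᶜ := by
            refine ⟨?_, Psi_notMem (Nd_notMem hzN)⟩
            have := Nd_anc hzN h
            rw [mem_ball]
            linarith
          exact DifferentiableAt.comp (g := win v) (f := Psi v) z
            ((hwin v).differentiableAt (hop2.mem_nhds hm)) hPd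
        · have e : (term R v) = fun z => wout v (Psi v z) := by
            funext y
            simp only [term]
            rw [if_neg h]
          rw [e]
          have hop2 : IsOpen {z : ℂ | (75 / 100 : ℝ) < dist z ctr} :=
            isOpen_lt continuous_const (continuous_id.dist continuous_const)
          have hm : Psi v z ∈ {z : ℂ | (75 / 100 : ℝ) < dist z ctr} := by
            have := Nd_not_anc hzN h
            show (75 / 100 : ℝ) < dist (Psi v z) ctr
            linarith
          exact DifferentiableAt.comp (g := wout v) (f := Psi v) z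
            ((hwout v).differentiableAt (hop2.mem_nhds hm)) hPd
      · intro v z hz
        refine (hterm R v z hz.1).trans ?_
        have h1 := th_harnack (z := z) (z₀ := z₀) (le_of_lt hz.2) v
        have h2 := mul_le_mul_of_nonneg_left h1 (hμ v.length)
        linarith
    exact (hd.differentiableAt (hop.mem_nhds hz₀V)).differentiableWithinAt
  · intro R z hz k hk
    have h1 : HasSum (fun v : List D => 2000000 * (μ v.length * th (Psi v z)))
        (2000000 * ∑' v : List D, μ v.length * th (Psi v z)) :=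
      (hsm z (Nd_notMem hz)).hasSum.mul_left _
    refine (tsum_of_norm_bounded h1 (fun v => hterm R v z hz)).trans ?_
    have h2 : ∑' v : List D, μ v.length * th (Psi v z) ≤
        190 * (∑ l ∈ Finset.range (k + 1), μ l + ∑' l, μ (k + l) * (4 / 9 : ℝ) ^ l) :=
      Real.tsum_le_of_sum_le (fun v => mul_nonneg (hμ _) (th_pos _).le)
        fun s => sum_words hμ hs hk s
    linarith
  · intro v₀ z hz hz'
    have h1 := (hsum (some v₀) z hz').tsum_sub (hsum (par v₀) z hz)
    rw [← h1, tsum_eq_single v₀]
    · simp only [term]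
      have ha : anc (some v₀) v₀ := (anc_par v₀ v₀).2 (Or.inr rfl)
      rw [if_pos ha, if_neg (not_anc_par v₀)]
      have h2 := Nd_anc hz' ha
      have h3 := Nd_not_anc hz (not_anc_par v₀)
      exact (hwe v₀ _ (by linarith) (by linarith)).symm
    · intro v hv
      simp only [term]
      have : anc (some v₀) v ↔ anc (par v₀) v := by
        rw [anc_par]
        exact ⟨fun h => h.resolve_right hv, Or.inl⟩
      by_cases h : anc (par v₀) v
      · rw [if_pos h, if_pos (this.2 h), sub_self]
      · rw [if_neg h, if_neg (fun h' => h (this.1 h')), sub_self]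

end Pool.Agent.CorA
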