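import Pool.Agent.CorA.Targets

/-!
# DUA: the reduction by duality
-/

set_option autoImplicit false

namespace Pool.Agent.CorA

open Complex Metric Set Filter Topology MeasureTheory
open Pool.Corona91698f Pool.Agent.CorE
open scoped Real BoundedContinuousFunction

namespace DUA_

/-! ### geometry -/

theorem near_one {v : List D} {z : ℂ} (h : dist (Psi v z) ctr < 1) : dist z ctr < 1 := by
  induction v generalizing z with
  | nil => exact h
  | cons d v ih =>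
    rw [Psi_cons] at h
    have h1 := ih h
    have h2 := dist_le_of_psi d z
    linarith

theorem near_73 {v : List D} {z : ℂ} (h : dist (Psi v z) ctr ≤ 73 / 100) :
    dist z ctr ≤ 73 / 100 := by
  induction v generalizing z with
  | nil => exact h
  | cons d v ih =>
    rw [Psi_cons] at h
    have h1 := ih h
    have h2 := dist_le_of_psi d z
    linarith

theorem eq_of_near {v w : List D} {z : ℂ} (hl : v.length = w.length)
    (hv : dist (Psi v z) ctr < 1) (hw : dist (Psi w z) ctr < 1) : v = w := by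
  induction v generalizing w z with
  | nil =>
    rw [List.length_nil] at hl
    exact (List.length_eq_zero_iff.1 hl.symm).symm
  | cons d v ih =>
    cases w with
    | nil => simp at hl
    | cons d' w =>
      rw [Psi_cons] at hv hw
      have h1 := near_one hv
      have h2 := near_one hw
      have hdd : d = d' := psi_disj h1 h2
      subst hdd
      rw [ih (by simpa using hl) hv hw]

theorem exists_word {z : ℂ} (hz : z ∈ squareCantor) (N : ℕ) :
    ∃ q ∈ lv N, Psi q z ∈ squareCantor := by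
  induction N generalizing z with
  | zero => exact ⟨[], mem_lv.2 rfl, hz⟩
  | succ N ih =>
    obtain ⟨d, hd⟩ := exists_psi_mem hz
    obtain ⟨q, hq, hq'⟩ := ih hd
    exact ⟨d :: q, mem_lv.2 (by rw [List.length_cons, mem_lv.1 hq]), hq'⟩

theorem OmR_notMem {r : ℝ} (hr : 71 / 100 ≤ r) {N : ℕ} {z : ℂ} (hz : z ∈ OmR r N) :
    z ∉ squareCantor := by
  intro h
  obtain ⟨q, hq, hq'⟩ := exists_word h N
  have h1 := squareCantor_dist' hq'
  have h2 := hz q hq
  linarith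

theorem OmR_open (r : ℝ) (N : ℕ) : IsOpen (OmR r N) := by
  have : OmR r N = ⋂ q ∈ lv N, {z | r < dist (Psi q z) ctr} := by
    ext z
    simp [OmR]
  rw [this]
  exact isOpen_biInter_finset fun q _ =>
    isOpen_lt continuous_const ((differentiable_Psi q).continuous.dist continuous_const)

theorem OmR_mono {N : ℕ} : OmR (73 / 100) N ⊆ OmR (727 / 1000) N := by
  intro z hz q hq
  have := hz q hq
  linarith

theorem Gm_sub {N : ℕ} : Gm N ⊆ OmR (727 / 1000) N := by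
  intro z hz q hq
  obtain ⟨q', hq', h⟩ := hz
  by_contra hcon
  rw [not_lt] at hcon
  have h1 : q = q' := eq_of_near ((mem_lv.1 hq).trans (mem_lv.1 hq').symm)
    (z := z) (by linarith) (by linarith)
  subst h1
  linarith

theorem Gm_notMem {N : ℕ} {z : ℂ} (hz : z ∈ Gm N) : z ∉ squareCantor :=
  OmR_notMem (by norm_num) (Gm_sub hz)

theorem Gm_compact (N : ℕ) : IsCompact (Gm N) := by
  have : Gm N = ⋃ q ∈ lv N, {z | dist (Psi q z) ctr = 73 / 100} := by
    ext z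
    simp [Gm]
  rw [this]
  refine (lv N).isCompact_biUnion fun q _ => ?_
  have h2 : {z | dist (Psi q z) ctr = 73 / 100} =
      sphere (Phi q ctr) (73 / 100 / 3 ^ q.length) := by
    ext z
    have h3 := dist_Psi q z (Phi q ctr)
    rw [Psi_Phi] at h3
    have h4 : (0 : ℝ) < 3 ^ q.length := by positivity
    rw [mem_setOf_eq, mem_sphere, h3, eq_div_iff h4.ne', mul_comm]
  rw [h2]
  exact isCompact_sphere _ _

theorem node_sub {N : ℕ} {u : List D} (hu : u.length < N) {z : ℂ} (hz : Psi u z ∈ nodeX) :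
    z ∈ OmR (73 / 100) N := by
  intro q hq
  by_contra hcon
  rw [not_lt] at hcon
  have hql : q.length = N := mem_lv.1 hq
  have hsplit : q.take u.length ++ q.drop u.length = q := List.take_append_drop _ _
  have h1 : dist (Psi (q.drop u.length) (Psi (q.take u.length) z)) ctr ≤ 73 / 100 := by
    rw [← Psi_append, hsplit]
    exact hcon
  have h2 : dist (Psi (q.take u.length) z) ctr ≤ 73 / 100 := near_73 h1
  have h3 : q.take u.length = u := by
    refine eq_of_near (z := z) ?_ (by linarith) (by linarith [hz.1])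
    rw [List.length_take, hql]
    omega
  rw [h3] at h1
  cases hd : q.drop u.length with
  | nil =>
    have h4 : (q.drop u.length).length = 0 := by rw [hd]; rfl
    rw [List.length_drop] at h4
    omega
  | cons d v =>
    rw [hd, Psi_cons] at h1
    have h5 := near_73 h1
    have h6 := hz.2 d
    linarith

theorem K_compact (u : List D) : IsCompact {z | Psi u z ∈ nodeX} := by
  have : {z | Psi u z ∈ nodeX} = Phi u '' nodeX := by
    ext z
    constructor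
    · intro h
      exact ⟨Psi u z, h, Phi_Psi u z⟩
    · rintro ⟨y, hy, rfl⟩
      show Psi u (Phi u y) ∈ nodeX
      rwa [Psi_Phi]
  rw [this]
  exact isCompact_nodeX.image (differentiable_Phi u).continuous

theorem node_ne : nodeX.Nonempty := by
  refine ⟨ctr + 77 / 100, ?_, ?_⟩
  · rw [dist_eq_norm]
    norm_num
  · intro d
    have h := dist_psi_ge d (ctr + 77 / 100)
    have h2 : dist (ctr + 77 / 100) ctr = 77 / 100 := by
      rw [dist_eq_norm]
      norm_num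
    rw [h2] at h
    linarith

theorem K_ne (u : List D) : {z | Psi u z ∈ nodeX}.Nonempty := by
  obtain ⟨y, hy⟩ := node_ne
  refine ⟨Phi u y, ?_⟩
  show Psi u (Phi u y) ∈ nodeX
  rwa [Psi_Phi]

/-! ### restrictions -/

/-- the restriction of a continuous function to the circles -/
theorem exists_res (N : ℕ) (F : ℂ → ℂ) (hF : ContinuousOn F (Gm N)) :
    ∃ F' : Gm N →ᵇ ℂ, ∀ z : Gm N, F' z = F z := by
  haveI : CompactSpace (Gm N) := isCompact_iff_compactSpace.1 (Gm_compact N)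
  exact ⟨BoundedContinuousFunction.mkOfCompact ⟨fun x : Gm N => F x,
    continuousOn_iff_continuous_restrict.1 hF⟩, fun z => rfl⟩

theorem IsA_cont {N : ℕ} {ψ : ℂ → ℂ} (h : IsA N ψ) : ContinuousOn ψ (Gm N) :=
  h.1.continuousOn.mono Gm_sub

theorem IsA_smul {N : ℕ} {ψ : ℂ → ℂ} (c : ℂ) (h : IsA N ψ) : IsA N fun z => c * ψ z := by
  obtain ⟨h1, B, R, h2⟩ := h
  refine ⟨h1.const_mul c, ‖c‖ * B, R, fun z hz => ?_⟩
  rw [norm_mul]
  exact mul_le_mul_of_nonneg_left (h2 z hz) (norm_nonneg _)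

theorem IsA_add {N : ℕ} {ψ ψ' : ℂ → ℂ} (h : IsA N ψ) (h' : IsA N ψ') :
    IsA N fun z => ψ z + ψ' z := by
  obtain ⟨h1, B, R, h2⟩ := h
  obtain ⟨h1', B', R', h2'⟩ := h'
  refine ⟨h1.add h1', B + B', max R R', fun z hz => ?_⟩
  exact norm_add_le_of_le (h2 z ((le_max_left _ _).trans_lt hz))
    (h2' z ((le_max_right _ _).trans_lt hz))

theorem IsA_zero (N : ℕ) : IsA N fun _ => 0 :=
  ⟨differentiableOn_const _, 0, 0, fun z _ => by simp⟩

theorem IsA_sum {ι : Type} {N : ℕ} (s : Finset ι) (ψ : ι → ℂ → ℂ) (h : ∀ i ∈ s, IsA N (ψ i)) :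
    IsA N fun z => ∑ i ∈ s, ψ i z := by
  classical
  induction s using Finset.induction_on with
  | empty => simpa using IsA_zero N
  | insert a s ha ih =>
    have h1 := IsA_add (h a (Finset.mem_insert_self a s))
      (ih fun i hi => h i (Finset.mem_insert_of_mem hi))
    simpa [Finset.sum_insert ha] using h1

theorem IsA_mul {N n : ℕ} {δ : ℝ} {f : Fin n → ℂ → ℂ} (hf : Dat n δ f) {ψ : ℂ → ℂ}
    (h : IsA N ψ) (j : Fin n) : IsA N fun z => ψ z * f j z := by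
  obtain ⟨h1, B, R, h2⟩ := h
  refine ⟨h1.mul ((hf.diff j).mono fun z hz => OmR_notMem (by norm_num) hz), B, max R 1,
    fun z hz => ?_⟩
  have h3 := h2 z ((le_max_left _ _).trans_lt hz)
  have h4 : z ∉ squareCantor := by
    intro hz'
    have h5 := squareCantor_dist' hz'
    have h6 := (le_max_right R 1).trans_lt hz
    linarith
  have h7 := hf.le j z h4
  rw [norm_mul]
  calc ‖ψ z‖ * ‖f j z‖ ≤ ‖ψ z‖ * 1 := mul_le_mul_of_nonneg_left h7 (norm_nonneg _)
    _ ≤ B := by rw [mul_one]; exact h3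

theorem n_ne {n : ℕ} {δ : ℝ} {f : Fin n → ℂ → ℂ} (hf : Dat n δ f) : Nonempty (Fin n) := by
  have h : ctr + 77 / 100 ∉ squareCantor := by
    intro hz'
    have h5 := squareCantor_dist' hz'
    have h2 : dist (ctr + 77 / 100) ctr = 77 / 100 := by
      rw [dist_eq_norm]
      norm_num
    rw [h2] at h5
    norm_num at h5
  obtain ⟨j, _⟩ := hf.ge _ h
  exact ⟨j⟩

/-! ### the submodule -/

/-- the perturbations of solutions -/
def SS (n N : ℕ) (f : Fin n → ℂ → ℂ) : Submodule ℂ (Fin n → (Gm N →ᵇ ℂ)) where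
  carrier := {κ | ∃ ψ : Fin n → Fin n → ℂ → ℂ, (∀ i j, IsA N (ψ i j)) ∧
    (∀ i j z, ψ j i z = - ψ i j z) ∧ ∀ (i : Fin n) (z : Gm N), κ i z = ∑ j, ψ i j z * f j z}
  add_mem' := by
    rintro κ κ' ⟨ψ, h1, h2, h3⟩ ⟨ψ', h1', h2', h3'⟩
    refine ⟨fun i j z => ψ i j z + ψ' i j z, fun i j => IsA_add (h1 i j) (h1' i j),
      fun i j z => ?_, fun i z => ?_⟩
    · show ψ j i z + ψ' j i z = - (ψ i j z + ψ' i j z)
      rw [h2, h2']
      ring
    · show κ i z + κ' i z = _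
      rw [h3, h3', ← Finset.sum_add_distrib]
      exact Finset.sum_congr rfl fun j _ => by ring
  zero_mem' := by
    refine ⟨fun _ _ _ => 0, fun _ _ => IsA_zero N, fun _ _ _ => by simp, fun i z => ?_⟩
    simp
  smul_mem' := by
    rintro c κ ⟨ψ, h1, h2, h3⟩
    refine ⟨fun i j z => c * ψ i j z, fun i j => IsA_smul c (h1 i j),
      fun i j z => ?_, fun i z => ?_⟩
    · show c * ψ j i z = - (c * ψ i j z)
      rw [h2]
      ring
    · show c * κ i z = _
      rw [h3, Finset.mul_sum]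
      exact Finset.sum_congr rfl fun j _ => by ring

/-! ### the functional -/

/-- the components of the functional -/
noncomputable def Li {N n : ℕ} (L : (Fin n → (Gm N →ᵇ ℂ)) →L[ℂ] ℂ) (i : Fin n) :
    (Gm N →ᵇ ℂ) →L[ℂ] ℂ :=
  L.comp (ContinuousLinearMap.single ℂ (fun _ : Fin n => (Gm N →ᵇ ℂ)) i)

theorem Li_apply {N n : ℕ} (L : (Fin n → (Gm N →ᵇ ℂ)) →L[ℂ] ℂ) (i : Fin n) (φ : Gm N →ᵇ ℂ) :
    Li L i φ = L (Pi.single i φ) := rfl

theorem Li_sum {N n : ℕ} (L : (Fin n → (Gm N →ᵇ ℂ)) →L[ℂ] ℂ) (φ : Fin n → (Gm N →ᵇ ℂ)) :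
    ∑ i, Li L i (φ i) = L φ := by
  simp only [Li_apply]
  rw [← map_sum, Finset.univ_sum_single]

/-- the commutators -/
noncomputable def Mij {N n : ℕ} (L : (Fin n → (Gm N →ᵇ ℂ)) →L[ℂ] ℂ)
    (fj : Fin n → (Gm N →ᵇ ℂ)) (i j : Fin n) : (Gm N →ᵇ ℂ) →L[ℂ] ℂ :=
  (Li L i).comp (ContinuousLinearMap.mul ℂ (Gm N →ᵇ ℂ) (fj j)) -
    (Li L j).comp (ContinuousLinearMap.mul ℂ (Gm N →ᵇ ℂ) (fj i))

theorem Mij_apply {N n : ℕ} (L : (Fin n → (Gm N →ᵇ ℂ)) →L[ℂ] ℂ)
    (fj : Fin n → (Gm N →ᵇ ℂ)) (i j : Fin n) (φ : Gm N →ᵇ ℂ) :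
    Mij L fj i j φ = Li L i (fj j * φ) - Li L j (fj i * φ) := rfl

theorem Li_le {N n : ℕ} {L : (Fin n → (Gm N →ᵇ ℂ)) →L[ℂ] ℂ} (hL : ‖L‖ ≤ 1) (i : Fin n)
    (φ : Gm N →ᵇ ℂ) : ‖Li L i φ‖ ≤ ‖φ‖ := by
  rw [Li_apply]
  have h1 := L.le_of_opNorm_le hL (Pi.single i φ)
  have h2 : ‖(Pi.single i φ : Fin n → (Gm N →ᵇ ℂ))‖ = ‖φ‖ :=
    Pi.norm_single (G := fun _ : Fin n => (Gm N →ᵇ ℂ)) φ
  rw [h2, one_mul] at h1
  exact h1

theorem Mij_le {N n : ℕ} {L : (Fin n → (Gm N →ᵇ ℂ)) →L[ℂ] ℂ} (hL : ‖L‖ ≤ 1)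
    {fj : Fin n → (Gm N →ᵇ ℂ)} (hf : ∀ i, ‖fj i‖ ≤ 1) (i j : Fin n) : ‖Mij L fj i j‖ ≤ 2 := by
  refine ContinuousLinearMap.opNorm_le_bound _ (by norm_num) fun φ => ?_
  rw [Mij_apply]
  have h : ∀ k l : Fin n, ‖Li L k (fj l * φ)‖ ≤ ‖φ‖ := by
    intro k l
    refine (Li_le hL k _).trans ((norm_mul_le _ _).trans ?_)
    calc ‖fj l‖ * ‖φ‖ ≤ 1 * ‖φ‖ := mul_le_mul_of_nonneg_right (hf l) (norm_nonneg _)
      _ = ‖φ‖ := one_mul _
  calc ‖Li L i (fj j * φ) - Li L j (fj i * φ)‖ ≤ ‖φ‖ + ‖φ‖ :=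
        norm_sub_le_of_le (h i j) (h j i)
    _ = 2 * ‖φ‖ := by ring

theorem Mij_an {N n : ℕ} {f : Fin n → ℂ → ℂ} {L : (Fin n → (Gm N →ᵇ ℂ)) →L[ℂ] ℂ}
    (hL : ∀ y ∈ SS n N f, L y = 0) {fj : Fin n → (Gm N →ᵇ ℂ)}
    (hf : ∀ (i : Fin n) (z : Gm N), fj i z = f i z) (i j : Fin n) (ψ : ℂ → ℂ) (hψ : IsA N ψ)
    (ψ' : Gm N →ᵇ ℂ) (h : ∀ z : Gm N, ψ' z = ψ z) : Mij L fj i j ψ' = 0 := by
  rw [Mij_apply, Li_apply, Li_apply, ← map_sub]
  refine hL _ ⟨fun k l z => ((if k = i then 1 else 0) * (if l = j then 1 else 0) -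
    (if k = j then 1 else 0) * (if l = i then 1 else 0)) * ψ z, fun k l => IsA_smul _ hψ,
    fun k l z => by ring, fun k z => ?_⟩
  have e1 : ((Pi.single i (fj j * ψ') - Pi.single j (fj i * ψ') :
      Fin n → (Gm N →ᵇ ℂ)) k) z =
      (if k = i then 1 else 0) * (f j z * ψ z) - (if k = j then 1 else 0) * (f i z * ψ z) := by
    rw [Pi.sub_apply, BoundedContinuousFunction.sub_apply]
    congr 1
    · by_cases hk : k = i
      · subst hk
        rw [Pi.single_eq_same, BoundedContinuousFunction.mul_apply, hf, h]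
        simp
      · rw [Pi.single_eq_of_ne hk]
        simp [hk]
    · by_cases hk : k = j
      · subst hk
        rw [Pi.single_eq_same, BoundedContinuousFunction.mul_apply, hf, h]
        simp
      · rw [Pi.single_eq_of_ne hk]
        simp [hk]
  rw [e1]
  have e2 : ∀ l : Fin n, ((if k = i then (1 : ℂ) else 0) * (if l = j then 1 else 0) -
      (if k = j then 1 else 0) * (if l = i then 1 else 0)) * ψ z * f l z =
      (if l = j then (if k = i then 1 else 0) * (ψ z * f l z) else 0) -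
      (if l = i then (if k = j then 1 else 0) * (ψ z * f l z) else 0) := by
    intro l
    split_ifs <;> simp
  rw [Finset.sum_congr rfl fun l _ => e2 l, Finset.sum_sub_distrib, Finset.sum_ite_eq',
    Finset.sum_ite_eq']
  simp only [Finset.mem_univ, if_true]
  ring

/-! ### the sizes -/

theorem exists_HD {n N : ℕ} (hn : Nonempty (Fin n)) {C₀ : ℝ} (hC₀ : 0 < C₀)
    {M : Fin n → Fin n → (Gm N →ᵇ ℂ) →L[ℂ] ℂ} {h : Fin n → Fin n → ℂ → ℂ}
    (hM : ∀ i j, MM N (M i j) (h i j)) (hanti : ∀ i j φ, M j i φ = - M i j φ)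
    (hlev : ∀ i j, ∀ (l : ℕ) (zz : List D → ℂ), ((l < N ∧ ∀ u ∈ lv l, Psi u (zz u) ∈ nodeX) ∨
      (l = N ∧ ∀ u ∈ lv l, dist (Psi u (zz u)) ctr = 77 / 100)) →
      ∑ u ∈ lv l, (1 / 3) ^ l * ‖h i j (zz u)‖ ≤ C₀) :
    ∃ a : List D → ℝ, HD n N h a (((n : ℝ) ^ 2 + 1) * C₀) := by
  classical
  have hcont : ∀ u : List D, u.length < N → ∀ p : Fin n × Fin n,
      ContinuousOn (fun z => ‖h p.1 p.2 z‖) {z | Psi u z ∈ nodeX} := fun u hu p =>
    ((hM p.1 p.2).diff.continuousOn.mono fun z hz => node_sub hu hz).norm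
  have hz : ∀ (p : Fin n × Fin n) (u : List D), ∃ z, Psi u z ∈ nodeX ∧ (u.length < N →
      ∀ w, Psi u w ∈ nodeX → ‖h p.1 p.2 w‖ ≤ ‖h p.1 p.2 z‖) := by
    intro p u
    by_cases hu : u.length < N
    · obtain ⟨z, hz1, hz2⟩ := (K_compact u).exists_isMaxOn (K_ne u) (hcont u hu p)
      exact ⟨z, hz1, fun _ w hw => hz2 hw⟩
    · obtain ⟨z, hz1⟩ := K_ne u
      exact ⟨z, hz1, fun h => absurd h hu⟩
  choose zz hz1 hz2 using hz
  have hp : ∀ u : List D, ∃ p₀ : Fin n × Fin n, ∀ p : Fin n × Fin n,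
      ‖h p.1 p.2 (zz p u)‖ ≤ ‖h p₀.1 p₀.2 (zz p₀ u)‖ := fun u =>
    Finite.exists_max fun p : Fin n × Fin n => ‖h p.1 p.2 (zz p u)‖
  choose p₀ hp₀ using hp
  have hpow : ∀ (u : List D) (x : ℝ), 3 ^ u.length * ((1 / 3) ^ u.length * x) = x := by
    intro u x
    rw [← mul_assoc, ← mul_pow]
    norm_num
  refine ⟨fun u => if u.length < N then
    (1 / 3) ^ u.length * ‖h (p₀ u).1 (p₀ u).2 (zz (p₀ u) u)‖ else 0, ?_, ?_, ?_, ?_, ?_, ?_, ?_⟩
  · exact fun i j => (hM i j).diff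
  · intro i j z hz
    have hzG : ∀ ζ : Gm N, (ζ : ℂ) - z ≠ 0 := by
      intro ζ h0
      have h1 : (ζ : ℂ) = z := sub_eq_zero.1 h0
      obtain ⟨q, hq, hq'⟩ := ζ.2
      have h2 := hz q hq
      rw [← h1] at h2
      linarith
    obtain ⟨k, hk⟩ := exists_res N (fun ζ => (ζ - z)⁻¹) (by
      refine ContinuousOn.inv₀ (continuousOn_id.sub continuousOn_const) fun ζ hζ => ?_
      exact hzG ⟨ζ, hζ⟩)
    rw [(hM j i).rep z hz k hk, (hM i j).rep z hz k hk, hanti i j k]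
    ring
  · intro u
    show 0 ≤ if u.length < N then _ else _
    split_ifs
    · positivity
    · exact le_refl _
  · intro u hu i j z hz
    show _ ≤ 3 ^ u.length * if u.length < N then _ else _
    rw [if_pos hu, hpow]
    exact (hz2 (i, j) u hu z hz).trans (hp₀ u (i, j))
  · intro u hu
    refine ⟨(p₀ u).1, (p₀ u).2, zz (p₀ u) u, hz1 _ _, ?_⟩
    show 3 ^ u.length * (if u.length < N then _ else _) ≤ _
    rw [if_pos hu, hpow]
  · intro l hl
    have h1 : ∑ u ∈ lv l, (if u.length < N then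
        (1 / 3) ^ u.length * ‖h (p₀ u).1 (p₀ u).2 (zz (p₀ u) u)‖ else (0 : ℝ)) ≤
        ∑ u ∈ lv l, ∑ p : Fin n × Fin n, (1 / 3) ^ l * ‖h p.1 p.2 (zz p u)‖ := by
      refine Finset.sum_le_sum fun u hu => ?_
      rw [mem_lv] at hu
      rw [hu, if_pos hl]
      exact Finset.single_le_sum (f := fun p : Fin n × Fin n =>
        (1 / 3 : ℝ) ^ l * ‖h p.1 p.2 (zz p u)‖) (fun p _ => by positivity) (Finset.mem_univ _)
    refine h1.trans ?_
    rw [Finset.sum_comm]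
    have h2 : ∀ p ∈ (Finset.univ : Finset (Fin n × Fin n)),
        ∑ u ∈ lv l, (1 / 3) ^ l * ‖h p.1 p.2 (zz p u)‖ ≤ C₀ := fun p _ =>
      hlev p.1 p.2 l (zz p) (Or.inl ⟨hl, fun u _ => hz1 p u⟩)
    refine (Finset.sum_le_sum h2).trans ?_
    rw [Finset.sum_const, Finset.card_univ, Fintype.card_prod, Fintype.card_fin, nsmul_eq_mul]
    push_cast
    nlinarith
  · intro zz' hzz' i j
    refine (hlev i j N zz' (Or.inr ⟨rfl, hzz'⟩)).trans ?_
    have : (0 : ℝ) ≤ (n : ℝ) ^ 2 := by positivity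
    nlinarith

end DUA_

open DUA_ in
theorem p_DUA (hHBN : T_HBN) (hCAU : T_CAU) (hLEV : T_LEV) (hLCL : T_LCL) (hSOL : T_SOL)
    (hPAI : T_PAI) (hMXP : T_MXP) : T_DUA := by
  intro n δ hδ
  obtain ⟨C₀, hC₀, hlev⟩ := hLEV
  refine ⟨((n : ℝ) ^ 2 + 1) * C₀, by positivity, fun B hB => ?_⟩
  obtain ⟨C, hC, hpai⟩ := hPAI n B (by linarith)
  obtain ⟨B₀, _, hlcl⟩ := hLCL n δ hδ
  refine ⟨C + 2 * π + 1, by positivity, ?_⟩
  intro N f X hf hX hg
  have hn : Nonempty (Fin n) := n_ne hf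
  obtain ⟨g₀, hg₀⟩ := hlcl f hf
  obtain ⟨S, G₀, -, -, -, -, hG₀, hG₀1, -⟩ := hSOL n N δ B₀ f g₀ hδ hf hg₀
  -- restrictions
  have hfr : ∀ i, ∃ F' : Gm N →ᵇ ℂ, ∀ z : Gm N, F' z = f i z := fun i =>
    exists_res N (f i) ((hf.diff i).continuousOn.mono fun z hz => Gm_notMem hz)
  choose fj hfj using hfr
  have hfn : ∀ i, ‖fj i‖ ≤ 1 := by
    intro i
    refine (BoundedContinuousFunction.norm_le zero_le_one).2 fun z => ?_
    rw [hfj]
    exact hf.le i z (Gm_notMem z.2)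
  have hGr : ∀ i, ∃ F' : Gm N →ᵇ ℂ, ∀ z : Gm N, F' z = G₀ i z := fun i =>
    exists_res N (G₀ i) (IsA_cont (hG₀ i))
  choose G' hG' using hGr
  have key : ∀ L : (Fin n → (Gm N →ᵇ ℂ)) →L[ℂ] ℂ, ‖L‖ ≤ 1 → (∀ y ∈ SS n N f, L y = 0) →
      ‖L G'‖ ≤ C + 2 * π * X := by
    intro L hL hLS
    have hM := fun i j => hCAU N (Mij L fj i j) (Mij_le hL hfn i j)
      (fun ψ hψ ψ' h => Mij_an hLS hfj i j ψ hψ ψ' h)
    choose h hM using hM
    obtain ⟨a, ha⟩ := exists_HD hn hC₀ hM (fun i j φ => by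
      rw [Mij_apply, Mij_apply]
      ring) (fun i j l zz hzz => hlev N _ _ (hM i j) l zz hzz)
    obtain ⟨g, hg1, hg2⟩ := hg h a ha
    have h1 := hpai N δ f (Li L) (Mij L fj) h g G₀ G' hδ hf (fun φ => by
      rw [Li_sum]
      have := L.le_of_opNorm_le hL φ
      rwa [one_mul] at this) hM (fun i j φ φi φj h1 h2 => by
      rw [Mij_apply]
      have e1 : fj j * φ = φj := by
        ext z
        rw [BoundedContinuousFunction.mul_apply, hfj, h2]
      have e2 : fj i * φ = φi := by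
        ext z
        rw [BoundedContinuousFunction.mul_apply, hfj, h1]
      rw [e1, e2]) hg1 hG₀ hG₀1 hG'
    rw [Li_sum] at h1
    have h2 : 2 * π * ‖TB N g h‖ ≤ 2 * π * X := mul_le_mul_of_nonneg_left hg2 (by positivity)
    linarith
  obtain ⟨κ, hκ, hκn⟩ := hHBN (Fin n → (Gm N →ᵇ ℂ)) (SS n N f) G' (C + 2 * π * X) key 1
    one_pos
  obtain ⟨ψ, hψ1, hψ2, hψ3⟩ := hκ
  have hA : ∀ i, IsA N fun z => G₀ i z + ∑ j, ψ i j z * f j z := fun i =>
    IsA_add (hG₀ i) (IsA_sum Finset.univ (fun j z => ψ i j z * f j z)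
      fun j _ => IsA_mul hf (hψ1 i j) j)
  refine ⟨fun i z => G₀ i z + ∑ j, ψ i j z * f j z, fun i => (hA i).1.mono OmR_mono, ?_, ?_⟩
  · intro z hz
    have h1 := hG₀1 z (OmR_mono hz)
    have h2 := antisymm_sum (fun i j => ψ i j z) (fun j => f j z) (fun i j => hψ2 i j z)
    simp only [mul_add, Finset.sum_add_distrib]
    rw [h1, h2, add_zero]
  · intro i z hz
    refine (hMXP N _ (C + 2 * π * X + 1) (hA i) (fun w hw => ?_) z hz).trans ?_
    · have h1 : G₀ i w + ∑ j, ψ i j w * f j w = (G' + κ) i ⟨w, hw⟩ := by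
        rw [Pi.add_apply, BoundedContinuousFunction.add_apply, hG' i ⟨w, hw⟩, hψ3 i ⟨w, hw⟩]
      rw [h1]
      exact (((G' + κ) i).norm_coe_le_norm _).trans ((norm_le_pi_norm (G' + κ) i).trans hκn)
    · have := Real.pi_pos
      nlinarith

end Pool.Agent.CorA
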