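import Pool.Agent.CorA.Targets

/-!
# Conclusion
-/

set_option autoImplicit false

namespace Pool.Agent.CorA

open Complex Metric Set Filter Topology MeasureTheory
open Pool.Corona91698f Pool.Agent.CorE
open scoped Real BoundedContinuousFunction

theorem p_FIN (hDUA : T_DUA) (hMAI : T_MAI) (hGLU : T_GLU) : T_FIN := by
  intro n δ γ hδ hγ
  obtain ⟨C₁, hC₁, HD⟩ := hDUA n δ hδ
  obtain ⟨B, Cm, hB, hCm, HM⟩ := hMAI n δ (γ / 2) C₁ hδ (by positivity) hC₁
  obtain ⟨C, hC, H⟩ := HD B hB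
  obtain ⟨Cg, hCg, HG⟩ := hGLU n δ (γ / 2) hδ (by positivity)
    ⟨C * (1 + Cm), by positivity, fun f hf N hN => by
      have hN1 : (1 : ℝ) ≤ (N : ℝ) ^ (γ / 2) :=
        Real.one_le_rpow (by exact_mod_cast hN) (by positivity)
      obtain ⟨G, G1, G2, G3⟩ := H N f (Cm * (N : ℝ) ^ (γ / 2)) hf (by positivity)
        (fun h a hHD => HM N f h a hN hf hHD)
      refine ⟨G, G1, G2, fun i z hz => (G3 i z hz).trans ?_⟩
      rw [mul_assoc]
      refine mul_le_mul_of_nonneg_left ?_ hC.le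
      nlinarith⟩
  refine ⟨Cg, hCg, fun f hf => ?_⟩
  obtain ⟨g, g1, g2, g3⟩ := HG f hf
  refine ⟨g, g1, g2, fun j z hz k hk => ?_⟩
  have := g3 j z hz k hk
  rwa [show 2 * (γ / 2) = γ by ring] at this

end Pool.Agent.CorA
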