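import Pool.Agent.CorA.Targets

/-!
# Gluing along the powers of two
-/

set_option autoImplicit false

namespace Pool.Agent.CorA

open Complex Metric Set Filter Topology MeasureTheory
open Pool.Corona91698f Pool.Agent.CorE
open scoped Real BoundedContinuousFunction

namespace GLU_

/-! ### geometry -/

theorem keep (y : List D) {w : ℂ} {c : ℝ} (hc : 71 / 100 ≤ c) (h : c ≤ dist w ctr) :
    c ≤ dist (Psi y w) ctr := by
  induction y generalizing w with
  | nil => simpa using h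
  | cons d y ih =>
    rw [Psi_cons]
    refine ih ?_
    have := dist_psi_ge_q d w
    linarith

theorem far (u : List D) : ∀ (q : List D) (z : ℂ), dist (Psi u z) ctr < 1 → ¬ u <+: q →
    u.length ≤ q.length → 1 ≤ dist (Psi q z) ctr := by
  induction u with
  | nil => exact fun q z _ h => absurd ⟨q, rfl⟩ h
  | cons d u ih =>
    intro q z h hp hl
    cases q with
    | nil => simp at hl
    | cons d' q =>
      rw [Psi_cons] at h ⊢
      have hl' : u.length ≤ q.length := by simpa using hl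
      by_cases hd : d = d'
      · subst hd
        refine ih q _ h (fun hpq => hp ?_) hl'
        obtain ⟨t, ht⟩ := hpq
        exact ⟨t, by rw [← ht]; rfl⟩
      · have h1 : dist (psi d z) ctr < 1 := by
          by_contra hcon
          have := keep u (w := psi d z) (c := 1) (by norm_num) (not_lt.1 hcon)
          linarith
        refine keep q (by norm_num) ?_
        by_contra hcon
        exact hd (psi_disj h1 (not_le.1 hcon))

theorem inOm {N : ℕ} {u : List D} {z : ℂ} (h1 : u.length < N) (h2 : Psi u z ∈ nodeX) :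
    z ∈ OmR (73 / 100) N := by
  intro q hq
  have hql := mem_lv.1 hq
  by_cases hp : u <+: q
  · obtain ⟨x, rfl⟩ := hp
    rw [Psi_append]
    cases x with
    | nil => rw [List.append_nil] at hql; omega
    | cons d y =>
      rw [Psi_cons]
      have := keep y (w := psi d (Psi u z)) (c := 74 / 100) (by norm_num) (h2.2 d)
      linarith
  · have h3 : dist (Psi u z) ctr < 1 := by
      have := h2.1; linarith
    have := far u q z h3 hp (by omega)
    linarith

/-! ### the levels -/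

/-- the level used at words of length `m` -/
def NL (m : ℕ) : ℕ := 2 ^ (Nat.log 2 m + 1)

/-- the length attached to a node -/
def len : Option (List D) → ℕ
  | none => 0
  | some v => v.length

theorem len_par (v : List D) : len (par v) = v.length - 1 := by
  unfold par
  split_ifs with h
  · subst h; rfl
  · show v.dropLast.length = v.length - 1
    exact List.length_dropLast

theorem lt_NL (m : ℕ) : m < NL m := Nat.lt_pow_succ_log_self (by norm_num) m

theorem NL_le (m : ℕ) : NL m ≤ 2 * (m + 1) := by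
  unfold NL
  rcases Nat.eq_zero_or_pos m with h | h
  · subst h; simp
  · have := Nat.pow_log_le_self 2 h.ne'
    rw [pow_succ]
    omega

theorem NL_pos (m : ℕ) : 1 ≤ NL m := Nat.one_le_two_pow

theorem NL_two (m : ℕ) (h : NL m ≠ NL (m - 1)) : 2 * NL (m - 1) ≤ NL m := by
  unfold NL at h ⊢
  have h1 : Nat.log 2 (m - 1) ≤ Nat.log 2 m := Nat.log_mono_right (Nat.sub_le _ _)
  have h2 : Nat.log 2 (m - 1) ≠ Nat.log 2 m := fun e => h (by rw [e])
  have h3 : Nat.log 2 (m - 1) + 1 ≤ Nat.log 2 m := by omega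
  calc 2 * 2 ^ (Nat.log 2 (m - 1) + 1) = 2 ^ (Nat.log 2 (m - 1) + 1 + 1) := by
        rw [pow_succ 2 (Nat.log 2 (m - 1) + 1)]; ring
    _ ≤ 2 ^ (Nat.log 2 m + 1) := Nat.pow_le_pow_right (by norm_num) (by omega)

theorem NR_sub (R : Option (List D)) : NR R ⊆ OmR (73 / 100) (NL (len R)) := by
  intro z hz
  cases R with
  | none =>
    intro q _
    have h1 : (74 / 100 : ℝ) < dist z ctr := hz
    have := keep q (w := z) (c := 74 / 100) (by norm_num) h1.le
    linarith
  | some v => exact inOm (lt_NL _) (nodeV_subset hz)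

/-- the weight of the level `l` -/
noncomputable def mu (A s : ℝ) (l : ℕ) : ℝ :=
  if NL l = NL (l - 1) then 0 else A * ((l : ℝ) + 1) ^ s

theorem mu_nonneg {A s : ℝ} (hA : 0 ≤ A) (l : ℕ) : 0 ≤ mu A s l := by
  unfold mu
  split_ifs
  · exact le_rfl
  · positivity

theorem mu_le {A s : ℝ} (hA : 0 ≤ A) (l : ℕ) : mu A s l ≤ A * ((l : ℝ) + 1) ^ s := by
  unfold mu
  split_ifs
  · positivity
  · exact le_rfl

theorem sum_mu {A s : ℝ} (hA : 0 ≤ A) (hs : 0 < s) (k : ℕ) :
    ∑ l ∈ Finset.range (k + 1), mu A s l ≤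
      A * 2 ^ s / (2 ^ s - 1) * (NL k : ℝ) ^ s := by
  have hr : (1 : ℝ) < 2 ^ s := Real.one_lt_rpow (by norm_num) hs
  have hr1 : (0 : ℝ) < 2 ^ s - 1 := by linarith
  have hc : 0 ≤ A * 2 ^ s / (2 ^ s - 1) := by positivity
  induction k with
  | zero =>
    rw [Finset.sum_range_one]
    have h0 : mu A s 0 = 0 := by unfold mu; simp
    rw [h0]
    positivity
  | succ k ih =>
    rw [Finset.sum_range_succ]
    by_cases h : NL (k + 1) = NL (k + 1 - 1)
    · have h0 : mu A s (k + 1) = 0 := by unfold mu; rw [if_pos h]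
      rw [h0, add_zero, h]
      exact ih
    · have h1 : mu A s (k + 1) = A * (((k + 1 : ℕ) : ℝ) + 1) ^ s := by
        unfold mu; rw [if_neg h]
      have h2 := NL_two (k + 1) h
      have h2' : (2 : ℝ) * (NL k : ℝ) ≤ (NL (k + 1) : ℝ) := by exact_mod_cast h2
      have h3 : (((k + 1 : ℕ) : ℝ) + 1) ≤ (NL (k + 1) : ℝ) := by
        exact_mod_cast lt_NL (k + 1)
      have h4 : (((k + 1 : ℕ) : ℝ) + 1) ^ s ≤ (NL (k + 1) : ℝ) ^ s :=
        Real.rpow_le_rpow (by positivity) h3 hs.le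
      have h5 : (2 : ℝ) ^ s * (NL k : ℝ) ^ s ≤ (NL (k + 1) : ℝ) ^ s := by
        rw [← Real.mul_rpow (by norm_num) (Nat.cast_nonneg _)]
        exact Real.rpow_le_rpow (by positivity) h2' hs.le
      have h6 : (0 : ℝ) ≤ (NL (k + 1) : ℝ) ^ s := by positivity
      have e1 : A * 2 ^ s / (2 ^ s - 1) * (NL k : ℝ) ^ s ≤
          A / (2 ^ s - 1) * (NL (k + 1) : ℝ) ^ s := by
        calc A * 2 ^ s / (2 ^ s - 1) * (NL k : ℝ) ^ s =
              A / (2 ^ s - 1) * (2 ^ s * (NL k : ℝ) ^ s) := by ring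
          _ ≤ A / (2 ^ s - 1) * (NL (k + 1) : ℝ) ^ s :=
              mul_le_mul_of_nonneg_left h5 (by positivity)
      have e2 : A / (2 ^ s - 1) * (NL (k + 1) : ℝ) ^ s + A * (NL (k + 1) : ℝ) ^ s =
          A * 2 ^ s / (2 ^ s - 1) * (NL (k + 1) : ℝ) ^ s := by
        field_simp
        ring
      rw [h1]
      calc ∑ l ∈ Finset.range (k + 1), mu A s l + A * (((k + 1 : ℕ) : ℝ) + 1) ^ s ≤
            A / (2 ^ s - 1) * (NL (k + 1) : ℝ) ^ s + A * (NL (k + 1) : ℝ) ^ s :=
            add_le_add (ih.trans e1) (mul_le_mul_of_nonneg_left h4 hA)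
        _ = _ := e2

theorem summ (s : ℝ) : Summable fun l : ℕ => ((l : ℝ) + 1) ^ s * (4 / 9 : ℝ) ^ l := by
  have h1 : Summable fun l : ℕ => (l : ℝ) ^ ⌈s⌉₊ * (4 / 9 : ℝ) ^ l :=
    summable_pow_mul_geometric_of_norm_lt_one _ (by rw [Real.norm_eq_abs]; norm_num)
  have h2 := (summable_nat_add_iff 1).2 h1
  refine Summable.of_nonneg_of_le (fun l => by positivity) (fun l => ?_) (h2.mul_left (9 / 4))
  have h3 : ((l : ℝ) + 1) ^ s ≤ ((l : ℝ) + 1) ^ ⌈s⌉₊ := by
    rw [← Real.rpow_natCast]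
    exact Real.rpow_le_rpow_of_exponent_le (by linarith [Nat.cast_nonneg (α := ℝ) l])
      (Nat.le_ceil s)
  calc ((l : ℝ) + 1) ^ s * (4 / 9 : ℝ) ^ l ≤ ((l : ℝ) + 1) ^ ⌈s⌉₊ * (4 / 9 : ℝ) ^ l :=
        mul_le_mul_of_nonneg_right h3 (by positivity)
    _ = 9 / 4 * ((((l + 1 : ℕ) : ℝ)) ^ ⌈s⌉₊ * (4 / 9 : ℝ) ^ (l + 1)) := by
        push_cast
        rw [pow_succ]
        ring

theorem summ_mu {A s : ℝ} (hA : 0 ≤ A) : Summable fun l : ℕ => mu A s l * (4 / 9 : ℝ) ^ l := by
  refine Summable.of_nonneg_of_le (fun l => mul_nonneg (mu_nonneg hA l) (by positivity))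
    (fun l => ?_) ((summ s).mul_left A)
  calc mu A s l * (4 / 9 : ℝ) ^ l ≤ A * ((l : ℝ) + 1) ^ s * (4 / 9 : ℝ) ^ l :=
        mul_le_mul_of_nonneg_right (mu_le hA l) (by positivity)
    _ = A * (((l : ℝ) + 1) ^ s * (4 / 9 : ℝ) ^ l) := by ring

theorem tail_mu {A s : ℝ} (hA : 0 ≤ A) (hs : 0 < s) (k : ℕ) :
    ∑' l, mu A s (k + l) * (4 / 9 : ℝ) ^ l ≤
      A * (∑' l : ℕ, ((l : ℝ) + 1) ^ s * (4 / 9 : ℝ) ^ l) * ((k : ℝ) + 1) ^ s := by
  have hb : ∀ l : ℕ, mu A s (k + l) * (4 / 9 : ℝ) ^ l ≤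
      A * ((k : ℝ) + 1) ^ s * (((l : ℝ) + 1) ^ s * (4 / 9 : ℝ) ^ l) := by
    intro l
    have hk0 : (0 : ℝ) ≤ k := Nat.cast_nonneg k
    have hl0 : (0 : ℝ) ≤ l := Nat.cast_nonneg l
    have h1 : (((k + l : ℕ) : ℝ) + 1) ^ s ≤ ((k : ℝ) + 1) ^ s * ((l : ℝ) + 1) ^ s := by
      rw [← Real.mul_rpow (by positivity) (by positivity)]
      refine Real.rpow_le_rpow (by positivity) ?_ hs.le
      push_cast
      nlinarith [mul_nonneg hk0 hl0]
    calc mu A s (k + l) * (4 / 9 : ℝ) ^ l ≤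
          A * (((k + l : ℕ) : ℝ) + 1) ^ s * (4 / 9 : ℝ) ^ l :=
          mul_le_mul_of_nonneg_right (mu_le hA _) (by positivity)
      _ ≤ A * (((k : ℝ) + 1) ^ s * ((l : ℝ) + 1) ^ s) * (4 / 9 : ℝ) ^ l :=
          mul_le_mul_of_nonneg_right (mul_le_mul_of_nonneg_left h1 hA) (by positivity)
      _ = _ := by ring
  have hs1 : Summable fun l : ℕ => A * ((k : ℝ) + 1) ^ s * (((l : ℝ) + 1) ^ s * (4 / 9 : ℝ) ^ l) :=
    (summ s).mul_left _
  have hs2 : Summable fun l : ℕ => mu A s (k + l) * (4 / 9 : ℝ) ^ l :=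
    Summable.of_nonneg_of_le (fun l => mul_nonneg (mu_nonneg hA _) (by positivity)) hb hs1
  calc ∑' l, mu A s (k + l) * (4 / 9 : ℝ) ^ l ≤
        ∑' l : ℕ, A * ((k : ℝ) + 1) ^ s * (((l : ℝ) + 1) ^ s * (4 / 9 : ℝ) ^ l) :=
        hs2.tsum_le_tsum hb hs1
    _ = A * ((k : ℝ) + 1) ^ s * ∑' l : ℕ, ((l : ℝ) + 1) ^ s * (4 / 9 : ℝ) ^ l := tsum_mul_left
    _ = _ := by ring

end GLU_

open GLU_

theorem p_GLU (hCWT : T_CWT) : T_GLU := by
  classical
  intro n δ γ hδ hγ hsol
  obtain ⟨C0, hC0, hsol⟩ := hsol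
  obtain ⟨Cc, hCc, hCWT⟩ := hCWT
  have hs : 0 < 2 * γ := by linarith
  obtain ⟨A, hAdef⟩ : ∃ A : ℝ, A = 2 * C0 ^ 2 * 2 ^ (2 * γ) := ⟨_, rfl⟩
  have hA : 0 ≤ A := by rw [hAdef]; positivity
  obtain ⟨Z, hZdef⟩ : ∃ Z : ℝ, Z = ∑' l : ℕ, ((l : ℝ) + 1) ^ (2 * γ) * (4 / 9 : ℝ) ^ l :=
    ⟨_, rfl⟩
  have hZ : 0 ≤ Z := by rw [hZdef]; exact tsum_nonneg fun l => by positivity
  have hr : (1 : ℝ) < 2 ^ (2 * γ) := Real.one_lt_rpow (by norm_num) hs
  have hr1 : (0 : ℝ) < 2 ^ (2 * γ) - 1 := by linarith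
  obtain ⟨c1, hc1def⟩ : ∃ c1 : ℝ, c1 = A * 2 ^ (2 * γ) / (2 ^ (2 * γ) - 1) * 2 ^ (2 * γ) :=
    ⟨_, rfl⟩
  have hc1 : 0 ≤ c1 := by rw [hc1def]; positivity
  refine ⟨C0 * 2 ^ γ + n * (Cc * (c1 + A * Z)), by positivity, fun f hf => ?_⟩
  choose Gs hGsd hGss hGsb using hsol f hf
  -- local solutions
  have hNL : ∀ R, 1 ≤ NL (len R) := fun R => NL_pos _
  obtain ⟨gR, hgR⟩ : ∃ gR : Option (List D) → Fin n → ℂ → ℂ,
      gR = fun R => Gs (NL (len R)) (hNL R) := ⟨_, rfl⟩
  have hgRd : ∀ R i, DifferentiableOn ℂ (gR R i) (NR R) := by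
    intro R i
    rw [hgR]
    exact (hGsd _ _ i).mono (NR_sub R)
  have hgRb : ∀ R i, ∀ z ∈ NR R, ‖gR R i z‖ ≤ C0 * (2 * ((len R : ℝ) + 1)) ^ γ := by
    intro R i z hz
    rw [hgR]
    refine (hGsb _ (hNL R) i z (NR_sub R hz)).trans ?_
    refine mul_le_mul_of_nonneg_left ?_ hC0.le
    refine Real.rpow_le_rpow (Nat.cast_nonneg _) ?_ hγ.le
    exact_mod_cast NL_le (len R)
  have hgRs : ∀ R, ∀ z ∈ NR R, ∑ j, f j z * gR R j z = 1 := by
    intro R z hz
    rw [hgR]
    exact hGss _ (hNL R) z (NR_sub R hz)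
  have hgRe : ∀ v : List D, NL v.length = NL (v.length - 1) → gR (some v) = gR (par v) := by
    intro v hv
    have h1 : len (par v) = v.length - 1 := len_par v
    have h2 : NL (len (some v)) = NL (len (par v)) := by rw [h1]; exact hv
    have h3 : ∀ (a b : ℕ) (ha : 1 ≤ a) (hb : 1 ≤ b), a = b → Gs a ha = Gs b hb := by
      rintro a b ha hb rfl
      rfl
    rw [hgR]
    exact h3 _ _ _ _ h2
  -- the cocycle
  let w : Fin n → Fin n → List D → ℂ → ℂ := fun i j v y =>
    gR (some v) i (Phi v y) * gR (par v) j (Phi v y)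
      - gR (some v) j (Phi v y) * gR (par v) i (Phi v y)
  have hcomp : ∀ R i (v : List D) y, Phi v y ∈ NR R →
      DifferentiableAt ℂ (fun y => gR R i (Phi v y)) y := by
    intro R i v y hy
    exact DifferentiableAt.comp (g := gR R i) (f := Phi v) y
      ((hgRd R i).differentiableAt ((isOpen_NR R).mem_nhds hy)) (differentiable_Phi v y)
  have hwd : ∀ i j v, DifferentiableOn ℂ (w i j v)
      {z | (74 / 100 : ℝ) < dist z ctr ∧ dist z ctr < 80 / 100} := by
    rintro i j v y ⟨h1, h2⟩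
    have a1 := annulus_some (v := v) h1 h2
    have a2 := annulus_par (v := v) h1 h2
    exact (((hcomp _ i v y a1).mul (hcomp _ j v y a2)).sub
      ((hcomp _ j v y a1).mul (hcomp _ i v y a2))).differentiableWithinAt
  have hwb : ∀ i j v z, (74 / 100 : ℝ) < dist z ctr → dist z ctr < 80 / 100 →
      ‖w i j v z‖ ≤ mu A (2 * γ) v.length := by
    intro i j v y h1 h2
    by_cases hv : NL v.length = NL (v.length - 1)
    · have e := hgRe v hv
      have : w i j v y = 0 := by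
        simp only [w, e]
        ring
      rw [this, norm_zero]
      exact mu_nonneg hA _
    · have hmu : mu A (2 * γ) v.length = A * ((v.length : ℝ) + 1) ^ (2 * γ) := by
        unfold mu; rw [if_neg hv]
      rw [hmu]
      have a1 := annulus_some (v := v) h1 h2
      have a2 := annulus_par (v := v) h1 h2
      set b : ℝ := C0 * (2 * ((v.length : ℝ) + 1)) ^ γ with hb
      have hb0 : 0 ≤ b := by positivity
      have c1 : ∀ i, ‖gR (some v) i (Phi v y)‖ ≤ b := fun i => hgRb _ i _ a1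
      have c2 : ∀ i, ‖gR (par v) i (Phi v y)‖ ≤ b := by
        intro i
        refine (hgRb _ i _ a2).trans ?_
        refine mul_le_mul_of_nonneg_left ?_ hC0.le
        refine Real.rpow_le_rpow (by positivity) ?_ hγ.le
        have h3 : len (par v) ≤ v.length := by rw [len_par]; exact Nat.sub_le _ _
        have h4 : (len (par v) : ℝ) ≤ (v.length : ℝ) := by exact_mod_cast h3
        linarith
      have b1 : ‖gR (some v) i (Phi v y) * gR (par v) j (Phi v y)‖ ≤ b * b := by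
        rw [norm_mul]
        exact mul_le_mul (c1 i) (c2 j) (norm_nonneg _) hb0
      have b2 : ‖gR (some v) j (Phi v y) * gR (par v) i (Phi v y)‖ ≤ b * b := by
        rw [norm_mul]
        exact mul_le_mul (c1 j) (c2 i) (norm_nonneg _) hb0
      have e1 : b * b + b * b = A * ((v.length : ℝ) + 1) ^ (2 * γ) := by
        have e2 : ((2 * ((v.length : ℝ) + 1)) ^ γ) ^ 2 =
            2 ^ (2 * γ) * ((v.length : ℝ) + 1) ^ (2 * γ) := by
          rw [← Real.mul_rpow (by norm_num) (by positivity), ← Real.rpow_natCast,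
            ← Real.rpow_mul (by positivity)]
          congr 1
          push_cast
          ring
        calc b * b + b * b = 2 * C0 ^ 2 * ((2 * ((v.length : ℝ) + 1)) ^ γ) ^ 2 := by
              rw [hb]; ring
          _ = A * ((v.length : ℝ) + 1) ^ (2 * γ) := by rw [e2, hAdef]; ring
      rw [← e1]
      exact (norm_sub_le _ _).trans (add_le_add b1 b2)
  choose S hSd hSb hSj using fun i j => hCWT (w i j) (mu A (2 * γ)) (mu_nonneg hA)
    (summ_mu hA) (hwd i j) (hwb i j)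
  let T : Fin n → Fin n → Option (List D) → ℂ → ℂ := fun i j R z => (S i j R z - S j i R z) / 2
  have hTanti : ∀ R z i j, T j i R z = - T i j R z := by
    intro R z i j; simp only [T]; ring
  have hTd : ∀ i j R, DifferentiableOn ℂ (T i j R) (Nd R) := fun i j R =>
    ((hSd i j R).sub (hSd j i R)).div_const 2
  have hTb : ∀ i j R, ∀ z ∈ Nd R, ∀ k : ℕ, 151 / 100 < 3 ^ k * infDist z squareCantor →
      ‖T i j R z‖ ≤ Cc * (c1 + A * Z) * ((k : ℝ) + 1) ^ (2 * γ) := by
    intro i j R z hz k hk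
    have a1 := hSb i j R z hz k hk
    have a2 := hSb j i R z hz k hk
    have a3 : ‖T i j R z‖ ≤ Cc * (∑ l ∈ Finset.range (k + 1), mu A (2 * γ) l +
        ∑' l, mu A (2 * γ) (k + l) * (4 / 9 : ℝ) ^ l) := by
      simp only [T]
      rw [norm_div, Complex.norm_two, div_le_iff₀ (by norm_num)]
      have := norm_sub_le (S i j R z) (S j i R z)
      linarith
    refine a3.trans ?_
    rw [mul_assoc]
    refine mul_le_mul_of_nonneg_left ?_ hCc.le
    rw [add_mul]
    refine add_le_add ?_ ?_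
    · refine (sum_mu hA hs k).trans ?_
      have h1 : (NL k : ℝ) ^ (2 * γ) ≤ 2 ^ (2 * γ) * ((k : ℝ) + 1) ^ (2 * γ) := by
        rw [← Real.mul_rpow (by norm_num) (by positivity)]
        refine Real.rpow_le_rpow (Nat.cast_nonneg _) ?_ hs.le
        exact_mod_cast NL_le k
      calc A * 2 ^ (2 * γ) / (2 ^ (2 * γ) - 1) * (NL k : ℝ) ^ (2 * γ) ≤
            A * 2 ^ (2 * γ) / (2 ^ (2 * γ) - 1) * (2 ^ (2 * γ) * ((k : ℝ) + 1) ^ (2 * γ)) :=
            mul_le_mul_of_nonneg_left h1 (by positivity)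
        _ = c1 * ((k : ℝ) + 1) ^ (2 * γ) := by rw [hc1def]; ring
    · rw [hZdef]
      exact tail_mu hA hs k
  have hTj : ∀ i j v₀, ∀ z ∈ Nd (par v₀), z ∈ Nd (some v₀) →
      T i j (some v₀) z - T i j (par v₀) z =
        gR (some v₀) i z * gR (par v₀) j z - gR (some v₀) j z * gR (par v₀) i z := by
    intro i j v₀ z hz hz'
    have e1 := hSj i j v₀ z hz hz'
    have e2 := hSj j i v₀ z hz hz'
    simp only [w, Phi_Psi] at e1 e2
    simp only [T]
    linear_combination e1 / 2 - e2 / 2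
  let G : Option (List D) → Fin n → ℂ → ℂ := fun R i z => gR R i z - ∑ j, T i j R z * f j z
  have hGd : ∀ R i, DifferentiableOn ℂ (G R i) (Nd R) := by
    intro R i
    have h1 : DifferentiableOn ℂ (fun z => ∑ j, T i j R z * f j z) (Nd R) := by
      refine DifferentiableOn.fun_sum fun j _ => ?_
      exact (hTd i j R).mul ((hf.diff j).mono fun z hz => Nd_notMem hz)
    exact ((hgRd R i).mono (Nd_subset_NR R)).sub h1
  have hGpar : ∀ v₀ i, ∀ z ∈ Nd (par v₀), z ∈ Nd (some v₀) → G (some v₀) i z = G (par v₀) i z := by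
    intro v₀ i z hz hz'
    have s1 := hgRs (par v₀) z (Nd_subset_NR _ hz)
    have s2 := hgRs (some v₀) z (Nd_subset_NR _ hz')
    have e1 : ∑ j, T i j (some v₀) z * f j z - ∑ j, T i j (par v₀) z * f j z
        = gR (some v₀) i z * ∑ j, f j z * gR (par v₀) j z
          - gR (par v₀) i z * ∑ j, f j z * gR (some v₀) j z := by
      rw [← Finset.sum_sub_distrib, Finset.mul_sum, Finset.mul_sum, ← Finset.sum_sub_distrib]
      refine Finset.sum_congr rfl fun j _ => ?_
      have := hTj i j v₀ z hz hz'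
      linear_combination (f j z) * this
    rw [s1, s2] at e1
    simp only [G]
    linear_combination -e1
  have hGeq : ∀ R R' i z, z ∈ Nd R → z ∈ Nd R' → G R i z = G R' i z := by
    intro R R' i z hz hz'
    rcases Nd_overlap hz hz' with rfl | ⟨v, rfl, rfl⟩ | ⟨v, rfl, rfl⟩
    · rfl
    · exact (hGpar v i z hz hz').symm
    · exact hGpar v i z hz' hz
  let F : Fin n → ℂ → ℂ := fun i z =>
    if hz : z ∉ squareCantor then G (Nd_cover hz).choose i z else 0
  have hFG : ∀ R i z, z ∈ Nd R → F i z = G R i z := by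
    intro R i z hz
    have hE := Nd_notMem hz
    simp only [F]
    rw [dif_pos hE]
    exact hGeq _ _ i z (Nd_cover hE).choose_spec hz
  refine ⟨F, ?_, ?_, ?_⟩
  · intro i z hz
    obtain ⟨R, hR⟩ := Nd_cover hz
    have h1 := (hGd R i).differentiableAt ((isOpen_Nd R).mem_nhds hR)
    refine (h1.congr_of_eventuallyEq ?_).differentiableWithinAt
    filter_upwards [(isOpen_Nd R).mem_nhds hR] with y hy
    exact hFG R i y hy
  · intro z hz
    obtain ⟨R, hR⟩ := Nd_cover hz
    have e0 : ∑ i, f i z * F i z = ∑ i, f i z * gR R i z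
        - ∑ i, f i z * ∑ j, T i j R z * f j z := by
      rw [← Finset.sum_sub_distrib]
      refine Finset.sum_congr rfl fun i _ => ?_
      rw [hFG R i z hR]
      simp only [G]
      ring
    rw [e0, hgRs R z (Nd_subset_NR R hR),
      antisymm_sum (fun i j => T i j R z) (fun i => f i z) (fun i j => hTanti R z i j), sub_zero]
  · intro i z hz k hk
    obtain ⟨R, hR⟩ := Nd_cover hz
    rw [hFG R i z hR]
    have hk0 : (0 : ℝ) ≤ k := Nat.cast_nonneg k
    have hlen : len R ≤ k := by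
      cases R with
      | none => exact Nat.zero_le _
      | some v =>
        show v.length ≤ k
        have h1 := infDist_Psi v z
        have h2 : dist (Psi v z) ctr < 78 / 100 := hR.1
        have h3 : (3 : ℝ) ^ v.length * infDist z squareCantor <
            3 ^ k * infDist z squareCantor := by linarith
        have h4 : (3 : ℝ) ^ v.length < 3 ^ k := lt_of_mul_lt_mul_right h3 infDist_nonneg
        exact ((pow_lt_pow_iff_right₀ (by norm_num)).1 h4).le
    have hlen' : (len R : ℝ) ≤ k := by exact_mod_cast hlen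
    have hP : (1 : ℝ) ≤ (k : ℝ) + 1 := by linarith
    have a1 : ‖gR R i z‖ ≤ C0 * 2 ^ γ * ((k : ℝ) + 1) ^ (2 * γ) := by
      refine (hgRb R i z (Nd_subset_NR R hR)).trans ?_
      have h1 : (2 * ((len R : ℝ) + 1)) ^ γ ≤ 2 ^ γ * ((k : ℝ) + 1) ^ γ := by
        rw [← Real.mul_rpow (by norm_num) (by positivity)]
        exact Real.rpow_le_rpow (by positivity) (by linarith) hγ.le
      have h2 : ((k : ℝ) + 1) ^ γ ≤ ((k : ℝ) + 1) ^ (2 * γ) :=
        Real.rpow_le_rpow_of_exponent_le hP (by linarith)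
      calc C0 * (2 * ((len R : ℝ) + 1)) ^ γ ≤ C0 * (2 ^ γ * ((k : ℝ) + 1) ^ γ) :=
            mul_le_mul_of_nonneg_left h1 hC0.le
        _ ≤ C0 * (2 ^ γ * ((k : ℝ) + 1) ^ (2 * γ)) :=
            mul_le_mul_of_nonneg_left (mul_le_mul_of_nonneg_left h2 (by positivity)) hC0.le
        _ = _ := by ring
    have a2 : ‖∑ j, T i j R z * f j z‖ ≤
        n * (Cc * (c1 + A * Z) * ((k : ℝ) + 1) ^ (2 * γ)) := by
      calc ‖∑ j, T i j R z * f j z‖ ≤ ∑ j : Fin n, ‖T i j R z * f j z‖ := norm_sum_le _ _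
        _ ≤ ∑ _j : Fin n, Cc * (c1 + A * Z) * ((k : ℝ) + 1) ^ (2 * γ) := by
            refine Finset.sum_le_sum fun j _ => ?_
            rw [norm_mul]
            calc ‖T i j R z‖ * ‖f j z‖ ≤ (Cc * (c1 + A * Z) * ((k : ℝ) + 1) ^ (2 * γ)) * 1 :=
                  mul_le_mul (hTb i j R z hR k hk) (hf.le j z hz) (norm_nonneg _)
                    (by positivity)
              _ = _ := mul_one _
        _ = n * (Cc * (c1 + A * Z) * ((k : ℝ) + 1) ^ (2 * γ)) := by simp
    calc ‖G R i z‖ ≤ ‖gR R i z‖ + ‖∑ j, T i j R z * f j z‖ := norm_sub_le _ _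
      _ ≤ C0 * 2 ^ γ * ((k : ℝ) + 1) ^ (2 * γ) +
          n * (Cc * (c1 + A * Z) * ((k : ℝ) + 1) ^ (2 * γ)) := add_le_add a1 a2
      _ = _ := by ring

end Pool.Agent.CorA
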