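import Pool.Agent.CorA.Targets

/-!
# Corona solutions growing slower than every power of the logarithm: block HBN

Distance to a subspace by duality.
-/

set_option autoImplicit false

namespace Pool.Agent.CorA

theorem p_HBN : T_HBN := by
  intro E _ _ S x X h ε hε
  obtain ⟨g, hg1, hg2⟩ := exists_dual_vector'' ℂ (Submodule.Quotient.mk x : E ⧸ S)
  have hq : ‖(Submodule.Quotient.mk x : E ⧸ S)‖ ≤ X := by
    have h1 := h (g.comp S.mkQL) ?_ ?_
    · have h2 : (g.comp S.mkQL) x = g (Submodule.Quotient.mk x : E ⧸ S) := rfl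
      rw [h2, hg2] at h1
      simpa using h1
    · refine ContinuousLinearMap.opNorm_le_bound _ zero_le_one fun y => ?_
      have h3 : (g.comp S.mkQL) y = g (Submodule.Quotient.mk y : E ⧸ S) := rfl
      rw [h3]
      calc ‖g (Submodule.Quotient.mk y : E ⧸ S)‖ ≤ ‖g‖ * ‖(Submodule.Quotient.mk y : E ⧸ S)‖ :=
            g.le_opNorm _
        _ ≤ 1 * ‖y‖ := mul_le_mul hg1 (Submodule.Quotient.norm_mk_le S y) (norm_nonneg _)
            zero_le_one
    · intro y hy
      have h3 : (g.comp S.mkQL) y = g (Submodule.Quotient.mk y : E ⧸ S) := rfl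
      rw [h3, (Submodule.Quotient.mk_eq_zero S).2 hy, map_zero]
  obtain ⟨m, hm, hm2⟩ := Submodule.Quotient.norm_mk_lt (Submodule.Quotient.mk x : E ⧸ S) hε
  refine ⟨m - x, (Submodule.Quotient.eq S).1 hm, ?_⟩
  rw [add_sub_cancel]
  linarith

end Pool.Agent.CorA
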