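import Pool.Agent.CorA.Targets

/-!
# Sums over the squares
-/

set_option autoImplicit false

namespace Pool.Agent.CorA

open Complex Metric Set Filter Topology MeasureTheory
open Pool.Corona91698f Pool.Agent.CorE
open scoped Real BoundedContinuousFunction

namespace HVS_

theorem up (v : List D) (z : ℂ) (h : dist (Psi v z) ctr ≤ 80 / 100) : dist z ctr ≤ 80 / 100 := by
  induction v generalizing z with
  | nil => exact h
  | cons d v ih =>
    have h1 := ih (psi d z) h
    have h2 := dist_le_of_psi d z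
    linarith

theorem down (v : List D) (z : ℂ) (h : 74 / 100 ≤ dist z ctr) :
    74 / 100 ≤ dist (Psi v z) ctr := by
  induction v generalizing z with
  | nil => exact h
  | cons d v ih =>
    refine ih (psi d z) ?_
    have := dist_psi_ge d z
    linarith

theorem cc_near (v : List D) : dist (Phi v ctr) ctr ≤ 7073 / 10000 := by
  induction v with
  | nil =>
    simp only [Phi_nil, dist_self]
    norm_num
  | cons d v ih =>
    have h := dist_le_of_psi d (phi d (Phi v ctr))
    rw [psi_phi] at h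
    rw [Phi_cons]
    linarith

theorem dist_cons (d : D) (v : List D) (y : ℂ) :
    dist y (cc (d :: v)) = dist (psi d y) (cc v) / 3 := by
  unfold cc
  rw [Phi_cons]
  have h := dist_psi d y (phi d (Phi v ctr))
  rw [psi_phi] at h
  rw [h]
  ring

/-- the case of an empty common initial word -/
theorem base (e : D) (v : List D) (y : ℂ) (h : 74 / 100 ≤ dist (psi e y) ctr) :
    74 / 100 ≤ dist (Psi (e :: v) y) ctr ∧ 1 / 100 ≤ dist y (cc (e :: v)) := by
  refine ⟨down v (psi e y) h, ?_⟩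
  rw [dist_cons]
  have h1 := cc_near v
  have h2 := dist_triangle (psi e y) (Phi v ctr) ctr
  have h3 : cc v = Phi v ctr := rfl
  rw [h3]
  linarith

theorem key (x x' : List D) (y : ℂ) (hl : x.length < x'.length) (hy : Psi x y ∈ nodeX) :
    74 / 100 ≤ dist (Psi x' y) ctr ∧ ∃ i ≤ x.length, x.take i = x'.take i ∧
      1 / 100 * (1 / 3) ^ i ≤ dist y (cc x') := by
  induction x generalizing x' y with
  | nil =>
    cases x' with
    | nil => simp at hl
    | cons e v =>
      obtain ⟨h1, h2⟩ := base e v y (hy.2 e)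
      exact ⟨h1, 0, le_rfl, by simp, by simpa using h2⟩
  | cons d x ih =>
    cases x' with
    | nil => simp at hl
    | cons e v =>
      by_cases hd : d = e
      · subst hd
        have hl' : x.length < v.length := by simpa using hl
        obtain ⟨h1, i, h2, h3, h4⟩ := ih v (psi d y) hl' hy
        refine ⟨h1, i + 1, by simpa using h2, by simp [h3], ?_⟩
        rw [dist_cons, pow_succ]
        linarith
      · have h1 : dist (psi d y) ctr ≤ 80 / 100 := up x (psi d y) hy.1
        have h2 : 1 ≤ dist (psi e y) ctr := by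
          by_contra h
          exact hd (psi_disj (by linarith) (not_le.1 h))
        obtain ⟨h3, h4⟩ := base e v y (by linarith)
        exact ⟨h3, 0, Nat.zero_le _, by simp, by simpa using h4⟩

theorem sum_one (n : ℕ) : ∑ _v ∈ lv n, (1 : ℝ) = 4 ^ n := by
  induction n with
  | zero => simp [lv]
  | succ n ih =>
    rw [sum_lv_succ]
    simp only [ih]
    simp only [Finset.sum_const, Finset.card_univ, nsmul_eq_mul]
    have : (Fintype.card D : ℝ) = 4 := by
      have : Fintype.card D = 4 := by decide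
      rw [this]
      norm_num
    rw [this, pow_succ]
    ring

theorem count (i j : ℕ) (hij : i ≤ j) (p : List D) :
    ∑ v ∈ lv j, (if v.take i = p then (1 : ℝ) else 0) ≤ 4 ^ (j - i) := by
  obtain ⟨b, rfl⟩ := Nat.exists_eq_add_of_le hij
  rw [sum_lv_add, Nat.add_sub_cancel_left]
  have h1 : ∀ q ∈ lv i, ∑ v ∈ lv b, (if (q ++ v).take i = p then (1 : ℝ) else 0) =
      if q = p then (4 : ℝ) ^ b else 0 := by
    intro q hq
    have hq' : q.length = i := mem_lv.1 hq
    have h2 : ∀ v : List D, (q ++ v).take i = q := by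
      intro v
      rw [← hq', List.take_left']
      rfl
    simp only [h2]
    by_cases h : q = p
    · simp only [h, if_true]
      exact sum_one b
    · simp [h]
  rw [Finset.sum_congr rfl h1, Finset.sum_ite_eq']
  split_ifs
  · exact le_rfl
  · positivity

/-- the sum over the words grouped by the length of the common initial word -/
theorem grouped (j : ℕ) (x' : List D) (F : List D → ℝ) (G : ℕ → ℝ) (hG : ∀ i, 0 ≤ G i)
    (h : ∀ x ∈ lv j, ∃ i ≤ j, x.take i = x'.take i ∧ F x ≤ G i) :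
    ∑ x ∈ lv j, F x ≤ ∑ i ∈ Finset.range (j + 1), G i * 4 ^ (j - i) := by
  have h1 : ∀ x ∈ lv j, F x ≤ ∑ i ∈ Finset.range (j + 1),
      G i * (if x.take i = x'.take i then (1 : ℝ) else 0) := by
    intro x hx
    obtain ⟨i, hi, he, hF⟩ := h x hx
    refine hF.trans ?_
    have h2 : G i = G i * (if x.take i = x'.take i then (1 : ℝ) else 0) := by simp [he]
    rw [h2]
    refine Finset.single_le_sum (f := fun i => G i *
      (if x.take i = x'.take i then (1 : ℝ) else 0)) (fun k _ => ?_)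
      (Finset.mem_range.2 (Nat.lt_succ_of_le hi))
    refine mul_nonneg (hG k) ?_
    split_ifs <;> norm_num
  refine (Finset.sum_le_sum h1).trans ?_
  rw [Finset.sum_comm]
  refine Finset.sum_le_sum fun i hi => ?_
  rw [← Finset.mul_sum]
  exact mul_le_mul_of_nonneg_left
    (count i j (Nat.lt_succ_iff.1 (Finset.mem_range.1 hi)) _) (hG i)

theorem geom (a : ℝ) (j : ℕ) :
    (∑ i ∈ Finset.range (j + 1), a ^ i * 4 ^ (j - i)) * (a - 4) = a ^ (j + 1) - 4 ^ (j + 1) := by
  have := geom_sum₂_mul a 4 (j + 1)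
  simpa using this

theorem main (j : ℕ) (u x' : List D) (z : ℂ) (x : List D) (hj : 1 ≤ j) (hx' : x' ∈ lv (2 * j))
    (hx : x ∈ lv j) (hz : Psi (u ++ x) z ∈ nodeX) :
    74 / 100 ≤ dist (Psi (u ++ x') z) ctr ∧ ∃ i ≤ j, x.take i = x'.take i ∧
      (1 / 3) ^ u.length * (1 / 100 * (1 / 3) ^ i) ≤ dist z (cc (u ++ x')) ∧
      3 ^ (2 * j) * (1 / 100 * (1 / 3) ^ i) ≤ dist (Psi (u ++ x') z) ctr := by
  have l1 : x.length = j := mem_lv.1 hx
  have l2 : x'.length = 2 * j := mem_lv.1 hx'
  rw [Psi_append] at hz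
  obtain ⟨h1, i, h2, h3, h4⟩ := key x x' (Psi u z) (by omega) hz
  rw [Psi_append]
  refine ⟨h1, i, l1 ▸ h2, h3, ?_, ?_⟩
  · have h5 := dist_Psi u z (cc (u ++ x'))
    have h6 : Psi u (cc (u ++ x')) = cc x' := by
      unfold cc
      rw [Phi_append, Psi_Phi]
    rw [h6] at h5
    have h7 : dist z (cc (u ++ x')) = (1 / 3) ^ u.length * dist (Psi u z) (cc x') := by
      rw [h5, ← mul_assoc, ← mul_pow]
      norm_num
    rw [h7]
    exact mul_le_mul_of_nonneg_left h4 (by positivity)
  · have h5 := dist_Psi x' (Psi u z) (cc x')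
    have h6 : Psi x' (cc x') = ctr := Psi_Phi x' ctr
    rw [h6, l2] at h5
    rw [h5]
    exact mul_le_mul_of_nonneg_left h4 (by positivity)

end HVS_

open HVS_ in
theorem p_HVS : T_HVS := by
  refine ⟨20000, by norm_num, fun j u x' zz hj hx' hzz => ?_⟩
  have hm := fun x hx => main j u x' (zz x) x hj hx' hx (hzz x hx)
  refine ⟨fun x hx => (hm x hx).1, ?_, ?_⟩
  · have h1 := grouped j x'
      (fun x => (1 / 3 : ℝ) ^ (u.length + j) / dist (zz x) (cc (u ++ x')))
      (fun i => 100 * (1 / 3 : ℝ) ^ j * 3 ^ i) (fun i => by positivity) (by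
        intro x hx
        obtain ⟨-, i, h2, h3, h4, -⟩ := hm x hx
        refine ⟨i, h2, h3, ?_⟩
        have h5 : (0 : ℝ) < (1 / 3) ^ u.length * (1 / 100 * (1 / 3) ^ i) := by positivity
        refine (div_le_div_of_nonneg_left (by positivity) h5 h4).trans (le_of_eq ?_)
        have h6 : (3 : ℝ) ^ i * (1 / 3) ^ i = 1 := by
          rw [← mul_pow]
          norm_num
        rw [div_eq_iff h5.ne', pow_add]
        calc (1 / 3 : ℝ) ^ u.length * (1 / 3) ^ j
            = (1 / 3 : ℝ) ^ u.length * (1 / 3) ^ j * (3 ^ i * (1 / 3) ^ i) := by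
              rw [h6, mul_one]
          _ = 100 * (1 / 3) ^ j * 3 ^ i * ((1 / 3) ^ u.length * (1 / 100 * (1 / 3) ^ i)) := by
              ring)
    refine h1.trans ?_
    have h2 := geom 3 j
    have h3 : ∑ i ∈ Finset.range (j + 1), 100 * (1 / 3 : ℝ) ^ j * 3 ^ i * 4 ^ (j - i) =
        100 * (1 / 3 : ℝ) ^ j * ∑ i ∈ Finset.range (j + 1), (3 : ℝ) ^ i * 4 ^ (j - i) := by
      rw [Finset.mul_sum]
      refine Finset.sum_congr rfl fun i _ => ?_
      ring
    rw [h3]
    have h4 : ∑ i ∈ Finset.range (j + 1), (3 : ℝ) ^ i * 4 ^ (j - i) ≤ 4 * 4 ^ j := by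
      have h5 : (0 : ℝ) ≤ 3 ^ (j + 1) := by positivity
      have h6 : (4 : ℝ) ^ (j + 1) = 4 * 4 ^ j := by ring
      linarith
    have h7 : (4 / 3 : ℝ) ^ j = (1 / 3) ^ j * 4 ^ j := by
      rw [← mul_pow]
      norm_num
    rw [h7]
    have h8 : (0 : ℝ) ≤ (1 / 3) ^ j * 4 ^ j := by positivity
    calc 100 * (1 / 3 : ℝ) ^ j * ∑ i ∈ Finset.range (j + 1), (3 : ℝ) ^ i * 4 ^ (j - i)
        ≤ 100 * (1 / 3 : ℝ) ^ j * (4 * 4 ^ j) :=
          mul_le_mul_of_nonneg_left h4 (by positivity)
      _ = 400 * ((1 / 3) ^ j * 4 ^ j) := by ring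
      _ ≤ 20000 * ((1 / 3) ^ j * 4 ^ j) := by linarith
  · have h1 := grouped j x'
      (fun x => (1 / 3 : ℝ) ^ (u.length + j) * 3 ^ (u.length + 2 * j) /
        (1 + dist (Psi (u ++ x') (zz x)) ctr) ^ 2)
      (fun i => 10000 * (1 / 27 : ℝ) ^ j * 9 ^ i) (fun i => by positivity) (by
        intro x hx
        obtain ⟨-, i, h2, h3, -, h4⟩ := hm x hx
        refine ⟨i, h2, h3, ?_⟩
        have h5 : (0 : ℝ) < 3 ^ (2 * j) * (1 / 100 * (1 / 3) ^ i) := by positivity
        have h6 : (3 ^ (2 * j) * (1 / 100 * (1 / 3) ^ i) : ℝ) ^ 2 ≤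
            (1 + dist (Psi (u ++ x') (zz x)) ctr) ^ 2 :=
          pow_le_pow_left₀ h5.le (by linarith) 2
        refine (div_le_div_of_nonneg_left (by positivity) (by positivity) h6).trans
          (le_of_eq ?_)
        rw [div_eq_iff (by positivity)]
        have e1 : (1 / 3 : ℝ) ^ (u.length + j) * 3 ^ (u.length + 2 * j) = 3 ^ j := by
          have : u.length + 2 * j = (u.length + j) + j := by ring
          rw [this, pow_add 3 (u.length + j) j, ← mul_assoc, ← mul_pow]
          norm_num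
        have e2 : (9 : ℝ) ^ i * ((1 / 3) ^ i) ^ 2 = 1 := by
          rw [← pow_mul, mul_comm i 2, pow_mul, ← mul_pow]
          norm_num
        have e3 : (1 / 27 : ℝ) ^ j * (3 ^ (2 * j)) ^ 2 = 3 ^ j := by
          rw [← pow_mul, mul_comm (2 * j) 2, ← mul_assoc, pow_mul, ← mul_pow]
          norm_num
        rw [e1]
        calc (3 : ℝ) ^ j = ((1 / 27 : ℝ) ^ j * (3 ^ (2 * j)) ^ 2) *
              (9 ^ i * ((1 / 3) ^ i) ^ 2) := by rw [e2, e3, mul_one]
          _ = 10000 * (1 / 27) ^ j * 9 ^ i * (3 ^ (2 * j) * (1 / 100 * (1 / 3) ^ i)) ^ 2 := by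
              ring)
    refine h1.trans ?_
    have h2 := geom 9 j
    have h3 : ∑ i ∈ Finset.range (j + 1), 10000 * (1 / 27 : ℝ) ^ j * 9 ^ i * 4 ^ (j - i) =
        10000 * (1 / 27 : ℝ) ^ j * ∑ i ∈ Finset.range (j + 1), (9 : ℝ) ^ i * 4 ^ (j - i) := by
      rw [Finset.mul_sum]
      refine Finset.sum_congr rfl fun i _ => ?_
      ring
    rw [h3]
    have h4 : ∑ i ∈ Finset.range (j + 1), (9 : ℝ) ^ i * 4 ^ (j - i) ≤ 2 * 9 ^ j := by
      have h5 : (0 : ℝ) ≤ 4 ^ (j + 1) := by positivity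
      have h6 : (9 : ℝ) ^ (j + 1) = 9 * 9 ^ j := by ring
      have h7 : (0 : ℝ) ≤ 9 ^ j := by positivity
      linarith
    have h7 : (1 / 27 : ℝ) ^ j * 9 ^ j = (1 / 3) ^ j := by
      rw [← mul_pow]
      norm_num
    calc 10000 * (1 / 27 : ℝ) ^ j * ∑ i ∈ Finset.range (j + 1), (9 : ℝ) ^ i * 4 ^ (j - i)
        ≤ 10000 * (1 / 27 : ℝ) ^ j * (2 * 9 ^ j) :=
          mul_le_mul_of_nonneg_left h4 (by positivity)
      _ = 20000 * ((1 / 27 : ℝ) ^ j * 9 ^ j) := by ring
      _ = 20000 * (1 / 3) ^ j := by rw [h7]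

end Pool.Agent.CorA
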