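import Pool.Agent.CorA.Targets

set_option autoImplicit false

/-!
# ALB, target LAV: lower bounds propagate in the node
-/

namespace Pool.Agent.CorA

open Complex Metric Set Filter Topology MeasureTheory
open Pool.Corona91698f Pool.Agent.CorE
open scoped Real BoundedContinuousFunction

namespace LAV_

/-- the conclusion -/
def Cn (b : ℂ) (s C : ℝ) (F : ℂ → ℂ) (M μ : ℝ) : Prop :=
  ∃ (m : ℕ) (a : Fin m → ℂ), (m : ℝ) ≤ C * Real.log (M / μ) ∧
    ∀ z ∈ closedBall b s, M * (μ / M) ^ C * ∏ i, (dist z (a i) / C) ≤ ‖F z‖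

theorem prod_mono {C D C' M μ : ℝ} (hD : 0 < D) (hDC : D ≤ C') (hCC : C ≤ C')
    (hμ : 0 < μ) (hμM : μ ≤ M) {m : ℕ} (a : Fin m → ℂ) (z : ℂ) :
    M * (μ / M) ^ C' * ∏ i, (dist z (a i) / C') ≤
      M * (μ / M) ^ C * ∏ i, (dist z (a i) / D) := by
  have hM : 0 < M := lt_of_lt_of_le hμ hμM
  have h1 : μ / M ≤ 1 := (div_le_one hM).2 hμM
  have h0 : 0 < μ / M := div_pos hμ hM
  have hp : ∏ i, (dist z (a i) / C') ≤ ∏ i, (dist z (a i) / D) :=
    Finset.prod_le_prod (fun i _ => div_nonneg dist_nonneg (by linarith))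
      (fun i _ => div_le_div_of_nonneg_left dist_nonneg hD hDC)
  have hp0 : 0 ≤ ∏ i, (dist z (a i) / C') :=
    Finset.prod_nonneg (fun i _ => div_nonneg dist_nonneg (by linarith))
  refine mul_le_mul (mul_le_mul_of_nonneg_left ?_ hM.le) hp hp0 (by positivity)
  exact Real.rpow_le_rpow_of_exponent_ge h0 h1 hCC

theorem Cn_mono {b : ℂ} {s C C' M μ : ℝ} {F : ℂ → ℂ} (hC : 0 < C) (hCC : C ≤ C')
    (hμ : 0 < μ) (hμM : μ ≤ M) (h : Cn b s C F M μ) : Cn b s C' F M μ := by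
  obtain ⟨m, a, h1, h2⟩ := h
  refine ⟨m, a, h1.trans ?_, fun z hz => (prod_mono hC hCC hCC hμ hμM a z).trans (h2 z hz)⟩
  have : 0 ≤ Real.log (M / μ) := Real.log_nonneg ((one_le_div hμ).2 hμM)
  exact mul_le_mul_of_nonneg_right hCC this

/-- good points -/
def Gd (U : Set ℂ) (b : ℂ) (s : ℝ) (x : ℂ) : Prop :=
  ∃ ρ C : ℝ, 0 < ρ ∧ 1 ≤ C ∧ ∀ (F : ℂ → ℂ) (M μ : ℝ) (z : ℂ), DifferentiableOn ℂ F U →
    (∀ w ∈ U, ‖F w‖ ≤ M) → 0 < μ → z ∈ ball x ρ → z ∈ U → μ ≤ ‖F z‖ → Cn b s C F M μ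

theorem good_base (hLGA : T_LGA) {U : Set ℂ} {b : ℂ} {s : ℝ} (hs : 0 < s)
    (hb : closedBall b (4 * s) ⊆ U) : Gd U b s b := by
  obtain ⟨C, hC, hL⟩ := hLGA (1 / 2) (by norm_num) (by norm_num)
  refine ⟨s, max C (8 * s), hs, hC.trans (le_max_left _ _), ?_⟩
  intro F M μ z hF hM hμ hz hzU hμF
  have hμM : μ ≤ M := hμF.trans (hM z hzU)
  have hbU : ball b (4 * s) ⊆ U := ball_subset_closedBall.trans hb
  rw [mem_ball] at hz
  obtain ⟨m, a, h1, h2⟩ := hL b (4 * s) M μ F z (by linarith) hμ (hF.mono hbU)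
    (fun w hw => hM w (hbU hw)) (by linarith) hμF
  refine ⟨m, a, h1.trans ?_, fun w hw => ?_⟩
  · have : 0 ≤ Real.log (M / μ) := Real.log_nonneg ((one_le_div hμ).2 hμM)
    exact mul_le_mul_of_nonneg_right (le_max_left _ _) this
  · rw [mem_closedBall] at hw
    refine le_trans ?_ (h2 w (by linarith))
    refine prod_mono (by linarith) ?_ (le_max_left _ _) hμ hμM a w
    exact le_trans (by linarith) (le_max_right _ _)

theorem good_step (hLGA : T_LGA) (hPRD : T_PRD) {U : Set ℂ} {b : ℂ} {s : ℝ} {x' : ℂ} {ρ' : ℝ}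
    (hρ' : 0 < ρ') (hU : closedBall x' (4 * ρ') ⊆ U) {x : ℂ} (hx : x ∈ ball x' ρ')
    (hg : Gd U b s x) : Gd U b s x' := by
  obtain ⟨ρ, C, hρ, hC, hG⟩ := hg
  obtain ⟨C1, hC1, hL⟩ := hLGA (1 / 2) (by norm_num) (by norm_num)
  obtain ⟨r, hr0, hr1, hr2⟩ : ∃ r : ℝ, 0 < r ∧ r ≤ ρ / 2 ∧ r ≤ ρ' / 2 :=
    ⟨min (ρ / 2) (ρ' / 2), lt_min (by linarith) (by linarith), min_le_left _ _,
      min_le_right _ _⟩
  obtain ⟨q, hq⟩ : ∃ q : ℝ, q = r / (8 * ρ') := ⟨_, rfl⟩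
  have hq0 : 0 < q := by rw [hq]; positivity
  have hq1 : q < 1 := by rw [hq, div_lt_one (by positivity)]; linarith
  have hlq : Real.log q < 0 := Real.log_neg hq0 hq1
  obtain ⟨C2, hC2⟩ : ∃ C2 : ℝ, C2 = C1 * (1 - Real.log q) := ⟨_, rfl⟩
  have hC2' : 1 ≤ C2 := by rw [hC2]; nlinarith
  refine ⟨ρ', C * C2, hρ', by nlinarith, ?_⟩
  intro F M μ z hF hM hμ hz hzU hμF
  have hμM : μ ≤ M := hμF.trans (hM z hzU)
  have hM0 : 0 < M := lt_of_lt_of_le hμ hμM
  rw [mem_ball] at hz hx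
  have hbU : ball x' (4 * ρ') ⊆ U := ball_subset_closedBall.trans hU
  obtain ⟨m, a, h1, h2⟩ := hL x' (4 * ρ') M μ F z (by linarith) hμ (hF.mono hbU)
    (fun w hw => hM w (hbU hw)) (by linarith) hμF
  obtain ⟨w, hw, hp⟩ := hPRD m a x r hr0
  have hwx' : dist w x' ≤ 1 / 2 * (4 * ρ') := by
    have := dist_triangle w x x'
    linarith
  have h3 := h2 w hwx'
  have hrm : r ^ m ≤ ∏ i, dist w (a i) := by
    refine le_trans ?_ hp
    calc r ^ m = ∏ _i : Fin m, r := by simp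
      _ ≤ ∏ i, max (dist x (a i)) r :=
        Finset.prod_le_prod (fun _ _ => hr0.le) (fun i _ => le_max_right _ _)
  have hqm : q ^ m ≤ ∏ i, (dist w (a i) / (2 * (4 * ρ'))) := by
    have h8 : 2 * (4 * ρ') = 8 * ρ' := by ring
    rw [h8, Finset.prod_div_distrib, Finset.prod_const, Finset.card_univ, Fintype.card_fin,
      hq, div_pow]
    exact div_le_div_of_nonneg_right hrm (by positivity)
  have hratio : 0 < μ / M := div_pos hμ hM0
  have hlr : Real.log (M / μ) = - Real.log (μ / M) := by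
    rw [← Real.log_inv, inv_div]
  have hqq : (μ / M) ^ (C1 * (- Real.log q)) ≤ q ^ m := by
    rw [← Real.rpow_natCast q m, Real.rpow_def_of_pos hratio, Real.rpow_def_of_pos hq0]
    apply Real.exp_le_exp.2
    have h9 : (m : ℝ) ≤ - (C1 * Real.log (μ / M)) := by
      rw [hlr] at h1
      linarith
    nlinarith
  have h4 : M * (μ / M) ^ C2 ≤ ‖F w‖ := by
    refine le_trans ?_ h3
    have e1 : (μ / M) ^ C2 = (μ / M) ^ C1 * (μ / M) ^ (C1 * (- Real.log q)) := by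
      rw [← Real.rpow_add hratio]
      congr 1
      rw [hC2]
      ring
    rw [e1, ← mul_assoc]
    exact mul_le_mul_of_nonneg_left (hqq.trans hqm) (by positivity)
  have hwU : w ∈ U := hU (by rw [mem_closedBall]; linarith)
  have hwb : w ∈ ball x ρ := by rw [mem_ball, hw]; linarith
  have hμ'0 : 0 < M * (μ / M) ^ C2 := by positivity
  obtain ⟨k, c, h5, h6⟩ := hG F M (M * (μ / M) ^ C2) w hF hM hμ'0 hwb hwU h4
  have e2 : M * (μ / M) ^ C2 / M = (μ / M) ^ C2 := by field_simp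
  have e3 : Real.log (M / (M * (μ / M) ^ C2)) = C2 * Real.log (M / μ) := by
    have h10 : M / (M * (μ / M) ^ C2) = ((μ / M) ^ C2)⁻¹ := by
      rw [div_mul_eq_div_div, div_self hM0.ne', one_div]
    rw [h10, Real.log_inv, Real.log_rpow hratio, hlr]
    ring
  refine ⟨k, c, ?_, fun v hv => ?_⟩
  · rw [e3] at h5
    linarith
  · have h7 := h6 v hv
    rw [e2, ← Real.rpow_mul hratio.le] at h7
    refine le_trans ?_ h7
    refine prod_mono (by linarith) ?_ (le_of_eq (mul_comm C2 C)) hμ hμM c v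
    nlinarith

theorem good_all (hLGA : T_LGA) (hPRD : T_PRD) {U : Set ℂ} (hU : IsOpen U)
    (hc : IsPreconnected U) {b : ℂ} {s : ℝ} (hs : 0 < s) (hb : closedBall b (4 * s) ⊆ U) :
    ∀ x ∈ U, Gd U b s x := by
  by_contra hcon
  push Not at hcon
  obtain ⟨x0, hx0U, hx0⟩ := hcon
  have hGo : IsOpen {x | x ∈ U ∧ Gd U b s x} := by
    rw [Metric.isOpen_iff]
    rintro x ⟨hxU, ρ, C, hρ, hC, hG⟩
    obtain ⟨ε, hε, hεU⟩ := Metric.isOpen_iff.1 hU x hxU
    refine ⟨min ρ ε, lt_min hρ hε, fun y hy => ?_⟩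
    rw [mem_ball] at hy
    have hy1 := hy.trans_le (min_le_left _ _)
    have hy2 := hy.trans_le (min_le_right _ _)
    refine ⟨hεU hy2, ρ - dist y x, C, by linarith, hC,
      fun F M μ z hF hM hμ hz hzU hμF => hG F M μ z hF hM hμ ?_ hzU hμF⟩
    rw [mem_ball] at hz ⊢
    have := dist_triangle z y x
    linarith
  have hVo : IsOpen {x | x ∈ U ∧ ¬ Gd U b s x} := by
    rw [Metric.isOpen_iff]
    rintro x ⟨hxU, hxn⟩
    obtain ⟨ε, hε, hεU⟩ := Metric.isOpen_iff.1 hU x hxU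
    have hcb : closedBall x (4 * (ε / 8)) ⊆ U := by
      refine Subset.trans ?_ hεU
      intro z hz
      rw [mem_closedBall] at hz
      rw [mem_ball]
      linarith
    refine ⟨ε / 8, by linarith, fun y hy => ⟨hcb ?_, fun hyg =>
      hxn (good_step hLGA hPRD (by linarith) hcb hy hyg)⟩⟩
    rw [mem_ball] at hy
    rw [mem_closedBall]
    linarith
  have hcov : U ⊆ {x | x ∈ U ∧ Gd U b s x} ∪ {x | x ∈ U ∧ ¬ Gd U b s x} := fun x hx => by
    by_cases h : Gd U b s x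
    · exact Or.inl ⟨hx, h⟩
    · exact Or.inr ⟨hx, h⟩
  have hbU : b ∈ U := hb (mem_closedBall_self (by linarith))
  obtain ⟨y, -, hy1, hy2⟩ := hc _ _ hGo hVo hcov ⟨b, hbU, hbU, good_base hLGA hs hb⟩
    ⟨x0, hx0U, hx0U, hx0⟩
  exact hy2.2 hy1.2

theorem isOpen_VV : IsOpen VV := by
  refine (isOpen_lt (continuous_id.dist continuous_const) continuous_const).inter ?_
  have : {z : ℂ | ∀ d : D, 73 / 100 < dist (psi d z) ctr}
      = ⋂ d : D, {z : ℂ | 73 / 100 < dist (psi d z) ctr} := by ext; simp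
  change IsOpen {z : ℂ | ∀ d : D, 73 / 100 < dist (psi d z) ctr}
  rw [this]
  exact isOpen_iInter_of_finite fun d => isOpen_lt continuous_const (cont_dist_psi d)

theorem nodeX_VV : nodeX ⊆ VV := by
  rintro z ⟨h1, h2⟩
  exact ⟨by linarith, fun d => by have := h2 d; linarith⟩

end LAV_

open LAV_ in
theorem p_LAV (hLGA : T_LGA) (hPRD : T_PRD) (hCON : T_CON) : T_LAV := by
  intro b s hs hb
  have hVc : IsPreconnected VV :=
    hCON.1 (9 / 10) (73 / 100) (by norm_num) le_rfl (by norm_num) le_rfl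
  have h1 : ∀ x ∈ VV, Gd VV b s x := good_all hLGA hPRD isOpen_VV hVc hs hb
  unfold Gd at h1
  choose! ρ C hρ hC hG using h1
  obtain ⟨t, htK, ht⟩ := isCompact_nodeX.elim_nhds_subcover (fun x => ball x (ρ x))
    (fun x hx => ball_mem_nhds x (hρ x (nodeX_VV hx)))
  have hS : 0 ≤ ∑ i ∈ t, C i := Finset.sum_nonneg fun i hi => by
    have := hC i (nodeX_VV (htK i hi))
    linarith
  refine ⟨1 + ∑ i ∈ t, C i, by linarith, ?_⟩
  intro F M μ y hF hM hμ hy hμF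
  obtain ⟨i, hi, hyi⟩ := mem_iUnion₂.1 (ht hy)
  have hCi := hC i (nodeX_VV (htK i hi))
  have hle : C i ≤ 1 + ∑ i ∈ t, C i := by
    have := Finset.single_le_sum (f := fun i => C i) (fun j hj => by
      have := hC j (nodeX_VV (htK j hj))
      linarith) hi
    linarith
  exact Cn_mono (by linarith) hle hμ (hμF.trans (hM y (nodeX_VV hy)))
    (hG i (nodeX_VV (htK i hi)) F M μ y hF hM hμ hyi (nodeX_VV hy) hμF)

end Pool.Agent.CorA
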