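import Pool.Agent.CorA.Targets

set_option autoImplicit false

/-!
# ALB, block LCL: bounded local solutions

The first part of the proof of `log_corona`.
-/

namespace Pool.Agent.CorA

open Complex Metric Set Filter Topology MeasureTheory
open Pool.Corona91698f Pool.Agent.CorE
open scoped Real BoundedContinuousFunction

/-- LCL: bounded local solutions. -/
theorem p_LCL : T_LCL := by
  classical
  intro n δ hδ
  obtain ⟨C1, hC1⟩ := node_corona n δ hδ
  obtain ⟨C2, hC2⟩ := exterior_corona (ρ := 72 / 100) (ρ' := 74 / 100) (by norm_num)
    (by norm_num) n δ hδ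
  set B : ℝ := max (max C1 C2) 1 with hB
  have hB1 : 1 ≤ B := le_max_right _ _
  have hBC1 : C1 ≤ B := (le_max_left _ _).trans (le_max_left _ _)
  have hBC2 : C2 ≤ B := (le_max_right _ _).trans (le_max_left _ _)
  refine ⟨B, hB1, fun f hf => ?_⟩
  have hfd := hf.diff
  have hfb := hf.le
  have hfl := hf.ge
  have hopE : IsOpen squareCantorᶜ := isClosed_squareCantor.isOpen_compl
  have hloc := fun v : List D => hC1 (fun j z => f j (Phi v z))
    (fun j z hz => by
      have h1 : DifferentiableAt ℂ (f j) (Phi v z) :=
        (hfd j).differentiableAt (hopE.mem_nhds (Phi_notMem hz))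
      exact (DifferentiableAt.comp (g := f j) (f := Phi v) z h1
        (differentiable_Phi v z)).differentiableWithinAt)
    (fun j z hz => hfb j _ (Phi_notMem hz))
    (fun z hz => hfl _ (Phi_notMem hz))
  choose g hgd hgb hgs using hloc
  have hext : {z : ℂ | (72 / 100 : ℝ) < dist z ctr} ⊆ squareCantorᶜ := by
    intro z hz hE
    have h1 := squareCantor_dist' hE
    have h2 : (72 / 100 : ℝ) < dist z ctr := hz
    linarith
  obtain ⟨h, hhd, hhb, hhs⟩ := hC2 ctr f (fun j => (hfd j).mono hext)
    (fun j z hz => hfb j z (hext hz)) (fun z hz => hfl z (hext hz))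
  let gR : Option (List D) → Fin n → ℂ → ℂ := fun R =>
    match R with
    | none => h
    | some v => fun i z => g v i (Psi v z)
  refine ⟨gR, ?_, ?_, ?_⟩
  · intro R i
    cases R with
    | none => exact hhd i
    | some v =>
      intro z hz
      have h1 : DifferentiableAt ℂ (g v i) (Psi v z) :=
        (hgd v i).differentiableAt (isOpen_nodeV.mem_nhds hz)
      exact (DifferentiableAt.comp (g := g v i) (f := Psi v) z h1
        (differentiable_Psi v z)).differentiableWithinAt
  · intro R i z hz
    cases R with
    | none => exact (hhb i z hz).trans hBC2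
    | some v => exact (hgb v i _ hz).trans hBC1
  · intro R z hz
    cases R with
    | none => exact hhs z hz
    | some v =>
      have := hgs v _ hz
      simp only [Phi_Psi] at this
      exact this

end Pool.Agent.CorA
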