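import Pool.Agent.CorA.Targets

/-!
# CorA, LEV: level sums by testing the functional
-/

set_option autoImplicit false

namespace Pool.Agent.CorA

open Complex Metric Set Filter Topology MeasureTheory
open Pool.Corona91698f Pool.Agent.CorE
open scoped Real BoundedContinuousFunction

namespace LEV_

theorem down (v : List D) {z : ℂ} (h : 74 / 100 ≤ dist z ctr) :
    74 / 100 ≤ dist (Psi v z) ctr := by
  induction v generalizing z with
  | nil => exact h
  | cons d v ih =>
    rw [Psi_cons]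
    apply ih
    have := dist_psi_ge d z
    linarith

theorem near80 {v : List D} {z : ℂ} (hv : v ≠ []) (h : dist (Psi v z) ctr ≤ 80 / 100) :
    dist z ctr < 76 / 100 := by
  induction v generalizing z with
  | nil => exact absurd rfl hv
  | cons d v ih =>
    rw [Psi_cons] at h
    have h1 : dist (psi d z) ctr ≤ 80 / 100 := by
      by_cases hv' : v = []
      · subst hv'
        exact h
      · have := ih hv' h
        linarith
    have := dist_le_of_psi d z
    linarith

theorem chain80 {v w : List D} {z : ℂ} (hv : dist (Psi v z) ctr ≤ 80 / 100)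
    (hw : dist (Psi w z) ctr ≤ 80 / 100) : v <+: w ∨ w <+: v := by
  induction v generalizing w z with
  | nil => exact Or.inl List.nil_prefix
  | cons d v ih =>
    cases w with
    | nil => exact Or.inr List.nil_prefix
    | cons d' w =>
      have h1 : dist (psi d z) ctr ≤ 80 / 100 := by
        by_cases h : v = []
        · subst h
          exact hv
        · have := near80 h (z := psi d z) hv
          linarith
      have h2 : dist (psi d' z) ctr ≤ 80 / 100 := by
        by_cases h : w = []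
        · subst h
          exact hw
        · have := near80 h (z := psi d' z) hw
          linarith
      have hdd : d = d' := psi_disj (by linarith) (by linarith)
      subst hdd
      rcases ih hv hw with h | h
      · exact Or.inl (List.cons_prefix_cons.2 ⟨rfl, h⟩)
      · exact Or.inr (List.cons_prefix_cons.2 ⟨rfl, h⟩)

/-- the admissible points -/
def PP (N : ℕ) (u : List D) (z : ℂ) : Prop :=
  (u.length < N ∧ Psi u z ∈ nodeX) ∨ (u.length = N ∧ dist (Psi u z) ctr = 77 / 100)

theorem far {N : ℕ} {u : List D} {z : ℂ} (h : PP N u z) {q : List D} (hq : q.length = N) :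
    74 / 100 ≤ dist (Psi q z) ctr := by
  by_contra hcon
  rw [not_le] at hcon
  have hu : u.length ≤ N := by
    rcases h with h | h
    · exact h.1.le
    · exact h.1.le
  have hud : dist (Psi u z) ctr ≤ 80 / 100 := by
    rcases h with h | h
    · exact h.2.1
    · rw [h.2]; norm_num
  have hpre : u <+: q := by
    rcases chain80 hud (w := q) (by linarith) with h1 | h1
    · exact h1
    · have h2 : q = u := h1.eq_of_length_le (by omega)
      rw [h2]
  obtain ⟨w, rfl⟩ := hpre
  rw [Psi_append] at hcon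
  rw [List.length_append] at hq
  cases w with
  | nil =>
    rw [Psi_nil] at hcon
    rcases h with h | h
    · simp at hq
      omega
    · rw [h.2] at hcon
      norm_num at hcon
  | cons d w =>
    rw [List.length_cons] at hq
    rw [Psi_cons] at hcon
    rcases h with h | h
    · have h1 := down w (h.2.2 d)
      linarith
    · omega

/-- points on the circles are away from the admissible points -/
theorem apart {N : ℕ} {u : List D} {z : ℂ} (h : PP N u z) {ζ : ℂ} (hζ : ζ ∈ Gm N) :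
    1 / (100 * 3 ^ N) ≤ ‖ζ - z‖ := by
  obtain ⟨q, hq, hd⟩ := hζ
  have hq' := mem_lv.1 hq
  have h1 := far h hq'
  have h2 := dist_triangle (Psi q z) (Psi q ζ) ctr
  have h3 : dist (Psi q z) (Psi q ζ) = 3 ^ N * ‖ζ - z‖ := by
    rw [dist_Psi, hq', dist_comm z ζ, dist_eq_norm]
  rw [div_le_iff₀ (by positivity)]
  rw [h3, hd] at h2
  have h4 : (0 : ℝ) < 3 ^ N := by positivity
  nlinarith

theorem gm_sub {N : ℕ} : Gm N ⊆ OmR (727 / 1000) N := by
  rintro ζ ⟨q, hq, hd⟩
  intro q' hq'
  by_contra hcon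
  rw [not_lt] at hcon
  have h1 : q = q' := by
    have e : q.length = q'.length := by rw [mem_lv.1 hq, mem_lv.1 hq']
    rcases chain80 (v := q) (w := q') (z := ζ) (by rw [hd]; norm_num) (by linarith) with h | h
    · exact h.eq_of_length e
    · exact (h.eq_of_length e.symm).symm
  rw [← h1, hd] at hcon
  norm_num at hcon

theorem sumth (l : ℕ) (ζ : ℂ) : ∑ u ∈ lv l, th (Psi u.dropLast ζ) ≤ 264 := by
  cases l with
  | zero =>
    have := th_le_one ζ
    simp only [lv, Finset.sum_singleton, List.dropLast_nil, Psi_nil]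
    linarith
  | succ k =>
    rw [sum_lv_add k 1 (fun u => th (Psi u.dropLast ζ))]
    have h1 : ∀ p ∈ lv k, ∑ q ∈ lv 1, th (Psi (p ++ q).dropLast ζ) = 4 * th (Psi p ζ) := by
      intro p _
      rw [sum_lv_succ 0 (fun q => th (Psi (p ++ q).dropLast ζ))]
      have h2 : ∀ d : D, ∑ v ∈ lv 0, th (Psi (p ++ (d :: v)).dropLast ζ) = th (Psi p ζ) := by
        intro d
        simp only [lv, Finset.sum_singleton, List.dropLast_concat]
      rw [Finset.sum_congr rfl (fun d _ => h2 d), Finset.sum_const, card_D, nsmul_eq_mul]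
      norm_num
    rw [Finset.sum_congr rfl h1, ← Finset.mul_sum, sum_lv]
    have := Sg_le' k ζ
    linarith

/-- a number of modulus at most one which makes `w` positive -/
theorem exists_unit (w : ℂ) : ∃ e : ℂ, ‖e‖ ≤ 1 ∧ e * w = (‖w‖ : ℂ) := by
  by_cases h : w = 0
  · exact ⟨0, by simp, by simp [h]⟩
  · refine ⟨(‖w‖ : ℂ) * w⁻¹, ?_, ?_⟩
    · rw [norm_mul, norm_inv, Complex.norm_real, norm_norm, mul_inv_cancel₀ (norm_ne_zero_iff.2 h)]
    · field_simp

end LEV_

open LEV_ in
theorem p_LEV (hTST : T_TST) : T_LEV := by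
  obtain ⟨C, hC, hT⟩ := hTST
  refine ⟨264 * C, by positivity, ?_⟩
  intro N M h hM l zz hz
  have hP : ∀ u ∈ lv l, PP N u (zz u) := by
    intro u hu
    have hl := mem_lv.1 hu
    rcases hz with ⟨h1, h2⟩ | ⟨h1, h2⟩
    · exact Or.inl ⟨by omega, h2 u hu⟩
    · exact Or.inr ⟨by omega, h2 u hu⟩
  have hP' : ∀ u : List D, ∃ T : ℂ → ℂ, u ∈ lv l → IsA N T ∧ ∀ ζ ∈ Gm N,
      ‖(1 / 3 : ℂ) ^ u.length * (ζ - zz u)⁻¹ - T ζ‖ ≤ C * th (Psi u.dropLast ζ) := by
    intro u
    by_cases hu : u ∈ lv l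
    · obtain ⟨T, h1⟩ := hT N u (zz u) (hP u hu)
      exact ⟨T, fun _ => h1⟩
    · exact ⟨0, fun h => absurd h hu⟩
  choose T hT1 using hP'
  choose e he1 he2 using fun u : List D => exists_unit (h (zz u))
  -- the kernel functions
  have hk : ∀ u : List D, ∃ k : (Gm N →ᵇ ℂ), u ∈ lv l → ∀ ζ : Gm N, k ζ = ((ζ : ℂ) - zz u)⁻¹ := by
    intro u
    by_cases hu : u ∈ lv l
    · have hne : ∀ ζ : Gm N, (ζ : ℂ) - zz u ≠ 0 := by
        intro ζ h0
        have h1 := apart (hP u hu) ζ.2
        rw [h0, norm_zero] at h1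
        have : (0 : ℝ) < 1 / (100 * 3 ^ N) := by positivity
        linarith
      have hc : Continuous fun ζ : Gm N => ((ζ : ℂ) - zz u)⁻¹ :=
        (continuous_subtype_val.sub continuous_const).inv₀ hne
      refine ⟨BoundedContinuousFunction.ofNormedAddCommGroup _ hc (100 * 3 ^ N) ?_, fun _ ζ => rfl⟩
      intro ζ
      rw [norm_inv]
      have h1 := apart (hP u hu) ζ.2
      have h2 := inv_anti₀ (by positivity) h1
      refine h2.trans (le_of_eq ?_)
      rw [one_div, inv_inv]
    · exact ⟨0, fun h => absurd h hu⟩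
  choose k hk1 using hk
  have hT' : ∀ u : List D, ∃ t : (Gm N →ᵇ ℂ), u ∈ lv l → ∀ ζ : Gm N, t ζ = T u ζ := by
    intro u
    by_cases hu : u ∈ lv l
    · have hcT : Continuous fun ζ : Gm N => T u ζ := by
        have h1 : ContinuousOn (T u) (Gm N) := (hT1 u hu).1.1.continuousOn.mono gm_sub
        exact continuousOn_iff_continuous_domRestrict.1 h1
      refine ⟨BoundedContinuousFunction.ofNormedAddCommGroup _ hcT (C + 100 * 3 ^ N) ?_,
        fun _ ζ => rfl⟩
      intro ζ
      have h1 := (hT1 u hu).2 ζ ζ.2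
      have h2 : ‖(1 / 3 : ℂ) ^ u.length * ((ζ : ℂ) - zz u)⁻¹‖ ≤ 100 * 3 ^ N := by
        rw [norm_mul, norm_inv, norm_pow]
        have h3 := apart (hP u hu) ζ.2
        have h4 := inv_anti₀ (by positivity) h3
        rw [one_div, inv_inv] at h4
        have h5 : ‖(1 / 3 : ℂ)‖ ^ u.length ≤ 1 := by
          apply pow_le_one₀ (norm_nonneg _)
          norm_num
        calc ‖(1 / 3 : ℂ)‖ ^ u.length * ‖(ζ : ℂ) - zz u‖⁻¹ ≤ 1 * ‖(ζ : ℂ) - zz u‖⁻¹ := by
              gcongr
          _ ≤ 100 * 3 ^ N := by rw [one_mul]; exact h4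
      have h6 : T u ζ = (1 / 3 : ℂ) ^ u.length * ((ζ : ℂ) - zz u)⁻¹ -
          ((1 / 3 : ℂ) ^ u.length * ((ζ : ℂ) - zz u)⁻¹ - T u ζ) := by ring
      rw [h6]
      refine (norm_sub_le _ _).trans ?_
      have h7 := th_le_one (Psi u.dropLast ζ)
      have h8 : C * th (Psi u.dropLast ζ) ≤ C := by nlinarith
      linarith
    · exact ⟨0, fun h => absurd h hu⟩
  choose t ht1 using hT'
  set Φ : (Gm N →ᵇ ℂ) := ∑ u ∈ lv l, e u • ((1 / 3 : ℂ) ^ l • k u - t u) with hΦ
  have hnorm : ‖Φ‖ ≤ 264 * C := by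
    rw [BoundedContinuousFunction.norm_le (by positivity)]
    intro ζ
    rw [hΦ, BoundedContinuousFunction.sum_apply]
    refine (norm_sum_le _ _).trans ?_
    have h1 : ∀ u ∈ lv l, ‖(e u • ((1 / 3 : ℂ) ^ l • k u - t u)) ζ‖ ≤
        C * th (Psi u.dropLast ζ) := by
      intro u hu
      have h2 : (e u • ((1 / 3 : ℂ) ^ l • k u - t u)) ζ =
          e u * ((1 / 3 : ℂ) ^ l * k u ζ - t u ζ) := rfl
      rw [h2, hk1 u hu ζ, ht1 u hu ζ, norm_mul]
      have h3 := (hT1 u hu).2 ζ ζ.2
      rw [mem_lv.1 hu] at h3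
      calc ‖e u‖ * ‖(1 / 3 : ℂ) ^ l * ((ζ : ℂ) - zz u)⁻¹ - T u ζ‖
          ≤ 1 * ‖(1 / 3 : ℂ) ^ l * ((ζ : ℂ) - zz u)⁻¹ - T u ζ‖ := by
            gcongr
            exact he1 u
        _ ≤ C * th (Psi u.dropLast ζ) := by rw [one_mul]; exact h3
    refine (Finset.sum_le_sum h1).trans ?_
    rw [← Finset.mul_sum]
    have h4 := sumth l (ζ : ℂ)
    nlinarith
  have hMΦ : M Φ = (2 * π * I : ℂ) * ((∑ u ∈ lv l, (1 / 3) ^ l * ‖h (zz u)‖ : ℝ) : ℂ) := by
    rw [hΦ, map_sum]
    push_cast
    rw [Finset.mul_sum]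
    refine Finset.sum_congr rfl fun u hu => ?_
    have h1 : M (t u) = 0 := hM.an (T u) (hT1 u hu).1 (t u) (ht1 u hu)
    have hmem : zz u ∈ OmR (73 / 100) N := by
      intro q hq
      have := far (hP u hu) (mem_lv.1 hq)
      linarith
    have h2 := hM.rep (zz u) hmem (k u) (hk1 u hu)
    have h3 : (2 * π * I : ℂ) ≠ 0 := by
      simp [Real.pi_ne_zero, I_ne_zero]
    have h4 : M (k u) = (2 * π * I : ℂ) * h (zz u) := by
      rw [h2]
      field_simp
    rw [map_smul, map_sub, map_smul, h1, h4, sub_zero, smul_eq_mul, smul_eq_mul]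
    calc e u * ((1 / 3 : ℂ) ^ l * (2 * π * I * h (zz u)))
        = (2 * π * I : ℂ) * ((1 / 3 : ℂ) ^ l * (e u * h (zz u))) := by ring
      _ = _ := by rw [he2 u]
  have h5 := M.le_opNorm Φ
  rw [hMΦ, norm_mul, Complex.norm_real] at h5
  have h6 : ‖(2 * π * I : ℂ)‖ = 2 * π := by
    rw [norm_mul, norm_mul, norm_I, mul_one, Complex.norm_real]
    simp [abs_of_pos Real.pi_pos]
  rw [h6] at h5
  have h7 : 0 ≤ ∑ u ∈ lv l, (1 / 3 : ℝ) ^ l * ‖h (zz u)‖ :=
    Finset.sum_nonneg fun u _ => by positivity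
  rw [Real.norm_of_nonneg h7] at h5
  have h8 : ‖M‖ * ‖Φ‖ ≤ 2 * (264 * C) := by
    have := hM.bd
    gcongr
  have h9 := Real.pi_gt_three
  nlinarith

end Pool.Agent.CorA
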