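import Pool.Agent.CorA.Targets

/-!
# CorA, LGA: a lower bound by a product (Harnack's inequality)
-/

set_option autoImplicit false

namespace Pool.Agent.CorA

open Complex Metric Set Filter Topology MeasureTheory
open Pool.Corona91698f Pool.Agent.CorE
open scoped Real BoundedContinuousFunction

namespace LGA_

/-- Harnack's inequality twice -/
theorem har (hHAR : T_HAR) {c : ℂ} {r M μ s' : ℝ} {G : ℂ → ℂ} {y₀ z : ℂ} (hr : 0 < r)
    (hμ : 0 < μ) (hs0 : 0 ≤ s') (hs1 : s' < 1) (hM : 0 < M)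
    (ha : ∀ w ∈ closedBall c r, AnalyticAt ℂ G w) (hnz : ∀ w ∈ closedBall c r, G w ≠ 0)
    (hb : ∀ w ∈ closedBall c r, ‖G w‖ ≤ M) (hy : dist y₀ c ≤ s' * r) (hyμ : μ ≤ ‖G y₀‖)
    (hz : dist z c ≤ s' * r) :
    Real.log (M / ‖G z‖) ≤ ((1 + s') / (1 - s')) ^ 2 * Real.log (M / μ) := by
  set F : ℂ → ℝ := fun w => Real.log ‖(M : ℂ) / G w‖ with hF
  have hFe : ∀ w, F w = Real.log (M / ‖G w‖) := by
    intro w
    rw [hF]
    simp only [norm_div, Complex.norm_real, Real.norm_eq_abs, abs_of_pos hM]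
  have hharm : InnerProductSpace.HarmonicOnNhd F (closedBall c r) := by
    intro w hw
    have h1 : AnalyticAt ℂ (fun w => (M : ℂ) / G w) w := analyticAt_const.div (ha w hw) (hnz w hw)
    exact h1.harmonicAt_log_norm (div_ne_zero (by exact_mod_cast hM.ne') (hnz w hw))
  have hpos : ∀ w ∈ sphere c r, 0 ≤ F w := by
    intro w hw
    have hw' := sphere_subset_closedBall hw
    rw [hFe]
    refine Real.log_nonneg ?_
    rw [le_div_iff₀ (norm_pos_iff.2 (hnz w hw')), one_mul]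
    exact hb w hw'
  have h1 := (hHAR F c r hr hharm hpos s' hs0 hs1 y₀ hy).1
  have h2 := (hHAR F c r hr hharm hpos s' hs0 hs1 z hz).2
  have hyb : y₀ ∈ closedBall c r := by
    rw [mem_closedBall]
    exact hy.trans (by nlinarith)
  have hFy : F y₀ ≤ Real.log (M / μ) := by
    rw [hFe]
    have h3 : 0 < ‖G y₀‖ := norm_pos_iff.2 (hnz y₀ hyb)
    exact Real.log_le_log (by positivity) (div_le_div_of_nonneg_left hM.le hμ hyμ)
  have h4 : 0 < 1 - s' := by linarith
  have h5 : 0 < 1 + s' := by linarith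
  have h6 : F c ≤ (1 + s') / (1 - s') * F y₀ := by
    rw [div_mul_eq_mul_div, div_le_iff₀ h5] at h1
    rw [div_mul_eq_mul_div, le_div_iff₀ h4]
    linarith
  have h7 : 0 < (1 + s') / (1 - s') := by positivity
  rw [← hFe]
  calc F z ≤ (1 + s') / (1 - s') * F c := h2
    _ ≤ (1 + s') / (1 - s') * ((1 + s') / (1 - s') * Real.log (M / μ)) := by
        refine mul_le_mul_of_nonneg_left (h6.trans ?_) h7.le
        exact mul_le_mul_of_nonneg_left hFy h7.le
    _ = ((1 + s') / (1 - s')) ^ 2 * Real.log (M / μ) := by ring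

/-- from the logarithm to the power -/
theorem pow_le {M μ x K C : ℝ} (hM : 0 < M) (hμ : 0 < μ) (hμM : μ ≤ M) (hx : 0 < x)
    (h : Real.log (M / x) ≤ K * Real.log (M / μ)) (hKC : K ≤ C) : M * (μ / M) ^ C ≤ x := by
  have h0 : 0 < μ / M := by positivity
  have h1 : μ / M ≤ 1 := (div_le_one hM).2 hμM
  have h2 : (μ / M) ^ C ≤ (μ / M) ^ K := Real.rpow_le_rpow_of_exponent_ge h0 h1 hKC
  have h3 : (μ / M) ^ K = Real.exp (-(K * Real.log (M / μ))) := by
    rw [Real.rpow_def_of_pos h0, Real.log_div hμ.ne' hM.ne', Real.log_div hM.ne' hμ.ne']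
    congr 1
    ring
  have h4 : Real.exp (-(K * Real.log (M / μ))) ≤ x / M := by
    rw [← Real.le_log_iff_exp_le (by positivity), Real.log_div hx.ne' hM.ne']
    rw [Real.log_div hM.ne' hx.ne'] at h
    linarith
  calc M * (μ / M) ^ C ≤ M * (x / M) :=
        mul_le_mul_of_nonneg_left ((h2.trans h3.le).trans h4) hM.le
    _ = x := by field_simp

end LGA_

/-- LGA -/
theorem p_LGA (hBLA : T_BLA) (hHAR : T_HAR) : T_LGA := by
  intro s hs0 hs1
  obtain ⟨C₀, hC₀, hB⟩ := hBLA s ((1 + s) / 2) hs0 hs1 (by linarith) (by linarith)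
  set t' : ℝ := (1 + 3 * s) / 4 with ht'
  have ht0 : 0 < t' := by
    rw [ht']
    linarith
  have hst : s < t' := by
    rw [ht']
    linarith
  set s' : ℝ := s / t' with hs'
  have hs'0 : 0 ≤ s' := div_nonneg hs0 ht0.le
  have hs'1 : s' < 1 := (div_lt_one ht0).2 hst
  set K : ℝ := ((1 + s') / (1 - s')) ^ 2 with hK
  refine ⟨max 1 (max C₀ K), le_max_left _ _, ?_⟩
  intro c R M μ G y₀ hR hμ hG hGM hy hyμ
  obtain ⟨m, a, G₁, hm, hd, hb, hμ1, hnz, hprod⟩ := hB c R M μ G y₀ hR hμ hG hGM hy hyμ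
  have hyR : y₀ ∈ ball c R := by
    rw [mem_ball]
    nlinarith
  have hμM : μ ≤ M := hyμ.trans (hGM y₀ hyR)
  have hM : 0 < M := lt_of_lt_of_le hμ hμM
  have hlog : 0 ≤ Real.log (M / μ) := Real.log_nonneg ((one_le_div hμ).2 hμM)
  have hC1 : C₀ ≤ max 1 (max C₀ K) := (le_max_left _ _).trans (le_max_right _ _)
  have hC2 : K ≤ max 1 (max C₀ K) := (le_max_right _ _).trans (le_max_right _ _)
  refine ⟨m, a, hm.trans (mul_le_mul_of_nonneg_right hC1 hlog), ?_⟩
  intro z hz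
  have hsub : closedBall c (t' * R) ⊆ ball c R := by
    refine closedBall_subset_ball ?_
    rw [ht']
    nlinarith
  have hle : ∀ w ∈ closedBall c (t' * R), dist w c ≤ (1 + s) / 2 * R := by
    intro w hw
    rw [mem_closedBall] at hw
    refine hw.trans ?_
    rw [ht']
    nlinarith
  have hsR : s' * (t' * R) = s * R := by
    rw [hs']
    field_simp
  have hzR : z ∈ ball c R := by
    rw [mem_ball]
    nlinarith
  have hzt : dist z c ≤ (1 + s) / 2 * R := hz.trans (by nlinarith)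
  have h1 := LGA_.har hHAR (c := c) (r := t' * R) (M := M) (μ := μ) (s' := s') (G := G₁)
    (y₀ := y₀) (z := z) (by positivity) hμ hs'0 hs'1 hM
    (fun w hw => hd.analyticAt (isOpen_ball.mem_nhds (hsub hw)))
    (fun w hw => hnz w (hle w hw)) (fun w hw => hb w (hsub hw)) (by rw [hsR]; exact hy) hμ1
    (by rw [hsR]; exact hz)
  have h2 := LGA_.pow_le hM hμ hμM (norm_pos_iff.2 (hnz z hzt)) h1 hC2
  have h3 : 0 ≤ ∏ i, (dist z (a i) / (2 * R)) :=
    Finset.prod_nonneg fun i _ => by positivity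
  calc M * (μ / M) ^ (max 1 (max C₀ K)) * ∏ i, (dist z (a i) / (2 * R))
      ≤ ‖G₁ z‖ * ∏ i, (dist z (a i) / (2 * R)) := mul_le_mul_of_nonneg_right h2 h3
    _ = (∏ i, (dist z (a i) / (2 * R))) * ‖G₁ z‖ := mul_comm _ _
    _ ≤ ‖G z‖ := hprod z hzR

end Pool.Agent.CorA
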