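import Pool.Agent.CorA.Targets

/-!
# The maximum principle in the outer region
-/

set_option autoImplicit false

namespace Pool.Agent.CorA

open Complex Metric Set Filter Topology MeasureTheory
open Pool.Corona91698f Pool.Agent.CorE
open scoped Real BoundedContinuousFunction

namespace MXP_

theorem cont_Psi (q : List D) : Continuous fun z => dist (Psi q z) ctr :=
  (differentiable_Psi q).continuous.dist continuous_const

theorem isOpen_OmR (r : ℝ) (N : ℕ) : IsOpen (OmR r N) := by
  have e : OmR r N = ⋂ q ∈ lv N, {z | r < dist (Psi q z) ctr} := by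
    ext z
    simp [OmR]
  rw [e]
  exact isOpen_biInter_finset fun q _ => isOpen_lt continuous_const (cont_Psi q)

theorem closure_le {N : ℕ} {R : ℝ} {z : ℂ}
    (hz : z ∈ closure (OmR (73 / 100) N ∩ ball ctr R)) :
    (∀ q ∈ lv N, 73 / 100 ≤ dist (Psi q z) ctr) ∧ dist z ctr ≤ R := by
  have h1 : closure (OmR (73 / 100) N ∩ ball ctr R) ⊆
      {z | (∀ q ∈ lv N, 73 / 100 ≤ dist (Psi q z) ctr) ∧ dist z ctr ≤ R} := by
    refine closure_minimal (fun y hy => ⟨fun q hq => (hy.1 q hq).le, (mem_ball.1 hy.2).le⟩) ?_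
    have e : {z | (∀ q ∈ lv N, 73 / 100 ≤ dist (Psi q z) ctr) ∧ dist z ctr ≤ R} =
        (⋂ q ∈ lv N, {z | 73 / 100 ≤ dist (Psi q z) ctr}) ∩ {z | dist z ctr ≤ R} := by
      ext z
      simp
    rw [e]
    exact (isClosed_biInter fun q _ => isClosed_le continuous_const (cont_Psi q)).inter
      (isClosed_le (continuous_id.dist continuous_const) continuous_const)
  exact h1 hz

theorem frontier_sub {N : ℕ} {R : ℝ} {z : ℂ}
    (hz : z ∈ frontier (OmR (73 / 100) N ∩ ball ctr R)) : z ∈ Gm N ∨ dist z ctr = R := by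
  have hop : IsOpen (OmR (73 / 100) N ∩ ball ctr R) := (isOpen_OmR _ _).inter isOpen_ball
  rw [hop.frontier_eq] at hz
  obtain ⟨h1, h2⟩ := closure_le hz.1
  rcases h2.lt_or_eq with h | h
  · left
    have h3 : ¬ z ∈ OmR (73 / 100) N := fun h' => hz.2 ⟨h', mem_ball.2 h⟩
    unfold OmR at h3
    rw [mem_ofPred_eq] at h3
    push Not at h3
    obtain ⟨q, hq, hq'⟩ := h3
    exact ⟨q, hq, le_antisymm hq' (h1 q hq)⟩
  · exact Or.inr h

end MXP_

open MXP_

theorem p_MXP : T_MXP := by
  intro N F X hF hX z₀ hz₀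
  obtain ⟨hFd, B, R₀, hB⟩ := hF
  set q₀ : List D := List.replicate N (false, false) with hq₀
  have hq : q₀ ∈ lv N := mem_lv.2 (by rw [hq₀, List.length_replicate])
  set c := cc q₀ with hc
  have hcP : Psi q₀ c = ctr := by rw [hc, cc, Psi_Phi]
  have hdist : ∀ z, dist (Psi q₀ z) ctr = 3 ^ N * dist z c := by
    intro z
    rw [← hcP, dist_Psi, hq₀, List.length_replicate]
  set d₀ : ℝ := 73 / 100 / 3 ^ N with hd₀
  have hd₀0 : 0 < d₀ := by positivity
  have hfar : ∀ z, 73 / 100 ≤ dist (Psi q₀ z) ctr → d₀ ≤ dist z c := by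
    intro z hz
    rw [hdist] at hz
    rw [hd₀, div_le_iff₀ (by positivity)]
    linarith
  have hX0 : 0 ≤ X := by
    refine (norm_nonneg _).trans (hX (Phi q₀ (ctr + (73 / 100 : ℝ))) ⟨q₀, hq, ?_⟩)
    rw [Psi_Phi, dist_eq_norm, add_sub_cancel_left, Complex.norm_real]
    norm_num
  have hz₀c : 0 < dist z₀ c := hd₀0.trans_le (hfar z₀ (hz₀ q₀ hq).le)
  have hsub : ∀ R, closure (OmR (73 / 100) N ∩ ball ctr R) ⊆ OmR (727 / 1000) N := by
    intro R z hz q hq
    have := (closure_le hz).1 q hq
    linarith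
  have hmain : ∀ m : ℕ, ∀ R : ℝ, R₀ + 1 ≤ R → dist z₀ ctr + 1 ≤ R → dist c ctr + 1 ≤ R →
      ‖F z₀‖ ^ m ≤ dist z₀ c * (X ^ m / d₀ + |B| ^ m / (R - dist c ctr)) := by
    intro m R hR1 hR2 hR3
    set U := OmR (73 / 100) N ∩ ball ctr R with hU
    have hne : ∀ z ∈ closure U, z - c ≠ 0 := by
      intro z hz h
      have h1 := hfar z ((closure_le hz).1 q₀ hq)
      rw [dist_eq_norm, h, norm_zero] at h1
      linarith
    have hK : DiffContOnCl ℂ (fun z => F z ^ m / (z - c)) U := by
      refine DifferentiableOn.diffContOnCl ?_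
      exact ((hFd.mono (hsub R)).pow m).div
        ((differentiableOn_id).sub (differentiableOn_const _)) hne
    have hbd : ∀ z ∈ frontier U, ‖F z ^ m / (z - c)‖ ≤
        X ^ m / d₀ + |B| ^ m / (R - dist c ctr) := by
      intro z hz
      have hcl := frontier_subset_closure hz
      rw [norm_div, norm_pow, ← dist_eq_norm z c]
      have p1 : 0 ≤ X ^ m / d₀ := by positivity
      have p2 : 0 < R - dist c ctr := by linarith
      have p3 : 0 ≤ |B| ^ m / (R - dist c ctr) := by positivity
      rcases frontier_sub hz with h | h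
      · have h1 := hX z h
        have h2 := hfar z ((closure_le hcl).1 q₀ hq)
        have h3 : ‖F z‖ ^ m / dist z c ≤ X ^ m / d₀ := by
          gcongr
        linarith
      · have h1 : ‖F z‖ ≤ |B| := (hB z (by linarith)).trans (le_abs_self B)
        have h2 : R - dist c ctr ≤ dist z c := by
          have := dist_triangle z c ctr
          linarith
        have h3 : ‖F z‖ ^ m / dist z c ≤ |B| ^ m / (R - dist c ctr) := by
          gcongr
        linarith
    have hzU : z₀ ∈ closure U := subset_closure ⟨hz₀, mem_ball.2 (by linarith)⟩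
    have hb : Bornology.IsBounded U := isBounded_ball.subset inter_subset_right
    have h1 := Complex.norm_le_of_forall_mem_frontier_norm_le hb hK hbd hzU
    rw [norm_div, norm_pow, ← dist_eq_norm z₀ c, div_le_iff₀ hz₀c] at h1
    linarith
  have hlim : ∀ m : ℕ, ‖F z₀‖ ^ m ≤ dist z₀ c * (X ^ m / d₀) := by
    intro m
    have ht : Tendsto (fun R : ℝ => dist z₀ c * (X ^ m / d₀ + |B| ^ m / (R - dist c ctr))) atTop
        (𝓝 (dist z₀ c * (X ^ m / d₀ + 0))) := by
      refine Tendsto.const_mul _ (Tendsto.const_add _ ?_)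
      exact Tendsto.const_div_atTop (tendsto_atTop_add_const_right _ _ tendsto_id) _
    rw [add_zero] at ht
    refine ge_of_tendsto ht ?_
    filter_upwards [eventually_ge_atTop (R₀ + 1), eventually_ge_atTop (dist z₀ ctr + 1),
      eventually_ge_atTop (dist c ctr + 1)] with R h1 h2 h3
    exact hmain m R h1 h2 h3
  by_contra hlt
  rw [not_le] at hlt
  rcases hX0.eq_or_lt with h0 | h0
  · have := hlim 1
    rw [← h0] at this hlt
    simp at this
    rw [this, norm_zero] at hlt
    exact lt_irrefl _ hlt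
  · have h1 : 1 < ‖F z₀‖ / X := by
      rw [lt_div_iff₀ h0]
      linarith
    obtain ⟨m, hm⟩ := pow_unbounded_of_one_lt (dist z₀ c / d₀) h1
    have h2 := hlim m
    rw [div_pow, lt_div_iff₀ (by positivity)] at hm
    have h3 : dist z₀ c * (X ^ m / d₀) = dist z₀ c / d₀ * X ^ m := by ring
    linarith

end Pool.Agent.CorA
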