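import Pool.Agent.CorA.Targets

/-!
# CorA, target NCS: the total size of the nodes with large oscillation
-/

set_option autoImplicit false

namespace Pool.Agent.CorA

open Complex Metric Set Filter Topology MeasureTheory
open Pool.Corona91698f Pool.Agent.CorE
open scoped Real BoundedContinuousFunction

namespace NCS_

theorem sum_wd_lv (n : ℕ) (F : List D → ℝ) :
    ∑ x ∈ wd n, F x = ∑ k ∈ Finset.range (n + 1), ∑ x ∈ lv k, F x := by
  have h : ∀ i ∈ wd n, List.length i ∈ Finset.range (n + 1) := fun i hi => by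
    rw [Finset.mem_range]
    have := mem_wd.1 hi
    omega
  rw [← Finset.sum_fiberwise_of_maps_to h F]
  refine Finset.sum_congr rfl fun k hk => ?_
  refine Finset.sum_congr ?_ fun _ _ => rfl
  ext x
  rw [Finset.mem_filter, mem_wd, mem_lv]
  rw [Finset.mem_range] at hk
  constructor
  · exact fun h => h.2
  · exact fun h => ⟨by omega, h⟩

/-- the trivial bound -/
theorem SN_le {n N : ℕ} {f : Fin n → ℂ → ℂ} {h : Fin n → Fin n → ℂ → ℂ} {a : List D → ℝ}
    {C₀ : ℝ} (hN : 1 ≤ N) (hH : HD n N h a C₀) (ε : ℝ) : SN N f a ε ≤ C₀ * N := by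
  classical
  unfold SN
  have h1 : ∑ u ∈ (wd (N - 1)).filter (fun u => NC f ε u), a u ≤ ∑ u ∈ wd (N - 1), a u :=
    Finset.sum_le_sum_of_subset_of_nonneg (Finset.filter_subset _ _) fun u _ _ => hH.nn u
  refine le_trans (by convert h1) ?_
  rw [sum_wd_lv]
  have h2 : ∑ k ∈ Finset.range (N - 1 + 1), ∑ x ∈ lv k, a x ≤
      ∑ k ∈ Finset.range (N - 1 + 1), C₀ := by
    refine Finset.sum_le_sum fun k hk => hH.lev k ?_
    rw [Finset.mem_range] at hk
    omega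
  refine h2.trans ?_
  rw [Finset.sum_const, Finset.card_range, nsmul_eq_mul, Nat.sub_add_cancel hN, mul_comm]

/-- the iteration -/
theorem iter (C : ℝ) (hC : 1 ≤ C) (i : ℕ) : ∃ A : ℝ, 1 ≤ A ∧ ∀ (S : ℝ → ℝ) (L M K : ℝ),
    1 ≤ K → 0 ≤ L → 0 ≤ M → (∀ ε, 0 < ε → ε ≤ 1 → S ε ≤ M) →
    (∀ ε, 0 < ε → ε ≤ 1 → S ε ≤ C * (K / ε) ^ C * L + 5 / K * S (ε ^ C / C)) →
    ∀ ε, 0 < ε → ε ≤ 1 → S ε ≤ A * (1 / ε) ^ A * K ^ C * L + (5 / K) ^ i * M := by
  induction i with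
  | zero =>
    refine ⟨1, le_rfl, fun S L M K hK hL hM h1 _ ε he he1 => ?_⟩
    have h2 : 0 ≤ 1 * (1 / ε) ^ (1 : ℝ) * K ^ C * L := by
      have : (0 : ℝ) ≤ K := by linarith
      positivity
    have h3 := h1 ε he he1
    simp only [pow_zero, one_mul] at h2 ⊢
    linarith
  | succ i ih =>
    obtain ⟨A, hA, ih⟩ := ih
    have hC0 : 0 < C := by linarith
    have hCA : 0 < C ^ A := Real.rpow_pos_of_pos hC0 A
    have hCA1 : 1 ≤ C ^ A := Real.one_le_rpow hC (by linarith)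
    have hAp : 0 < A := by linarith
    have q1 : 0 < 5 * A * C ^ A := by positivity
    have q2 : 0 < C * A := by positivity
    refine ⟨C + 5 * A * C ^ A + C * A, by linarith,
      fun S L M K hK hL hM h1 h2 ε he he1 => ?_⟩
    have hK0 : 0 < K := by linarith
    have he' : 0 < ε ^ C / C := by positivity
    have he1' : ε ^ C / C ≤ 1 := by
      rw [div_le_one hC0]
      exact (Real.rpow_le_one he.le he1 hC0.le).trans hC
    have h3 := ih S L M K hK hL hM h1 h2 (ε ^ C / C) he' he1'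
    have h4 := h2 ε he he1
    have hx : 1 ≤ 1 / ε := by rw [le_div_iff₀ he]; linarith
    have hx0 : 0 < 1 / ε := by positivity
    set x := 1 / ε with hxd
    set A' := C + 5 * A * C ^ A + C * A with hA'
    have h5 : (K / ε) ^ C = K ^ C * x ^ C := by
      rw [div_eq_mul_one_div, Real.mul_rpow hK0.le hx0.le]
    have h6 : (1 / (ε ^ C / C)) ^ A = C ^ A * x ^ (C * A) := by
      have h7 : 1 / (ε ^ C / C) = C * x ^ C := by
        rw [hxd, Real.div_rpow zero_le_one he.le, Real.one_rpow]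
        field_simp
      rw [h7, Real.mul_rpow hC0.le (by positivity), ← Real.rpow_mul hx0.le]
    rw [h5] at h4
    rw [h6] at h3
    have e1 : x ^ C ≤ x ^ A' := by
      refine Real.rpow_le_rpow_of_exponent_le hx ?_
      have : 0 < 5 * A * C ^ A := by positivity
      have : 0 < C * A := by positivity
      linarith
    have e2 : x ^ (C * A) ≤ x ^ A' := by
      refine Real.rpow_le_rpow_of_exponent_le hx ?_
      have : 0 < 5 * A * C ^ A := by positivity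
      linarith
    have hKC : 0 ≤ K ^ C := by positivity
    have h5K : 5 / K ≤ 5 := by
      rw [div_le_iff₀ hK0]; linarith
    have h5K0 : 0 ≤ 5 / K := by positivity
    have f1 : C * (K ^ C * x ^ C) * L ≤ C * (K ^ C * x ^ A') * L := by gcongr
    have f2 : 5 / K * S (ε ^ C / C) ≤
        5 * (A * (C ^ A * x ^ A') * K ^ C * L) + (5 / K) ^ (i + 1) * M := by
      calc 5 / K * S (ε ^ C / C)
          ≤ 5 / K * (A * (C ^ A * x ^ (C * A)) * K ^ C * L + (5 / K) ^ i * M) := by gcongr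
        _ = 5 / K * (A * (C ^ A * x ^ (C * A)) * K ^ C * L) + (5 / K) ^ (i + 1) * M := by ring
        _ ≤ 5 * (A * (C ^ A * x ^ A') * K ^ C * L) + (5 / K) ^ (i + 1) * M := by gcongr
    have f3 : C * (K ^ C * x ^ A') * L + 5 * (A * (C ^ A * x ^ A') * K ^ C * L) ≤
        A' * x ^ A' * K ^ C * L := by
      have : 0 ≤ C * A * (x ^ A' * K ^ C * L) := by positivity
      have e : A' * x ^ A' * K ^ C * L = C * (K ^ C * x ^ A') * L +
        5 * (A * (C ^ A * x ^ A') * K ^ C * L) + C * A * (x ^ A' * K ^ C * L) := by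
        rw [hA']; ring
      rw [e]
      linarith
    linarith

end NCS_

open NCS_ in
theorem p_NCS (hNC4 : T_NC4) : T_NCS := by
  intro n C₀ γ hC₀ hγ
  obtain ⟨C, hC, h4⟩ := hNC4 n C₀ hC₀
  have hC0 : 0 < C := by linarith
  obtain ⟨i, hi⟩ := exists_nat_gt (C / (γ / 2))
  have hi0 : (0 : ℝ) < i := lt_trans (by positivity) hi
  have hCi : C / i ≤ γ / 2 := by
    rw [div_le_iff₀ hi0]
    rw [div_lt_iff₀ (by positivity)] at hi
    linarith
  obtain ⟨A, hA, hit⟩ := iter C hC i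
  have h5i : (0 : ℝ) < 5 ^ i := by positivity
  refine ⟨A * (1 + 2 / γ) + 5 ^ i * C₀ + A, ?_, ?_⟩
  · have : 0 < A * (1 + 2 / γ) := by positivity
    have : 0 < 5 ^ i * C₀ := by positivity
    linarith
  intro N δ ε f h a hN hD hH he he1
  have hN1 : (1 : ℝ) ≤ N := by exact_mod_cast hN
  have hN0 : (0 : ℝ) < N := by linarith
  set K : ℝ := (N : ℝ) ^ (1 / (i : ℝ)) with hK
  have hK1 : 1 ≤ K := Real.one_le_rpow hN1 (by positivity)
  have hlog : 0 ≤ Real.log N := Real.log_nonneg hN1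
  have h1 := hit (SN N f a) (1 + Real.log N) (C₀ * N) K hK1 (by linarith) (by positivity)
    (fun ε _ _ => SN_le hN hH ε)
    (fun ε he he1 => h4 N δ ε K f h a hN hD hH he he1 hK1) ε he he1
  have hKC : K ^ C ≤ (N : ℝ) ^ (γ / 2) := by
    rw [hK, ← Real.rpow_mul hN0.le]
    refine Real.rpow_le_rpow_of_exponent_le hN1 ?_
    rw [one_div_mul_eq_div]
    exact hCi
  have hKi : K ^ i = N := by
    rw [hK, ← Real.rpow_natCast, ← Real.rpow_mul hN0.le, one_div_mul_cancel hi0.ne',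
      Real.rpow_one]
  have h5 : (5 / K) ^ i * (C₀ * N) = 5 ^ i * C₀ := by
    rw [div_pow, hKi]
    field_simp
  have hNg : (1 : ℝ) ≤ (N : ℝ) ^ (γ / 2) := Real.one_le_rpow hN1 (by positivity)
  have hL : 1 + Real.log N ≤ (1 + 2 / γ) * (N : ℝ) ^ (γ / 2) := by
    have h6 := Real.log_le_rpow_div hN0.le (show 0 < γ / 2 by positivity)
    have h7 : (N : ℝ) ^ (γ / 2) / (γ / 2) = 2 / γ * (N : ℝ) ^ (γ / 2) := by
      field_simp
    rw [h7] at h6
    linarith
  rw [h5] at h1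
  have hx : 1 ≤ 1 / ε := by rw [le_div_iff₀ he]; linarith
  set C' := A * (1 + 2 / γ) + 5 ^ i * C₀ + A with hC'
  have g1 : 0 < A * (1 + 2 / γ) := by positivity
  have g2 : 0 < 5 ^ i * C₀ := by positivity
  have e1 : (1 / ε) ^ A ≤ (1 / ε) ^ C' :=
    Real.rpow_le_rpow_of_exponent_le hx (by linarith)
  have e2 : (1 : ℝ) ≤ (1 / ε) ^ C' := Real.one_le_rpow hx (by linarith)
  have hNN : (N : ℝ) ^ (γ / 2) * (N : ℝ) ^ (γ / 2) = (N : ℝ) ^ γ := by
    rw [← Real.rpow_add hN0]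
    congr 1
    ring
  have hNγ : (1 : ℝ) ≤ (N : ℝ) ^ γ := Real.one_le_rpow hN1 hγ.le
  have hA0 : 0 < A := by linarith
  have h8 : A * (1 / ε) ^ A * K ^ C * (1 + Real.log N) ≤
      A * (1 + 2 / γ) * ((1 / ε) ^ C' * (N : ℝ) ^ γ) := by
    have hKC0 : 0 ≤ K ^ C := by positivity
    calc A * (1 / ε) ^ A * K ^ C * (1 + Real.log N)
        ≤ A * (1 / ε) ^ C' * (N : ℝ) ^ (γ / 2) * ((1 + 2 / γ) * (N : ℝ) ^ (γ / 2)) := by
          gcongr
      _ = A * (1 + 2 / γ) * ((1 / ε) ^ C' * ((N : ℝ) ^ (γ / 2) * (N : ℝ) ^ (γ / 2))) := by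
          ring
      _ = A * (1 + 2 / γ) * ((1 / ε) ^ C' * (N : ℝ) ^ γ) := by rw [hNN]
  have h9 : 5 ^ i * C₀ ≤ 5 ^ i * C₀ * ((1 / ε) ^ C' * (N : ℝ) ^ γ) := by
    have : (1 : ℝ) ≤ (1 / ε) ^ C' * (N : ℝ) ^ γ := one_le_mul_of_one_le_of_one_le e2 hNγ
    nlinarith
  have h10 : 0 ≤ A * ((1 / ε) ^ C' * (N : ℝ) ^ γ) := by positivity
  have h11 : C' * (1 / ε) ^ C' * (N : ℝ) ^ γ = A * (1 + 2 / γ) * ((1 / ε) ^ C' * (N : ℝ) ^ γ) +
      5 ^ i * C₀ * ((1 / ε) ^ C' * (N : ℝ) ^ γ) + A * ((1 / ε) ^ C' * (N : ℝ) ^ γ) := by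
    rw [hC']; ring
  rw [h11]
  linarith

end Pool.Agent.CorA
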