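import Pool.Agent.CorA.Targets

/-!
# ALB: the pairing formula, telescoping over the tree
-/

set_option autoImplicit false

namespace Pool.Agent.CorA

open Complex Metric Set Filter Topology MeasureTheory
open Pool.Corona91698f Pool.Agent.CorE
open scoped Real BoundedContinuousFunction

namespace PAI_

/-! ### geometry -/

/-- the circle of a word -/
def ci (u : List D) : Set ℂ := sphere (cc u) (77 / 100 * (1 / 3) ^ u.length)

theorem rad (u : List D) : (0 : ℝ) ≤ 77 / 100 * (1 / 3) ^ u.length := by positivity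

theorem ci_dist {u : List D} {z : ℂ} (hz : z ∈ ci u) : dist (Psi u z) ctr = 77 / 100 := by
  have h1 : dist z (cc u) = 77 / 100 * (1 / 3) ^ u.length := hz
  have h2 := dist_Psi u z (cc u)
  have h4 : Psi u (cc u) = ctr := Psi_Phi u ctr
  rw [h4] at h2
  have h3 : (3 : ℝ) ^ u.length * (1 / 3) ^ u.length = 1 := by
    rw [← mul_pow]
    norm_num
  rw [h2, h1]
  linear_combination (77 / 100) * h3

theorem ci_Nd {u : List D} {z : ℂ} (hz : z ∈ ci u) : z ∈ Nd (some u) := by
  have h := ci_dist hz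
  refine ⟨by linarith, fun d => ?_⟩
  have := dist_psi_ge d (Psi u z)
  linarith

theorem ci_par {u : List D} {z : ℂ} (hz : z ∈ ci u) : z ∈ Nd (par u) := by
  have h := ci_dist hz
  rcases List.eq_nil_or_concat u with rfl | ⟨p, d, h₀⟩
  · rw [par_nil]
    show 76 / 100 < dist z ctr
    rw [Psi_nil] at h
    linarith
  · rw [List.concat_eq_append] at h₀
    subst h₀
    rw [par_snoc]
    rw [Psi_snoc] at h
    have h1 := dist_le_of_psi d (Psi p z)
    refine ⟨by linarith, fun d' => ?_⟩
    by_cases hdd : d' = d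
    · rw [hdd]
      linarith
    · have := other_far hdd (show dist (psi d (Psi p z)) ctr < 1 by linarith)
      rw [phi_psi] at this
      linarith

theorem Nd_Om {N : ℕ} {p : List D} (hp : p.length < N) {z : ℂ} (hz : z ∈ Nd (some p)) :
    z ∈ OmR (73 / 100) N := by
  intro q hq
  have h1 : ¬ anc (some p) q := by
    intro h
    have h2 : q <+: p := h
    have h3 := h2.length_le
    rw [mem_lv.1 hq] at h3
    omega
  have := Nd_not_anc hz h1
  linarith

theorem Ndn_Om {N : ℕ} {z : ℂ} (hz : z ∈ Nd none) : z ∈ OmR (73 / 100) N := by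
  intro q _
  have h1 : ¬ anc none q := fun h => h
  have := Nd_not_anc hz h1
  linarith

theorem ci_Om {N : ℕ} {u : List D} (hu : u.length ≤ N) {z : ℂ} (hz : z ∈ ci u) :
    z ∈ OmR (73 / 100) N := by
  intro q hq
  by_cases h : q <+: u
  · have h1 : q = u := h.eq_of_length (le_antisymm h.length_le (by rw [mem_lv.1 hq]; exact hu))
    rw [h1, ci_dist hz]
    norm_num
  · have := Nd_not_anc (ci_Nd hz) (v := q) h
    linarith

theorem uniq {N : ℕ} {q q' : List D} {z : ℂ} (hq : q ∈ lv N) (hq' : q' ∈ lv N)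
    (h : dist (Psi q z) ctr ≤ 78 / 100) (h' : dist (Psi q' z) ctr ≤ 78 / 100) : q = q' := by
  rcases chain h h' with hc | hc
  · exact hc.eq_of_length (by rw [mem_lv.1 hq, mem_lv.1 hq'])
  · exact (hc.eq_of_length (by rw [mem_lv.1 hq, mem_lv.1 hq'])).symm

theorem Gm_Om {N : ℕ} {z : ℂ} (hz : z ∈ Gm N) : z ∈ OmR (727 / 1000) N := by
  obtain ⟨q, hq, hz⟩ := hz
  intro q' hq'
  by_contra hle
  push Not at hle
  have h1 := uniq (z := z) hq hq' (by rw [hz]; norm_num) (by linarith)
  subst h1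
  linarith

theorem st_Nd {q : List D} {z : ℂ} (h : 727 / 1000 < dist (Psi q z) ctr)
    (h' : dist (Psi q z) ctr < 78 / 100) : z ∈ Nd (some q) := by
  refine ⟨h', fun d => ?_⟩
  have := dist_psi_ge d (Psi q z)
  linarith

theorem Gm_Nd {q : List D} {z : ℂ} (h : dist (Psi q z) ctr = 73 / 100) : z ∈ Nd (some q) :=
  st_Nd (by rw [h]; norm_num) (by rw [h]; norm_num)

theorem Gm_notMem {N : ℕ} {z : ℂ} (hz : z ∈ Gm N) : z ∈ squareCantorᶜ := by
  obtain ⟨q, _, hz⟩ := hz
  exact Nd_notMem (Gm_Nd hz)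

theorem isCompact_Gm (N : ℕ) : IsCompact (Gm N) := by
  have h : Gm N = ⋃ q ∈ lv N, Phi q '' sphere ctr (73 / 100) := by
    ext z
    constructor
    · rintro ⟨q, hq, hz⟩
      exact mem_iUnion₂.2 ⟨q, hq, Psi q z, hz, Phi_Psi q z⟩
    · intro hz
      obtain ⟨q, hq, y, hy, rfl⟩ := mem_iUnion₂.1 hz
      refine ⟨q, hq, ?_⟩
      rw [Psi_Phi]
      exact hy
  rw [h]
  exact Finset.isCompact_biUnion (lv N) fun q _ =>
    (isCompact_sphere _ _).image (differentiable_Phi q).continuous

/-! ### bounded continuous functions on the circles -/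

/-- a function which is continuous on the circles -/
noncomputable def mk {N : ℕ} (φ : ℂ → ℂ) (hφ : ContinuousOn φ (Gm N)) : Gm N →ᵇ ℂ :=
  haveI := isCompact_iff_compactSpace.1 (isCompact_Gm N)
  BoundedContinuousFunction.mkOfCompact ⟨(Gm N).domRestrict φ, hφ.domRestrict⟩

theorem mk_apply {N : ℕ} (φ : ℂ → ℂ) (hφ : ContinuousOn φ (Gm N)) (z : Gm N) :
    mk φ hφ z = φ z := rfl

/-- a function given by a family on the circles -/
noncomputable def pw (N : ℕ) (φ : List D → ℂ → ℂ) (z : ℂ) : ℂ :=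
  ∑ q ∈ lv N, if dist (Psi q z) ctr = 73 / 100 then φ q z else 0

theorem pw_eq {N : ℕ} {φ : List D → ℂ → ℂ} {q : List D} {z : ℂ} (hq : q ∈ lv N)
    (hz : dist (Psi q z) ctr = 73 / 100) : pw N φ z = φ q z := by
  unfold pw
  rw [Finset.sum_eq_single q]
  · rw [if_pos hz]
  · intro q' hq' hne
    rw [if_neg]
    intro h
    exact hne (uniq hq' hq (by rw [h]; norm_num) (by rw [hz]; norm_num))
  · intro h
    exact absurd hq h

theorem pw_cont {N : ℕ} {φ : List D → ℂ → ℂ}
    (h : ∀ q ∈ lv N, ∀ z, dist (Psi q z) ctr = 73 / 100 → ContinuousAt (φ q) z) :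
    ContinuousOn (pw N φ) (Gm N) := by
  rintro z ⟨q, hq, hz⟩
  have hev : pw N φ =ᶠ[𝓝[Gm N] z] φ q := by
    have ho : {w | dist (Psi q w) ctr < 78 / 100} ∈ 𝓝 z := by
      refine (isOpen_lt ((differentiable_Psi q).continuous.dist continuous_const)
        continuous_const).mem_nhds ?_
      show dist (Psi q z) ctr < 78 / 100
      rw [hz]
      norm_num
    filter_upwards [mem_nhdsWithin_of_mem_nhds ho, self_mem_nhdsWithin] with w hw hwG
    obtain ⟨q', hq', hw'⟩ := hwG
    have h1 := uniq hq' hq (by rw [hw']; norm_num) (le_of_lt hw)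
    subst h1
    exact pw_eq hq' hw'
  exact (h q hq z hz).continuousWithinAt.congr_of_eventuallyEq hev (pw_eq hq hz)

/-- antisymmetrisation -/
theorem comb {n N : ℕ} (L : Fin n → (Gm N →ᵇ ℂ) →L[ℂ] ℂ)
    (M : Fin n → Fin n → (Gm N →ᵇ ℂ) →L[ℂ] ℂ) (F : Fin n → (Gm N →ᵇ ℂ))
    (hM : ∀ i j φ, M i j φ = L i (F j * φ) - L j (F i * φ))
    (φ : Fin n → Fin n → (Gm N →ᵇ ℂ)) (hφ : ∀ i j, φ j i = - φ i j) :
    ∑ i, ∑ j, L i (F j * φ i j) = (1 / 2) * ∑ i, ∑ j, M i j (φ i j) := by
  have h1 : ∑ i, ∑ j, M i j (φ i j) =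
      ∑ i, ∑ j, L i (F j * φ i j) - ∑ i, ∑ j, L j (F i * φ i j) := by
    simp only [hM, Finset.sum_sub_distrib]
  have h2 : ∑ i, ∑ j, L j (F i * φ i j) = - ∑ i, ∑ j, L i (F j * φ i j) := by
    rw [Finset.sum_comm, ← Finset.sum_neg_distrib]
    refine Finset.sum_congr rfl fun i _ => ?_
    rw [← Finset.sum_neg_distrib]
    refine Finset.sum_congr rfl fun j _ => ?_
    rw [hφ i j, mul_neg, map_neg]
  rw [h1, h2]
  ring

/-! ### contour means -/

theorem cm_congr {u : List D} {a b : ℂ → ℂ} (h : ∀ z ∈ ci u, a z = b z) : cm u a = cm u b := by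
  unfold cm
  rw [circleIntegral.integral_congr (rad u) h]

theorem cm_add {u : List D} {a b : ℂ → ℂ} (ha : ContinuousOn a (ci u))
    (hb : ContinuousOn b (ci u)) : cm u (fun z => a z + b z) = cm u a + cm u b := by
  unfold cm
  rw [circleIntegral.integral_add (ha.circleIntegrable (rad u)) (hb.circleIntegrable (rad u)),
    mul_add]

theorem cm_sum {ι : Type} {u : List D} (s : Finset ι) {a : ι → ℂ → ℂ}
    (ha : ∀ i ∈ s, ContinuousOn (a i) (ci u)) :
    cm u (fun z => ∑ i ∈ s, a i z) = ∑ i ∈ s, cm u (a i) := by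
  unfold cm
  rw [circleIntegral.integral_fun_sum fun i hi => (ha i hi).circleIntegrable (rad u),
    Finset.mul_sum]

theorem cm_const_mul (u : List D) (a : ℂ) (f : ℂ → ℂ) : cm u (fun z => a * f z) = a * cm u f := by
  unfold cm
  rw [circleIntegral.integral_const_mul]
  ring

theorem cm_inf {H : ℂ → ℂ} (hd : DifferentiableOn ℂ H {z | 76 / 100 < dist z ctr}) {K R : ℝ}
    (hb : ∀ z, R < dist z ctr → ‖H z‖ ≤ K / dist z ctr ^ 2) : cm [] H = 0 := by
  have hop : IsOpen {z | 76 / 100 < dist z ctr} :=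
    isOpen_lt continuous_const (continuous_id.dist continuous_const)
  have hda : ∀ z, 76 / 100 < dist z ctr → DifferentiableAt ℂ H z := fun z hz =>
    hd.differentiableAt (hop.mem_nhds hz)
  have h1 : ∀ ρ : ℝ, 77 / 100 ≤ ρ → (∮ z in C(ctr, ρ), H z) = ∮ z in C(ctr, 77 / 100), H z := by
    intro ρ hρ
    refine circleIntegral_eq_of_differentiable_on_annulus_off_countable (by norm_num) hρ
      countable_empty (fun z hz => ?_) (fun z hz => ?_)
    · have h2 : 77 / 100 ≤ dist z ctr := not_lt.1 fun h => hz.2 h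
      exact (hda z (by linarith)).continuousAt.continuousWithinAt
    · have h2 : 77 / 100 < dist z ctr := not_le.1 fun h => hz.1.2 h
      exact hda z (by linarith)
  have h2 : ‖∮ z in C(ctr, 77 / 100), H z‖ ≤ 0 := by
    have ht : Tendsto (fun ρ : ℝ => 2 * π * K / ρ) atTop (𝓝 0) :=
      tendsto_const_nhds.div_atTop tendsto_id
    refine ge_of_tendsto ht ?_
    filter_upwards [eventually_gt_atTop R, eventually_ge_atTop 1] with ρ hρR hρ1
    rw [← h1 ρ (by linarith)]
    have h3 : ∀ z ∈ sphere ctr ρ, ‖H z‖ ≤ K / ρ ^ 2 := by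
      intro z hz
      have h4 : dist z ctr = ρ := hz
      have h5 := hb z (by rw [h4]; exact hρR)
      rwa [h4] at h5
    refine (circleIntegral.norm_integral_le_of_norm_le_const (by linarith) h3).trans ?_
    have hρ0 : ρ ≠ 0 := by linarith
    apply le_of_eq
    field_simp
  have h3 : (∮ z in C(ctr, 77 / 100), H z) = 0 := norm_le_zero_iff.1 h2
  unfold cm
  have h4 : (77 / 100 * (1 / 3) ^ ([] : List D).length : ℝ) = 77 / 100 := by
    simp
  have h5 : cc [] = ctr := rfl
  rw [h4, h5, h3, mul_zero]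

/-! ### sums over words -/

theorem sum_lv_snoc (k : ℕ) (F : List D → ℂ) :
    ∑ x ∈ lv (k + 1), F x = ∑ x ∈ lv k, ∑ d : D, F (x ++ [d]) := by
  rw [← Finset.sum_product']
  symm
  refine Finset.sum_bij (fun x _ => x.1 ++ [x.2]) ?_ ?_ ?_ ?_
  · intro x hx
    rw [Finset.mem_product, mem_lv] at hx
    rw [mem_lv, List.length_append, hx.1]
    rfl
  · intro x _ y _ hxy
    have h1 := List.append_inj' hxy rfl
    exact Prod.ext h1.1 (List.cons.inj h1.2).1
  · intro u hu
    rw [mem_lv] at hu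
    rcases List.eq_nil_or_concat u with rfl | ⟨p, d, h₀⟩
    · simp at hu
    · rw [List.concat_eq_append] at h₀
      subst h₀
      refine ⟨(p, d), ?_, rfl⟩
      rw [Finset.mem_product, mem_lv]
      refine ⟨?_, Finset.mem_univ _⟩
      rw [List.length_append, List.length_singleton] at hu
      show p.length = k
      omega
  · intro x _
    rfl

theorem sum_wd_succ (k : ℕ) (F : List D → ℂ) :
    ∑ x ∈ wd (k + 1), F x = ∑ x ∈ wd k, F x + ∑ x ∈ lv (k + 1), F x := by
  have h : wd (k + 1) = wd k ∪ lv (k + 1) := by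
    ext u
    rw [Finset.mem_union, mem_wd, mem_wd, mem_lv]
    omega
  rw [h, Finset.sum_union]
  rw [Finset.disjoint_left]
  intro u h1 h2
  rw [mem_wd] at h1
  rw [mem_lv] at h2
  omega

/-- telescoping over the tree -/
theorem tele {N : ℕ} (hADD : T_ADD) (S : Option (List D) → ℂ → ℂ) (H : ℂ → ℂ)
    (w : List D → ℂ → ℂ) (hS : ∀ R, DifferentiableOn ℂ (S R) (Nd R))
    (hH : DifferentiableOn ℂ H (OmR (73 / 100) N))
    (hw : ∀ u : List D, u.length ≤ N → ∀ z ∈ Nd (par u), z ∈ Nd (some u) →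
      S (some u) z - S (par u) z = w u z)
    (hwc : ∀ u : List D, u.length ≤ N → ContinuousOn (w u) (ci u))
    (h0 : cm [] (fun z => S none z * H z) = 0) : ∀ l, l ≤ N →
    ∑ u ∈ lv l, cm u (fun z => S (some u) z * H z) = ∑ u ∈ wd l, cm u (fun z => w u z * H z) := by
  have hHc : ∀ u : List D, u.length ≤ N → ContinuousOn H (ci u) := fun u hu =>
    hH.continuousOn.mono fun z hz => ci_Om hu hz
  have split : ∀ u : List D, u.length ≤ N → cm u (fun z => S (some u) z * H z) =
      cm u (fun z => w u z * H z) + cm u (fun z => S (par u) z * H z) := by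
    intro u hu
    rw [← cm_add (a := fun z => w u z * H z) (b := fun z => S (par u) z * H z)
      ((hwc u hu).mul (hHc u hu))
      (((hS (par u)).continuousOn.mono fun z hz => ci_par hz).mul (hHc u hu))]
    refine cm_congr fun z hz => ?_
    have h1 := hw u hu z (ci_par hz) (ci_Nd hz)
    linear_combination H z * h1
  intro l
  induction l with
  | zero =>
    intro _
    show ∑ u ∈ ({[]} : Finset (List D)), cm u (fun z => S (some u) z * H z) =
      ∑ u ∈ ({[]} : Finset (List D)), cm u (fun z => w u z * H z)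
    rw [Finset.sum_singleton, Finset.sum_singleton, split [] (Nat.zero_le _), par_nil, h0,
      add_zero]
  | succ l ih =>
    intro hl
    rw [sum_wd_succ, ← ih (by omega), sum_lv_snoc, sum_lv_snoc, ← Finset.sum_add_distrib]
    refine Finset.sum_congr rfl fun p hp => ?_
    have hp' : p.length < N := by
      rw [mem_lv.1 hp]
      omega
    have h1 : DifferentiableOn ℂ (fun z => S (some p) z * H z) (Nd (some p)) :=
      (hS (some p)).mul (hH.mono fun z hz => Nd_Om hp' hz)
    rw [hADD p _ h1, ← Finset.sum_add_distrib]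
    refine Finset.sum_congr rfl fun d _ => ?_
    rw [split (p ++ [d]) (by rw [List.length_append, List.length_singleton]; omega), par_snoc,
      add_comm]

theorem isA_mul {N : ℕ} {a b : ℂ → ℂ} (ha : IsA N a) (hb : IsA N b) :
    IsA N (fun z => a z * b z) := by
  obtain ⟨h1, A, R, h2⟩ := ha
  obtain ⟨h3, A', R', h4⟩ := hb
  refine ⟨h1.mul h3, A * A', max R R', fun z hz => ?_⟩
  have h5 := h2 z (lt_of_le_of_lt (le_max_left _ _) hz)
  have h6 := h4 z (lt_of_le_of_lt (le_max_right _ _) hz)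
  rw [norm_mul]
  exact mul_le_mul h5 h6 (norm_nonneg _) ((norm_nonneg _).trans h5)

theorem isA_sub {N : ℕ} {a b : ℂ → ℂ} (ha : IsA N a) (hb : IsA N b) :
    IsA N (fun z => a z - b z) := by
  obtain ⟨h1, A, R, h2⟩ := ha
  obtain ⟨h3, A', R', h4⟩ := hb
  refine ⟨h1.sub h3, A + A', max R R', fun z hz => ?_⟩
  have h5 := h2 z (lt_of_le_of_lt (le_max_left _ _) hz)
  have h6 := h4 z (lt_of_le_of_lt (le_max_right _ _) hz)
  exact (norm_sub_le _ _).trans (add_le_add h5 h6)

/-- the sum of the pairings over one word -/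
theorem pair_sum {n N : ℕ} {h : Fin n → Fin n → ℂ → ℂ} {g : Option (List D) → Fin n → ℂ → ℂ}
    (hh : ∀ i j, DifferentiableOn ℂ (h i j) (OmR (73 / 100) N))
    (ha : ∀ i j, ∀ z ∈ OmR (73 / 100) N, h j i z = - h i j z)
    (hg : ∀ R i, DifferentiableOn ℂ (g R i) (NR R)) {u : List D} (hu : u.length ≤ N) :
    ∑ i, ∑ j, cm u (fun z => (g (some u) i z * g (par u) j z -
      g (some u) j z * g (par u) i z) * h i j z) = 2 * cm u (BB g h u) := by
  have c1 : ∀ i, ContinuousOn (g (some u) i) (ci u) := fun i =>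
    (hg _ i).continuousOn.mono fun z hz => Nd_subset_NR _ (ci_Nd hz)
  have c2 : ∀ i, ContinuousOn (g (par u) i) (ci u) := fun i =>
    (hg _ i).continuousOn.mono fun z hz => Nd_subset_NR _ (ci_par hz)
  have c3 : ∀ i j, ContinuousOn (h i j) (ci u) := fun i j =>
    (hh i j).continuousOn.mono fun z hz => ci_Om hu hz
  have c4 : ∀ i j, ContinuousOn (fun z => (g (some u) i z * g (par u) j z -
      g (some u) j z * g (par u) i z) * h i j z) (ci u) := fun i j =>
    (((c1 i).mul (c2 j)).sub ((c1 j).mul (c2 i))).mul (c3 i j)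
  have e1 : ∀ i, ∑ j, cm u (fun z => (g (some u) i z * g (par u) j z -
      g (some u) j z * g (par u) i z) * h i j z) =
      cm u (fun z => ∑ j, (g (some u) i z * g (par u) j z -
        g (some u) j z * g (par u) i z) * h i j z) := fun i =>
    (cm_sum Finset.univ fun j _ => c4 i j).symm
  rw [Finset.sum_congr rfl fun i _ => e1 i]
  rw [← cm_sum Finset.univ (a := fun i z => ∑ j, (g (some u) i z * g (par u) j z -
        g (some u) j z * g (par u) i z) * h i j z)
    (fun i _ => continuousOn_finsetSum _ fun j _ => c4 i j)]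
  rw [← cm_const_mul]
  refine cm_congr fun z hz => ?_
  have hz' := ci_Om hu hz
  have s1 : ∑ i, ∑ j, (g (some u) i z * g (par u) j z -
      g (some u) j z * g (par u) i z) * h i j z =
      ∑ i, ∑ j, g (some u) i z * g (par u) j z * h i j z -
        ∑ i, ∑ j, g (some u) j z * g (par u) i z * h i j z := by
    rw [← Finset.sum_sub_distrib]
    refine Finset.sum_congr rfl fun i _ => ?_
    rw [← Finset.sum_sub_distrib]
    refine Finset.sum_congr rfl fun j _ => ?_
    ring
  have s2 : ∑ i, ∑ j, g (some u) j z * g (par u) i z * h i j z =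
      - ∑ i, ∑ j, g (some u) i z * g (par u) j z * h i j z := by
    rw [Finset.sum_comm, ← Finset.sum_neg_distrib]
    refine Finset.sum_congr rfl fun i _ => ?_
    rw [← Finset.sum_neg_distrib]
    refine Finset.sum_congr rfl fun j _ => ?_
    rw [ha i j z hz']
    ring
  show ∑ i, ∑ j, (g (some u) i z * g (par u) j z -
      g (some u) j z * g (par u) i z) * h i j z = 2 * BB g h u z
  rw [s1, s2]
  unfold BB
  ring

end PAI_

open PAI_ in
theorem p_PAI (hSOL : T_SOL) (hADD : T_ADD) : T_PAI := by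
  intro n B hB
  refine ⟨B, hB, ?_⟩
  intro N δ f L M h g G₀ G' hδ hf hL hMM hM hg hG₀ hG₀1 hG'
  obtain ⟨S, G, hSd, hSa, ⟨A, hA⟩, hSj, hG, hG1, hGq⟩ := hSOL n N δ B f g hδ hf hg
  -- continuity on the circles
  have cf : ∀ j, ContinuousOn (f j) (Gm N) := fun j =>
    (hf.diff j).continuousOn.mono fun z hz => Gm_notMem hz
  have cG : ∀ i, ContinuousOn (G i) (Gm N) := fun i =>
    (hG i).1.continuousOn.mono fun z hz => Gm_Om hz
  have cG0 : ∀ i, ContinuousOn (G₀ i) (Gm N) := fun i =>
    (hG₀ i).1.continuousOn.mono fun z hz => Gm_Om hz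
  let F : Fin n → (Gm N →ᵇ ℂ) := fun j => mk (f j) (cf j)
  have hM' : ∀ i j φ, M i j φ = L i (F j * φ) - L j (F i * φ) := fun i j φ =>
    hM i j φ (F i * φ) (F j * φ) (fun z => rfl) (fun z => rfl)
  -- first part: the two solutions
  let G2 : Fin n → (Gm N →ᵇ ℂ) := fun i => mk (G i) (cG i)
  let ψ : Fin n → Fin n → (Gm N →ᵇ ℂ) := fun i j =>
    mk (fun z => G i z * G₀ j z - G j z * G₀ i z)
      (((cG i).mul (cG0 j)).sub ((cG j).mul (cG0 i)))
  have hψa : ∀ i j, ψ j i = - ψ i j := by
    intro i j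
    ext z
    show G j z * G₀ i z - G i z * G₀ j z = - (G i z * G₀ j z - G j z * G₀ i z)
    ring
  have hMψ : ∀ i j, M i j (ψ i j) = 0 := fun i j =>
    (hMM i j).an (fun z => G i z * G₀ j z - G j z * G₀ i z)
      (isA_sub (isA_mul (hG i) (hG₀ j)) (isA_mul (hG j) (hG₀ i))) (ψ i j) (fun z => rfl)
  have hdiff : ∀ i, G2 i - G' i = ∑ j, F j * ψ i j := by
    intro i
    ext z
    rw [BoundedContinuousFunction.sub_apply, BoundedContinuousFunction.sum_apply]
    show G i z - G' i z = ∑ j, f j z * (G i z * G₀ j z - G j z * G₀ i z)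
    have h1 := hG₀1 z (Gm_Om z.2)
    have h2 := hG1 z (Gm_Om z.2)
    have h3 : ∑ j, f j z * (G i z * G₀ j z - G j z * G₀ i z) =
        G i z * ∑ j, f j z * G₀ j z - G₀ i z * ∑ j, f j z * G j z := by
      rw [Finset.mul_sum, Finset.mul_sum, ← Finset.sum_sub_distrib]
      refine Finset.sum_congr rfl fun j _ => ?_
      ring
    rw [h3, h1, h2, hG' i z]
    ring
  have hfirst : ∑ i, L i (G' i) = ∑ i, L i (G2 i) := by
    have h1 : ∑ i, L i (G2 i) - ∑ i, L i (G' i) = 0 := by
      rw [← Finset.sum_sub_distrib]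
      have h2 : ∀ i, L i (G2 i) - L i (G' i) = ∑ j, L i (F j * ψ i j) := by
        intro i
        rw [← map_sub, hdiff i, map_sum]
      rw [Finset.sum_congr rfl fun i _ => h2 i, comb L M F hM' ψ hψa]
      simp only [hMψ, Finset.sum_const_zero, mul_zero]
    exact (sub_eq_zero.1 h1).symm
  -- second part: the local solutions
  have cP : ∀ i, ContinuousOn (pw N fun q => g (some q) i) (Gm N) := fun i =>
    pw_cont fun q _ z hz => ((hg.diff (some q) i).differentiableAt
      ((isOpen_NR _).mem_nhds (Nd_subset_NR _ (Gm_Nd hz)))).continuousAt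
  have cT : ∀ i j, ContinuousOn (pw N fun q => S (some q) i j) (Gm N) := fun i j =>
    pw_cont fun q _ z hz => ((hSd (some q) i j).differentiableAt
      ((isOpen_Nd _).mem_nhds (Gm_Nd hz))).continuousAt
  let P : Fin n → (Gm N →ᵇ ℂ) := fun i => mk _ (cP i)
  let T : Fin n → Fin n → (Gm N →ᵇ ℂ) := fun i j => mk _ (cT i j)
  have hTa : ∀ i j, T j i = - T i j := by
    intro i j
    ext z
    obtain ⟨q, hq, hz⟩ := z.2
    show pw N (fun q => S (some q) j i) z = - pw N (fun q => S (some q) i j) z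
    rw [pw_eq hq hz, pw_eq hq hz, hSa]
  have hG2 : ∀ i, G2 i = P i - ∑ j, F j * T i j := by
    intro i
    ext z
    obtain ⟨q, hq, hz⟩ := z.2
    rw [BoundedContinuousFunction.sub_apply, BoundedContinuousFunction.sum_apply]
    show G i z = pw N (fun q => g (some q) i) z - ∑ j, f j z * pw N (fun q => S (some q) i j) z
    rw [pw_eq hq hz, hGq q hq z (Gm_Nd hz) i]
    congr 1
    refine Finset.sum_congr rfl fun j _ => ?_
    rw [pw_eq hq hz, mul_comm]
  have hsecond : ∑ i, L i (G2 i) = ∑ i, L i (P i) - (1 / 2) * ∑ i, ∑ j, M i j (T i j) := by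
    rw [← comb L M F hM' T hTa, ← Finset.sum_sub_distrib]
    refine Finset.sum_congr rfl fun i _ => ?_
    rw [hG2 i, map_sub, map_sum]
  have hPB : ‖∑ i, L i (P i)‖ ≤ B := by
    refine (hL P).trans ?_
    rw [pi_norm_le_iff_of_nonneg hB.le]
    intro i
    rw [BoundedContinuousFunction.norm_le hB.le]
    intro z
    obtain ⟨q, hq, hz⟩ := z.2
    show ‖pw N (fun q => g (some q) i) z‖ ≤ B
    rw [pw_eq hq hz]
    exact hg.bd (some q) i z (Nd_subset_NR _ (Gm_Nd hz))
  -- third part: the circles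
  have hcir : ∀ i j, M i j (T i j) =
      - (2 * π * I) * ∑ q ∈ lv N, cm q (fun z => S (some q) i j z * h i j z) := by
    intro i j
    refine (hMM i j).cir (fun q => S (some q) i j) (T i j) (fun q _ => ?_) (fun q hq z hz => ?_)
    · exact (hSd (some q) i j).mono fun z hz => st_Nd hz.1 hz.2
    · exact pw_eq hq hz
  have hha : ∀ i j, ∀ z ∈ OmR (73 / 100) N, h j i z = - h i j z := by
    intro i j z hz
    have hk : ContinuousOn (fun ζ : ℂ => (ζ - z)⁻¹) (Gm N) := by
      refine ContinuousOn.inv₀ (continuousOn_id.sub continuousOn_const) ?_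
      rintro ζ ⟨q, hq, hζ⟩ h0
      have h1 : ζ = z := sub_eq_zero.1 h0
      have h2 := hz q hq
      rw [← h1, hζ] at h2
      exact lt_irrefl _ h2
    rw [(hMM j i).rep z hz (mk _ hk) (fun ζ => rfl), (hMM i j).rep z hz (mk _ hk) (fun ζ => rfl),
      hM' j i, hM' i j]
    ring
  have htel : ∀ i j, ∑ q ∈ lv N, cm q (fun z => S (some q) i j z * h i j z) =
      ∑ u ∈ wd N, cm u (fun z => (g (some u) i z * g (par u) j z -
        g (some u) j z * g (par u) i z) * h i j z) := by
    intro i j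
    refine tele hADD (fun R => S R i j) (h i j) (fun u z => g (some u) i z * g (par u) j z -
        g (some u) j z * g (par u) i z) (fun R => hSd R i j) (hMM i j).diff
      (fun u hu z hz hz' => hSj u hu i j z hz hz') (fun u hu => ?_) ?_ N le_rfl
    · have c1 : ∀ i, ContinuousOn (g (some u) i) (ci u) := fun i =>
        (hg.diff _ i).continuousOn.mono fun z hz => Nd_subset_NR _ (ci_Nd hz)
      have c2 : ∀ i, ContinuousOn (g (par u) i) (ci u) := fun i =>
        (hg.diff _ i).continuousOn.mono fun z hz => Nd_subset_NR _ (ci_par hz)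
      exact ((c1 i).mul (c2 j)).sub ((c1 j).mul (c2 i))
    · obtain ⟨K, R, _, hK⟩ := (hMM i j).inf
      refine cm_inf (K := A * K) (R := max R 1) ?_ ?_
      · exact (hSd none i j).mul ((hMM i j).diff.mono fun z hz => Ndn_Om hz)
      · intro z hz
        have h1 := hK z (lt_of_le_of_lt (le_max_left _ _) hz)
        have h2 : 1 < dist z ctr := lt_of_le_of_lt (le_max_right _ _) hz
        have h3 := hA i j z (show 76 / 100 < dist z ctr by linarith)
        rw [norm_mul, mul_div_assoc]
        exact mul_le_mul h3 h1 (norm_nonneg _) ((norm_nonneg _).trans h3)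
  have hTB : ∑ i, ∑ j, M i j (T i j) = - (2 * π * I) * (2 * TB N g h) := by
    have e1 : ∀ i j, M i j (T i j) = - (2 * π * I) * ∑ u ∈ wd N,
        cm u (fun z => (g (some u) i z * g (par u) j z -
          g (some u) j z * g (par u) i z) * h i j z) := by
      intro i j
      rw [hcir i j, htel i j]
    simp only [e1, ← Finset.mul_sum]
    congr 1
    have e2 : ∀ i, ∑ j, ∑ u ∈ wd N, cm u (fun z => (g (some u) i z * g (par u) j z -
          g (some u) j z * g (par u) i z) * h i j z) =
        ∑ u ∈ wd N, ∑ j, cm u (fun z => (g (some u) i z * g (par u) j z -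
          g (some u) j z * g (par u) i z) * h i j z) := fun i => Finset.sum_comm
    rw [Finset.sum_congr rfl fun i _ => e2 i, Finset.sum_comm]
    unfold TB
    rw [Finset.mul_sum]
    refine Finset.sum_congr rfl fun u hu => ?_
    exact pair_sum (fun i j => (hMM i j).diff) hha hg.diff (mem_wd.1 hu)
  rw [hfirst, hsecond, hTB]
  have e3 : ∑ i, L i (P i) - 1 / 2 * (-(2 * π * I) * (2 * TB N g h)) =
      ∑ i, L i (P i) + 2 * π * I * TB N g h := by
    ring
  rw [e3]
  refine (norm_add_le _ _).trans (add_le_add hPB ?_)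
  rw [norm_mul, norm_mul, norm_mul, Complex.norm_I, mul_one, Complex.norm_real,
    Real.norm_of_nonneg Real.pi_pos.le]
  simp

end Pool.Agent.CorA
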