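import Pool.Agent.CorA.Targets

/-!
# Resets at weak words are far from strong ones
-/

set_option autoImplicit false

namespace Pool.Agent.CorA

open Complex Metric Set Filter Topology MeasureTheory
open Pool.Corona91698f Pool.Agent.CorE
open scoped Real BoundedContinuousFunction

namespace RES_

theorem take_succ' (u : List D) {m : ℕ} (hm : m < u.length) :
    ∃ d, u.take (m + 1) = u.take m ++ [d] :=
  ⟨u[m], by rw [List.take_append_getElem hm]⟩

theorem step {n : ℕ} {F : List D → Fin n → ℂ} {nc : List D → Prop} {tol : List D → ℝ}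
    {Cs : List D → Fin n → ℂ} (hR : Rule F nc tol Cs) (p : List D) (d : D) {X : ℝ} (hX : 0 ≤ X)
    (h : ¬ nc p → dist (F (p ++ [d])) (Cs p) ≤ tol (p ++ [d]) →
      dist (F (p ++ [d])) (Cs p) ≤ X) :
    dist (F (p ++ [d])) (Cs (p ++ [d])) ≤ X := by
  obtain ⟨h1, h2, h3⟩ := hR.2 p d
  by_cases hn : nc p
  · rw [h1 hn, dist_self]
    exact hX
  · by_cases ht : dist (F (p ++ [d])) (Cs p) ≤ tol (p ++ [d])
    · rw [h2 hn ht]
      exact h hn ht
    · rw [h3 hn (not_le.1 ht), dist_self]
      exact hX

end RES_

open RES_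

theorem p_RES : T_RES := by
  intro n J F nc a tol Cs e he htol hR hdrift u hu hnu hsu i hiJ hiu hS
  obtain ⟨hu0, hnp, hd⟩ := hu
  have hJ : (0 : ℝ) < 8 * (J + 1) := by positivity
  set κ : ℝ := e / (8 * (J + 1)) with hκ
  have hκ0 : 0 < κ := by positivity
  rcases Nat.eq_zero_or_pos i with rfl | hi
  · rw [Nat.sub_zero, List.take_length] at hS
    exact hsu hS
  have hlen : 1 ≤ u.length := List.length_pos_iff.2 hu0
  have claim : ∀ k : ℕ, u.length - i + k ≤ u.length - 1 → ¬ nc (u.take (u.length - i + k)) →
      dist (F (u.take (u.length - i + k))) (Cs (u.take (u.length - i + k))) ≤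
        e / 4 + k * κ := by
    intro k
    induction k with
    | zero =>
      intro _ _
      rw [Nat.add_zero]
      push_cast
      rw [zero_mul, add_zero]
      rcases Nat.eq_zero_or_pos (u.length - i) with h0 | h0
      · rw [h0, List.take_zero, hR.1, dist_self]
        positivity
      · obtain ⟨m, hm⟩ : ∃ m, u.length - i = m + 1 := ⟨u.length - i - 1, by omega⟩
        obtain ⟨d, hd'⟩ := take_succ' u (m := m) (by omega)
        rw [hm] at hS ⊢
        rw [hd'] at hS ⊢
        refine step hR _ _ (by positivity) fun _ ht => ?_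
        rw [(htol _).1 hS] at ht
        exact ht
    | succ k ih =>
      intro hk hnk
      obtain ⟨d, hd'⟩ := take_succ' u (m := u.length - i + k) (by omega)
      rw [← Nat.add_assoc, hd'] at hnk ⊢
      refine step hR _ _ (by positivity) fun hn _ => ?_
      have h1 := ih (by omega) hn
      have h2 := hdrift _ d hn hnk
      have h3 := dist_triangle (F (u.take (u.length - i + k) ++ [d]))
        (F (u.take (u.length - i + k))) (Cs (u.take (u.length - i + k)))
      push_cast
      linarith
  have hp : u.take (u.length - i + (i - 1)) = u.dropLast := by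
    rw [List.dropLast_eq_take]
    congr 1
    omega
  have h1 := claim (i - 1) (by omega) (by rw [hp]; exact hnp)
  rw [hp] at h1
  obtain ⟨d, hud⟩ : ∃ d, u = u.dropLast ++ [d] :=
    ⟨u.getLast hu0, (List.dropLast_append_getLast hu0).symm⟩
  have h2 : dist (F u) (F u.dropLast) ≤ κ := by
    have := hdrift u.dropLast d hnp (by rw [← hud]; exact hnu)
    rwa [← hud] at this
  have h3 := dist_triangle (F u) (F u.dropLast) (Cs u.dropLast)
  rw [(htol u).2 hsu] at hd
  have h4 : ((i - 1 : ℕ) : ℝ) + 1 ≤ J := by
    have : i - 1 + 1 ≤ J := by omega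
    exact_mod_cast this
  have h5 : κ * (8 * (J + 1)) = e := by
    rw [hκ]
    field_simp
  nlinarith

end Pool.Agent.CorA
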