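import Pool.Agent.CorA.Targets

/-!
# Project ALB, block SOL: a solution of level `N`
-/

set_option autoImplicit false

namespace Pool.Agent.CorA

open Complex Metric Set Filter Topology MeasureTheory
open Pool.Corona91698f Pool.Agent.CorE
open scoped Real BoundedContinuousFunction

namespace SOL_

/-- The outer region of level `N` is contained in the region of level `N + 1`. -/
theorem omR_subset {N : ℕ} {z : ℂ} (hz : z ∈ OmR (727 / 1000) N) : z ∈ Om (N + 1) := by
  intro q hq
  have hl : q.length = N + 1 := mem_lv.1 hq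
  rcases List.eq_nil_or_concat q with rfl | ⟨u, d, h₀⟩
  · simp at hl
  · rw [List.concat_eq_append] at h₀
    subst h₀
    have hu : u.length = N := by
      rw [List.length_append] at hl
      simpa using hl
    have h1 := hz u (mem_lv.2 hu)
    have h2 := dist_psi_ge d (Psi u z)
    rw [Psi_snoc]
    linarith

end SOL_

open SOL_ in
theorem p_SOL (hSYS : T_SYS) (hGLA : T_GLA) : T_SOL := by
  classical
  intro n N δ B f g _ hf hg
  obtain ⟨C, hC, hS⟩ := hSYS 1
  let w : Fin n → Fin n → List D → ℂ → ℂ := fun i j u y =>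
    g (some u) i (Phi u y) * g (par u) j (Phi u y) -
      g (some u) j (Phi u y) * g (par u) i (Phi u y)
  have hopen : IsOpen {z : ℂ | (74 / 100 : ℝ) < dist z ctr ∧ dist z ctr < 80 / 100} :=
    (isOpen_lt continuous_const (continuous_id.dist continuous_const)).inter
      (isOpen_lt (continuous_id.dist continuous_const) continuous_const)
  have hcomp : ∀ R i (v : List D) (y : ℂ), Phi v y ∈ NR R →
      DifferentiableAt ℂ (fun y => g R i (Phi v y)) y := by
    intro R i v y hy
    have h1 := (hg.diff R i).differentiableAt ((isOpen_NR R).mem_nhds hy)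
    exact h1.comp y (differentiable_Phi v y)
  have hwd : ∀ i j v, DifferentiableOn ℂ (w i j v)
      {z : ℂ | (74 / 100 : ℝ) < dist z ctr ∧ dist z ctr < 80 / 100} := by
    intro i j v y hy
    obtain ⟨h1, h2⟩ := hy
    have a1 := annulus_some (v := v) h1 h2
    have a2 := annulus_par (v := v) h1 h2
    exact (((hcomp _ i v y a1).mul (hcomp _ j v y a2)).sub
      ((hcomp _ j v y a1).mul (hcomp _ i v y a2))).differentiableWithinAt
  have hwb : ∀ i j v z, (74 / 100 : ℝ) < dist z ctr → dist z ctr < 80 / 100 →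
      ‖w i j v z‖ ≤ 2 * B ^ 2 := by
    intro i j v y h1 h2
    have a1 := annulus_some (v := v) h1 h2
    have a2 := annulus_par (v := v) h1 h2
    have hB0 : 0 ≤ B := (norm_nonneg _).trans (hg.bd _ i _ a1)
    have b1 : ‖g (some v) i (Phi v y) * g (par v) j (Phi v y)‖ ≤ B * B := by
      rw [norm_mul]
      exact mul_le_mul (hg.bd _ _ _ a1) (hg.bd _ _ _ a2) (norm_nonneg _) hB0
    have b2 : ‖g (some v) j (Phi v y) * g (par v) i (Phi v y)‖ ≤ B * B := by
      rw [norm_mul]
      exact mul_le_mul (hg.bd _ _ _ a1) (hg.bd _ _ _ a2) (norm_nonneg _) hB0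
    refine (norm_sub_le _ _).trans ?_
    nlinarith
  have hex : ∀ i j, ∃ S : Option (List D) → ℂ → ℂ, (∀ R, DifferentiableOn ℂ (S R) (Nd R)) ∧
      (∀ u : List D, u.length < N + 1 → ∀ z ∈ Nd (par u), z ∈ Nd (some u) →
        S (some u) z - S (par u) z = w i j u (Psi u z)) ∧
      ∀ z ∈ Nd none, ‖S none z‖ ≤ C * ∑ u ∈ wd (N + 1 - 1), ((1 / 3 : ℝ) ^ 1) ^ u.length *
        (2 * B ^ 2) := by
    intro i j
    obtain ⟨S, h1, h2, _, h4, _⟩ := hS (N + 1) (w i j) (fun _ => 2 * B ^ 2) (by omega)
      (fun _ => by positivity) (fun u _ => ⟨hwd i j u, fun z => hwb i j u z⟩)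
    exact ⟨S, h1, h2, h4⟩
  choose S0 hS0d hS0j hS0b using hex
  set A : ℝ := C * ∑ u ∈ wd (N + 1 - 1), ((1 / 3 : ℝ) ^ 1) ^ u.length * (2 * B ^ 2) with hA
  let S : Option (List D) → Fin n → Fin n → ℂ → ℂ := fun R i j z =>
    (S0 i j R z - S0 j i R z) / 2
  have hSd : ∀ R i j, DifferentiableOn ℂ (S R i j) (Nd R) := fun R i j =>
    ((hS0d i j R).sub (hS0d j i R)).div_const 2
  have hSa : ∀ R i j z, S R j i z = - S R i j z := by
    intro R i j z
    simp only [S]
    ring
  have hSb : ∀ i j, ∀ z ∈ Nd none, ‖S none i j z‖ ≤ A := by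
    intro i j z hz
    have h1 := hS0b i j z hz
    have h2 := hS0b j i z hz
    simp only [S]
    rw [norm_div]
    have h3 := norm_sub_le (S0 i j none z) (S0 j i none z)
    have h4 : ‖(2 : ℂ)‖ = 2 := by norm_num
    rw [h4, div_le_iff₀ (by norm_num)]
    linarith
  have hSj : ∀ u : List D, u.length ≤ N → ∀ i j, ∀ z ∈ Nd (par u), z ∈ Nd (some u) →
      S (some u) i j z - S (par u) i j z =
        g (some u) i z * g (par u) j z - g (some u) j z * g (par u) i z := by
    intro u hu i j z hz hz'
    have e1 := hS0j i j u (by omega) z hz hz'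
    have e2 := hS0j j i u (by omega) z hz hz'
    simp only [w, Phi_Psi] at e1 e2
    simp only [S]
    linear_combination e1 / 2 - e2 / 2
  obtain ⟨G, hG1, hG2, hG3⟩ := hGLA n (N + 1) f g S (fun _ _ _ => 0) (by omega) hf.diff hg.diff
    hg.one hSd hSa (fun _ _ _ => by simp) (by
      intro u hu i j z hz hz'
      have := hSj u (by omega) i j z hz hz'
      linear_combination this)
  refine ⟨S, G, hSd, hSa, ⟨A, hSb⟩, hSj, ?_, ?_, ?_⟩
  · intro i
    refine ⟨(hG1 i).mono fun z hz => omR_subset hz, B + n * A, 76 / 100, ?_⟩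
    intro z hz
    have hz' : z ∈ Nd none := hz
    have e := hG3 none (by intro v hv; exact absurd hv (by simp)) z hz' i
    rw [e]
    refine (norm_sub_le _ _).trans (add_le_add (hg.bd _ _ _ (Nd_subset_NR _ hz')) ?_)
    refine (norm_sum_le _ _).trans ?_
    have h5 : ∀ j ∈ (Finset.univ : Finset (Fin n)),
        ‖(S none i j z + 0) * f j z‖ ≤ A := by
      intro j _
      rw [norm_mul, add_zero]
      have h6 := hSb i j z hz'
      have h7 := hf.le j z (Nd_notMem hz')
      calc ‖S none i j z‖ * ‖f j z‖ ≤ ‖S none i j z‖ * 1 :=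
            mul_le_mul_of_nonneg_left h7 (norm_nonneg _)
        _ ≤ A := by rw [mul_one]; exact h6
    refine (Finset.sum_le_sum h5).trans ?_
    simp
  · intro z hz
    exact hG2 z (omR_subset hz)
  · intro q hq z hz i
    have hl : q.length = N := mem_lv.1 hq
    have e := hG3 (some q) (by
      intro v hv
      rw [← Option.some.inj hv, hl]
      omega) z hz i
    rw [e]
    simp

end Pool.Agent.CorA
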