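import Pool.Agent.CorE.P_SYS
import Pool.Agent.CorA.P_ANG

/-!
# Different values at calm nodes cost variation
-/

set_option autoImplicit false

namespace Pool.Agent.CorA

open Complex Metric Set Filter Topology MeasureTheory
open Pool.Corona91698f Pool.Agent.CorE
open scoped Real BoundedContinuousFunction

namespace SRB_

theorem Psi_cc (v : List D) : Psi v (cc v) = ctr := by
  unfold cc
  rw [Psi_Phi]

theorem circ {v : List D} {z : ℂ} (hz : z ∈ sphere (cc v) (77 / 100 * (1 / 3) ^ v.length)) :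
    dist (Psi v z) ctr = 77 / 100 := by
  have h1 := dist_Psi v z (cc v)
  rw [Psi_cc, mem_sphere.1 hz] at h1
  rw [h1]
  have h3n : (3 : ℝ) ^ v.length * (1 / 3) ^ v.length = 1 := by
    rw [← mul_pow]
    norm_num
  linear_combination (77 / 100) * h3n

theorem psi_far {y : ℂ} (h : dist y ctr = 77 / 100) (d : D) :
    89 / 100 ≤ dist (psi d y) ctr := by
  have h1 := dist_psi_ge d y
  rw [h] at h1
  linarith

theorem psi_ctr (d : D) : 1 ≤ dist (psi d ctr) ctr := by
  rw [dist_psi_ctr, dist_comm]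
  have h : dist (phi d ctr) ctr ^ 2 = 2 / 9 := by
    rw [dist_sq]
    rcases d with ⟨a, b⟩
    cases a <;> cases b <;> simp [phi, dig, ctr] <;> norm_num
  nlinarith [dist_nonneg (x := phi d ctr) (y := ctr)]

theorem node_circ {y : ℂ} (h : dist y ctr = 77 / 100) : y ∈ nodeX := by
  refine ⟨by rw [h]; norm_num, fun d => ?_⟩
  have := psi_far h d
  linarith

theorem node_ctr : ctr ∈ nodeX := by
  refine ⟨by rw [dist_self]; norm_num, fun d => ?_⟩
  have := psi_ctr d
  linarith

theorem far {N : ℕ} {v q : List D} (hv : v.length < N) (hq : q ∈ lv N) {z : ℂ}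
    (hz : dist (Psi v z) ctr = 77 / 100) : 73 / 100 < dist (Psi q z) ctr := by
  rw [mem_lv] at hq
  rcases Pool.Agent.CorE.SYS_.tri v q with ha | ⟨d, y, hy⟩ | ⟨a, d, d', y, y', hp, hu, hdd⟩
  · have := List.IsPrefix.length_le ha
    omega
  · rw [hy, Psi_append, Psi_cons]
    have h1 := psi_far hz d
    have h2 := Pool.Agent.CorE.SYS_.Psi_lower y (psi d (Psi v z))
    have h3 : (1 : ℝ) ≤ 3 ^ y.length := one_le_pow₀ (by norm_num)
    nlinarith
  · rw [hu, Psi_append, Psi_cons]
    rw [hp, Psi_append, Psi_cons] at hz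
    have h1 : dist (psi d' (Psi a z)) ctr < 1 := by
      by_cases hy' : y' = []
      · rw [hy', Psi_nil] at hz
        rw [hz]
        norm_num
      · have := near_prefix (v := y') (z := psi d' (Psi a z)) hy' (by rw [hz]; norm_num)
        linarith
    have h2 : 1 ≤ dist (psi d (Psi a z)) ctr := by
      by_contra hlt
      exact hdd (psi_disj h1 (not_le.1 hlt))
    have h3 := Pool.Agent.CorE.SYS_.Psi_lower y (psi d (Psi a z))
    have h4 : (1 : ℝ) ≤ 3 ^ y.length := one_le_pow₀ (by norm_num)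
    nlinarith

theorem cc_notMem (v : List D) : cc v ∉ squareCantor := by
  refine Nd_notMem (R := some v) ⟨?_, fun d => ?_⟩
  · rw [Psi_cc, dist_self]
    norm_num
  · rw [Psi_cc]
    have := psi_ctr d
    linarith

theorem FF_le {n : ℕ} {δ : ℝ} {f : Fin n → ℂ → ℂ} (hf : Dat n δ f) (v : List D) (k : Fin n) :
    ‖FF f v k‖ ≤ 1 := hf.le k (cc v) (cc_notMem v)

/-- the contour means at a calm node -/
theorem calm {n N : ℕ} {δ C₀ ε : ℝ} {f : Fin n → ℂ → ℂ} {h : Fin n → Fin n → ℂ → ℂ}
    {a : List D → ℝ} (hf : Dat n δ f) (hh : HD n N h a C₀) {v : List D} (hv : v.length < N)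
    (hε : 0 ≤ ε) (hc : ¬ NC f ε v) (i j k : Fin n) :
    ‖(mm f h v) (i, j, some k) - FF f v k * (mm f h v) (i, j, none)‖ ≤ ε * a v := by
  have hsub : sphere (cc v) (77 / 100 * (1 / 3) ^ v.length) ⊆ OmR (73 / 100) N :=
    fun z hz q hq => far hv hq (circ hz)
  have hsub' : sphere (cc v) (77 / 100 * (1 / 3) ^ v.length) ⊆ squareCantorᶜ := by
    intro z hz
    refine Nd_notMem (R := some v) ⟨?_, fun d => ?_⟩
    · rw [circ hz]
      norm_num
    · have := psi_far (circ hz) d
      linarith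
  have hR : (0 : ℝ) ≤ 77 / 100 * (1 / 3) ^ v.length := by positivity
  have c1 : ContinuousOn (h i j) (sphere (cc v) (77 / 100 * (1 / 3) ^ v.length)) :=
    (hh.diff i j).continuousOn.mono hsub
  have c2 : ContinuousOn (f k) (sphere (cc v) (77 / 100 * (1 / 3) ^ v.length)) :=
    (hf.diff k).continuousOn.mono hsub'
  have i1 : CircleIntegrable (fun z => f k z * h i j z) (cc v)
      (77 / 100 * (1 / 3) ^ v.length) := (c2.mul c1).circleIntegrable hR
  have i3 : CircleIntegrable (fun z => f k (cc v) * (1 * h i j z)) (cc v)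
      (77 / 100 * (1 / 3) ^ v.length) :=
    (continuousOn_const.mul (continuousOn_const.mul c1)).circleIntegrable hR
  have e2 : (∮ z in C(cc v, 77 / 100 * (1 / 3) ^ v.length), (f k z - f k (cc v)) * h i j z) =
      (∮ z in C(cc v, 77 / 100 * (1 / 3) ^ v.length), f k z * h i j z) -
        f k (cc v) * ∮ z in C(cc v, 77 / 100 * (1 / 3) ^ v.length), 1 * h i j z := by
    rw [← circleIntegral.integral_const_mul, ← circleIntegral.integral_sub i1 i3]
    exact circleIntegral.integral_congr hR fun z _ => by ring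
  have e1 : (mm f h v) (i, j, some k) - FF f v k * (mm f h v) (i, j, none) =
      (2 * π * I : ℂ)⁻¹ • ∮ z in C(cc v, 77 / 100 * (1 / 3) ^ v.length),
        (f k z - f k (cc v)) * h i j z := by
    show cm v (fun z => f k z * h i j z) - f k (cc v) * cm v (fun z => 1 * h i j z) = _
    rw [e2, smul_eq_mul]
    unfold cm
    ring
  rw [e1]
  refine (circleIntegral.norm_two_pi_i_inv_smul_integral_le_of_norm_le_const hR
    (C := ε * (3 ^ v.length * a v)) ?_).trans ?_
  · intro z hz
    rw [norm_mul]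
    have h1 : ‖f k z - f k (cc v)‖ ≤ ε := by
      by_contra hne
      exact hc ⟨k, z, cc v, node_circ (circ hz), by rw [Psi_cc]; exact node_ctr,
        (not_le.1 hne).le⟩
    exact mul_le_mul h1 (hh.up v hv i j z (node_circ (circ hz))) (norm_nonneg _) hε
  · have h3n : (3 : ℝ) ^ v.length * (1 / 3) ^ v.length = 1 := by
      rw [← mul_pow]
      norm_num
    have h4 : 77 / 100 * (1 / 3) ^ v.length * (ε * (3 ^ v.length * a v)) =
        77 / 100 * (ε * a v) := by
      linear_combination (77 / 100 * (ε * a v)) * h3n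
    rw [h4]
    have h5 : 0 ≤ ε * a v := mul_nonneg hε (hh.nn v)
    linarith

theorem norm_le_card {ι : Type} [Fintype ι] (m : EuclideanSpace ℂ ι) {B : ℝ} (hB : 0 ≤ B)
    (h : ∀ i, ‖m i‖ ≤ B) : ‖m‖ ≤ ((Fintype.card ι : ℝ) + 1) * B := by
  rw [EuclideanSpace.norm_eq]
  refine Real.sqrt_le_iff.2 ⟨by positivity, ?_⟩
  have h1 : ∑ i, ‖m i‖ ^ 2 ≤ ∑ _i : ι, B ^ 2 :=
    Finset.sum_le_sum fun i _ => pow_le_pow_left₀ (norm_nonneg _) (h i) 2
  rw [Finset.sum_const, Finset.card_univ, nsmul_eq_mul] at h1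
  refine h1.trans ?_
  have h2 : (0 : ℝ) ≤ (Fintype.card ι : ℝ) := Nat.cast_nonneg _
  have h3 : 0 ≤ B ^ 2 := sq_nonneg B
  have h4 : (((Fintype.card ι : ℝ) + 1) * B) ^ 2 = ((Fintype.card ι : ℝ) + 1) ^ 2 * B ^ 2 := by
    ring
  rw [h4]
  refine mul_le_mul_of_nonneg_right ?_ h3
  nlinarith

/-- the number of components plus two -/
noncomputable def KK (n : ℕ) : ℝ := (Fintype.card (Fin n × Fin n × Option (Fin n)) : ℝ) + 2

theorem KK_pos (n : ℕ) : 2 ≤ KK n := by
  unfold KK
  have : (0 : ℝ) ≤ (Fintype.card (Fin n × Fin n × Option (Fin n)) : ℝ) := Nat.cast_nonneg _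
  linarith

/-- some component which does not contain an `f` is large -/
theorem large {n N : ℕ} {δ C₀ ε : ℝ} {f : Fin n → ℂ → ℂ} {h : Fin n → Fin n → ℂ → ℂ}
    {a : List D → ℝ} (hf : Dat n δ f) (hh : HD n N h a C₀) {v : List D} (hv : v.length < N)
    (hε : 0 ≤ ε) (hc : ¬ NC f ε v) (hpos : 0 < ‖mm f h v‖) :
    ∃ i j, ‖mm f h v‖ ≤ KK n * (‖(mm f h v) (i, j, none)‖ + ε * a v) := by
  by_contra hne
  push Not at hne
  have hK := KK_pos n
  have h0 : 0 ≤ ε * a v := mul_nonneg hε (hh.nn v)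
  have h1 : ∀ x, ‖(mm f h v) x‖ ≤ ‖mm f h v‖ / KK n := by
    rintro ⟨i, j, o⟩
    have h2 := hne i j
    have h3 : ‖(mm f h v) (i, j, none)‖ + ε * a v ≤ ‖mm f h v‖ / KK n := by
      rw [le_div_iff₀ (by linarith), mul_comm]
      exact h2.le
    cases o with
    | none => linarith
    | some k =>
      have h4 := calm hf hh hv hε hc i j k
      have h5 : ‖(mm f h v) (i, j, some k)‖ ≤
          ‖(mm f h v) (i, j, some k) - FF f v k * (mm f h v) (i, j, none)‖ +
            ‖FF f v k * (mm f h v) (i, j, none)‖ := by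
        have := norm_add_le ((mm f h v) (i, j, some k) - FF f v k * (mm f h v) (i, j, none))
          (FF f v k * (mm f h v) (i, j, none))
        rwa [sub_add_cancel] at this
      have h6 : ‖FF f v k * (mm f h v) (i, j, none)‖ ≤ ‖(mm f h v) (i, j, none)‖ := by
        rw [norm_mul]
        exact mul_le_of_le_one_left (norm_nonneg _) (FF_le hf v k)
      linarith
  have h2 := norm_le_card (mm f h v) (B := ‖mm f h v‖ / KK n) (by positivity) h1
  have h3 : ((Fintype.card (Fin n × Fin n × Option (Fin n)) : ℝ) + 1) = KK n - 1 := by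
    unfold KK
    ring
  rw [h3] at h2
  have h4 : (KK n - 1) * (‖mm f h v‖ / KK n) = ‖mm f h v‖ - ‖mm f h v‖ / KK n := by
    field_simp
  rw [h4] at h2
  have h5 : 0 < ‖mm f h v‖ / KK n := by positivity
  linarith

/-- the angle -/
theorem angle {n N : ℕ} {δ C₀ ε e : ℝ} {f : Fin n → ℂ → ℂ} {h : Fin n → Fin n → ℂ → ℂ}
    {a : List D → ℝ} (he : 0 < e) (hf : Dat n δ f) (hh : HD n N h a C₀) {x u : List D}
    (hx : x.length < N) (hu : u.length < N) (hε : 0 ≤ ε) (hcx : ¬ NC f ε x)
    (hcu : ¬ NC f ε u) (hd : e ≤ dist (FF f u) (FF f x))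
    (h1 : 8 * KK n * (e + 1) / e * (ε * a x) < ‖mm f h x‖)
    (h2 : 8 * KK n * (e + 1) / e * (ε * a u) < ‖mm f h u‖) (w : ℂ) :
    min (1 / 2) (e / (4 * KK n)) * ‖mm f h u‖ ≤ ‖mm f h u - w • mm f h x‖ := by
  have hK := KK_pos n
  have hax : 0 ≤ ε * a x := mul_nonneg hε (hh.nn x)
  have hau : 0 ≤ ε * a u := mul_nonneg hε (hh.nn u)
  have hC : 0 < 8 * KK n * (e + 1) / e := by positivity
  have hU : 0 < ‖mm f h u‖ := lt_of_le_of_lt (mul_nonneg hC.le hau) h2
  set U := mm f h u with hUdef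
  set X := mm f h x with hXdef
  rcases le_or_gt (‖U‖ / 2) ‖U - w • X‖ with hy | hy
  · refine le_trans ?_ hy
    have := mul_le_mul_of_nonneg_right (min_le_left (1 / 2 : ℝ) (e / (4 * KK n))) hU.le
    linarith
  · obtain ⟨k, hk⟩ : ∃ k, e ≤ ‖FF f u k - FF f x k‖ := by
      by_contra hne
      push Not at hne
      have h3 : dist (FF f u) (FF f x) < e :=
        (dist_pi_lt_iff he).2 fun k => by
          rw [dist_eq_norm]
          exact hne k
      linarith
    obtain ⟨i, j, hij⟩ := large hf hh hu hε hcu hU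
    rw [← hUdef] at hij
    have t1 := calm hf hh hx hε hcx i j k
    have t2 := calm hf hh hu hε hcu i j k
    rw [← hUdef] at t2
    rw [← hXdef] at t1
    have e1 : (U - w • X) (i, j, some k) - FF f x k * (U - w • X) (i, j, none) =
        (U (i, j, some k) - FF f u k * U (i, j, none)) +
          (FF f u k - FF f x k) * U (i, j, none) -
            w * (X (i, j, some k) - FF f x k * X (i, j, none)) := by
      simp only [PiLp.sub_apply, PiLp.smul_apply, smul_eq_mul]
      ring
    have b1 : ‖(U - w • X) (i, j, some k) - FF f x k * (U - w • X) (i, j, none)‖ ≤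
        2 * ‖U - w • X‖ := by
      refine (norm_sub_le _ _).trans ?_
      rw [norm_mul]
      have q1 := PiLp.norm_apply_le (U - w • X) (i, j, some k)
      have q2 := PiLp.norm_apply_le (U - w • X) (i, j, (none : Option (Fin n)))
      have q3 := mul_le_of_le_one_left (norm_nonneg ((U - w • X) (i, j, none)))
        (FF_le hf x k)
      linarith
    have b2 : e * ‖U (i, j, none)‖ ≤ ‖(FF f u k - FF f x k) * U (i, j, none)‖ := by
      rw [norm_mul]
      exact mul_le_mul_of_nonneg_right hk (norm_nonneg _)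
    have b3 : ‖w * (X (i, j, some k) - FF f x k * X (i, j, none))‖ ≤ ‖w‖ * (ε * a x) := by
      rw [norm_mul]
      exact mul_le_mul_of_nonneg_left t1 (norm_nonneg _)
    have b4 : ‖(FF f u k - FF f x k) * U (i, j, none)‖ ≤
        ‖(U - w • X) (i, j, some k) - FF f x k * (U - w • X) (i, j, none)‖ +
          ‖U (i, j, some k) - FF f u k * U (i, j, none)‖ +
            ‖w * (X (i, j, some k) - FF f x k * X (i, j, none))‖ := by
      have e2 : (FF f u k - FF f x k) * U (i, j, none) =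
          ((U - w • X) (i, j, some k) - FF f x k * (U - w • X) (i, j, none)) -
            (U (i, j, some k) - FF f u k * U (i, j, none)) +
              w * (X (i, j, some k) - FF f x k * X (i, j, none)) := by
        rw [e1]
        ring
      rw [e2]
      refine (norm_add_le _ _).trans ?_
      have := norm_sub_le ((U - w • X) (i, j, some k) - FF f x k * (U - w • X) (i, j, none))
        (U (i, j, some k) - FF f u k * U (i, j, none))
      linarith
    have b5 : ‖w‖ * ‖X‖ ≤ 2 * ‖U‖ := by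
      rw [← norm_smul]
      have := norm_sub_le U (U - w • X)
      rw [sub_sub_cancel] at this
      linarith
    -- the numbers
    set K := KK n with hKdef
    have hK0 : 0 < K := by linarith
    set r := e * ‖U‖ / (8 * K) with hr
    have r1 : (e + 1) * (ε * a u) ≤ r := by
      rw [hr, le_div_iff₀ (by positivity)]
      have := h2.le
      rw [div_mul_eq_mul_div, div_le_iff₀ he] at this
      linarith
    have r2 : ‖w‖ * (ε * a x) ≤ 2 * r := by
      have h3 : 8 * K * (e + 1) / e * (‖w‖ * (ε * a x)) ≤ 2 * ‖U‖ := by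
        have h4 := mul_le_mul_of_nonneg_left h1.le (norm_nonneg w)
        have h5 : ‖w‖ * (8 * K * (e + 1) / e * (ε * a x)) =
          8 * K * (e + 1) / e * (‖w‖ * (ε * a x)) := by ring
        rw [h5] at h4
        linarith
      rw [div_mul_eq_mul_div, div_le_iff₀ he] at h3
      have h6 : ‖w‖ * (ε * a x) * (8 * K) ≤ 2 * (e * ‖U‖) := by
        have h7 : 0 ≤ ‖w‖ * (ε * a x) := mul_nonneg (norm_nonneg _) hax
        have h8 : 0 ≤ 8 * K * e * (‖w‖ * (ε * a x)) := by positivity
        nlinarith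
      have h9 : 2 * r = 2 * (e * ‖U‖) / (8 * K) := by
        rw [hr]
        ring
      rw [h9, le_div_iff₀ (by positivity)]
      exact h6
    have r3 : e * ‖U‖ / K ≤ e * ‖U (i, j, none)‖ + e * (ε * a u) := by
      rw [div_le_iff₀ hK0]
      have := mul_le_mul_of_nonneg_left hij he.le
      linarith
    have r4 : e * ‖U‖ / K = 8 * r := by
      rw [hr]
      field_simp
    have r5 : 4 * r ≤ 2 * ‖U - w • X‖ := by
      have h3 : e * (ε * a u) + ε * a u ≤ r := by linarith
      have h4 : 0 ≤ r := by rw [hr]; positivity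
      linarith
    have r6 : e / (4 * K) * ‖U‖ = 2 * r := by
      rw [hr]
      field_simp
      ring
    have r7 := mul_le_mul_of_nonneg_right (min_le_right (1 / 2 : ℝ) (e / (4 * K))) hU.le
    linarith

end SRB_

open SRB_ in
/-- Different values at calm nodes cost variation. -/
theorem p_SRB : T_SRB := by
  intro n e he
  have hK := KK_pos n
  have hcpos : 0 < min (1 / 2 : ℝ) (e / (4 * KK n)) := lt_min (by norm_num) (by positivity)
  obtain ⟨CA, hCA, hang⟩ := p_ANG (min (1 / 2 : ℝ) (e / (4 * KK n))) hcpos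
  set C' : ℝ := 8 * KK n * (e + 1) / e with hC'
  have hC'0 : 0 < C' := by positivity
  refine ⟨1 + CA + C', by linarith, ?_⟩
  intro N δ C₀ ε f h a x s t hf hh hε hts hx hs hcx ht
  classical
  set V := ∑ u ∈ s, ‖mm f h u‖ + ‖mm f h x - ∑ u ∈ s, mm f h u‖ - ‖mm f h x‖ with hVdef
  have hV0 : 0 ≤ V := by
    have h1 : ‖mm f h x‖ ≤ ‖∑ u ∈ s, mm f h u‖ + ‖mm f h x - ∑ u ∈ s, mm f h u‖ := by
      have := norm_add_le (∑ u ∈ s, mm f h u) (mm f h x - ∑ u ∈ s, mm f h u)
      rwa [add_sub_cancel] at this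
    have h2 : ‖∑ u ∈ s, mm f h u‖ ≤ ∑ u ∈ s, ‖mm f h u‖ := norm_sum_le _ _
    linarith
  have hax : 0 ≤ ε * a x := mul_nonneg hε (hh.nn x)
  have hat : 0 ≤ ε * ∑ u ∈ t, a u := mul_nonneg hε (Finset.sum_nonneg fun u _ => hh.nn u)
  have hgoal : (1 + CA + C') * ε * (a x + ∑ u ∈ t, a u) =
      (1 + CA + C') * (ε * a x) + (1 + CA + C') * (ε * ∑ u ∈ t, a u) := by ring
  rw [hgoal]
  rcases le_or_gt ‖mm f h x‖ (C' * (ε * a x)) with h1 | h1
  · have h2 : ∑ u ∈ t, ‖mm f h u‖ ≤ ∑ u ∈ s, ‖mm f h u‖ :=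
      Finset.sum_le_sum_of_subset_of_nonneg hts fun i _ _ => norm_nonneg _
    have h3 := norm_nonneg (mm f h x - ∑ u ∈ s, mm f h u)
    have h4 : ∑ u ∈ s, ‖mm f h u‖ ≤ V + C' * (ε * a x) := by linarith
    nlinarith [mul_nonneg hCA.le hV0, mul_nonneg hC'0.le hV0, mul_nonneg hCA.le hax,
      mul_nonneg hCA.le hat, mul_nonneg hC'0.le hat]
  · have h2 : ∑ u ∈ t.filter (fun u => C' * (ε * a u) < ‖mm f h u‖), ‖mm f h u‖ ≤ CA * V := by
      refine hang _ (List D) s (t.filter fun u => C' * (ε * a u) < ‖mm f h u‖) (mm f h)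
        (mm f h x) ((Finset.filter_subset _ _).trans hts) fun u hu w => ?_
      rw [Finset.mem_filter] at hu
      obtain ⟨hcu, hd⟩ := ht u hu.1
      exact angle he hf hh hx (hs u (hts hu.1)) hε hcx hcu hd h1 hu.2 w
    have h3 : ∑ u ∈ t.filter (fun u => ¬ C' * (ε * a u) < ‖mm f h u‖), ‖mm f h u‖ ≤
        C' * (ε * ∑ u ∈ t, a u) := by
      calc _ ≤ ∑ u ∈ t.filter (fun u => ¬ C' * (ε * a u) < ‖mm f h u‖), C' * (ε * a u) :=
            Finset.sum_le_sum fun u hu => not_lt.1 (Finset.mem_filter.1 hu).2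
        _ ≤ ∑ u ∈ t, C' * (ε * a u) :=
            Finset.sum_le_sum_of_subset_of_nonneg (Finset.filter_subset _ _) fun u _ _ =>
              mul_nonneg hC'0.le (mul_nonneg hε (hh.nn u))
        _ = C' * (ε * ∑ u ∈ t, a u) := by
            rw [Finset.mul_sum, Finset.mul_sum]
    have h4 := Finset.sum_filter_add_sum_filter_not t
      (fun u => C' * (ε * a u) < ‖mm f h u‖) (fun u => ‖mm f h u‖)
    have h5 : 0 ≤ CA * V := mul_nonneg hCA.le hV0
    nlinarith [mul_nonneg hCA.le hat, mul_nonneg hC'0.le hV0, mul_nonneg hCA.le hax,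
      mul_nonneg hC'0.le hax]

end Pool.Agent.CorA
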