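import Pool.Agent.CorA.Targets

/-!
# ALB, block SRS: strong words
-/

set_option autoImplicit false

namespace Pool.Agent.CorA

open Complex Metric Set Filter Topology MeasureTheory
open Pool.Corona91698f Pool.Agent.CorE
open scoped Real BoundedContinuousFunction

namespace SRS_

/-- a sum over words is at most the sum over the levels -/
theorem sum_lev (t : Finset (List D)) (s : Finset ℕ) (F : List D → ℝ)
    (hF : ∀ u : List D, u.length ∈ s → 0 ≤ F u) (ht : ∀ u ∈ t, u.length ∈ s) :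
    ∑ u ∈ t, F u ≤ ∑ l ∈ s, ∑ u ∈ lv l, F u := by
  classical
  rw [← Finset.sum_biUnion]
  · refine Finset.sum_le_sum_of_subset_of_nonneg ?_ ?_
    · intro u hu
      rw [Finset.mem_biUnion]
      exact ⟨u.length, ht u hu, mem_lv.2 rfl⟩
    · intro u hu _
      rw [Finset.mem_biUnion] at hu
      obtain ⟨l, hl, hul⟩ := hu
      exact hF u (by rw [mem_lv.1 hul]; exact hl)
  · intro l _ l' _ hne
    rw [Function.onFun, Finset.disjoint_left]
    intro u hu hu'
    exact hne ((mem_lv.1 hu).symm.trans (mem_lv.1 hu'))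

/-- shifted sums -/
theorem sum_shift (g : ℕ → ℝ) (B : ℝ) (L k : ℕ) (h0 : ∀ l, 0 ≤ g l)
    (hB : ∀ l, l < L + k → g l ≤ B) :
    ∑ l ∈ Finset.range L, (g (l + k) - g l) ≤ k * B := by
  have h1 : ∑ l ∈ Finset.range (k + L), g l =
      ∑ l ∈ Finset.range k, g l + ∑ l ∈ Finset.range L, g (k + l) := Finset.sum_range_add _ _ _
  have h2 : ∑ l ∈ Finset.range (L + k), g l =
      ∑ l ∈ Finset.range L, g l + ∑ l ∈ Finset.range k, g (L + l) := Finset.sum_range_add _ _ _
  rw [add_comm k L] at h1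
  have h3 : ∑ l ∈ Finset.range L, g (l + k) = ∑ l ∈ Finset.range L, g (k + l) :=
    Finset.sum_congr rfl fun l _ => by rw [add_comm]
  have h4 : 0 ≤ ∑ l ∈ Finset.range k, g l := Finset.sum_nonneg fun l _ => h0 l
  have h5 : ∑ l ∈ Finset.range k, g (L + l) ≤ k * B := by
    refine (Finset.sum_le_sum fun l hl => hB (L + l) ?_).trans ?_
    · have := Finset.mem_range.1 hl
      omega
    · rw [Finset.sum_const, Finset.card_range, nsmul_eq_mul]
  rw [Finset.sum_sub_distrib, h3]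
  linarith

theorem pow_bound {N j : ℕ} (hN : 1 ≤ N) (hj : 4 * Real.log N ≤ j) :
    (3 / 4 : ℝ) ^ j * N ≤ 1 := by
  have hN0 : (0 : ℝ) < N := by exact_mod_cast hN
  have h1 : Real.log (3 / 4) ≤ -(1 / 4) := by
    have := Real.log_le_sub_one_of_pos (show (0 : ℝ) < 3 / 4 by norm_num)
    linarith
  have h2 : Real.log ((3 / 4 : ℝ) ^ j * N) ≤ 0 := by
    rw [Real.log_mul (by positivity) hN0.ne', Real.log_pow]
    have h3 : (0 : ℝ) ≤ j := Nat.cast_nonneg j
    nlinarith
  have h3 : (0 : ℝ) < (3 / 4 : ℝ) ^ j * N := by positivity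
  exact (Real.log_nonpos_iff h3.le).1 h2

theorem cm_le {n : ℕ} (f : Fin n → ℂ → ℂ) (h : Fin n → Fin n → ℂ → ℂ) (u : List D)
    (i j : Fin n) : ‖cm u (h i j)‖ ≤ ‖mm f h u‖ := by
  have h1 := PiLp.norm_apply_le (mm f h u) (i, j, none)
  have h2 : (mm f h u) (i, j, none) = cm u (h i j) := by
    unfold mm
    simp
  rw [h2] at h1
  exact h1

end SRS_

open SRS_ in
theorem p_SRS (hGLL : T_GLL) (hMAS : T_MAS) : T_SRS := by
  intro n C₀ hC₀
  obtain ⟨C₁, hC₁, hG⟩ := hGLL
  obtain ⟨C₂, hC₂, hM⟩ := hMAS n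
  set A : ℝ := C₁ * 16 ^ C₁ with hA
  have hA0 : 0 < A := by positivity
  refine ⟨1 + A + 8 * C₀ + A * (2 * C₀ + 8 * (C₂ * C₀)), by
    have : 0 ≤ A * (2 * C₀ + 8 * (C₂ * C₀)) := by positivity
    linarith, ?_⟩
  intro N δ f h a t hN hf hh ht
  classical
  obtain ⟨m1, -, m3⟩ := hM N δ C₀ f h a hf hh
  have hlog : 0 ≤ Real.log N := Real.log_natCast_nonneg N
  set j : ℕ := ⌈4 * Real.log N⌉₊ + 1 with hj
  have hj1 : 1 ≤ j := by omega
  have hj2 : 4 * Real.log N ≤ j := by
    have := Nat.le_ceil (4 * Real.log N)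
    rw [hj]
    push_cast
    linarith
  have hj3 : (j : ℝ) ≤ 4 * Real.log N + 2 := by
    have := Nat.ceil_lt_add_one (show 0 ≤ 4 * Real.log N by linarith)
    rw [hj]
    push_cast
    linarith
  have hpow := pow_bound hN hj2
  -- the words near the root and near the bottom
  have hbot : ∑ u ∈ t.filter (fun u => u = [] ∨ N ≤ u.length + 2 * j), a u ≤
      (2 * j + 1) * C₀ := by
    have h1 := sum_lev (t.filter (fun u => u = [] ∨ N ≤ u.length + 2 * j))
      (insert 0 (Finset.Ico (N - 2 * j) N)) a (fun u _ => hh.nn u) (by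
        intro u hu
        rw [Finset.mem_filter] at hu
        rw [Finset.mem_insert, Finset.mem_Ico]
        rcases hu.2 with h2 | h2
        · left
          rw [h2]
          rfl
        · right
          have := (ht u hu.1).1
          omega)
    refine h1.trans ?_
    have h2 : ∀ l ∈ insert 0 (Finset.Ico (N - 2 * j) N), ∑ u ∈ lv l, a u ≤ C₀ := by
      intro l hl
      rw [Finset.mem_insert, Finset.mem_Ico] at hl
      exact hh.lev l (by omega)
    refine (Finset.sum_le_sum h2).trans ?_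
    rw [Finset.sum_const, nsmul_eq_mul]
    refine mul_le_mul_of_nonneg_right ?_ hC₀.le
    have h3 : (insert 0 (Finset.Ico (N - 2 * j) N)).card ≤ 2 * j + 1 := by
      refine (Finset.card_insert_le _ _).trans ?_
      rw [Nat.card_Ico]
      omega
    exact_mod_cast h3
  -- the other words
  set t' := t.filter (fun u => ¬ (u = [] ∨ N ≤ u.length + 2 * j)) with ht'
  set S : ℕ → List D → ℝ := fun k u => ∑ x ∈ lv k, a (u ++ x) with hS
  set I : List D → ℝ := fun u => ∑ x ∈ lv (2 * j), ‖mm f h (u ++ x)‖ - ‖mm f h u‖ with hI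
  have hS0 : ∀ k u, 0 ≤ S k u := fun k u => Finset.sum_nonneg fun x _ => hh.nn _
  have hI0 : ∀ u : List D, u.length + 2 * j < N → 0 ≤ I u := by
    intro u hu
    have h1 : ‖mm f h u‖ ≤ ∑ x ∈ lv (2 * j), ‖mm f h (u ++ x)‖ := by
      conv_lhs => rw [m3 u (2 * j) hu]
      exact norm_sum_le _ _
    simp only [hI]
    linarith
  have hone : ∀ u ∈ t', a u ≤ A * ((3 / 4) ^ j * (S j u + S (2 * j) u) + (‖mm f h u‖ + I u)) := by
    intro u hu
    rw [ht', Finset.mem_filter, not_or, not_le] at hu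
    obtain ⟨hut, hune, huN⟩ := hu
    have hrhs : 0 ≤ A * ((3 / 4) ^ j * (S j u + S (2 * j) u) + (‖mm f h u‖ + I u)) := by
      have h1 := hS0 j u
      have h2 := hS0 (2 * j) u
      have h3 := hI0 u huN
      positivity
    rcases (hh.nn u).eq_or_lt with h0 | h0
    · rw [← h0]
      exact hrhs
    obtain ⟨i, i', z, hz, hza⟩ := hh.att u (by omega)
    rcases List.eq_nil_or_concat' u with hu0 | ⟨p, d, rfl⟩
    · exact absurd hu0 hune
    have hlen : (p ++ [d]).length = p.length + 1 := by simp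
    rw [hlen] at hza huN
    have hst : a p ≤ 16 * a (p ++ [d]) := by
      have h1 := (ht _ hut).2 1 le_rfl (by rw [hlen]; omega)
      have h2 : (p ++ [d]).take ((p ++ [d]).length - 1) = p := by
        rw [hlen]
        simp
      rw [h2] at h1
      linarith
    have h1 := hG N j p d (h i i') a (a (p ++ [d])) 16 z hj1 huN (hh.diff i i')
      (fun v hv w hw => hh.up v hv i i' w hw) h0 (by norm_num) hz hza hst
    refine h1.trans ?_
    rw [← hA]
    refine mul_le_mul_of_nonneg_left ?_ hA0.le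
    have h2 : ∑ x ∈ lv (2 * j), ‖cm (p ++ [d] ++ x) (h i i')‖ ≤
        ‖mm f h (p ++ [d])‖ + I (p ++ [d]) := by
      have h3 : ∑ x ∈ lv (2 * j), ‖cm (p ++ [d] ++ x) (h i i')‖ ≤
          ∑ x ∈ lv (2 * j), ‖mm f h (p ++ [d] ++ x)‖ :=
        Finset.sum_le_sum fun x _ => cm_le f h _ i i'
      simp only [hI]
      linarith
    simp only [hS]
    linarith
  have hlt : ∀ u ∈ t', u.length ∈ Finset.range (N - 2 * j) := by
    intro u hu
    rw [ht', Finset.mem_filter, not_or, not_le] at hu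
    rw [Finset.mem_range]
    omega
  have hSk : ∀ k, k ≤ 2 * j → ∑ u ∈ t', S k u ≤ N * C₀ := by
    intro k hk
    refine (sum_lev t' (Finset.range (N - 2 * j)) (S k) (fun u _ => hS0 k u) hlt).trans ?_
    have h1 : ∀ l ∈ Finset.range (N - 2 * j), ∑ u ∈ lv l, S k u ≤ C₀ := by
      intro l hl
      rw [Finset.mem_range] at hl
      simp only [hS]
      rw [← sum_lv_add l k a]
      exact hh.lev _ (by omega)
    refine (Finset.sum_le_sum h1).trans ?_
    rw [Finset.sum_const, Finset.card_range, nsmul_eq_mul]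
    refine mul_le_mul_of_nonneg_right ?_ hC₀.le
    exact_mod_cast Nat.sub_le _ _
  have hIs : ∑ u ∈ t', I u ≤ 2 * j * (C₂ * C₀) := by
    refine (sum_lev t' (Finset.range (N - 2 * j)) I (fun u hu => hI0 u (by
      rw [Finset.mem_range] at hu
      omega)) hlt).trans ?_
    set g : ℕ → ℝ := fun l => ∑ u ∈ lv l, ‖mm f h u‖ with hg
    have h1 : ∀ l ∈ Finset.range (N - 2 * j), ∑ u ∈ lv l, I u = g (l + 2 * j) - g l := by
      intro l _
      simp only [hI, hg]
      rw [Finset.sum_sub_distrib, sum_lv_add l (2 * j) fun u => ‖mm f h u‖]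
    rw [Finset.sum_congr rfl h1]
    rcases le_or_gt N (2 * j) with h2 | h2
    · have h3 : N - 2 * j = 0 := by omega
      rw [h3, Finset.range_zero, Finset.sum_empty]
      positivity
    · have h3 := sum_shift g (C₂ * C₀) (N - 2 * j) (2 * j)
        (fun l => Finset.sum_nonneg fun u _ => norm_nonneg _) (by
          intro l hl
          have hlN : l < N := by omega
          refine (Finset.sum_le_sum fun u hu => m1 u (by rw [mem_lv.1 hu]; exact hlN)).trans ?_
          rw [← Finset.mul_sum]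
          exact mul_le_mul_of_nonneg_left (hh.lev l hlN) (by linarith))
      push_cast at h3
      exact h3
  have hrest : ∑ u ∈ t', a u ≤ A * (2 * C₀ + (∑ u ∈ t', ‖mm f h u‖ + 2 * j * (C₂ * C₀))) := by
    refine (Finset.sum_le_sum hone).trans ?_
    rw [← Finset.mul_sum]
    refine mul_le_mul_of_nonneg_left ?_ hA0.le
    rw [Finset.sum_add_distrib, Finset.sum_add_distrib, ← Finset.mul_sum,
      Finset.sum_add_distrib]
    have h1 := hSk j (by omega)
    have h2 := hSk (2 * j) le_rfl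
    have h3 : (0 : ℝ) < (3 / 4) ^ j := by positivity
    have h4 : (3 / 4 : ℝ) ^ j * (∑ u ∈ t', S j u + ∑ u ∈ t', S (2 * j) u) ≤ 2 * C₀ := by
      calc (3 / 4 : ℝ) ^ j * (∑ u ∈ t', S j u + ∑ u ∈ t', S (2 * j) u)
          ≤ (3 / 4 : ℝ) ^ j * (N * C₀ + N * C₀) := by gcongr
        _ = 2 * (((3 / 4 : ℝ) ^ j * N) * C₀) := by ring
        _ ≤ 2 * (1 * C₀) := by gcongr
        _ = 2 * C₀ := by ring
    linarith
  have hmm : ∑ u ∈ t', ‖mm f h u‖ ≤ ∑ u ∈ t, ‖mm f h u‖ :=
    Finset.sum_le_sum_of_subset_of_nonneg (Finset.filter_subset _ _)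
      fun u _ _ => norm_nonneg _
  have hsplit := Finset.sum_filter_add_sum_filter_not t
    (fun u => u = [] ∨ N ≤ u.length + 2 * j) a
  rw [← ht'] at hsplit
  rw [← hsplit]
  have hmm0 : 0 ≤ ∑ u ∈ t, ‖mm f h u‖ := Finset.sum_nonneg fun u _ => norm_nonneg _
  have e1 : (2 * (j : ℝ) + 1) * C₀ ≤ 8 * (1 + Real.log N) * C₀ :=
    mul_le_mul_of_nonneg_right (by linarith) hC₀.le
  have e2 : A * (2 * j * (C₂ * C₀)) ≤ A * (8 * (1 + Real.log N) * (C₂ * C₀)) := by
    refine mul_le_mul_of_nonneg_left ?_ hA0.le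
    refine mul_le_mul_of_nonneg_right (by linarith) (by positivity)
  have e3 : A * ∑ u ∈ t', ‖mm f h u‖ ≤ A * ∑ u ∈ t, ‖mm f h u‖ :=
    mul_le_mul_of_nonneg_left hmm hA0.le
  have e4 : A * (2 * C₀) ≤ A * (2 * C₀) * (1 + Real.log N) := by
    have : 0 ≤ A * (2 * C₀) * Real.log N := by positivity
    linarith
  have e5 : 0 ≤ (1 + A) * (1 + Real.log N) := by positivity
  have e6 : 0 ≤ (1 + 8 * C₀ + A * (2 * C₀ + 8 * (C₂ * C₀))) * ∑ u ∈ t, ‖mm f h u‖ := by
    positivity
  calc ∑ u ∈ t.filter (fun u => u = [] ∨ N ≤ u.length + 2 * j), a u + ∑ u ∈ t', a u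
      ≤ (2 * j + 1) * C₀ + A * (2 * C₀ + (∑ u ∈ t', ‖mm f h u‖ + 2 * j * (C₂ * C₀))) :=
        add_le_add hbot hrest
    _ = (2 * j + 1) * C₀ + A * (2 * C₀) + A * ∑ u ∈ t', ‖mm f h u‖ +
        A * (2 * j * (C₂ * C₀)) := by ring
    _ ≤ 8 * (1 + Real.log N) * C₀ + A * (2 * C₀) * (1 + Real.log N) +
        A * ∑ u ∈ t, ‖mm f h u‖ + A * (8 * (1 + Real.log N) * (C₂ * C₀)) := by linarith
    _ ≤ (1 + A + 8 * C₀ + A * (2 * C₀ + 8 * (C₂ * C₀))) * (1 + Real.log N) +
        (1 + A + 8 * C₀ + A * (2 * C₀ + 8 * (C₂ * C₀))) * ∑ u ∈ t, ‖mm f h u‖ := by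
      linarith

end Pool.Agent.CorA
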