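import Pool.Agent.CorA.P_VAR
import Pool.Agent.CorA.P_CST

/-!
# The total size of the strong resets
-/

set_option autoImplicit false

namespace Pool.Agent.CorA

open Complex Metric Set Filter Topology MeasureTheory
open Pool.Corona91698f Pool.Agent.CorE
open scoped Real BoundedContinuousFunction

namespace SRT_

theorem sum_union_le {ι : Type} [DecidableEq ι] (A B : Finset ι) (g : ι → ℝ) (hg : ∀ i, 0 ≤ g i) :
    ∑ i ∈ A ∪ B, g i ≤ ∑ i ∈ A, g i + ∑ i ∈ B, g i := by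
  have h := Finset.sum_union_inter (s₁ := A) (s₂ := B) (f := g)
  have h2 : 0 ≤ ∑ i ∈ A ∩ B, g i := Finset.sum_nonneg fun i _ => hg i
  linarith

/-- The word of the constant of the parent of a reset. -/
theorem anc {n N : ℕ} {F : List D → Fin n → ℂ} {nc : List D → Prop} {tol : List D → ℝ}
    {Cs : List D → Fin n → ℂ} (hCs : Rule F nc tol Cs) {u : List D} (hu : Reset F nc tol Cs u)
    (hl : u.length ≤ N - 1) : ∃ x, x.length ≤ N - 1 ∧ RR F nc tol Cs x ∧ ¬ nc x ∧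
      u ∈ nxt N (RR F nc tol Cs) x ∧ tol u < dist (F u) (F x) := by
  obtain ⟨x, h1, h2, h3, h4, h5⟩ := (p_CST n F nc tol).2 Cs hCs u.dropLast
  obtain ⟨u1, u2, u3⟩ := hu
  have hlen : u.dropLast.length + 1 = u.length := by
    rw [List.length_dropLast]
    have := List.length_pos_iff.2 u1
    omega
  have hxl := h1.length_le
  have hpu : u.dropLast <+: u := List.dropLast_prefix u
  refine ⟨x, by omega, h2, ?_, ?_, ?_⟩
  · by_cases h : x = u.dropLast
    · rw [h]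
      exact u2
    · exact h5 x (List.prefix_refl _) h1 h
  · rw [VAR_.mem_nxt]
    refine ⟨hl, h1.trans hpu, ?_, Or.inr (Or.inr ⟨u1, u2, u3⟩), ?_⟩
    · intro h
      rw [h] at hlen
      rw [← h] at hxl
      rw [h] at hxl
      omega
    · intro t t1 t2 t3
      have e : u = u.dropLast ++ [u.getLast u1] := (List.dropLast_append_getLast u1).symm
      rw [e] at t2
      rcases List.prefix_concat_iff.1 t2 with h | h
      · right
        rw [h]
        exact e.symm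
      · left
        exact h4 t t1 h t3
  · rw [← h3]
    exact u3

end SRT_

open SRT_

open Classical in
theorem p_SRT (hSRB : T_SRB) (hSRS : T_SRS) (hMAS : T_MAS) : T_SRT := by
  intro n C₀ e hC₀ he
  obtain ⟨C1, hC1, h1⟩ := hSRS n C₀ hC₀
  obtain ⟨C2, hC2, h2⟩ := hSRB n (e / 4) (by linarith)
  obtain ⟨C3, hC3, h3⟩ := hMAS n
  have hC1' : 0 < C1 := by linarith
  have hC2' : 0 < C2 := by linarith
  have hC3' : 0 < C3 := by linarith
  have hK : 0 < C1 * C2 * C3 * C₀ := by positivity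
  refine ⟨2 * C1 + 2 * (C1 * C2 * C3 * C₀) + C₀ + 1, 1 / (4 * (C1 * C2)), by linarith,
    by positivity, ?_⟩
  intro N δ ε f h a tol Cs hN hf hh hε hε1 htol hCs
  obtain ⟨m1, m2, m3⟩ := h3 N δ C₀ f h a hf hh
  have hnn := hh.nn
  set nc : List D → Prop := NC f ε with hnc
  set R : List D → Prop := RR (FF f) nc tol Cs with hR
  set T : Finset (List D) := (wd (N - 1)).filter
    (fun u => Reset (FF f) nc tol Cs u ∧ ¬ nc u ∧ Strong a u) with hT
  set S1 : Finset (List D) := (wd (N - 1)).filter (fun u => nc u.dropLast) with hS1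
  set S2 : Finset (List D) := (wd (N - 1)).filter
    (fun u => Reset (FF f) nc tol Cs u ∧ ¬ nc u ∧ ¬ Strong a u) with hS2
  set X : Finset (List D) := (wd (N - 1)).filter R with hX
  set X' : Finset (List D) := X.filter (fun x => ¬ nc x) with hX'
  have hmT : ∀ u ∈ T, u.length ≤ N - 1 ∧ Reset (FF f) nc tol Cs u ∧ ¬ nc u ∧ Strong a u := by
    intro u hu
    rw [hT, Finset.mem_filter, mem_wd] at hu
    exact hu
  have hmX : ∀ x ∈ X', x.length ≤ N - 1 ∧ R x ∧ ¬ nc x := by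
    intro x hx
    rw [hX', Finset.mem_filter, hX, Finset.mem_filter, mem_wd] at hx
    exact ⟨hx.1.1, hx.1.2, hx.2⟩
  -- the tree decomposition of `T`
  have hTU : T = X'.biUnion fun x => T.filter fun u => u ∈ nxt N R x := by
    ext u
    rw [Finset.mem_biUnion]
    constructor
    · intro hu
      obtain ⟨x, x1, x2, x3, x4, -⟩ := anc hCs (hmT u hu).2.1 (hmT u hu).1
      refine ⟨x, ?_, Finset.mem_filter.2 ⟨hu, x4⟩⟩
      rw [hX', Finset.mem_filter, hX, Finset.mem_filter, mem_wd]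
      exact ⟨⟨x1, x2⟩, x3⟩
    · rintro ⟨x, -, hu⟩
      exact (Finset.mem_filter.1 hu).1
  have hdis : Set.PairwiseDisjoint (↑X' : Set (List D))
      (fun x => T.filter fun u => u ∈ nxt N R x) := by
    intro x hx x' hx' hxx
    rw [Function.onFun, Finset.disjoint_left]
    intro u hu hu'
    exact hxx (VAR_.disj_nxt N R (hmX x hx).2.1 (hmX x' hx').2.1 (Finset.mem_filter.1 hu).2
      (Finset.mem_filter.1 hu').2)
  have hsumT : ∀ g : List D → ℝ, ∑ u ∈ T, g u =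
      ∑ x ∈ X', ∑ u ∈ T.filter (fun u => u ∈ nxt N R x), g u := by
    intro g
    conv_lhs => rw [hTU]
    exact Finset.sum_biUnion hdis
  -- the estimate for one `x`
  have hone : ∀ x ∈ X', ∑ u ∈ T.filter (fun u => u ∈ nxt N R x), ‖mm f h u‖ ≤
      C2 * (∑ u ∈ nxt N R x, ‖mm f h u‖ + ‖mm f h x - ∑ u ∈ nxt N R x, mm f h u‖ -
        ‖mm f h x‖) + C2 * ε * (a x + ∑ u ∈ T.filter (fun u => u ∈ nxt N R x), a u) := by
    intro x hx
    obtain ⟨x1, x2, x3⟩ := hmX x hx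
    refine h2 N δ C₀ ε f h a x (nxt N R x) (T.filter fun u => u ∈ nxt N R x) hf hh hε.le ?_
      (by omega) ?_ x3 ?_
    · intro u hu
      exact (Finset.mem_filter.1 hu).2
    · intro u hu
      have := (VAR_.mem_nxt.1 hu).1
      omega
    · intro u hu
      obtain ⟨u1, u2⟩ := Finset.mem_filter.1 hu
      obtain ⟨v1, v2, v3, v4⟩ := hmT u u1
      refine ⟨v3, ?_⟩
      obtain ⟨y, y1, y2, y3, y4, y5⟩ := anc hCs v2 v1
      have hxy : x = y := VAR_.disj_nxt N R x2 y2 u2 y4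
      rw [hxy, ← htol u v4]
      exact y5.le
  have hV0 : ∀ x, 0 ≤ ∑ u ∈ nxt N R x, ‖mm f h u‖ +
      ‖mm f h x - ∑ u ∈ nxt N R x, mm f h u‖ - ‖mm f h x‖ := by
    intro x
    have e1 : ‖mm f h x‖ ≤ ‖mm f h x - ∑ u ∈ nxt N R x, mm f h u‖ +
        ‖∑ u ∈ nxt N R x, mm f h u‖ := by
      have := norm_add_le (mm f h x - ∑ u ∈ nxt N R x, mm f h u) (∑ u ∈ nxt N R x, mm f h u)
      rwa [sub_add_cancel] at this
    have e2 : ‖∑ u ∈ nxt N R x, mm f h u‖ ≤ ∑ u ∈ nxt N R x, ‖mm f h u‖ := norm_sum_le _ _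
    linarith
  -- the variation
  have hvar : ∑ x ∈ X', (∑ u ∈ nxt N R x, ‖mm f h u‖ +
      ‖mm f h x - ∑ u ∈ nxt N R x, mm f h u‖ - ‖mm f h x‖) ≤ C3 * C₀ := by
    have v1 := p_VAR _ N (mm f h) R hN (Or.inl rfl) m2
    have v2 : ∑ x ∈ X', (∑ u ∈ nxt N R x, ‖mm f h u‖ +
        ‖mm f h x - ∑ u ∈ nxt N R x, mm f h u‖ - ‖mm f h x‖) ≤
        ∑ x ∈ X, (∑ u ∈ nxt N R x, ‖mm f h u‖ +
        ‖mm f h x - ∑ u ∈ nxt N R x, mm f h u‖ - ‖mm f h x‖) :=
      Finset.sum_le_sum_of_subset_of_nonneg (Finset.filter_subset _ _) fun x _ _ => hV0 x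
    have v3 : ∑ v ∈ lv (N - 1), ‖mm f h v‖ ≤ C3 * C₀ := by
      calc ∑ v ∈ lv (N - 1), ‖mm f h v‖ ≤ ∑ v ∈ lv (N - 1), C3 * a v :=
            Finset.sum_le_sum fun v hv => m1 v (by
              rw [mem_lv] at hv
              omega)
        _ = C3 * ∑ v ∈ lv (N - 1), a v := by rw [Finset.mul_sum]
        _ ≤ C3 * C₀ := mul_le_mul_of_nonneg_left (hh.lev (N - 1) (by omega)) hC3'.le
    exact v2.trans (v1.trans v3)
  -- the sizes of the elements of `X'`
  have hsub : X' ⊆ (({([] : List D)} ∪ S1) ∪ S2) ∪ T := by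
    intro x hx
    obtain ⟨x1, x2, x3⟩ := hmX x hx
    rw [Finset.mem_union, Finset.mem_union, Finset.mem_union, Finset.mem_singleton]
    rcases x2 with h | h | h
    · exact Or.inl (Or.inl (Or.inl h))
    · refine Or.inl (Or.inl (Or.inr ?_))
      rw [hS1, Finset.mem_filter, mem_wd]
      exact ⟨x1, h⟩
    · by_cases hs : Strong a x
      · right
        rw [hT, Finset.mem_filter, mem_wd]
        exact ⟨x1, h, x3, hs⟩
      · refine Or.inl (Or.inr ?_)
        rw [hS2, Finset.mem_filter, mem_wd]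
        exact ⟨x1, h, x3, hs⟩
  have hA : ∑ x ∈ X', a x ≤ C₀ + ∑ u ∈ S1, a u + ∑ u ∈ S2, a u + ∑ u ∈ T, a u := by
    have a0 : a [] ≤ C₀ := by
      have := hh.lev 0 (by omega)
      simpa [lv] using this
    have a1 := Finset.sum_le_sum_of_subset_of_nonneg hsub fun x _ _ => hnn x
    have a2 := sum_union_le (({([] : List D)} ∪ S1) ∪ S2) T a hnn
    have a3 := sum_union_le ({([] : List D)} ∪ S1) S2 a hnn
    have a4 := sum_union_le {([] : List D)} S1 a hnn
    rw [Finset.sum_singleton] at a4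
    linarith
  -- the sum over `T` of the norms
  have hM : ∑ u ∈ T, ‖mm f h u‖ ≤ C2 * (C3 * C₀) +
      C2 * ε * (∑ x ∈ X', a x + ∑ u ∈ T, a u) := by
    rw [hsumT (fun u => ‖mm f h u‖)]
    refine (Finset.sum_le_sum hone).trans ?_
    rw [Finset.sum_add_distrib, ← Finset.mul_sum, ← Finset.mul_sum, Finset.sum_add_distrib,
      ← hsumT a]
    have := mul_le_mul_of_nonneg_left hvar hC2'.le
    linarith
  have hS := h1 N δ f h a T hN hf hh (fun u hu => ⟨by
    have := (hmT u hu).1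
    omega, (hmT u hu).2.2.2⟩)
  have hL : 0 ≤ Real.log N := Real.log_natCast_nonneg N
  have hP1 : 0 ≤ ∑ u ∈ S1, a u := Finset.sum_nonneg fun u _ => hnn u
  have hP2 : 0 ≤ ∑ u ∈ S2, a u := Finset.sum_nonneg fun u _ => hnn u
  have hP3 : 0 ≤ ∑ u ∈ T, a u := Finset.sum_nonneg fun u _ => hnn u
  have hq : C1 * C2 * ε ≤ 1 / 4 := by
    rw [le_div_iff₀ (by positivity)] at hε1
    linarith
  have hq0 : 0 ≤ C1 * C2 * ε := by positivity
  generalize ∑ u ∈ S1, a u = P1 at *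
  generalize ∑ u ∈ S2, a u = P2 at *
  generalize ∑ u ∈ T, a u = SR at *
  generalize ∑ x ∈ X', a x = A at *
  generalize ∑ u ∈ T, ‖mm f h u‖ = M at *
  have k1 : C1 * M ≤ C1 * (C2 * (C3 * C₀) + C2 * ε * (A + SR)) :=
    mul_le_mul_of_nonneg_left hM hC1'.le
  have k2 : C1 * C2 * ε * (A + SR) ≤ C1 * C2 * ε * (C₀ + P1 + P2 + 2 * SR) :=
    mul_le_mul_of_nonneg_left (by linarith) hq0
  have k3 : C1 * C2 * ε * (C₀ + P1 + P2 + 2 * SR) ≤ 1 / 4 * (C₀ + P1 + P2 + 2 * SR) :=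
    mul_le_mul_of_nonneg_right hq (by linarith)
  have k4 : SR ≤ 2 * C1 * (1 + Real.log N) + 2 * (C1 * C2 * C3 * C₀) + C₀ / 2 +
      (P1 + P2) / 2 := by
    linarith
  have k5 : 0 ≤ (2 * (C1 * C2 * C3 * C₀) + C₀ + 1) * Real.log N := by positivity
  have k6 : 0 ≤ (2 * C1 + 2 * (C1 * C2 * C3 * C₀) + C₀) * (P1 + P2) := by positivity
  nlinarith

end Pool.Agent.CorA
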