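import Pool.Agent.CorA.Targets
import Pool.Agent.CorE.P_TAI

/-!
# ALB, block TST: test functions modulo powers of `W`
-/

set_option autoImplicit false

namespace Pool.Agent.CorA

open Complex Metric Set Filter Topology MeasureTheory
open Pool.Corona91698f Pool.Agent.CorE
open scoped Real BoundedContinuousFunction

namespace TST_

theorem keep (x : List D) {z : ℂ} (hz : 1 ≤ dist z ctr) : 1 ≤ dist (Psi x z) ctr := by
  induction x generalizing z with
  | nil => simpa using hz
  | cons d x ih =>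
    rw [Psi_cons]
    have h1 := dist_psi_ge d z
    exact ih (by linarith)

/-- Going up the tree. -/
theorem up (v : List D) {z : ℂ} (h : dist (Psi v z) ctr ≤ 73 / 100) :
    dist z ctr ≤ 73 / 100 := by
  induction v generalizing z with
  | nil => simpa using h
  | cons d v ih =>
    rw [Psi_cons] at h
    have h1 := ih h
    have h2 := dist_le_of_psi d z
    linarith

theorem far (v : List D) : ∀ (q : List D) (z : ℂ), dist (Psi q z) ctr ≤ 73 / 100 →
    v.length ≤ q.length → ¬ v <+: q → 1 ≤ dist (Psi v z) ctr := by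
  induction v with
  | nil =>
    intro q z _ _ h
    exact absurd (List.nil_prefix) h
  | cons d v ih =>
    intro q z hq hl h
    cases q with
    | nil => simp at hl
    | cons d' q =>
      rw [Psi_cons] at hq ⊢
      by_cases hd : d = d'
      · subst hd
        exact ih q (psi d z) hq (by simpa using hl)
          fun h' => h ((List.cons_prefix_cons).2 ⟨rfl, h'⟩)
      · refine keep v ?_
        by_contra hlt
        push Not at hlt
        have h1 := up q hq
        exact hd (psi_disj hlt (by linarith))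

theorem desc (n : ℕ) {z : ℂ} (hz : z ∈ squareCantor) :
    ∃ x : List D, x.length = n ∧ Psi x z ∈ squareCantor := by
  induction n generalizing z with
  | zero => exact ⟨[], rfl, hz⟩
  | succ n ih =>
    obtain ⟨d, hd⟩ := exists_psi_mem hz
    obtain ⟨x, hx, hx'⟩ := ih hd
    exact ⟨d :: x, by rw [List.length_cons, hx], hx'⟩

theorem Psi_sub' (v : List D) (z w : ℂ) : Psi v z - Psi v w = 3 ^ v.length * (z - w) := by
  induction v generalizing z w with
  | nil => simp
  | cons d v ih =>
    rw [Psi_cons, Psi_cons, ih, psi_sub, List.length_cons, pow_succ]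
    ring

/-- The separation of the points from the circles. -/
theorem sepA {N : ℕ} {u : List D} {z₀ ζ : ℂ}
    (h : (u.length < N ∧ Psi u z₀ ∈ nodeX) ∨ (u.length = N ∧ dist (Psi u z₀) ctr = 77 / 100))
    (hζ : ζ ∈ Gm N) : 3 / 1000 ≤ dist (Psi u ζ) (Psi u z₀) := by
  obtain ⟨q, hq, hqd⟩ := hζ
  rw [mem_lv] at hq
  have hle : dist (Psi u z₀) ctr ≤ 80 / 100 := by
    rcases h with ⟨-, h⟩ | ⟨-, h⟩
    · exact h.1
    · rw [h]; norm_num
  have hlen : u.length ≤ q.length := by
    rcases h with ⟨h, -⟩ | ⟨h, -⟩ <;> omega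
  by_cases hp : u <+: q
  · obtain ⟨x, rfl⟩ := hp
    rw [Psi_append] at hqd
    rcases h with ⟨h, h'⟩ | ⟨h, h'⟩
    · cases x with
      | nil =>
        simp only [List.append_nil] at hq
        omega
      | cons e x =>
        rw [Psi_cons] at hqd
        have h1 := up x hqd.le
        have h2 := h'.2 e
        have h3 := dist_psi e (Psi u ζ) (Psi u z₀)
        have h4 := dist_triangle (psi e (Psi u z₀)) (psi e (Psi u ζ)) ctr
        rw [dist_comm (psi e (Psi u z₀)) (psi e (Psi u ζ))] at h4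
        linarith
    · have hx : x = [] := by
        rw [List.length_append] at hq
        exact List.length_eq_zero_iff.1 (by omega)
      subst hx
      rw [Psi_nil] at hqd
      have h4 := dist_triangle (Psi u z₀) (Psi u ζ) ctr
      rw [dist_comm (Psi u z₀) (Psi u ζ)] at h4
      linarith
  · have h1 := far u q ζ hqd.le hlen hp
    have h4 := dist_triangle (Psi u ζ) (Psi u z₀) ctr
    linarith

theorem th_half {z : ℂ} (h : dist z ctr ≤ 1) : 1 / 2 ≤ th z := by
  unfold th
  rw [one_div]
  have h0 : 0 ≤ dist z ctr := dist_nonneg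
  apply inv_anti₀ (by positivity)
  nlinarith

theorem rk_le_th (z : ℂ) : rk 3 z ≤ th z := by
  unfold rk th
  have h0 : 0 ≤ dist z ctr := dist_nonneg
  apply inv_anti₀ (by positivity)
  nlinarith [mul_nonneg h0 h0, mul_nonneg (mul_nonneg h0 h0) h0]

theorem isA_zero (N : ℕ) : IsA N (fun _ => 0) :=
  ⟨differentiableOn_const _, 0, 0, fun z _ => by simp⟩

theorem notMem {N : ℕ} {p : List D} {ζ : ℂ} (hp : p.length ≤ N)
    (hζ : ζ ∈ OmR (727 / 1000) N) : Psi p ζ ∉ squareCantor := by
  intro hmem
  obtain ⟨x, hx, hx'⟩ := desc (N - p.length) hmem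
  have h1 : p ++ x ∈ lv N := by
    rw [mem_lv, List.length_append, hx]
    omega
  have h2 := hζ (p ++ x) h1
  rw [Psi_append] at h2
  have h3 := squareCantor_dist' hx'
  linarith

end TST_

open TST_ in
/-- **TST**: test functions. -/
theorem p_TST : T_TST := by
  obtain ⟨C₂, hC₂, hT⟩ := p_TAI 2
  set K : ℝ := 7922 + 7922 ^ 2 with hK
  have hKpos : 1 ≤ K := by rw [hK]; norm_num
  refine ⟨700 + 60 * C₂ * K, by positivity, ?_⟩
  intro N u z₀ hcond
  have hC : 0 ≤ 60 * C₂ * K := by positivity
  rcases List.eq_nil_or_concat u with rfl | ⟨p, d, rfl⟩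
  · refine ⟨fun _ => 0, isA_zero N, fun ζ hζ => ?_⟩
    have h1 := sepA hcond hζ
    rw [Psi_nil, Psi_nil] at h1
    obtain ⟨q, hq, hqd⟩ := hζ
    have h2 := up q hqd.le
    have h3 : 1 / 2 ≤ th ζ := th_half (by linarith)
    simp only [List.length_nil, pow_zero, one_mul, sub_zero, List.dropLast_nil, Psi_nil]
    rw [norm_inv, ← dist_eq_norm]
    have h4 : (dist ζ z₀)⁻¹ ≤ (3 / 1000 : ℝ)⁻¹ := inv_anti₀ (by norm_num) h1
    have h5 : (3 / 1000 : ℝ)⁻¹ ≤ 350 := by norm_num
    nlinarith
  · rw [List.concat_eq_append] at hcond ⊢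
    rw [List.dropLast_concat]
    have hple : p.length ≤ N := by
      rcases hcond with ⟨h, -⟩ | ⟨h, -⟩ <;>
      · rw [List.length_append] at h
        omega
    have hle : dist (Psi (p ++ [d]) z₀) ctr ≤ 80 / 100 := by
      rcases hcond with ⟨-, h⟩ | ⟨-, h⟩
      · exact h.1
      · rw [h]; norm_num
    set y₀ : ℂ := Psi p z₀ with hy₀
    have hy : dist y₀ ctr ≤ 7382 / 10000 := by
      rw [Psi_snoc] at hle
      have := dist_le_of_psi d y₀
      linarith
    set F : ℂ → ℂ := fun y => (1 / 3) * (y - y₀)⁻¹ with hF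
    have hdist : ∀ y : ℂ, 75 / 100 < dist y ctr → 118 / 10000 ≤ dist y y₀ := by
      intro y h
      have := dist_triangle y y₀ ctr
      linarith
    have hne : ∀ y : ℂ, 75 / 100 < dist y ctr → y - y₀ ≠ 0 := by
      intro y h h0
      have h1 := hdist y h
      rw [dist_eq_norm, h0, norm_zero] at h1
      linarith
    have hFd : DifferentiableOn ℂ F {z | (75 / 100 : ℝ) < dist z ctr} := by
      intro y hy'
      exact (((differentiableAt_id.sub_const y₀).inv (hne y hy')).const_mul
        _).differentiableWithinAt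
    have hFb : ∀ z, (75 / 100 : ℝ) < dist z ctr → ‖F z‖ ≤ 30 := by
      intro y hy'
      have h1 := hdist y hy'
      rw [hF]
      simp only
      rw [norm_mul, norm_inv, ← dist_eq_norm]
      have h4 : (dist y y₀)⁻¹ ≤ (118 / 10000 : ℝ)⁻¹ := inv_anti₀ (by norm_num) h1
      have h5 : ‖(1 / 3 : ℂ)‖ = 1 / 3 := by norm_num
      have h6 : (118 / 10000 : ℝ)⁻¹ ≤ 90 := by norm_num
      rw [h5]
      linarith
    have hFt : Tendsto F (cocompact ℂ) (𝓝 0) := by
      have h1 : Tendsto (fun y : ℂ => (y - y₀)⁻¹) (cocompact ℂ) (𝓝 0) := by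
        refine tendsto_inv₀_cobounded.comp ?_
        rw [Metric.cobounded_eq_cocompact]
        exact (Homeomorph.subRight y₀).isClosedEmbedding.tendsto_cocompact
      have h2 := h1.const_mul (1 / 3 : ℂ)
      rwa [mul_zero] at h2
    obtain ⟨b, hb, hbT⟩ := hT F 30 (by norm_num) hFd hFb hFt
    have hTb : ∀ y : ℂ, ‖∑ k : Fin 2, b k * W y ^ (k.val + 1)‖ ≤ 30 * C₂ * K := by
      intro y
      rw [Fin.sum_univ_two]
      have h1 := norm_add_le (b 0 * W y ^ ((0 : Fin 2).val + 1)) (b 1 * W y ^ ((1 : Fin 2).val + 1))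
      rw [norm_mul, norm_mul, norm_pow, norm_pow] at h1
      have h2 := hb 0
      have h3 := hb 1
      have h4 := W_norm y
      have h5 : ‖b 0‖ * ‖W y‖ ^ ((0 : Fin 2).val + 1) ≤ C₂ * 30 * 7922 ^ 1 := by
        have e : (0 : Fin 2).val + 1 = 1 := rfl
        rw [e]
        gcongr
      have h6 : ‖b 1‖ * ‖W y‖ ^ ((1 : Fin 2).val + 1) ≤ C₂ * 30 * 7922 ^ 2 := by
        have e : (1 : Fin 2).val + 1 = 2 := rfl
        rw [e]
        gcongr
      calc _ ≤ _ := h1
        _ ≤ C₂ * 30 * 7922 ^ 1 + C₂ * 30 * 7922 ^ 2 := add_le_add h5 h6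
        _ = 30 * C₂ * K := by rw [hK]; ring
    refine ⟨fun ζ => ∑ k : Fin 2, b k * W (Psi p ζ) ^ (k.val + 1), ⟨?_, ?_⟩, ?_⟩
    · intro ζ hζ
      have h1 := notMem hple hζ
      have h2 : DifferentiableAt ℂ (fun ζ => W (Psi p ζ)) ζ :=
        DifferentiableAt.comp (g := W) (f := Psi p) ζ (W_differentiableAt h1)
          (differentiable_Psi p ζ)
      exact (DifferentiableAt.fun_sum fun k _ =>
        ((h2.pow (k.val + 1)).const_mul (b k))).differentiableWithinAt
    · exact ⟨30 * C₂ * K, 0, fun z _ => hTb _⟩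
    · intro ζ hζ
      have hs := sepA hcond hζ
      have hid : (1 / 3 : ℂ) ^ (p ++ [d]).length * (ζ - z₀)⁻¹ = F (Psi p ζ) := by
        rw [hF]
        simp only
        rw [hy₀, Psi_sub', List.length_append, List.length_singleton, pow_succ, mul_inv,
          one_div, inv_pow]
        ring
      rw [hid]
      rcases le_or_gt (76 / 100 : ℝ) (dist (Psi p ζ) ctr) with h | h
      · have h1 := hbT (Psi p ζ) h
        have h2 := rk_le_th (Psi p ζ)
        have h3 := th_pos (Psi p ζ)
        calc _ ≤ C₂ * 30 * rk (2 + 1) (Psi p ζ) := h1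
          _ ≤ C₂ * 30 * th (Psi p ζ) := by gcongr
          _ ≤ (700 + 60 * C₂ * K) * th (Psi p ζ) := by
            gcongr
            nlinarith
      · have h1 : 1 / 2 ≤ th (Psi p ζ) := th_half (by linarith)
        have h2 : ‖F (Psi p ζ)‖ ≤ 350 := by
          rw [Psi_snoc, Psi_snoc, dist_psi] at hs
          rw [hF]
          simp only
          rw [norm_mul, norm_inv, ← dist_eq_norm]
          have h4 : (dist (Psi p ζ) y₀)⁻¹ ≤ (1 / 1000 : ℝ)⁻¹ :=
            inv_anti₀ (by norm_num) (by linarith)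
          have h5 : ‖(1 / 3 : ℂ)‖ = 1 / 3 := by norm_num
          have h6 : (1 / 1000 : ℝ)⁻¹ ≤ 1000 := by norm_num
          rw [h5]
          linarith
        have h3 := norm_sub_le (F (Psi p ζ)) (∑ k : Fin 2, b k * W (Psi p ζ) ^ (k.val + 1))
        have h4 := hTb (Psi p ζ)
        nlinarith

end Pool.Agent.CorA
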