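import Pool.Agent.CorA.Targets

/-!
# A linear functional against the variation
-/

set_option autoImplicit false

namespace Pool.Agent.CorA

open Complex Metric Set Filter Topology MeasureTheory
open Pool.Corona91698f Pool.Agent.CorE
open scoped Real BoundedContinuousFunction

namespace VEC_

variable {E : Type} [NormedAddCommGroup E] [InnerProductSpace ℂ E]

/-- The squared distance to the line of a unit vector. -/
theorem norm_sq_perp {v : E} (hv : ‖v‖ = 1) (x : E) :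
    ‖x - (inner ℂ v x : ℂ) • v‖ ^ 2 = ‖x‖ ^ 2 - ‖(inner ℂ v x : ℂ)‖ ^ 2 := by
  have h1 : (inner ℂ ((inner ℂ v x : ℂ) • v) (x - (inner ℂ v x : ℂ) • v) : ℂ) = 0 := by
    rw [inner_smul_left, inner_sub_right, inner_smul_right, inner_self_eq_norm_sq_to_K, hv]
    simp
  have h2 := norm_add_sq_eq_norm_sq_add_norm_sq_of_inner_eq_zero ((inner ℂ v x : ℂ) • v)
    (x - (inner ℂ v x : ℂ) • v) h1
  rw [add_sub_cancel, norm_smul, hv, mul_one] at h2
  nlinarith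

theorem re_le {v : E} (hv : ‖v‖ = 1) (x : E) : (inner ℂ v x : ℂ).re ≤ ‖x‖ := by
  have h1 := Complex.re_le_norm (inner ℂ v x : ℂ)
  have h2 := norm_inner_le_norm (𝕜 := ℂ) v x
  rw [hv, one_mul] at h2
  linarith

theorem key {v e : E} (hv : ‖v‖ = 1) (he : ‖e‖ ≤ 1) (hev : (inner ℂ e v : ℂ) = 0) (x : E) :
    ‖(inner ℂ e x : ℂ)‖ ^ 2 ≤ 2 * ‖x‖ * (‖x‖ - (inner ℂ v x : ℂ).re) := by
  have h1 : (inner ℂ e x : ℂ) = inner ℂ e (x - (inner ℂ v x : ℂ) • v) := by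
    rw [inner_sub_right, inner_smul_right, hev, mul_zero, sub_zero]
  have h2 : ‖(inner ℂ e x : ℂ)‖ ≤ ‖x - (inner ℂ v x : ℂ) • v‖ := by
    rw [h1]
    refine (norm_inner_le_norm _ _).trans ?_
    calc ‖e‖ * ‖x - (inner ℂ v x : ℂ) • v‖ ≤ 1 * ‖x - (inner ℂ v x : ℂ) • v‖ :=
          mul_le_mul_of_nonneg_right he (norm_nonneg _)
      _ = _ := one_mul _
  have h3 : ‖(inner ℂ e x : ℂ)‖ ^ 2 ≤ ‖x‖ ^ 2 - ‖(inner ℂ v x : ℂ)‖ ^ 2 := by
    rw [← norm_sq_perp hv x]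
    exact pow_le_pow_left₀ (norm_nonneg _) h2 2
  have h4 := Complex.re_le_norm (inner ℂ v x : ℂ)
  have h5 := norm_inner_le_norm (𝕜 := ℂ) v x
  rw [hv, one_mul] at h5
  have h6 : 0 ≤ ‖(inner ℂ v x : ℂ)‖ := norm_nonneg _
  have h7 : 0 ≤ ‖x‖ := norm_nonneg _
  nlinarith [mul_nonneg h7 (sub_nonneg.2 h4),
    mul_nonneg (sub_nonneg.2 h5) (sub_nonneg.2 h5)]

theorem amgm {t a r η : ℝ} (ha : 0 ≤ a) (hr : 0 ≤ r) (hη : 0 < η) (h : t ^ 2 ≤ 2 * a * r) :
    t ≤ η * a + r / (2 * η) := by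
  have h1 : 0 ≤ η * a + r / (2 * η) := by positivity
  have h2 : 2 * a * r ≤ (η * a + r / (2 * η)) ^ 2 := by
    have e : (η * a + r / (2 * η)) ^ 2 = (η * a - r / (2 * η)) ^ 2 + 2 * a * r := by
      field_simp
      ring
    rw [e]
    have := sq_nonneg (η * a - r / (2 * η))
    linarith
  exact le_of_sq_le_sq_of_nonneg' (h.trans h2) h1
where
  le_of_sq_le_sq_of_nonneg' {x y : ℝ} (h : x ^ 2 ≤ y ^ 2) (hy : 0 ≤ y) : x ≤ y :=
    le_of_abs_le (abs_le_of_sq_le_sq h hy)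

end VEC_

open VEC_

theorem p_VEC : T_VEC := by
  intro E _ _ ι s x e η he hX hη
  set X := ∑ i ∈ s, x i with hXdef
  have hI : ‖X‖ ≤ ∑ i ∈ s, ‖x i‖ := norm_sum_le _ _
  by_cases h0 : X = 0
  · rw [h0, norm_zero, mul_zero, zero_add, sub_zero]
    calc ∑ i ∈ s, ‖(inner ℂ e (x i) : ℂ)‖ ≤ ∑ i ∈ s, ‖x i‖ := by
          refine Finset.sum_le_sum fun i _ => (norm_inner_le_norm _ _).trans ?_
          calc ‖e‖ * ‖x i‖ ≤ 1 * ‖x i‖ := mul_le_mul_of_nonneg_right he (norm_nonneg _)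
            _ = _ := one_mul _
      _ ≤ (2 + 1 / η) * ∑ i ∈ s, ‖x i‖ := by
          have h1 : 0 ≤ ∑ i ∈ s, ‖x i‖ := Finset.sum_nonneg fun i _ => norm_nonneg _
          have h2 : 0 < 1 / η := by positivity
          nlinarith
  · have hn : 0 < ‖X‖ := norm_pos_iff.2 h0
    set v : E := ((‖X‖⁻¹ : ℝ) : ℂ) • X with hv
    have hv1 : ‖v‖ = 1 := by
      rw [hv, norm_smul, Complex.norm_real, Real.norm_of_nonneg (by positivity)]
      exact inv_mul_cancel₀ hn.ne'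
    have hev : (inner ℂ e v : ℂ) = 0 := by rw [hv, inner_smul_right, hX, mul_zero]
    have hre : ∑ i ∈ s, (inner ℂ v (x i) : ℂ).re = ‖X‖ := by
      rw [← Complex.re_sum, ← inner_sum, ← hXdef, hv, inner_smul_left,
        inner_self_eq_norm_sq_to_K, Complex.conj_ofReal]
      have : ((‖X‖⁻¹ : ℝ) : ℂ) * (((‖X‖ : ℝ) : ℂ)) ^ 2 = ((‖X‖ : ℝ) : ℂ) := by
        push_cast
        have : ((‖X‖ : ℝ) : ℂ) ≠ 0 := by exact_mod_cast hn.ne'
        field_simp
      erw [this]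
      exact Complex.ofReal_re _
    set κ := min η 1 with hκ
    have hκ0 : 0 < κ := lt_min hη one_pos
    have hκη : κ ≤ η := min_le_left _ _
    have hκ1 : κ ≤ 1 := min_le_right _ _
    have h1 : ∀ i ∈ s, ‖(inner ℂ e (x i) : ℂ)‖ ≤
        κ * ‖x i‖ + (‖x i‖ - (inner ℂ v (x i) : ℂ).re) / (2 * κ) := fun i _ =>
      amgm (norm_nonneg _) (sub_nonneg.2 (re_le hv1 _)) hκ0 (key hv1 he hev (x i))
    have h2 := Finset.sum_le_sum h1
    rw [Finset.sum_add_distrib, ← Finset.mul_sum, ← Finset.sum_div, Finset.sum_sub_distrib,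
      hre] at h2
    refine h2.trans ?_
    set I := ∑ i ∈ s, ‖x i‖ - ‖X‖ with hIdef
    have hI0 : 0 ≤ I := sub_nonneg.2 hI
    have e1 : ∑ i ∈ s, ‖x i‖ = ‖X‖ + I := by rw [hIdef]; ring
    rw [e1]
    have h3 : I / (2 * κ) ≤ (1 / η + 1) * I := by
      rw [div_le_iff₀ (by positivity)]
      have h4 : 1 ≤ (1 / η + 1) * (2 * κ) := by
        rcases le_total η 1 with h | h
        · rw [hκ, min_eq_left h]
          have : 1 / η * (2 * η) = 2 := by field_simp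
          nlinarith
        · rw [hκ, min_eq_right h]
          have : 0 < 1 / η := by positivity
          nlinarith
      nlinarith
    nlinarith [mul_nonneg hκ0.le hI0, mul_le_mul_of_nonneg_right hκη hn.le]

end Pool.Agent.CorA
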