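import Pool.Agent.CorA.Targets
import Pool.Agent.CorE.P_LPO
import Pool.Agent.CorE.P_LWB

/-!
# Weak words far from strong ones
-/

set_option autoImplicit false

namespace Pool.Agent.CorA

open Complex Metric Set Filter Topology MeasureTheory
open Pool.Corona91698f Pool.Agent.CorE
open scoped Real BoundedContinuousFunction

namespace WEK_

theorem exists_strong (a : List D → ℝ) : ∀ (m : ℕ) (u : List D), u.length ≤ m →
    ∃ I : ℕ, I ≤ u.length ∧ Strong a (u.take (u.length - I)) ∧
      a u ≤ (1 / 16) ^ I * a (u.take (u.length - I)) := by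
  intro m
  induction m with
  | zero =>
    intro u hu
    refine ⟨0, Nat.zero_le _, ?_, ?_⟩
    · rw [Nat.sub_zero, List.take_length]
      intro i h1 h2
      omega
    · rw [Nat.sub_zero, List.take_length, pow_zero, one_mul]
  | succ m ih =>
    intro u hu
    by_cases hS : Strong a u
    · refine ⟨0, Nat.zero_le _, ?_, ?_⟩
      · rw [Nat.sub_zero, List.take_length]
        exact hS
      · rw [Nat.sub_zero, List.take_length, pow_zero, one_mul]
    · unfold Strong at hS
      push Not at hS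
      obtain ⟨i, hi1, hi2, hi3⟩ := hS
      have hl : (u.take (u.length - i)).length = u.length - i := by
        rw [List.length_take]
        omega
      obtain ⟨I, hI1, hI2, hI3⟩ := ih (u.take (u.length - i)) (by omega)
      have e : (u.take (u.length - i)).take ((u.take (u.length - i)).length - I) =
          u.take (u.length - (i + I)) := by
        rw [List.take_take, hl]
        congr 1
        omega
      rw [e] at hI2 hI3
      refine ⟨i + I, by omega, hI2, ?_⟩
      rw [pow_add, mul_assoc]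
      have : (0 : ℝ) ≤ (1 / 16) ^ i := by positivity
      nlinarith

theorem bound {a : List D → ℝ} {J : ℕ} {u : List D}
    (hu : ∀ i : ℕ, i < J → i ≤ u.length → ¬ Strong a (u.take (u.length - i))) :
    ∃ i : ℕ, J ≤ i ∧ i ≤ u.length ∧ a u ≤ (1 / 16) ^ i * a (u.take (u.length - i)) := by
  classical
  obtain ⟨I, h1, h2, h3⟩ := exists_strong a u.length u le_rfl
  refine ⟨I, ?_, h1, h3⟩
  by_contra h
  exact hu I (by omega) h1 h2

theorem level (a : List D → ℝ) (ha : ∀ u, 0 ≤ a u) (N i : ℕ) (hi : i ≤ N) :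
    ∑ l ∈ Finset.Icc i N, ∑ u ∈ lv l, a (u.take (l - i)) ≤ 4 ^ i * ∑ u ∈ wd N, a u := by
  rw [LPO_.sum_wd_lv, Finset.mul_sum]
  have e : Finset.Icc i N = (Finset.range (N - i + 1)).image (fun m => m + i) := by
    ext l
    simp only [Finset.mem_Icc, Finset.mem_image, Finset.mem_range]
    constructor
    · rintro ⟨h1, h2⟩
      exact ⟨l - i, by omega, by omega⟩
    · rintro ⟨m, h1, rfl⟩
      omega
  rw [e, Finset.sum_image (fun x _ y _ h => Nat.add_right_cancel h)]
  have h1 : ∀ m ∈ Finset.range (N - i + 1), ∑ u ∈ lv (m + i), a (u.take (m + i - i)) =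
      4 ^ i * ∑ u ∈ lv m, a u := by
    intro m _
    rw [sum_lv_add m i (fun u => a (u.take (m + i - i))), Finset.mul_sum]
    refine Finset.sum_congr rfl fun p hp => ?_
    have hp' := mem_lv.1 hp
    have h2 : ∀ q ∈ lv i, a ((p ++ q).take (m + i - i)) = a p * 1 := by
      intro q _
      rw [Nat.add_sub_cancel, ← hp', List.take_left', mul_one]
      rfl
    rw [Finset.sum_congr rfl h2, ← Finset.mul_sum, LWB_.one_lv]
    ring
  rw [Finset.sum_congr rfl h1]
  refine Finset.sum_le_sum_of_subset_of_nonneg ?_ ?_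
  · intro m hm
    rw [Finset.mem_range] at hm ⊢
    omega
  · intro m _ _
    have : 0 ≤ ∑ u ∈ lv m, a u := Finset.sum_nonneg fun u _ => ha u
    positivity

end WEK_

open WEK_

open Classical in
theorem p_WEK : T_WEK := by
  intro N J a ha
  set A := ∑ u ∈ wd N, a u with hA
  have hA0 : 0 ≤ A := Finset.sum_nonneg fun u _ => ha u
  have h1 : ∀ u ∈ (wd N).filter (fun u => ∀ i : ℕ, i < J → i ≤ u.length →
      ¬ Strong a (u.take (u.length - i))), a u ≤
      ∑ i ∈ Finset.Icc J u.length, (1 / 16) ^ i * a (u.take (u.length - i)) := by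
    intro u hu
    rw [Finset.mem_filter] at hu
    obtain ⟨i, i1, i2, i3⟩ := bound hu.2
    refine i3.trans ?_
    exact Finset.single_le_sum (f := fun i => (1 / 16 : ℝ) ^ i * a (u.take (u.length - i)))
      (fun i _ => mul_nonneg (by positivity) (ha _)) (Finset.mem_Icc.2 ⟨i1, i2⟩)
  refine (Finset.sum_le_sum h1).trans ?_
  have h2 : ∑ u ∈ (wd N).filter (fun u => ∀ i : ℕ, i < J → i ≤ u.length →
      ¬ Strong a (u.take (u.length - i))),
      ∑ i ∈ Finset.Icc J u.length, (1 / 16) ^ i * a (u.take (u.length - i)) ≤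
      ∑ u ∈ wd N, ∑ i ∈ Finset.Icc J u.length, (1 / 16) ^ i * a (u.take (u.length - i)) :=
    Finset.sum_le_sum_of_subset_of_nonneg (Finset.filter_subset _ _) fun u _ _ =>
      Finset.sum_nonneg fun i _ => mul_nonneg (by positivity) (ha _)
  refine h2.trans ?_
  have h3 : ∑ u ∈ wd N, ∑ i ∈ Finset.Icc J u.length, (1 / 16) ^ i * a (u.take (u.length - i)) =
      ∑ i ∈ Finset.Icc J N, (1 / 16) ^ i *
        ∑ l ∈ Finset.Icc i N, ∑ u ∈ lv l, a (u.take (l - i)) := by
    rw [LPO_.sum_wd_lv]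
    have e1 : ∀ l ∈ Finset.range (N + 1), ∑ u ∈ lv l,
        ∑ i ∈ Finset.Icc J u.length, (1 / 16 : ℝ) ^ i * a (u.take (u.length - i)) =
        ∑ i ∈ Finset.Icc J l, (1 / 16 : ℝ) ^ i * ∑ u ∈ lv l, a (u.take (l - i)) := by
      intro l _
      have e2 : ∀ u ∈ lv l, ∑ i ∈ Finset.Icc J u.length,
          (1 / 16 : ℝ) ^ i * a (u.take (u.length - i)) =
          ∑ i ∈ Finset.Icc J l, (1 / 16 : ℝ) ^ i * a (u.take (l - i)) := by
        intro u hu
        rw [mem_lv.1 hu]
      rw [Finset.sum_congr rfl e2, Finset.sum_comm]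
      exact Finset.sum_congr rfl fun i _ => by rw [Finset.mul_sum]
    rw [Finset.sum_congr rfl e1]
    have e3 : ∀ i ∈ Finset.Icc J N, (1 / 16 : ℝ) ^ i *
        ∑ l ∈ Finset.Icc i N, ∑ u ∈ lv l, a (u.take (l - i)) =
        ∑ l ∈ Finset.Icc i N, (1 / 16 : ℝ) ^ i * ∑ u ∈ lv l, a (u.take (l - i)) := by
      intro i _
      rw [Finset.mul_sum]
    rw [Finset.sum_congr rfl e3]
    refine Finset.sum_comm' ?_
    intro l i
    simp only [Finset.mem_range, Finset.mem_Icc]
    omega
  rw [h3]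
  have h4 : ∀ i ∈ Finset.Icc J N, (1 / 16 : ℝ) ^ i *
      ∑ l ∈ Finset.Icc i N, ∑ u ∈ lv l, a (u.take (l - i)) ≤ (1 / 4) ^ i * A := by
    intro i hi
    have h5 := level a ha N i (Finset.mem_Icc.1 hi).2
    have h6 : (1 / 16 : ℝ) ^ i * (4 ^ i * A) = (1 / 4) ^ i * A := by
      rw [← mul_assoc, ← mul_pow]
      norm_num
    rw [← h6]
    exact mul_le_mul_of_nonneg_left h5 (by positivity)
  refine (Finset.sum_le_sum h4).trans ?_
  rw [← Finset.sum_mul]
  refine mul_le_mul_of_nonneg_right ?_ hA0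
  have h7 : ∑ i ∈ Finset.Icc J N, (1 / 4 : ℝ) ^ i ≤ (1 / 4) ^ J / (1 - 1 / 4) := by
    have e : Finset.Icc J N ⊆ Finset.Ico J (N + 1 + J) := by
      intro i hi
      rw [Finset.mem_Icc] at hi
      rw [Finset.mem_Ico]
      omega
    refine (Finset.sum_le_sum_of_subset_of_nonneg e fun i _ _ => by positivity).trans ?_
    exact geom_sum_Ico_le_of_lt_one (by norm_num) (by norm_num)
  refine h7.trans ?_
  have : (0 : ℝ) ≤ (1 / 4) ^ J := by positivity
  rw [div_le_iff₀ (by norm_num)]
  linarith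

end Pool.Agent.CorA
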