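import Pool.Agent.CorE.All
import Pool.Agent.CorA.P_BLA
import Pool.Agent.CorA.P_LGA
import Pool.Agent.CorA.P_PRD
import Pool.Agent.CorA.P_LAV
import Pool.Agent.CorA.P_AVS
import Pool.Agent.CorA.P_HBN
import Pool.Agent.CorA.P_CAU
import Pool.Agent.CorA.P_TST
import Pool.Agent.CorA.P_LEV
import Pool.Agent.CorA.P_LCL
import Pool.Agent.CorA.P_SOL
import Pool.Agent.CorA.P_PAI
import Pool.Agent.CorA.P_MXP
import Pool.Agent.CorA.P_DUA
import Pool.Agent.CorA.P_DCM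
import Pool.Agent.CorA.P_HVS
import Pool.Agent.CorA.P_GLL
import Pool.Agent.CorA.P_VEC
import Pool.Agent.CorA.P_MAS
import Pool.Agent.CorA.P_NC1
import Pool.Agent.CorA.P_NC3
import Pool.Agent.CorA.P_NC4
import Pool.Agent.CorA.P_NCS
import Pool.Agent.CorA.P_WEK
import Pool.Agent.CorA.P_CST
import Pool.Agent.CorA.P_RES
import Pool.Agent.CorA.P_VAR
import Pool.Agent.CorA.P_ANG
import Pool.Agent.CorA.P_SRB
import Pool.Agent.CorA.P_SRS
import Pool.Agent.CorA.P_FRZ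
import Pool.Agent.CorA.P_SRT
import Pool.Agent.CorA.P_MAI
import Pool.Agent.CorA.P_CWT
import Pool.Agent.CorA.P_GLU
import Pool.Agent.CorA.P_FIN

/-!
# Corona solutions growing slower than every power of the logarithm: assembly
-/

set_option autoImplicit false

namespace Pool.Agent.CorA

open Pool.Agent.CorE

theorem a_BLA : T_BLA := p_BLA
theorem a_LGA : T_LGA := p_LGA a_BLA a_HAR
theorem a_PRD : T_PRD := p_PRD
theorem a_LAV : T_LAV := p_LAV a_LGA a_PRD a_CON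
theorem a_AVS : T_AVS := p_AVS a_LGA a_PRD
theorem a_HBN : T_HBN := p_HBN
theorem a_CAU : T_CAU := p_CAU a_GEO
theorem a_TST : T_TST := p_TST
theorem a_LEV : T_LEV := p_LEV a_TST
theorem a_LCL : T_LCL := p_LCL
theorem a_SOL : T_SOL := p_SOL a_SYS a_GLA
theorem a_PAI : T_PAI := p_PAI a_SOL a_ADD
theorem a_MXP : T_MXP := p_MXP
theorem a_DUA : T_DUA := p_DUA a_HBN a_CAU a_LEV a_LCL a_SOL a_PAI a_MXP
theorem a_DCM : T_DCM := p_DCM
theorem a_HVS : T_HVS := p_HVS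
theorem a_GLL : T_GLL := p_GLL a_AVS a_DCM a_HVS
theorem a_VEC : T_VEC := p_VEC
theorem a_MAS : T_MAS := p_MAS a_ADD
theorem a_NC1 : T_NC1 := p_NC1 a_LAV a_PRD a_GLL a_VEC a_MAS
theorem a_NC3 : T_NC3 := p_NC3 a_LAV a_PRD
theorem a_NC4 : T_NC4 := p_NC4 a_NC1 a_NC3 a_MAS
theorem a_NCS : T_NCS := p_NCS a_NC4
theorem a_WEK : T_WEK := p_WEK
theorem a_CST : T_CST := p_CST
theorem a_RES : T_RES := p_RES
theorem a_SRB : T_SRB := p_SRB
theorem a_SRS : T_SRS := p_SRS a_GLL a_MAS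
theorem a_FRZ : T_FRZ := p_FRZ a_LCL
theorem a_SRT : T_SRT := p_SRT a_SRB a_SRS a_MAS
theorem a_MAI : T_MAI := p_MAI a_NCS a_NC3 a_FRZ a_CST a_RES a_WEK a_SRT
theorem a_CWT : T_CWT := p_CWT
theorem a_GLU : T_GLU := p_GLU a_CWT
theorem a_ALB : T_ALB := p_FIN a_DUA a_MAI a_GLU

end Pool.Agent.CorA
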