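import Pool.Agent.CorE.Targets

/-!
# Corona solutions growing slower than every power of the logarithm: definitions

Project ALB (helper24), problem MP_91698f. The tree of squares (words over `D`), the maps `Psi`,
`Phi`, the sets `Nd`, `NR`, `nodeX`, `nodeV`, and the lists `wd`, `lv` of words are those of the
library `Pool/Agent/Corona91698f`; `cc`, `cm`, `rk`, `Dat` are those of `Pool/Agent/CorE`.
-/

set_option autoImplicit false

namespace Pool.Agent.CorA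

open Complex Metric Set Filter Topology MeasureTheory
open Pool.Corona91698f Pool.Agent.CorE
open scoped Real BoundedContinuousFunction

/-- The region of level `N` outside the discs of radius `r` (in the coordinates of the squares). -/
def OmR (r : ℝ) (N : ℕ) : Set ℂ := {z | ∀ q ∈ lv N, r < dist (Psi q z) ctr}

/-- The circles of level `N`. -/
def Gm (N : ℕ) : Set ℂ := {z | ∃ q ∈ lv N, dist (Psi q z) ctr = 73 / 100}

/-- Holomorphic near the outer region, bounded at infinity. -/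
def IsA (N : ℕ) (ψ : ℂ → ℂ) : Prop :=
  DifferentiableOn ℂ ψ (OmR (727 / 1000) N) ∧ ∃ B R : ℝ, ∀ z, R < dist z ctr → ‖ψ z‖ ≤ B

/-- The data of a functional which vanishes on the functions `IsA`. -/
structure MM (N : ℕ) (M : (Gm N →ᵇ ℂ) →L[ℂ] ℂ) (h : ℂ → ℂ) : Prop where
  bd : ‖M‖ ≤ 2
  an : ∀ ψ : ℂ → ℂ, IsA N ψ → ∀ ψ' : (Gm N →ᵇ ℂ), (∀ z : Gm N, ψ' z = ψ z) → M ψ' = 0
  diff : DifferentiableOn ℂ h (OmR (73 / 100) N)
  inf : ∃ B R : ℝ, 1 ≤ R ∧ ∀ z, R < dist z ctr → ‖h z‖ ≤ B / dist z ctr ^ 2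
  rep : ∀ z ∈ OmR (73 / 100) N, ∀ k : (Gm N →ᵇ ℂ), (∀ ζ : Gm N, k ζ = ((ζ : ℂ) - z)⁻¹) →
    h z = (2 * π * I : ℂ)⁻¹ * M k
  cir : ∀ (φ : List D → ℂ → ℂ) (ψ' : (Gm N →ᵇ ℂ)),
    (∀ q ∈ lv N, DifferentiableOn ℂ (φ q)
      {z | 727 / 1000 < dist (Psi q z) ctr ∧ dist (Psi q z) ctr < 78 / 100}) →
    (∀ q ∈ lv N, ∀ z : Gm N, dist (Psi q z) ctr = 73 / 100 → ψ' z = φ q z) →
    M ψ' = - (2 * π * I) * ∑ q ∈ lv N, cm q (fun z => φ q z * h z)

/-- Bounded local solutions. -/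
structure LS (n : ℕ) (f : Fin n → ℂ → ℂ) (g : Option (List D) → Fin n → ℂ → ℂ) (B : ℝ) :
    Prop where
  diff : ∀ R i, DifferentiableOn ℂ (g R i) (NR R)
  bd : ∀ R i, ∀ z ∈ NR R, ‖g R i z‖ ≤ B
  one : ∀ R, ∀ z ∈ NR R, ∑ j, f j z * g R j z = 1

/-- The pairing of the local solutions of `u` and of its parent. -/
noncomputable def BB {n : ℕ} (g : Option (List D) → Fin n → ℂ → ℂ) (h : Fin n → Fin n → ℂ → ℂ)
    (u : List D) (z : ℂ) : ℂ := ∑ i, ∑ j, g (some u) i z * g (par u) j z * h i j z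

/-- The sum of the pairings over all words of length at most `N`. -/
noncomputable def TB {n : ℕ} (N : ℕ) (g : Option (List D) → Fin n → ℂ → ℂ)
    (h : Fin n → Fin n → ℂ → ℂ) : ℂ := ∑ u ∈ wd N, cm u (BB g h u)

/-- An antisymmetric family of functions on the outer region of level `N` with its sizes `a`. -/
structure HD (n N : ℕ) (h : Fin n → Fin n → ℂ → ℂ) (a : List D → ℝ) (C : ℝ) : Prop where
  diff : ∀ i j, DifferentiableOn ℂ (h i j) (OmR (73 / 100) N)
  anti : ∀ i j, ∀ z ∈ OmR (73 / 100) N, h j i z = - h i j z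
  nn : ∀ u, 0 ≤ a u
  up : ∀ u : List D, u.length < N → ∀ i j z, Psi u z ∈ nodeX → ‖h i j z‖ ≤ 3 ^ u.length * a u
  att : ∀ u : List D, u.length < N → ∃ i j z, Psi u z ∈ nodeX ∧ 3 ^ u.length * a u ≤ ‖h i j z‖
  lev : ∀ l : ℕ, l < N → ∑ u ∈ lv l, a u ≤ C
  bot : ∀ zz : List D → ℂ, (∀ q ∈ lv N, dist (Psi q (zz q)) ctr = 77 / 100) → ∀ i j,
    ∑ q ∈ lv N, (1 / 3) ^ N * ‖h i j (zz q)‖ ≤ C

/-- Oscillation at least `ε` on the node of `u`. -/
def NC {n : ℕ} (f : Fin n → ℂ → ℂ) (ε : ℝ) (u : List D) : Prop :=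
  ∃ k x y, Psi u x ∈ nodeX ∧ Psi u y ∈ nodeX ∧ ε ≤ ‖f k x - f k y‖

/-- The vector of the contour means. -/
noncomputable def mm {n : ℕ} (f : Fin n → ℂ → ℂ) (h : Fin n → Fin n → ℂ → ℂ) (u : List D) :
    EuclideanSpace ℂ (Fin n × Fin n × Option (Fin n)) :=
  WithLp.toLp 2 fun x => cm u fun z => (match x.2.2 with
    | none => 1
    | some k => f k z) * h x.1 x.2.1 z

/-- The open set around a standard node. -/
def VV : Set ℂ := {y | dist y ctr < 9 / 10 ∧ ∀ d : D, 73 / 100 < dist (psi d y) ctr}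

/-- The size of `u` is not much smaller than those of its ancestors. -/
def Strong (a : List D → ℝ) (u : List D) : Prop :=
  ∀ i : ℕ, 1 ≤ i → i ≤ u.length → (1 / 16) ^ i * a (u.take (u.length - i)) ≤ a u

/-- The rule of the frozen constants: fresh after `nc`, kept within the tolerance, else reset. -/
def Rule {n : ℕ} (F : List D → Fin n → ℂ) (nc : List D → Prop) (tol : List D → ℝ)
    (Cs : List D → Fin n → ℂ) : Prop :=
  Cs [] = F [] ∧ ∀ (p : List D) (d : D),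
    (nc p → Cs (p ++ [d]) = F (p ++ [d])) ∧
    (¬ nc p → dist (F (p ++ [d])) (Cs p) ≤ tol (p ++ [d]) → Cs (p ++ [d]) = Cs p) ∧
    (¬ nc p → tol (p ++ [d]) < dist (F (p ++ [d])) (Cs p) → Cs (p ++ [d]) = F (p ++ [d]))

/-- `u` is a reset: calm parent, but the constant of the parent is too far. -/
def Reset {n : ℕ} (F : List D → Fin n → ℂ) (nc : List D → Prop) (tol : List D → ℝ)
    (Cs : List D → Fin n → ℂ) (u : List D) : Prop :=
  u ≠ [] ∧ ¬ nc u.dropLast ∧ tol u < dist (F u) (Cs u.dropLast)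

/-- The words at which the constant is set anew. -/
def RR {n : ℕ} (F : List D → Fin n → ℂ) (nc : List D → Prop) (tol : List D → ℝ)
    (Cs : List D → Fin n → ℂ) (u : List D) : Prop :=
  u = [] ∨ nc u.dropLast ∨ Reset F nc tol Cs u

open Classical in
/-- The next elements of `R` below `x`, of length less than `N`. -/
noncomputable def nxt (N : ℕ) (R : List D → Prop) (x : List D) : Finset (List D) :=
  (wd (N - 1)).filter fun u => x <+: u ∧ u ≠ x ∧ R u ∧
    ∀ t, x <+: t → t <+: u → R t → t = x ∨ t = u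

open Classical in
/-- The total size of the nodes with oscillation at least `ε`. -/
noncomputable def SN {n : ℕ} (N : ℕ) (f : Fin n → ℂ → ℂ) (a : List D → ℝ) (ε : ℝ) : ℝ :=
  ∑ u ∈ (wd (N - 1)).filter (fun u => NC f ε u), a u

/-- The values at the centres of the nodes. -/
noncomputable def FF {n : ℕ} (f : Fin n → ℂ → ℂ) (u : List D) : Fin n → ℂ := fun k => f k (cc u)

/-- The theorem. -/
def T_ALB : Prop := ∀ (n : ℕ) (δ γ : ℝ), 0 < δ → 0 < γ → ∃ C : ℝ, 0 < C ∧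
  ∀ f : Fin n → ℂ → ℂ, Dat n δ f → ∃ g : Fin n → ℂ → ℂ,
    (∀ j, DifferentiableOn ℂ (g j) squareCantorᶜ) ∧
    (∀ z ∈ squareCantorᶜ, ∑ j, f j z * g j z = 1) ∧
    ∀ j, ∀ z ∈ squareCantorᶜ, ∀ k : ℕ, 151 / 100 < 3 ^ k * infDist z squareCantor →
      ‖g j z‖ ≤ C * ((k : ℝ) + 1) ^ γ

end Pool.Agent.CorA
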