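import Pool.Agent.CorA.Defs

/-!
# Growth below every power of the logarithm, in terms of the distance
-/

set_option autoImplicit false

namespace Pool.Agent.CorA

open Complex Metric Set Filter Topology
open Pool.Corona91698f Pool.Agent.CorE

theorem exists_scale {s : ℝ} (hs : 0 < s) :
    ∃ k : ℕ, 151 / 100 < 3 ^ k * s ∧ (k : ℝ) + 1 ≤ 4 * (1 + max 0 (Real.log (1 / s))) := by
  set L := max 0 (Real.log (1 / s)) with hL
  have hL0 : 0 ≤ L := le_max_left _ _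
  have hL1 : Real.log (1 / s) ≤ L := le_max_right _ _
  obtain ⟨k, hk1, hk2⟩ : ∃ k : ℕ, L + 1 / 2 < k ∧ (k : ℝ) ≤ L + 3 / 2 := by
    refine ⟨⌊L + 1 / 2⌋₊ + 1, ?_, ?_⟩
    · have := Nat.lt_floor_add_one (L + 1 / 2)
      push_cast
      linarith
    · have := Nat.floor_le (show 0 ≤ L + 1 / 2 by linarith)
      push_cast
      linarith
  refine ⟨k, ?_, by linarith⟩
  have h3 : (1 : ℝ) ≤ Real.log 3 := by
    rw [Real.le_log_iff_exp_le (by norm_num)]
    have := Real.exp_one_lt_d9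
    linarith
  have h4 : Real.exp (L + 1 / 2) < 3 ^ k := by
    rw [← Real.rpow_natCast, ← Real.exp_log (show (0 : ℝ) < 3 by norm_num), ← Real.exp_mul]
    refine Real.exp_lt_exp.2 ?_
    have : (k : ℝ) ≤ Real.log 3 * k := by
      have h0 : (0 : ℝ) ≤ k := Nat.cast_nonneg k
      nlinarith
    linarith
  have h5 : 1 / s ≤ Real.exp L := by
    rw [← Real.exp_log (show 0 < 1 / s by positivity)]
    exact Real.exp_le_exp.2 hL1
  have h6 : (151 / 100 : ℝ) < Real.exp (1 / 2) := by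
    have h7 : (1.6 : ℝ) ^ 2 < Real.exp 1 := by
      have := Real.exp_one_gt_d9
      norm_num
      linarith
    have h8 : Real.exp 1 = Real.exp (1 / 2) ^ 2 := by
      rw [← Real.exp_nat_mul]
      norm_num
    rw [h8] at h7
    have := lt_of_pow_lt_pow_left₀ 2 (Real.exp_pos _).le h7
    linarith
  have h9 : Real.exp (1 / 2) * Real.exp L < 3 ^ k := by
    rw [← Real.exp_add, add_comm]
    exact h4
  have h10 : 1 ≤ Real.exp L * s := by
    rw [div_le_iff₀ hs] at h5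
    exact h5
  calc (151 / 100 : ℝ) < Real.exp (1 / 2) * 1 := by linarith
    _ ≤ Real.exp (1 / 2) * (Real.exp L * s) := by gcongr
    _ = Real.exp (1 / 2) * Real.exp L * s := by ring
    _ < 3 ^ k * s := by gcongr

/-- The form with the distance. -/
theorem final (h : T_ALB) (n : ℕ) (δ γ : ℝ) (hδ : 0 < δ) (hγ : 0 < γ) :
    ∃ C : ℝ, 0 < C ∧ ∀ f : Fin n → ℂ → ℂ, (∀ j, DifferentiableOn ℂ (f j) squareCantorᶜ) →
      (∀ j, ∀ z ∈ squareCantorᶜ, ‖f j z‖ ≤ 1) → (∀ z ∈ squareCantorᶜ, ∃ j, δ ≤ ‖f j z‖) →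
      ∃ g : Fin n → ℂ → ℂ, (∀ j, DifferentiableOn ℂ (g j) squareCantorᶜ) ∧
        (∀ z ∈ squareCantorᶜ, ∑ j, f j z * g j z = 1) ∧
        ∀ j, ∀ z ∈ squareCantorᶜ,
          ‖g j z‖ ≤ C * (1 + max 0 (Real.log (1 / infDist z squareCantor))) ^ γ := by
  obtain ⟨C, hC, H⟩ := h n δ γ hδ hγ
  refine ⟨C * 4 ^ γ, by positivity, fun f h1 h2 h3 => ?_⟩
  obtain ⟨g, g1, g2, g3⟩ := H f ⟨h1, h2, h3⟩
  refine ⟨g, g1, g2, fun j z hz => ?_⟩
  obtain ⟨k, k1, k2⟩ := exists_scale (infDist_pos' hz)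
  have hL0 : 0 ≤ max 0 (Real.log (1 / infDist z squareCantor)) := le_max_left _ _
  calc ‖g j z‖ ≤ C * ((k : ℝ) + 1) ^ γ := g3 j z hz k k1
    _ ≤ C * (4 * (1 + max 0 (Real.log (1 / infDist z squareCantor)))) ^ γ := by
        gcongr
    _ = C * 4 ^ γ * (1 + max 0 (Real.log (1 / infDist z squareCantor))) ^ γ := by
        rw [Real.mul_rpow (by norm_num) (by linarith)]
        ring

end Pool.Agent.CorA
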