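import Pool.Agent.CorA.Targets

/-!
# CorA, target FRZ: frozen solutions
-/

set_option autoImplicit false

namespace Pool.Agent.CorA

open Complex Metric Set Filter Topology MeasureTheory
open Pool.Corona91698f Pool.Agent.CorE
open scoped Real BoundedContinuousFunction ComplexConjugate

namespace FRZ_

/-- the pairing of `f` with the constants -/
noncomputable def DD {n : ℕ} (f : Fin n → ℂ → ℂ) (c : Fin n → ℂ) (z : ℂ) : ℂ :=
  ∑ k, f k z * conj (c k)

theorem DD_ge {n : ℕ} {δ : ℝ} (hδ : 0 < δ) {f : Fin n → ℂ → ℂ} (hf : Dat n δ f) {c : Fin n → ℂ}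
    {z : ℂ} (hz : z ∉ squareCantor) (hc : ∀ k, ‖f k z - c k‖ ≤ δ ^ 2 / (4 * n + 4)) :
    δ ^ 2 / 2 ≤ ‖DD f c z‖ := by
  have h1 : (∑ k, f k z * conj (f k z)) = ((∑ k, ‖f k z‖ ^ 2 : ℝ) : ℂ) := by
    push_cast
    exact Finset.sum_congr rfl fun k _ => by rw [Complex.mul_conj']
  have h2 : (∑ k, f k z * conj (f k z)) - DD f c z = ∑ k, f k z * conj (f k z - c k) := by
    unfold DD
    rw [← Finset.sum_sub_distrib]
    refine Finset.sum_congr rfl fun k _ => ?_
    rw [map_sub]
    ring
  have h3 : ‖(∑ k, f k z * conj (f k z)) - DD f c z‖ ≤ δ ^ 2 / 4 := by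
    rw [h2]
    refine (norm_sum_le _ _).trans ?_
    have h4 : ∀ k ∈ (Finset.univ : Finset (Fin n)), ‖f k z * conj (f k z - c k)‖ ≤
        δ ^ 2 / (4 * n + 4) := by
      intro k _
      rw [norm_mul, RCLike.norm_conj]
      have a1 := hf.le k z hz
      have a2 := hc k
      have a3 := norm_nonneg (f k z - c k)
      have a4 := norm_nonneg (f k z)
      nlinarith
    refine (Finset.sum_le_sum h4).trans ?_
    rw [Finset.sum_const, Finset.card_univ, Fintype.card_fin, nsmul_eq_mul]
    have h5 : (0 : ℝ) ≤ n := Nat.cast_nonneg n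
    rw [mul_div_assoc', div_le_div_iff₀ (by positivity) (by norm_num)]
    nlinarith [sq_nonneg δ]
  obtain ⟨j, hj⟩ := hf.ge z hz
  have h6 : δ ^ 2 ≤ ∑ k, ‖f k z‖ ^ 2 := by
    have h7 : ‖f j z‖ ^ 2 ≤ ∑ k, ‖f k z‖ ^ 2 :=
      Finset.single_le_sum (f := fun k => ‖f k z‖ ^ 2) (fun k _ => sq_nonneg _)
        (Finset.mem_univ j)
    have h8 : δ ^ 2 ≤ ‖f j z‖ ^ 2 := pow_le_pow_left₀ hδ.le hj 2
    linarith
  have h9 : ‖(∑ k, f k z * conj (f k z))‖ = ∑ k, ‖f k z‖ ^ 2 := by
    rw [h1, Complex.norm_real, Real.norm_eq_abs, abs_of_nonneg]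
    exact Finset.sum_nonneg fun k _ => sq_nonneg _
  have h10 := norm_sub_norm_le (∑ k, f k z * conj (f k z)) (DD f c z)
  rw [h9] at h10
  nlinarith [sq_nonneg δ]

theorem anti_sum {n : ℕ} (c : Fin n → ℂ) (h : Fin n → Fin n → ℂ) (hh : ∀ i j, h j i = - h i j) :
    ∑ i, ∑ j, c i * c j * h i j = 0 := by
  have h1 : ∑ i, ∑ j, c i * c j * h i j = - ∑ i, ∑ j, c i * c j * h i j := by
    conv_lhs => rw [Finset.sum_comm]
    rw [← Finset.sum_neg_distrib]
    refine Finset.sum_congr rfl fun i _ => ?_
    rw [← Finset.sum_neg_distrib]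
    refine Finset.sum_congr rfl fun j _ => ?_
    rw [hh i j]
    ring
  exact self_eq_neg.mp h1

open Classical in
/-- the solutions -/
noncomputable def gg {n : ℕ} (f : Fin n → ℂ → ℂ) (Cs : List D → Fin n → ℂ) (cal : List D → Prop)
    (g₀ : Option (List D) → Fin n → ℂ → ℂ) : Option (List D) → Fin n → ℂ → ℂ
  | none => g₀ none
  | some u => if cal u then fun i z => conj (Cs u i) / DD f (Cs u) z else g₀ (some u)

end FRZ_

open FRZ_ in
/-- **FRZ** -/
theorem p_FRZ (hLCL : T_LCL) : T_FRZ := by
  intro n δ hδ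
  obtain ⟨B₀, hB₀, hL⟩ := hLCL n δ hδ
  refine ⟨max B₀ ((1 + δ ^ 2) / (δ ^ 2 / 2)), hB₀.trans (le_max_left _ _), ?_⟩
  intro f Cs cal hf hcal
  obtain ⟨g₀, hg₀⟩ := hL f hf
  have key : ∀ u, cal u → ∀ z ∈ NR (some u), δ ^ 2 / 2 ≤ ‖DD f (Cs u) z‖ := fun u hu z hz =>
    DD_ge hδ hf (NR_notMem hz) fun k => hcal u hu k z (nodeV_subset hz)
  refine ⟨gg f Cs cal g₀, ⟨?_, ?_, ?_⟩, ?_⟩
  · intro R i
    cases R with
    | none => exact hg₀.diff none i
    | some u =>
      by_cases hu : cal u
      · simp only [gg, if_pos hu]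
        have hD : DifferentiableOn ℂ (DD f (Cs u)) (NR (some u)) := by
          unfold DD
          refine DifferentiableOn.fun_sum fun k _ => ?_
          exact ((hf.diff k).mono fun z hz => NR_notMem hz).mul_const _
        refine (differentiableOn_const _).div hD fun z hz h0 => ?_
        have := key u hu z hz
        rw [h0, norm_zero] at this
        have h2 : 0 < δ ^ 2 := by positivity
        linarith
      · simp only [gg, if_neg hu]
        exact hg₀.diff (some u) i
  · intro R i z hz
    cases R with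
    | none => exact (hg₀.bd none i z hz).trans (le_max_left _ _)
    | some u =>
      by_cases hu : cal u
      · simp only [gg, if_pos hu]
        refine le_trans ?_ (le_max_right _ _)
        rw [norm_div, RCLike.norm_conj]
        have h2 : 0 < δ ^ 2 := by positivity
        have h1 : ‖Cs u i‖ ≤ 1 + δ ^ 2 := by
          have a1 := hcal u hu i z (nodeV_subset hz)
          have a2 := hf.le i z (NR_notMem hz)
          have a3 : ‖Cs u i‖ ≤ ‖f i z‖ + ‖f i z - Cs u i‖ := by
            have := norm_sub_norm_le (Cs u i) (f i z)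
            rw [norm_sub_rev (Cs u i)] at this
            linarith
          have a4 : δ ^ 2 / (4 * n + 4) ≤ δ ^ 2 := by
            refine div_le_self h2.le ?_
            have : (0 : ℝ) ≤ n := Nat.cast_nonneg n
            linarith
          linarith
        exact div_le_div₀ (by positivity) h1 (by positivity) (key u hu z hz)
      · simp only [gg, if_neg hu]
        exact (hg₀.bd (some u) i z hz).trans (le_max_left _ _)
  · intro R z hz
    cases R with
    | none => exact hg₀.one none z hz
    | some u =>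
      by_cases hu : cal u
      · simp only [gg, if_pos hu]
        have h0 : DD f (Cs u) z ≠ 0 := by
          intro h0
          have := key u hu z hz
          rw [h0, norm_zero] at this
          have h2 : 0 < δ ^ 2 := by positivity
          linarith
        have h1 : ∀ j : Fin n, f j z * (conj (Cs u j) / DD f (Cs u) z) =
            f j z * conj (Cs u j) / DD f (Cs u) z := fun j => by ring
        rw [Finset.sum_congr rfl fun j _ => h1 j, ← Finset.sum_div]
        exact div_self h0
      · simp only [gg, if_neg hu]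
        exact hg₀.one (some u) z hz
  · intro h u z hne hu hp hC _ _ hh
    unfold BB
    have hpar : par u = some u.dropLast := by
      unfold par
      rw [if_neg hne]
    rw [hpar]
    simp only [gg, if_pos hu, if_pos hp, ← hC]
    have h1 : ∀ i j : Fin n, conj (Cs u i) / DD f (Cs u) z * (conj (Cs u j) / DD f (Cs u) z) *
        h i j z = conj (Cs u i) / DD f (Cs u) z * (conj (Cs u j) / DD f (Cs u) z) * h i j z :=
      fun _ _ => rfl
    exact anti_sum (fun i => conj (Cs u i) / DD f (Cs u) z) (fun i j => h i j z) hh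

end Pool.Agent.CorA
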