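import Pool.Agent.CorA.Defs

/-!
# Corona solutions growing slower than every power of the logarithm: compiled targets

Project ALB (helper24). Every `T_X` has its complete proof in the docstring; block `X` delivers
`theorem p_X : T_X` (or with the hypotheses named in the docstring) in `Pool/Agent/CorA/P_X.lean`,
which imports `Pool.Agent.CorA.Targets`, helper lemmas in the namespace `Pool.Agent.CorA.X_`.
-/

set_option autoImplicit false

namespace Pool.Agent.CorA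

open Complex Metric Set Filter Topology MeasureTheory
open Pool.Corona91698f Pool.Agent.CorE
open scoped Real BoundedContinuousFunction

/-! ### A. Lower bounds for holomorphic functions -/

/-- BLA: removal of zeros by Blaschke factors.

PROOF. For |a - c| ≤ tR put b_a(z) = R (z - a)/(R^2 - conj(a - c) (z - c)); |b_a| < 1 on the ball,
|b_a(z)| → 1 uniformly as |z - c| → R, and |b_a(y)| ≤ θ := (s + t)/(1 + s t) < 1 for |y - c| ≤ sR
(or any explicit θ(s,t) < 1, θ > 0; if s = t = 0 take θ = 1/2), |b_a(z)| ≥ |z - a|/(2R) on the ball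
(|R^2 - ..| ≤ 2R^2). If G(a) = 0 with |a - c| ≤ tR, then G = b_a G' with G' = dslope G a times
(R^2 - conj(a - c)(z - c))/R holomorphic on the ball, |G'| ≤ M (maximum principle on balls of radius
r → R: |G'| ≤ M/min over |z - c| = r of |b_a|), |G'(y₀)| ≥ μ/θ (G(y₀) ≠ 0 so y₀ ≠ a). C = 1/log(1/θ).
Induction on a natural number k with log(M/μ) < k log(1/θ): if G has no zero with |a - c| ≤ tR take
m = 0 (log(M/μ) ≥ 0 because μ ≤ |G y₀| ≤ M); otherwise apply the induction hypothesis to G', μ/θ. -/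
def T_BLA : Prop := ∀ s t : ℝ, 0 ≤ s → s < 1 → 0 ≤ t → t < 1 → ∃ C : ℝ, 0 < C ∧
  ∀ (c : ℂ) (R M μ : ℝ) (G : ℂ → ℂ) (y₀ : ℂ), 0 < R → 0 < μ → DifferentiableOn ℂ G (ball c R) →
  (∀ z ∈ ball c R, ‖G z‖ ≤ M) → dist y₀ c ≤ s * R → μ ≤ ‖G y₀‖ →
  ∃ (m : ℕ) (a : Fin m → ℂ) (G₁ : ℂ → ℂ), (m : ℝ) ≤ C * Real.log (M / μ) ∧
    DifferentiableOn ℂ G₁ (ball c R) ∧ (∀ z ∈ ball c R, ‖G₁ z‖ ≤ M) ∧ μ ≤ ‖G₁ y₀‖ ∧
    (∀ z, dist z c ≤ t * R → G₁ z ≠ 0) ∧
    ∀ z ∈ ball c R, (∏ i, dist z (a i) / (2 * R)) * ‖G₁ z‖ ≤ ‖G z‖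

/-- LGA: lower bound by a product. Hypotheses hBLA : T_BLA, hHAR : T_HAR.

PROOF. BLA with t = (1 + s)/2. On a neighbourhood of closedBall c (t'R), t' = (1 + 3s)/4 .. < t (any
s < t' < t), the function log(M/|G₁|) is harmonic (G₁ has no zeros there; Mathlib:
AnalyticAt.harmonicAt_log_norm) and ≥ 0. HAR with ratio s' = s/t' < 1, first from y₀ to the centre
then from the centre to z: log(M/|G₁ z|) ≤ ((1 + s')/(1 - s'))^2 log(M/μ) for |z - c| ≤ sR, i.e.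
|G₁ z| ≥ M (μ/M)^C'. Enlarge C to the maximum of 1, C', C (μ/M ≤ 1). -/
def T_LGA : Prop := ∀ s : ℝ, 0 ≤ s → s < 1 → ∃ C : ℝ, 1 ≤ C ∧
  ∀ (c : ℂ) (R M μ : ℝ) (G : ℂ → ℂ) (y₀ : ℂ), 0 < R → 0 < μ → DifferentiableOn ℂ G (ball c R) →
  (∀ z ∈ ball c R, ‖G z‖ ≤ M) → dist y₀ c ≤ s * R → μ ≤ ‖G y₀‖ →
  ∃ (m : ℕ) (a : Fin m → ℂ), (m : ℝ) ≤ C * Real.log (M / μ) ∧
    ∀ z, dist z c ≤ s * R → M * (μ / M) ^ C * ∏ i, (dist z (a i) / (2 * R)) ≤ ‖G z‖

/-- PRD: a product of distances is large somewhere on a circle.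

PROOF. Let Q(z) be the product over the i with |a_i - x| ≥ r of (z - a_i) and over the other i of
(r - conj(a_i - x) (z - x)/r). On |z - x| = r: |r - conj(a_i - x)(z - x)/r| = |z - a_i| (multiply by
the conjugate of (z - x)/r, of modulus 1), so |Q(z)| = the product of |z - a_i|. |Q(x)| = the product
of max(|x - a_i|, r). By the maximum principle (Mathlib: exists z on the sphere with |Q z| maximal over
the sphere, norm_le_of_forall_mem_frontier_norm_le) |Q(x)| ≤ |Q(z)| for some z on the circle. -/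
def T_PRD : Prop := ∀ (m : ℕ) (a : Fin m → ℂ) (x : ℂ) (r : ℝ), 0 < r →
  ∃ z, dist z x = r ∧ ∏ i, max (dist x (a i)) r ≤ ∏ i, dist z (a i)

/-- LAV: lower bounds propagate in the node. Hypotheses hLGA : T_LGA, hPRD : T_PRD, hCON : T_CON.

PROOF. VV is open and preconnected (CON with a = .9, b = .73), nodeX is compact and contained in VV.
Fix b, s. Call x in VV good if there are ρ, C > 0 with ball x ρ ⊆ VV such that for all F, M, μ
(F differentiable on VV, |F| ≤ M on VV, 0 < μ) with μ ≤ |F z| for some z in ball x ρ the conclusion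
holds with this C. Good points form an open set (a smaller ball around x' in ball x ρ). b is good:
LGA for the ball of radius 4s around b with ratio 1/2 (ρ = s; 2s = (1/2) 4s; constants C ≥ 8s,
if C > 8s the factor dist/(8s) may be replaced by dist/C; note M (μ/M)^C decreases when C grows).
Relatively closed: let x' in VV be a limit of good points, closedBall x' (4ρ') ⊆ VV; take a good x in
ball x' ρ' with ρ, C and r = min(ρ/2, ρ'/2). If |F z| ≥ μ for some z in ball x' ρ', LGA on ball x' (4ρ'),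
ratio 1/2, gives |F w| ≥ M (μ/M)^C1 ∏ (dist w a_i/(8ρ')) for |w - x'| ≤ 2ρ', and PRD on the circle
of centre x and radius r gives a w with ∏ dist w a_i ≥ r^m, so |F w| ≥ M (μ/M)^C1 (r/(8ρ'))^m
≥ M (μ/M)^C2 =: μ' because m ≤ C1 log(M/μ) (r/(8ρ') < 1). Then goodness of x applied to μ' gives the
conclusion with C C2 (log(M/μ') = C2 log(M/μ), (μ'/M)^C = (μ/M)^(C C2)). So all points of VV are good
(IsPreconnected); cover nodeX by finitely many balls, take the largest C. -/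
def T_LAV : Prop := ∀ (b : ℂ) (s : ℝ), 0 < s → closedBall b (4 * s) ⊆ VV → ∃ C : ℝ, 1 ≤ C ∧
  ∀ (F : ℂ → ℂ) (M μ : ℝ) (y : ℂ), DifferentiableOn ℂ F VV → (∀ z ∈ VV, ‖F z‖ ≤ M) → 0 < μ →
  y ∈ nodeX → μ ≤ ‖F y‖ → ∃ (m : ℕ) (a : Fin m → ℂ), (m : ℝ) ≤ C * Real.log (M / μ) ∧
    ∀ z ∈ closedBall b s, M * (μ / M) ^ C * ∏ i, (dist z (a i) / C) ≤ ‖F z‖

/-- AVS: a holomorphic function is large on many squares. Hypotheses hLGA : T_LGA, hPRD : T_PRD,
hGEO : T_GEO.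

PROOF. LGA with c = ctr, R = 9/10, s = 8/9: points a_1..a_m, m ≤ C log(M/μ). For x in lv j let zz x be
the point of PRD on the circle with centre cc x = Phi x ctr and radius r = (5/100) 3^(-j):
dist (Psi x (zz x)) ctr = 5/100, so Psi x (zz x) ∈ nodeX (dist (psi d y) ctr = 3 dist y (phi d ctr) ≥
3 (.4714 - .05)); dist (zz x) ctr ≤ .7073 + .05 ≤ 8/10. So |G (zz x)| ≥ M (μ/M)^C ∏_i
(max (dist (cc x) (a_i)) r/(9/5)). For fixed a: let x0 in lv j with dist (cc x0) a minimal. For x in lv j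
whose longest common initial word with x0 has length i < j: dist (cc x) (cc x0) ≥ (19/100) 3^(-i)
(dist_phi_phi, see the proofs of T_GEO, T_LWB), so dist (cc x) a ≥ (9/100) 3^(-i) by minimality; there
are at most 4^(j-i) such x. So the mean over x in lv j (4^j words) of log(max(dist (cc x) a) r/(9/5)) is
≥ - sum_(i<j) 4^(-i) (i log 3 + 4) - 4^(-j) (j log 3 + 4) ≥ -C'. By the inequality of the arithmetic
and geometric mean (Real.inner_le_nnorm.. / Real.geom_mean_le_arith_mean_weighted, or convexity of exp)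
4^(-j) sum_x |G (zz x)| ≥ exp(mean of log) ≥ M (μ/M)^C exp(-C' m) ≥ M (μ/M)^(C + C C'). -/
def T_AVS : Prop := ∃ C : ℝ, 1 ≤ C ∧ ∀ (G : ℂ → ℂ) (M μ : ℝ) (y₀ : ℂ) (j : ℕ),
  DifferentiableOn ℂ G (ball ctr (9 / 10)) → (∀ z ∈ ball ctr (9 / 10), ‖G z‖ ≤ M) → 0 < μ →
  dist y₀ ctr ≤ 8 / 10 → μ ≤ ‖G y₀‖ →
  ∃ zz : List D → ℂ, (∀ x ∈ lv j, Psi x (zz x) ∈ nodeX) ∧
    4 ^ j * (M * (μ / M) ^ C) ≤ ∑ x ∈ lv j, ‖G (zz x)‖

/-! ### B. Duality -/

/-- HBN: distance to a subspace by duality.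

PROOF. Let T be the topological closure of S, π : E → E ⧸ T. There is a functional g on E ⧸ T with
‖g‖ ≤ 1, g (π x) = ‖π x‖ (exists_dual_vector''). L = g ∘ π has ‖L‖ ≤ 1 and vanishes on S, so
‖π x‖ ≤ X. The quotient norm is the distance of x to T, so there is y in T with ‖x + y‖ ≤ X + ε/2, and
y' in S close to y. -/
def T_HBN : Prop := ∀ (E : Type) [NormedAddCommGroup E] [NormedSpace ℂ E] (S : Submodule ℂ E)
  (x : E) (X : ℝ), (∀ L : E →L[ℂ] ℂ, ‖L‖ ≤ 1 → (∀ y ∈ S, L y = 0) → ‖L x‖ ≤ X) →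
  ∀ ε : ℝ, 0 < ε → ∃ y ∈ S, ‖x + y‖ ≤ X + ε

/-- CAU: the Cauchy transform of the functional. Hypothesis hGEO : T_GEO.

PROOF. Gm N is compact (finitely many circles |z - cc q| = .73 * 3^(-N)). For z not in Gm N let k_z be
the bounded continuous function ζ ↦ (ζ - z)⁻¹ on Gm N; z ↦ k_z is differentiable with values in
Gm N →ᵇ ℂ outside Gm N (k_z - k_w = (z - w) k_z k_w), so z ↦ M k_z is holomorphic outside Gm N.
h z = (2 π I)⁻¹ M k_z. inf: the constant 1 is in IsA, so h z = (2 π I)⁻¹ M (k_z + (z - ctr)⁻¹) and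
|(ζ - z)⁻¹ + (z - ctr)⁻¹| = |ζ - ctr|/(|ζ - z| |z - ctr|) ≤ C/dist z ctr^2 for large |z|.
For dist (Psi q z) ctr ≤ 727/1000, q ∈ lv N, ζ ↦ (ζ - z)⁻¹ is in IsA, so M k_z = 0; by the identity
theorem M k_z = 0 on the whole disc dist (Psi q z) ctr < 73/100 (*). cir: the circles dist (Psi q z) ctr
= .77 (radius .77 * 3^(-N) around cc q) and .7285 lie in the annulus of φ q; for ζ with
dist (Psi q ζ) ctr = .73 Cauchy's formula (cauchy_annulus in Laurent.lean) gives φ q ζ = Ψ_q(ζ) :=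
(2πI)⁻¹ (∮ over .77 of φ q z/(z - ζ) - ∮ over .7285 of φ q z/(z - ζ)), and for ζ in the circle of another
q' the two integrals are equal (ζ is outside dist (Psi q .) ctr < .78: there it is ≥ 1 by psi_disj; the
integrand is holomorphic on the annulus). So ψ' = sum over q of Ψ_q on Gm N (Gm N is the disjoint
union of its circles). Interchange of M and the circle integrals of z ↦ φ q z • k_z (continuous with
values in Gm N →ᵇ ℂ; ContinuousLinearMap.integral_comp_comm): M Ψ_q = - ∮ over .77 of φ q h + 0 by (*)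
= - 2πI cm q (φ q h). -/
def T_CAU : Prop := ∀ (N : ℕ) (M : (Gm N →ᵇ ℂ) →L[ℂ] ℂ), ‖M‖ ≤ 2 →
  (∀ ψ : ℂ → ℂ, IsA N ψ → ∀ ψ' : Gm N →ᵇ ℂ, (∀ z : Gm N, ψ' z = ψ z) → M ψ' = 0) →
  ∃ h, MM N M h

/-- TST: test functions. Hypothesis hTAI : T_TAI.

PROOF. u = []: T = 0; for ζ ∈ Gm N: dist ζ ctr ≤ .73 (near_prefix style: dist z ctr ≤
dist (psi d z) ctr/3 + .4715) so th ζ ≥ 1/2, and |ζ - z₀| ≥ .003 (if N = 0 it is ≥ .04; if N ≥ 1, ζ is
within .73 of ctr in the coordinates psi d for the first digit d, z₀ ∈ nodeX is at distance ≥ .74 in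
them). u = p ++ [d]: y₀ = Psi p z₀ has dist y₀ ctr ≤ .80/3 + .4715 ≤ .7382 (dist_le_of_psi), so
F(y) = (1/3)/(y - y₀) is holomorphic and bounded by 30 on dist y ctr > .75, → 0 at infinity, and
(1/3)^l (ζ - z₀)⁻¹ = F(Psi p ζ) (Psi p ζ - y₀ = 3^(l-1) (ζ - z₀)). TAI with m = 2: b_0, b_1, |b_k| ≤ C.
T ζ = b_0 W(Psi p ζ) + b_1 W(Psi p ζ)^2. IsA: W_differentiableAt; for ζ ∈ OmR (727/1000) N and |p| ≤ N:
Psi p ζ is not in the square Cantor set (a point e of it has, after N - |p| further digits,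
dist ctr < .71: exists_psi_mem), W_norm gives boundedness. Estimate at ζ ∈ Gm N: if
dist (Psi p ζ) ctr ≥ .76 then |F - ..| ≤ C rk 3 ≤ C' th. Otherwise th (Psi p ζ) ≥ 1/2,
|W| ≤ 7922 and |F(Psi p ζ)| ≤ C because |Psi u ζ - Psi u z₀| ≥ .003: let ζ be on the circle of q ∈ lv N.
If u is an initial word of q and l < N, q starts with u ++ [e], dist (Psi (u ++ [e]) ζ) ctr ≤ .73 (going
up the tree: t ≤ .73 gives t/3 + .4715 ≤ .73), while dist (psi e (Psi u z₀)) ctr ≥ .74; if l = N, u = q: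
.77 against .73. If not: dist (Psi u ζ) ctr ≥ 1 (psi_disj at the first different digit, dist_psi_ge)
while dist (Psi u z₀) ctr ≤ .80. -/
def T_TST : Prop := ∃ C : ℝ, 0 < C ∧ ∀ (N : ℕ) (u : List D) (z₀ : ℂ),
  ((u.length < N ∧ Psi u z₀ ∈ nodeX) ∨ (u.length = N ∧ dist (Psi u z₀) ctr = 77 / 100)) →
  ∃ T : ℂ → ℂ, IsA N T ∧ ∀ ζ ∈ Gm N,
    ‖(1 / 3 : ℂ) ^ u.length * (ζ - z₀)⁻¹ - T ζ‖ ≤ C * th (Psi u.dropLast ζ)

/-- LEV: level sums. Hypothesis hTST : T_TST.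

PROOF. Choose unimodular e u with e u * h (zz u) = |h (zz u)|. zz u is in OmR (73/100) N and not on
Gm N (l < N: for q ∈ lv N above u, q starts with u ++ [d], dist (psi d (Psi u z)) ctr ≥ .74 and this
stays ≥ .74 by dist_psi_ge; for the other q dist (Psi q z) ctr ≥ 1; l = N similar). By rep the sum is
(2πI)⁻¹ M(k), k(ζ) = sum_u e u (1/3)^l (ζ - zz u)⁻¹; by an it is (2πI)⁻¹ M(k - sum_u e u T_u), and
|k - sum e u T_u| ≤ sum_u C th (Psi u.dropLast ζ) ≤ C * 4 * 66 (l = 0: ≤ C; l ≥ 1: every p ∈ lv (l-1)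
occurs 4 times; sum_lv, Sg_le'). ‖M‖ ≤ 2. (All the functions on Gm N are bounded and continuous.) -/
def T_LEV : Prop := ∃ C : ℝ, 0 < C ∧ ∀ (N : ℕ) (M : (Gm N →ᵇ ℂ) →L[ℂ] ℂ) (h : ℂ → ℂ), MM N M h →
  ∀ (l : ℕ) (zz : List D → ℂ), ((l < N ∧ ∀ u ∈ lv l, Psi u (zz u) ∈ nodeX) ∨
    (l = N ∧ ∀ u ∈ lv l, dist (Psi u (zz u)) ctr = 77 / 100)) →
  ∑ u ∈ lv l, (1 / 3) ^ l * ‖h (zz u)‖ ≤ C

/-- LCL: bounded local solutions.

PROOF. node_corona and exterior_corona as in the first lines of the proof of log_corona. -/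
def T_LCL : Prop := ∀ (n : ℕ) (δ : ℝ), 0 < δ → ∃ B : ℝ, 1 ≤ B ∧ ∀ f : Fin n → ℂ → ℂ, Dat n δ f →
  ∃ g, LS n f g B

/-- SOL: a solution of level N. Hypotheses hSYS : T_SYS, hGLA : T_GLA.

PROOF. wj u y = g (some u) i (Phi u y) g (par u) j (Phi u y) - (i ↔ j) for all u, holomorphic on the
annulus .74 < dist y ctr < .80 by annulus_some, annulus_par (LogCorona.lean), bounded by 2 B^2. SYS
with m = 1 at level N + 1 for every (i,j), antisymmetrised: (S i j - S j i)/2. The bound of S none: SYS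
(finite sum over wd N). GLA at level N + 1 with t = 0 gives G on Om (N + 1); OmR (727/1000) N ⊆
Om (N + 1): for q' = q ++ [d] of length N + 1, dist (Psi q' z) ctr ≥ 3 (.727 - .4715) > .765
(dist_psi_ge). IsA: on Nd none (dist z ctr > .76) G i = g none i - sum S none f is bounded. -/
def T_SOL : Prop := ∀ (n N : ℕ) (δ B : ℝ) (f : Fin n → ℂ → ℂ)
  (g : Option (List D) → Fin n → ℂ → ℂ), 0 < δ → Dat n δ f → LS n f g B →
  ∃ (S : Option (List D) → Fin n → Fin n → ℂ → ℂ) (G : Fin n → ℂ → ℂ),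
    (∀ R i j, DifferentiableOn ℂ (S R i j) (Nd R)) ∧ (∀ R i j z, S R j i z = - S R i j z) ∧
    (∃ A : ℝ, ∀ i j, ∀ z ∈ Nd none, ‖S none i j z‖ ≤ A) ∧
    (∀ u : List D, u.length ≤ N → ∀ i j, ∀ z ∈ Nd (par u), z ∈ Nd (some u) →
      S (some u) i j z - S (par u) i j z =
        g (some u) i z * g (par u) j z - g (some u) j z * g (par u) i z) ∧
    (∀ i, IsA N (G i)) ∧ (∀ z ∈ OmR (727 / 1000) N, ∑ j, f j z * G j z = 1) ∧
    ∀ q ∈ lv N, ∀ z ∈ Nd (some q), ∀ i, G i z = g (some q) i z - ∑ j, S (some q) i j z * f j z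

/-- PAI: the pairing. Hypotheses hSOL : T_SOL, hADD : T_ADD.

PROOF. SOL gives S and another solution G. On OmR (727/1000) N ψ_ij = G_i G₀_j - G_j G₀_i is in IsA,
antisymmetric, and G_i - G₀_i = sum_j ψ_ij f_j (sum f G₀ = sum f G = 1). So with G'' the restriction of
G to Gm N: sum_i L i (G'' i) - sum_i L i (G' i) = sum_ij L i (f_j ψ_ij) = (1/2) sum_ij (L i (f_j ψ_ij) -
L j (f_i ψ_ij)) = (1/2) sum_ij M_ij ψ_ij = 0 by an. Near the circle of q ∈ lv N (the set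
.727 < dist (Psi q z) ctr < .78 lies in Nd (some q): 3 (.727 - .4715) > .76) G = g^q - S^q f. The function
equal to g^q_i on the circle of q is bounded by B and continuous on Gm N, so it contributes ≤ B to
|sum L i (G'' i)|. The rest is - sum_ij L i (f_j S_ij) = - (1/2) sum_ij M_ij(S_ij) (antisymmetry) =
π I sum_ij sum_q cm q (S^q_ij h_ij) by cir (S_ij on Gm N = S^q_ij on the circle of q; φ q = S (some q) i j).
(Gm N ∩ NR: dist = .73 on the circle of q: it lies in nodeV of q if dist (psi d) > .74: 3 (.73 - .4715) =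
.7755.) Telescoping: for |p| < N S^p_ij h_ij is holomorphic on Nd (some p) (contained in OmR (73/100) N:
for |q| = N above p, q starts with p ++ [d], dist (psi d (Psi p z)) ctr > .76 and stays so; for the
others ≥ 1), so by ADD cm p (S^p h) = sum_d cm (p++[d]) (S^p h) and on the circle of u = p ++ [d]
(radius .77: in Nd (some p) and Nd (some u)) S^p = S^u - w_u with w_u,ij = g^u_i g^p_j - g^u_j g^p_i. So
sum over lv N of cm q (S^q h) = cm [] (S^[] h) + sum over 1 ≤ |u| ≤ N of cm u (w_u h), and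
cm [] (S^[] h) = cm [] (S^none h) + cm [] (w_[] h), cm [] (S^none h) = 0: S^none h is holomorphic on
dist z ctr > .76 and O(|z|^-2) (inf, the bound A), the integral over |z - ctr| = .77 equals the one over
|z - ctr| = R → 0. Finally h_ji = - h_ij on OmR (M_ji = - M_ij, rep; f_i bounded and continuous on Gm N)
so sum_ij w_u,ij h_ij = 2 BB g h u on the circle of u, and the rest is 2 π I TB N g h. -/
def T_PAI : Prop := ∀ (n : ℕ) (B : ℝ), 0 < B → ∃ C : ℝ, 0 < C ∧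
  ∀ (N : ℕ) (δ : ℝ) (f : Fin n → ℂ → ℂ) (L : Fin n → (Gm N →ᵇ ℂ) →L[ℂ] ℂ)
    (M : Fin n → Fin n → (Gm N →ᵇ ℂ) →L[ℂ] ℂ) (h : Fin n → Fin n → ℂ → ℂ)
    (g : Option (List D) → Fin n → ℂ → ℂ) (G₀ : Fin n → ℂ → ℂ) (G' : Fin n → (Gm N →ᵇ ℂ)),
  0 < δ → Dat n δ f → (∀ φ : Fin n → (Gm N →ᵇ ℂ), ‖∑ i, L i (φ i)‖ ≤ ‖φ‖) →
  (∀ i j, MM N (M i j) (h i j)) →
  (∀ (i j : Fin n) (φ φi φj : Gm N →ᵇ ℂ), (∀ z : Gm N, φi z = f i z * φ z) →
    (∀ z : Gm N, φj z = f j z * φ z) → M i j φ = L i φj - L j φi) → LS n f g B →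
  (∀ i, IsA N (G₀ i)) → (∀ z ∈ OmR (727 / 1000) N, ∑ j, f j z * G₀ j z = 1) →
  (∀ (i : Fin n) (z : Gm N), G' i z = G₀ i z) →
  ‖∑ i, L i (G' i)‖ ≤ C + 2 * π * ‖TB N g h‖

/-- MXP: maximum principle in the outer region.

PROOF. Let c = cc q₀ for some q₀ ∈ lv N, d₀ = .73 * 3^(-N): |z - c| ≥ d₀ on Gm N and on OmR (73/100) N.
For m ≥ 1 and large R the function K(z) = F(z)^m/(z - c) is holomorphic on the bounded open set
U = OmR (73/100) N ∩ ball ctr R and continuous on its closure (inside OmR (727/1000) N); the frontier is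
in Gm N ∪ sphere ctr R. There |K| ≤ X^m/d₀ + B^m/(R - 2) (|F| ≤ B for large |z|; X ≥ 0 as Gm N is not
empty). So |F z|^m ≤ |z - c| (X^m/d₀ + B^m/(R - 2)) (norm_le_of_forall_mem_frontier_norm_le); R → ∞:
|F z|^m ≤ (|z - c|/d₀) X^m for all m, hence |F z| ≤ X (if |F z| > X then (|F z|/X)^m is unbounded; X = 0
gives F z = 0). -/
def T_MXP : Prop := ∀ (N : ℕ) (F : ℂ → ℂ) (X : ℝ), IsA N F → (∀ z ∈ Gm N, ‖F z‖ ≤ X) →
  ∀ z ∈ OmR (73 / 100) N, ‖F z‖ ≤ X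

/-- DUA: the reduction by duality. Hypotheses hHBN : T_HBN, hCAU : T_CAU, hLEV : T_LEV,
hLCL : T_LCL, hSOL : T_SOL, hPAI : T_PAI, hMXP : T_MXP.

PROOF. n ≥ 1 (Dat at some point outside the square Cantor set). C₁ = n^2 C_LEV + 1. E = Fin n → (Gm N →ᵇ ℂ)
(sup norm), S = the set of κ' for which there is an antisymmetric family ψ_ij (ψ_ji = - ψ_ij everywhere)
in IsA N with κ'_i z = sum_j ψ_ij z f_j z on Gm N: a submodule. LCL and SOL give a solution G₀ (all G₀ i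
in IsA N), G' its restriction to Gm N. Let L be a functional on E, ‖L‖ ≤ 1, vanishing on S;
L i = L ∘ (single i); M_ij φ = L i (f_j φ) - L j (f_i φ), ‖M_ij‖ ≤ 2 (|f| ≤ 1; f_j is continuous on
Gm N ⊆ squareCantorᶜ). M_ij vanishes on IsA: for i ≠ j take the family with ψ at (i,j), - ψ at (j,i), 0
elsewhere; M_ii = 0. CAU gives h_ij; replace h_ij by 0 outside OmR (73/100) N if convenient. a u for
|u| < N: the maximum over i, j and z in the compact nonempty set {Psi u z ∈ nodeX} of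
3^(-|u|) |h_ij z|; a u = 0 for |u| ≥ N. HD with C₁: anti from M_ji = - M_ij and rep; lev and bot by LEV
(for lev: for every u the maximum is ≤ the sum over (i,j) of the maxima). By hypothesis there is g with
LS n f g B, ‖TB N g h‖ ≤ X; PAI: ‖L G'‖ ≤ C + 2πX. HBN with ε = 1: κ' in S with ‖G' + κ'‖ ≤ C + 2πX + 1;
G = G₀ + κ, κ_i = sum ψ_ij f_j: sum f κ = 0 by antisymmetry (antisymm_sum), κ_i in IsA (|f| ≤ 1), MXP. -/
def T_DUA : Prop := ∀ (n : ℕ) (δ : ℝ), 0 < δ → ∃ C₁ : ℝ, 0 < C₁ ∧ ∀ B : ℝ, 1 ≤ B →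
  ∃ C : ℝ, 0 < C ∧ ∀ (N : ℕ) (f : Fin n → ℂ → ℂ) (X : ℝ), Dat n δ f → 0 ≤ X →
  (∀ (h : Fin n → Fin n → ℂ → ℂ) (a : List D → ℝ), HD n N h a C₁ →
    ∃ g, LS n f g B ∧ ‖TB N g h‖ ≤ X) →
  ∃ G : Fin n → ℂ → ℂ, (∀ i, DifferentiableOn ℂ (G i) (OmR (73 / 100) N)) ∧
    (∀ z ∈ OmR (73 / 100) N, ∑ j, f j z * G j z = 1) ∧
    ∀ i, ∀ z ∈ OmR (73 / 100) N, ‖G i z‖ ≤ C * (1 + X)

/-! ### C. The growth lemma -/

/-- DCM: decomposition.

PROOF. The set {dist (Psi u z) ctr < 1, dist (Psi (u ++ x) z) ctr > .735 for all x ∈ lv k} is contained in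
OmR (73/100) N: q ∈ lv N above u is above some u ++ x and dist stays > .735 going down (dist_psi_ge);
q not above u: dist (Psi q z) ctr ≥ 1 (dist (Psi v z) ctr < 1 for all initial words v of u, psi_disj
at the first different digit, dist_psi_ge). Remove the discs one after the other (induction over a
finset T of words of lv k): H = Ho_T + sum over x in T of Hv x with Ho_T holomorphic on the set where
only the discs of x not in T are removed and Hv x holomorphic on dist (Psi (u ++ x) z) ctr > .735: Laurent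
splitting (laurent_full or laurent_split) of Ho_T in the annulus .735 < dist (Psi (u ++ x) z) ctr < .80
around cc (u ++ x): minus part Hv x, holomorphic outside and → 0 at infinity; Ho_T - Hv x extends to the
disc. (The discs dist (Psi (u ++ x) z) ctr ≤ .80 of different x are disjoint and lie in
dist (Psi u z) ctr < 1.) Bound: for z outside Hv x z = (2πI)⁻¹ ∮ of H(ζ)/(z - ζ) over the circle
dist (Psi (u ++ x) ζ) ctr = .737 (contained in nodeX of u ++ x: 3 (.737 - .4715) ≥ .74; Hv x is the Cauchy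
integral of H because H - Hv x is holomorphic inside; or Cauchy's formula at infinity for Hv x), and
(z - ζ)⁻¹ = (z - c)⁻¹ + (ζ - c)/((z - c)(z - ζ)), c = cc (u ++ x): the first term gives cm (u ++ x) H/(z - c)
(the integrals of H over the circles .737 and .77 agree), the second at most
C r * r * 3^(|u|+k) A x/(|z - c| |z - ζ|) with r = 3^(-|u|-k), |z - ζ| ≥ .003 r (1 + dist (Psi (u ++ x) z) ctr)/2
and |z - c| ≥ .4 r (1 + ..). -/
def T_DCM : Prop := ∃ C : ℝ, 0 < C ∧ ∀ (N k : ℕ) (u : List D) (H : ℂ → ℂ) (A : List D → ℝ),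
  u.length + k < N → DifferentiableOn ℂ H (OmR (73 / 100) N) →
  (∀ x ∈ lv k, ∀ z, Psi (u ++ x) z ∈ nodeX → ‖H z‖ ≤ 3 ^ (u.length + k) * A x) →
  ∃ (Ho : ℂ → ℂ) (Hv : List D → ℂ → ℂ), DifferentiableOn ℂ Ho {z | dist (Psi u z) ctr < 1} ∧
    (∀ z, dist (Psi u z) ctr < 1 → (∀ x ∈ lv k, 735 / 1000 < dist (Psi (u ++ x) z) ctr) →
      H z = Ho z + ∑ x ∈ lv k, Hv x z) ∧
    ∀ x ∈ lv k, ∀ z, 74 / 100 ≤ dist (Psi (u ++ x) z) ctr →
      ‖Hv x z‖ ≤ C * (‖cm (u ++ x) H‖ / dist z (cc (u ++ x)) +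
        3 ^ (u.length + k) * A x / (1 + dist (Psi (u ++ x) z) ctr) ^ 2)

/-- HVS: sums over the squares.

PROOF. Let i be the length of the longest common initial word of x ∈ lv j and x'. i < j or i = j; in both
cases the point y = Psi (u ++ x.take i) (zz x) and the next digit e of x' after i satisfy
dist (psi e y) ctr ≥ .74 (i = j: definition of nodeX; i < j: dist (psi e' y) ctr ≤ .80 for the next digit
e' ≠ e of x (going up: t/3 + .4715 ≤ .80), so dist (psi e y) ctr ≥ 1 by psi_disj), and dist_psi_ge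
keeps it ≥ .74 down to x' (first claim); moreover dist y (phi e (Phi x'' ctr)) ≥ (.74 - .7073)/3 ≥ .01
for the rest x'' of x' (dist (Phi x'' ctr) ctr ≤ .7073), i.e. dist (zz x) (cc (u ++ x')) ≥ .01 * 3^(-|u|-i).
At most 4^(j-i) words x ∈ lv j have given i. Second claim: sum_i 4^(j-i) 3^(-|u|-j) 100 * 3^(|u|+i) =
100 sum_i (4/3)^(j-i) ≤ 400 (4/3)^j. Third claim: dist (Psi (u ++ x') (zz x)) ctr =
3^(|u|+2j) dist (zz x) (cc (u ++ x')) ≥ .01 * 3^(2j-i), so the sum is at most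
10^4 sum_i 4^(j-i) 3^j 9^(i-2j) = 10^4 4^j 27^(-j) sum_(i≤j) (9/4)^i ≤ 2 * 10^4 * 3^(-j). -/
def T_HVS : Prop := ∃ C : ℝ, 0 < C ∧ ∀ (j : ℕ) (u x' : List D) (zz : List D → ℂ), 1 ≤ j →
  x' ∈ lv (2 * j) → (∀ x ∈ lv j, Psi (u ++ x) (zz x) ∈ nodeX) →
  (∀ x ∈ lv j, 74 / 100 ≤ dist (Psi (u ++ x') (zz x)) ctr) ∧
  ∑ x ∈ lv j, (1 / 3) ^ (u.length + j) / dist (zz x) (cc (u ++ x')) ≤ C * (4 / 3) ^ j ∧
  ∑ x ∈ lv j, (1 / 3) ^ (u.length + j) * 3 ^ (u.length + 2 * j) /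
    (1 + dist (Psi (u ++ x') (zz x)) ctr) ^ 2 ≤ C * (1 / 3) ^ j

/-- GLL: growth lemma. Hypotheses hAVS : T_AVS, hDCM : T_DCM, hHVS : T_HVS.

PROOF. u = p ++ [d], DCM with k = 2j, A x = b (u ++ x): H = Ho + sum Hv x'. Put
Q = sum over x' ∈ lv (2j) of (|cm (u ++ x') H| + 9^(-j) b (u ++ x')). (b ≥ 0 on words of length < N.)
(1) If dist (Psi u z) ctr = .9, or Psi u z ∈ nodeX, then for x' ∈ lv (2j): dist (Psi (u ++ x') z) ctr ≥
.74 (as in HVS, first digit of x': on the circle .9: 3 (.9 - .4715) ≥ 1) and dist z (cc (u ++ x')) ≥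
.01 * 3^(-|u|), dist (Psi (u ++ x') z) ctr ≥ .01 * 9^j, so 3^(-|u|) |Hv x' z| ≤ C (|cm (u ++ x') H| + 9^(-j)
b (u ++ x')) (3^(2j) 81^(-j)* 10^4 = 10^4 9^(-j)) and 3^(-|u|) sum |Hv x' z| ≤ C Q. The circle
dist (Psi u z) ctr = .9 is contained in nodeX of p (dist (Psi p z) ctr ≤ .3 + .4715, psi d: .9, the other
digits ≥ 1), so there 3^(-|u|) |H| ≤ b p ≤ K A. (2) If C Q ≥ A/2 the claim holds (C large). Otherwise
3^(-|u|) |Ho| ≤ K A + A/2 ≤ 2 K A on the circle, so on the closed ball dist (Psi u z) ctr ≤ .9 (maximum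
principle), and 3^(-|u|) |Ho y₀| ≥ A/2. AVS for G(y) = 3^(-|u|) Ho (Phi u y), M = 2 K A, μ = A/2: points
z_x = Phi u (zz x), x ∈ lv j, Psi (u ++ x) z_x ∈ nodeX, with sum_x 3^(-|u|) |Ho z_x| ≥ 4^j 2KA (1/(4K))^C1.
Multiply by 3^(-j): sum_x 3^(-|u|-j) |Ho z_x| ≥ (4/3)^j A (4K)^(-C1). On the other hand
3^(-|u|-j) |Ho z_x| ≤ b (u ++ x) + sum_x' 3^(-|u|-j) |Hv x' z_x| (z_x satisfies the condition of the
decomposition by the first claim of HVS; |u| + j < N), and by DCM and HVS the double sum is ≤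
C (4/3)^j sum |cm (u ++ x') H| + C 3^(-j) sum b (u ++ x'). Divide by (4/3)^j (4K)^(-C1);
(3/4)^j 3^(-j) ≤ (3/4)^j. -/
def T_GLL : Prop := ∃ C : ℝ, 1 ≤ C ∧ ∀ (N j : ℕ) (p : List D) (d : D) (H : ℂ → ℂ) (b : List D → ℝ)
  (A K : ℝ) (y₀ : ℂ), 1 ≤ j → p.length + 1 + 2 * j < N → DifferentiableOn ℂ H (OmR (73 / 100) N) →
  (∀ v : List D, v.length < N → ∀ z, Psi v z ∈ nodeX → ‖H z‖ ≤ 3 ^ v.length * b v) →
  0 < A → 1 ≤ K → Psi (p ++ [d]) y₀ ∈ nodeX → 3 ^ (p.length + 1) * A ≤ ‖H y₀‖ → b p ≤ K * A →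
  A ≤ C * K ^ C * ((3 / 4) ^ j * (∑ x ∈ lv j, b (p ++ [d] ++ x) +
    ∑ x ∈ lv (2 * j), b (p ++ [d] ++ x)) + ∑ x ∈ lv (2 * j), ‖cm (p ++ [d] ++ x) H‖)

/-! ### D. Nodes with large oscillation -/

/-- VEC: a linear functional against the variation.

PROOF. Let X = sum x i, I = sum ‖x i‖ - ‖X‖ ≥ 0. If X = 0 then the left side is ≤ sum ‖x i‖ = I. Otherwise
let v = X/‖X‖, x i = c_i v + y_i, y_i orthogonal to v: ⟨e, x i⟩ = ⟨e, y_i⟩ (e is orthogonal to v), so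
|⟨e, x i⟩| ≤ ‖y_i‖, ‖y_i‖^2 = ‖x i‖^2 - |c_i|^2 ≤ 2 ‖x i‖ (‖x i‖ - Re c_i), and sum (‖x i‖ - Re c_i) = I
(sum c_i = ‖X‖). Cauchy-Schwarz: sum ‖y_i‖ ≤ (sum 2 ‖x i‖)^(1/2) I^(1/2) = (2 (‖X‖ + I) I)^(1/2) ≤
(2 ‖X‖ I)^(1/2) + 2 I ≤ η ‖X‖ + I/η + 2 I. -/
def T_VEC : Prop := ∀ (E : Type) [NormedAddCommGroup E] [InnerProductSpace ℂ E] (ι : Type)
  (s : Finset ι) (x : ι → E) (e : E) (η : ℝ), ‖e‖ ≤ 1 → inner ℂ e (∑ i ∈ s, x i) = 0 → 0 < η →
  ∑ i ∈ s, ‖(inner ℂ e (x i) : ℂ)‖ ≤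
    η * ‖∑ i ∈ s, x i‖ + (2 + 1 / η) * (∑ i ∈ s, ‖x i‖ - ‖∑ i ∈ s, x i‖)

/-- MAS: the vector measure. Hypothesis hADD : T_ADD.

PROOF. The circle of u (dist (Psi u z) ctr = .77) is in nodeX of u, its radius is .77 * 3^(-|u|), so
|cm u (F h_ij)| ≤ a u for |F| ≤ 1; n^2 (n+1) components. The functions h_ij and f_k h_ij are holomorphic
on Nd (some p), |p| < N (see PAI; Nd (some p) avoids the square Cantor set), so ADD gives the second claim
(only |p| < N is needed), and the third by induction on k. -/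
def T_MAS : Prop := ∀ n : ℕ, ∃ C : ℝ, 1 ≤ C ∧ ∀ (N : ℕ) (δ C₀ : ℝ) (f : Fin n → ℂ → ℂ)
  (h : Fin n → Fin n → ℂ → ℂ) (a : List D → ℝ), Dat n δ f → HD n N h a C₀ →
  (∀ u : List D, u.length < N → ‖mm f h u‖ ≤ C * a u) ∧
  (∀ p : List D, p.length + 1 < N → mm f h p = ∑ d : D, mm f h (p ++ [d])) ∧
  ∀ (u : List D) (k : ℕ), u.length + k < N → mm f h u = ∑ x ∈ lv k, mm f h (u ++ x)

/-- NC1: the estimate at a node with large oscillation. Hypotheses hLAV : T_LAV, hPRD : T_PRD,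
hGLL : T_GLL, hVEC : T_VEC, hMAS : T_MAS.

PROOF. u = p ++ [d]. If a u = 0 the claim holds (the difference of norms is ≥ 0 by MAS). Let i, j, y₀ with
Psi u y₀ ∈ nodeX, 3^|u| a u ≤ |h_ij y₀| (att), k, x, y from NC. Choose (α, β) ∈ ℂ^2, |α|^2 + |β|^2 = 1,
α cm u h_ij + β cm u (f_k h_ij) = 0; H = (α + β f_k) h_ij. At x or y |α + β f_k| ≥ ε/4: if |β| ≥ 1/2 the
difference of the values is ≥ ε/2; if |β| < 1/2 then |α + β f_k| ≥ |α| - 1/2 ≥ 1/4. LAV with b = ctr,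
s = 1/20 (closedBall ctr (1/5) ⊆ VV) for F₁ = (α + β f_k) ∘ Phi u, M₁ = 2, μ₁ = ε/4 and for
F₂ = h_ij ∘ Phi u, M₂ = 3 K 3^|u| a u, μ₂ = 3^|u| a u: Phi u VV is covered by the nodes of u, p and the
p ++ [d, e] (dist (Psi u z) ctr in (.80,.9): nodeX of p; dist (psi e (Psi u z)) ctr in (.73, .74): nodeX of
u ++ [e], as 3 (.73 - .4715) ≥ .74), where |h_ij| ≤ 3^(|u|-1) K a u, 3^|u| a u, 3^(|u|+1) K a u. PRD for the
union of the two lists of points on the circle |z - ctr| = 1/20: there is w on it with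
|F₁ F₂ (w)| ≥ M₁ M₂ (μ₁/M₁)^C (μ₂/M₂)^C (1/(20 C))^(m₁+m₂), m_i ≤ C log(M_i/μ_i): so
|H (Phi u w)| ≥ 3^|u| A with A = a u (ε/K)^C2/C2 (0 < ε/K ≤ 1). w ∈ nodeX. GLL with b v = 2 a v, this A,
K' = 2 K a u/A = 2 C2 K (K/ε)^C2 (b p = 2 a p ≤ 2 K a u): A ≤ C K'^C [2 (3/4)^j (..) + sum |cm (u ++ x) H|]. Here
cm (u ++ x) H = ⟨e, mm (u ++ x)⟩ with e the vector with components conj α at (i,j,none), conj β at
(i,j,some k), ‖e‖ = 1, ⟨e, mm u⟩ = 0, mm u = sum of mm (u ++ x) (MAS): by VEC the sum is ≤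
η C a u + (2 + 1/η) I. Choose η so that C K'^C η C a u ≤ A/2. Collect the powers of K/ε ≥ 1. -/
def T_NC1 : Prop := ∀ n : ℕ, ∃ C : ℝ, 1 ≤ C ∧ ∀ (N j : ℕ) (δ C₀ ε K : ℝ) (f : Fin n → ℂ → ℂ)
  (h : Fin n → Fin n → ℂ → ℂ) (a : List D → ℝ) (p : List D) (d : D), Dat n δ f → HD n N h a C₀ →
  0 < ε → ε ≤ 1 → 1 ≤ K → 1 ≤ j → p.length + 1 + 2 * j < N → NC f ε (p ++ [d]) →
  a p ≤ K * a (p ++ [d]) → (∀ e : D, a (p ++ [d, e]) ≤ K * a (p ++ [d])) →
  a (p ++ [d]) ≤ C * (K / ε) ^ C * ((3 / 4) ^ j * (∑ x ∈ lv j, a (p ++ [d] ++ x) +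
    ∑ x ∈ lv (2 * j), a (p ++ [d] ++ x)) +
    (∑ x ∈ lv (2 * j), ‖mm f h (p ++ [d] ++ x)‖ - ‖mm f h (p ++ [d])‖))

/-- NC3: neighbours. Hypotheses hLAV : T_LAV, hPRD : T_PRD.

PROOF. First claim (u = p): let b be a point with closedBall b (4s) ⊆ VV and Phi p (closedBall b s)
contained in the node of p ++ [d], i.e. psi d (closedBall b s) ⊆ nodeX: for instance
b = phi d (ctr + .77), s = .003 (psi d (closedBall b s) = closedBall (ctr + .77) .009; dist from ctr in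
[.761, .779], and psi e of it at distance ≥ 3 (.761 - .4715) ≥ .74 from ctr; closedBall b .012 ⊆ VV:
psi d of it is within .036 of ctr + .77, dist from ctr in [.734, .806]; the other digits are far). Four values of d: one constant.
Let k, x, y from NC f ε p, F = f_k ∘ Phi p - f_k (Phi p b): |F| ≤ 2 on VV, and |F| ≥ ε/2 at Psi p x or
Psi p y. LAV (M = 2, μ = ε/2), PRD on the circle |w - b| = s: |F w| ≥ 2 (ε/4)^C (s/C)^m ≥ ε^C'/C' for
some w with |w - b| = s; so the oscillation on the node of p ++ [d] is ≥ ε^C'/C'. Second claim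
(u = p ++ [d]): b = ctr + .85, s = .01: Phi u (closedBall b s) lies in the node of p (dist (Psi u z) ctr in
[.84, .86]: dist (Psi p z) ctr ≤ .86/3 + .4715 ≤ .80, psi d: ≥ .74, the other digits ≥ 1),
closedBall b .04 ⊆ VV. -/
def T_NC3 : Prop := ∃ C : ℝ, 1 ≤ C ∧ ∀ (n : ℕ) (δ ε : ℝ) (f : Fin n → ℂ → ℂ) (p : List D) (d : D),
  Dat n δ f → 0 < ε → ε ≤ 1 → (NC f ε p → NC f (ε ^ C / C) (p ++ [d])) ∧
    (NC f ε (p ++ [d]) → NC f (ε ^ C / C) p)

/-- NC4: recursion. Hypotheses hNC1 : T_NC1, hNC3 : T_NC3, hMAS : T_MAS.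

PROOF. j = ceil(4 log N) + 1: (3/4)^j N ≤ 1 as 4 log(4/3) ≥ 1. The words u, |u| < N, with NC f ε u: (a)
u = [] or |u| + 2j ≥ N: their sizes sum to ≤ C₀ (2j + 1) by lev; (b) the others, for which some neighbour
y (parent or child; |y| < N) has a y > K a u: a u ≤ a y/K, NC f (ε^C/C) y by NC3, every y is the neighbour of
at most 5 words: sum ≤ (5/K) SN (ε^C/C); (c) the rest: NC1; the sum over u of the terms
(3/4)^j (sum a (u ++ x) ..) is ≤ (3/4)^j * 2 * (sum over all v, |v| < N, of a v) ≤ (3/4)^j 2 N C₀ ≤ 2 C₀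
(every v is u ++ x for at most one u, for each of the two lengths), and the sum over ALL u with
|u| + 2j < N of I(u) = sum_x ‖mm (u ++ x)‖ - ‖mm u‖ ≥ 0 is sum over l < N - 2j of (N_(l+2j) - N_l) ≤
2j max N_l ≤ 2j C C₀, where N_l = sum over lv l of ‖mm‖ ≤ C C₀ (telescoping; sum_lv_add). -/
def T_NC4 : Prop := ∀ (n : ℕ) (C₀ : ℝ), 0 < C₀ → ∃ C : ℝ, 1 ≤ C ∧ ∀ (N : ℕ) (δ ε K : ℝ)
  (f : Fin n → ℂ → ℂ) (h : Fin n → Fin n → ℂ → ℂ) (a : List D → ℝ), 1 ≤ N → Dat n δ f →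
  HD n N h a C₀ → 0 < ε → ε ≤ 1 → 1 ≤ K →
  SN N f a ε ≤ C * (K / ε) ^ C * (1 + Real.log N) + 5 / K * SN N f a (ε ^ C / C)

/-- NCS: the total size of the nodes with large oscillation. Hypothesis hNC4 : T_NC4.

PROOF. Let i be a natural number with C/i ≤ γ/2 (C of NC4), K = N^(1/i) ≥ 1. ε_0 = ε,
ε_(k+1) = ε_k^C/C (in (0,1]): 1/ε_k ≤ C' (1/ε)^C' for k ≤ i (C' depends on i, C). Iterating NC4 i times:
SN ε ≤ sum over k < i of (5/K)^k C (K/ε_k)^C (1 + log N) + (5/K)^i SN ε_i ≤ i 5^i C C'' (1/ε)^C''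
N^(C/i) (1 + log N) + 5^i N^(-1) C₀ N, because SN ≤ the sum over all |u| < N of a u ≤ N C₀ (lev), and
(1 + log N) ≤ C_γ N^(γ/2). -/
def T_NCS : Prop := ∀ (n : ℕ) (C₀ γ : ℝ), 0 < C₀ → 0 < γ → ∃ C : ℝ, 1 ≤ C ∧ ∀ (N : ℕ) (δ ε : ℝ)
  (f : Fin n → ℂ → ℂ) (h : Fin n → Fin n → ℂ → ℂ) (a : List D → ℝ), 1 ≤ N → Dat n δ f →
  HD n N h a C₀ → 0 < ε → ε ≤ 1 → SN N f a ε ≤ C * (1 / ε) ^ C * (N : ℝ) ^ γ

/-! ### E. Calm nodes -/

open Classical in
/-- WEK: weak words far from strong ones.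

PROOF. [] is Strong. For every word u let s = u.take (|u| - i) be the nearest strong initial word
(i minimal). If i ≥ 1 then a u ≤ (1/16)^i a s: choose by iteration of the definition of not Strong
(a u < (1/16)^(i1) a (ancestor at distance i1), etc.) a strong ancestor s' at distance I with
a u ≤ (1/16)^I a s', I ≥ i; if I > i then s' is an initial word of s at distance I - i from s and
a s ≥ (1/16)^(I-i) a s' because s is Strong. (Induction on |u|: the ancestor at distance i1 is either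
strong or weak.) If i = 0 trivial. For u in the filter set i ≥ J. So the sum is ≤ sum over s ∈ wd N of
a s * sum over i ≥ J of 4^i (1/16)^i ≤ 2 (1/4)^J sum a s. -/
def T_WEK : Prop := ∀ (N J : ℕ) (a : List D → ℝ), (∀ u, 0 ≤ a u) →
  ∑ u ∈ (wd N).filter (fun u => ∀ i : ℕ, i < J → i ≤ u.length →
    ¬ Strong a (u.take (u.length - i))), a u ≤ 2 * (1 / 4) ^ J * ∑ u ∈ wd N, a u

/-- CST: the frozen constants.

PROOF. Define Cs by recursion on the reversed word (or on the length): Cs [] = F [], Cs (p ++ [d]) by the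
rule. Second claim by induction on p (from the end): p = []: x = []. p = p' ++ [d]: if RR p take x = p
(Cs p = F p in both cases: nc p' or Reset; the only t between is p). If not RR p: ¬ nc p' and
dist ≤ tol, so Cs p = Cs p'; take the x of p'; the t with x <+: t <+: p are those of p' and p itself,
p is not in RR; and ¬ nc t for t ≠ p: for t = p' by assumption, for the others by induction. -/
def T_CST : Prop := ∀ (n : ℕ) (F : List D → Fin n → ℂ) (nc : List D → Prop) (tol : List D → ℝ),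
  (∃ Cs, Rule F nc tol Cs) ∧ ∀ Cs, Rule F nc tol Cs → ∀ p : List D, ∃ x, x <+: p ∧
    RR F nc tol Cs x ∧ Cs p = F x ∧ (∀ t, x <+: t → t <+: p → RR F nc tol Cs t → t = x) ∧
    ∀ t, x <+: t → t <+: p → t ≠ p → ¬ nc t

/-- RES: resets at weak words are far from strong ones.

PROOF. i = 0: u is not Strong. Let 1 ≤ i < J and suppose s = u.take (|u| - i) is Strong. Claim: for the words
t with s <+: t <+: u.dropLast, t of length |s| + k and ¬ nc t: dist (F t) (Cs t) ≤ e/4 + k e/(8 (J+1)).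
k = 0: if s = [] the distance is 0; if s = p ++ [d]: 0 in the first and third case of the rule, ≤ tol s =
e/4 in the second. Step t' = t ++ [d]: if nc t then Cs t' = F t'; if ¬ nc t: reset, distance 0, or
Cs t' = Cs t and dist (F t') (Cs t) ≤ dist (F t') (F t) + dist (F t) (Cs t) (drift, ¬ nc t'). Now
p = u.dropLast, ¬ nc p, ¬ nc u: dist (F u) (Cs p) ≤ e/4 + i e/(8 (J+1)) ≤ e/4 + e/8 < e/2 = tol u,
a contradiction to Reset. -/
def T_RES : Prop := ∀ (n J : ℕ) (F : List D → Fin n → ℂ) (nc : List D → Prop) (a : List D → ℝ)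
  (tol : List D → ℝ) (Cs : List D → Fin n → ℂ) (e : ℝ), 0 < e →
  (∀ u, (Strong a u → tol u = e / 4) ∧ (¬ Strong a u → tol u = e / 2)) → Rule F nc tol Cs →
  (∀ (p : List D) (d : D), ¬ nc p → ¬ nc (p ++ [d]) →
    dist (F (p ++ [d])) (F p) ≤ e / (8 * (J + 1))) →
  ∀ u, Reset F nc tol Cs u → ¬ nc u → ¬ Strong a u → ∀ i : ℕ, i < J → i ≤ u.length →
    ¬ Strong a (u.take (u.length - i))

open Classical in
/-- VAR: the variation is distributed over a tree of words.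

PROOF. m x = the sum of m v over the v ∈ lv (N-1) above x (|x| ≤ N - 1; additivity, induction). Every
u ∈ wd (N-1), u ≠ [], R u is in nxt N R x for exactly one x with R x (the longest proper initial word of
u in R; [] is in R), so the sum over x of sum over nxt x of ‖m u‖ is sum over R u, u ≠ [], and the left side is
- ‖m []‖ + sum over x of ‖m x - sum over nxt x of m u‖. The words of nxt x are pairwise not comparable,
so m x - sum m u = the sum of m v over the v ∈ lv (N-1) above x and above no u ∈ nxt x, i.e. those v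
whose longest initial word in R is x; for different x these sets of v are disjoint. -/
def T_VAR : Prop := ∀ (E : Type) [NormedAddCommGroup E] (N : ℕ) (m : List D → E)
  (R : List D → Prop), 1 ≤ N → R [] →
  (∀ p : List D, p.length + 1 < N → m p = ∑ d : D, m (p ++ [d])) →
  ∑ x ∈ (wd (N - 1)).filter R, (∑ u ∈ nxt N R x, ‖m u‖ + ‖m x - ∑ u ∈ nxt N R x, m u‖ - ‖m x‖) ≤
    ∑ v ∈ lv (N - 1), ‖m v‖

/-- ANG: vectors of different directions cost variation.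

PROOF. C = 1 + 2/c^2. X = 0: the right side is ≥ sum over s of ‖x i‖. X ≠ 0: v = X/‖X‖, V = the bracket
= sum over s (‖x i‖ - Re⟨v, x i⟩) + (‖r‖ - Re⟨v, r⟩) with r = X - sum x i (Re⟨v, X⟩ = ‖X‖), all terms ≥ 0.
For i in t: y_i = x i - ⟨v, x i⟩ v, ‖y_i‖ ≥ c ‖x i‖ by hypothesis, and ‖x i‖ - Re⟨v, x i⟩ ≥
‖x i‖ - |⟨v, x i⟩| ≥ (‖x i‖^2 - |⟨v, x i⟩|^2)/(2 ‖x i‖) = ‖y_i‖^2/(2 ‖x i‖) ≥ (c^2/2) ‖x i‖. -/
def T_ANG : Prop := ∀ c : ℝ, 0 < c → ∃ C : ℝ, 0 < C ∧ ∀ (E : Type) [NormedAddCommGroup E]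
  [InnerProductSpace ℂ E] (ι : Type) (s t : Finset ι) (x : ι → E) (X : E), t ⊆ s →
  (∀ i ∈ t, ∀ w : ℂ, c * ‖x i‖ ≤ ‖x i - w • X‖) →
  ∑ i ∈ t, ‖x i‖ ≤ C * (∑ i ∈ s, ‖x i‖ + ‖X - ∑ i ∈ s, x i‖ - ‖X‖)

/-- SRB: different values at calm nodes cost variation. Hypotheses hANG : T_ANG, hMAS : T_MAS.

PROOF. For a calm v (¬ NC f ε v, |v| < N): |f_k z - f_k (cc v)| ≤ ε on the node of v, so
|cm v (f_k h_ij) - f_k(cc v) cm v h_ij| ≤ ε a v. (cc v is in the node of v.) Let T be the linear map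
m ↦ (m_(i,j,some k) - f_k(cc x) m_(i,j,none))_(i,j,k), ‖T m‖ ≤ c₁ ‖m‖ (c₁ depends on n). Then
‖T (mm x)‖ ≤ c₁ ε a x, and for u ∈ t: the (i,j,k) components of T (mm u) are (f_k(cc u) - f_k(cc x))
m_ij(u) + O(ε a u); take k with |f_k(cc u) - f_k(cc x)| ≥ e (pi distance): ‖T (mm u)‖ ≥ e ‖m'‖ - c₁ ε a u,
m' = the vector of the m_ij(u), and ‖mm u‖ ≤ c₁ (‖m'‖ + ε a u). Let C' = C'(n, e) be large. (i) If
‖mm x‖ ≤ C' ε a x: the sum over t is ≤ sum over s ≤ V + ‖mm x‖, V the bracket. (ii) The u ∈ t with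
‖mm u‖ ≤ C' ε a u contribute ≤ C' ε sum a u. (iii) For the other u ∈ t, if (i) fails: ‖T (mm u)‖ ≥
c₂ ‖mm u‖ with c₂ = e/(4 c₁) (C' large), ‖T (mm x)‖ ≤ (c₁/C') ‖mm x‖. For w ∈ ℂ, y = mm u - w mm x: if
‖y‖ < ‖mm u‖/2 then |w| ‖mm x‖ ≤ 2 ‖mm u‖ and c₁ ‖y‖ ≥ ‖T y‖ ≥ c₂ ‖mm u‖ - 2 (c₁/C') ‖mm u‖ ≥
(c₂/2) ‖mm u‖. So ANG applies with c = min(1/2, c₂/(2 c₁)). -/
def T_SRB : Prop := ∀ (n : ℕ) (e : ℝ), 0 < e → ∃ C : ℝ, 1 ≤ C ∧ ∀ (N : ℕ) (δ C₀ ε : ℝ)
  (f : Fin n → ℂ → ℂ) (h : Fin n → Fin n → ℂ → ℂ) (a : List D → ℝ) (x : List D)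
  (s t : Finset (List D)), Dat n δ f → HD n N h a C₀ → 0 ≤ ε → t ⊆ s → x.length < N →
  (∀ u ∈ s, u.length < N) → ¬ NC f ε x →
  (∀ u ∈ t, ¬ NC f ε u ∧ e ≤ dist (FF f u) (FF f x)) →
  ∑ u ∈ t, ‖mm f h u‖ ≤
    C * (∑ u ∈ s, ‖mm f h u‖ + ‖mm f h x - ∑ u ∈ s, mm f h u‖ - ‖mm f h x‖) +
    C * ε * (a x + ∑ u ∈ t, a u)

/-- SRS: strong words. Hypotheses hGLL : T_GLL, hMAS : T_MAS.

PROOF. j = ceil(4 log N) + 1. The words of t with u = [] or |u| + 2j ≥ N contribute ≤ C₀ (2j + 1) (lev). For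
the others u = p ++ [d], a p ≤ 16 a u (Strong with i = 1); if a u > 0 let i, j', y₀ be as in att and apply
GLL to H = h_ij', b = a, A = a u, K = 16: a u ≤ C [(3/4)^j (..) + sum_x |cm (u ++ x) h_ij'|], and
|cm (u ++ x) h_ij'| ≤ ‖mm (u ++ x)‖; sum_x ‖mm (u ++ x)‖ = ‖mm u‖ + I(u), I(u) ≥ 0. Sum over u as in
NC4. -/
def T_SRS : Prop := ∀ (n : ℕ) (C₀ : ℝ), 0 < C₀ → ∃ C : ℝ, 1 ≤ C ∧ ∀ (N : ℕ) (δ : ℝ)
  (f : Fin n → ℂ → ℂ) (h : Fin n → Fin n → ℂ → ℂ) (a : List D → ℝ) (t : Finset (List D)),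
  1 ≤ N → Dat n δ f → HD n N h a C₀ → (∀ u ∈ t, u.length < N ∧ Strong a u) →
  ∑ u ∈ t, a u ≤ C * (1 + Real.log N) + C * ∑ u ∈ t, ‖mm f h u‖

/-- FRZ: frozen solutions. Hypothesis hLCL : T_LCL.

PROOF. For cal u: D(z) = sum_k f_k z conj(Cs u k) on the node of u: |D - sum |f_k|^2| ≤ n δ^2/(4n+4) ≤
δ^2/4, so |D| ≥ δ^2/2; g (some u) i z = conj(Cs u i)/D z on NR (some u) = {Psi u z ∈ nodeV} (nodeV ⊆
nodeX), |Cs u i| ≤ 1 + δ^2. For the other R the solutions of LCL. Second claim: u ≠ [], par u =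
some u.dropLast; BB = sum_ij conj(C_i) conj(C_j) h_ij/(D^u D^p) = 0 by antisymmetry. -/
def T_FRZ : Prop := ∀ (n : ℕ) (δ : ℝ), 0 < δ → ∃ B : ℝ, 1 ≤ B ∧ ∀ (f : Fin n → ℂ → ℂ)
  (Cs : List D → Fin n → ℂ) (cal : List D → Prop), Dat n δ f →
  (∀ u, cal u → ∀ k z, Psi u z ∈ nodeX → ‖f k z - Cs u k‖ ≤ δ ^ 2 / (4 * n + 4)) →
  ∃ g, LS n f g B ∧ ∀ (h : Fin n → Fin n → ℂ → ℂ) (u : List D) (z : ℂ), u ≠ [] → cal u →
    cal u.dropLast → Cs u = Cs u.dropLast → z ∈ NR (some u) → z ∈ NR (some u.dropLast) →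
    (∀ i j, h j i z = - h i j z) → BB g h u z = 0

open Classical in
/-- SRT: the total size of the strong resets. Hypotheses hSRB : T_SRB, hSRS : T_SRS, hVAR : T_VAR,
hCST : T_CST, hMAS : T_MAS.

PROOF. Let nc = NC f ε, R = RR (FF f) nc tol Cs, T = the set of the strong calm resets (the filter
set on the left), SR = its total size. SRS: SR ≤ C1 (1 + log N) + C1 sum over T of ‖mm u‖. For u ∈ T let x be the word of
CST for p = u.dropLast: x ∈ R, Cs p = FF f x, no further elements of R between x and p, so u ∈ nxt N R x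
(u ∈ R as a reset), ¬ nc x (x ≠ p: CST; x = p: ¬ nc p as u is a reset), and e/4 = tol u <
dist (FF f u) (Cs p) = dist (FF f u) (FF f x). For x ∈ R let t_x = T ∩ nxt N R x; SRB with e/4, s = nxt N R x
for those x with ¬ nc x: sum over t_x of ‖mm u‖ ≤ C2 V_x + C2 ε (a x + sum over t_x of a u); for nc x t_x is
empty. V_x ≥ 0 always (triangle inequality). The sets nxt N R x are disjoint for different x. Sum over
x ∈ R, ¬ nc x, |x| < N: sum over T of ‖mm u‖ ≤ C2 sum V_x + C2 ε (sum over these x of a x + SR), sum V_x ≤ C3 C₀ by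
VAR and MAS, lev (N ≥ 1). x ∈ R, ¬ nc x is [] (a ≤ C₀), or nc x.dropLast, or a reset (weak, or in T): the sum of
a x is ≤ C₀ + P + SR, P the two sums on the right of the claim. So SR ≤ C1 (1 + log N) + C1 C2 C3 C₀ +
C1 C2 ε (C₀ + P + 2 SR), and 2 C1 C2 ε ≤ 1/2 for ε ≤ ε₁. -/
def T_SRT : Prop := ∀ (n : ℕ) (C₀ e : ℝ), 0 < C₀ → 0 < e → ∃ C ε₁ : ℝ, 1 ≤ C ∧ 0 < ε₁ ∧
  ∀ (N : ℕ) (δ ε : ℝ) (f : Fin n → ℂ → ℂ) (h : Fin n → Fin n → ℂ → ℂ) (a : List D → ℝ)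
    (tol : List D → ℝ) (Cs : List D → Fin n → ℂ), 1 ≤ N → Dat n δ f → HD n N h a C₀ →
  0 < ε → ε ≤ ε₁ → (∀ u, Strong a u → tol u = e / 4) → Rule (FF f) (NC f ε) tol Cs →
  ∑ u ∈ (wd (N - 1)).filter (fun u => Reset (FF f) (NC f ε) tol Cs u ∧ ¬ NC f ε u ∧ Strong a u),
    a u ≤ C * (1 + Real.log N) +
    C * (∑ u ∈ (wd (N - 1)).filter (fun u => NC f ε u.dropLast), a u +
      ∑ u ∈ (wd (N - 1)).filter (fun u => Reset (FF f) (NC f ε) tol Cs u ∧ ¬ NC f ε u ∧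
        ¬ Strong a u), a u)

/-- MAI: local solutions with small pairing. Hypotheses hNCS : T_NCS, hNC3 : T_NC3, hFRZ : T_FRZ,
hCST : T_CST, hRES : T_RES, hWEK : T_WEK, hSRT : T_SRT.

PROOF. e = δ^2/(4n+4), J = ceil(log N) + J₀ with J₀ so large that ε = e/(16 (J+1)) is ≤ ε₁ (SRT for this e)
and ≤ 1 and e/2 + ε ≤ e. nc = NC f ε, tol = e/4 at strong, e/2 at weak words, Cs from CST. cal u := ¬ nc u: then for z in the
node of u |f_k z - f_k(cc u)| < ε, |f_k(cc u) - Cs u k| ≤ e/2 (rule: 0 or ≤ tol), so FRZ gives g, B. For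
|u| < N, u ≠ [], ¬ nc u, ¬ nc u.dropLast, no reset at u: Cs u = Cs u.dropLast, BB = 0 on the circle of u
(it lies in NR of u and of u.dropLast, and in OmR (73/100) N), cm u (BB) = 0. For all |u| < N
|cm u (BB g h u)| ≤ C a u (circle in nodeX, radius .77 * 3^(-|u|), |BB| ≤ n^2 B^2 3^|u| a u), for |u| = N the sum
is ≤ C C₀ by bot (choose zz q on the circle maximising sum |h_ij|, or for every (i,j) the maximum). So
‖TB‖ ≤ C (C₀ + a [] + SN N f a ε + P + weak + strong) with P = sum of a u over |u| < N, u ≠ [],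
nc u.dropLast, weak/strong the sums of the calm resets. By NC3 nc u.dropLast implies NC f (ε^C/C) u:
P ≤ SN N f a (ε^C/C) (+ a [] ≤ C₀). NCS with γ/2: SN ≤ C (1/ε)^C' N^(γ/2) and 1/ε ≤ C (1 + log N), so
SN, P ≤ C N^γ. Weak calm resets: the drift is ≤ 2 ε = e/(8(J+1)) (calm neighbours p, p ++ [d] share a
point of both nodes, and cc is in its node), so by RES, WEK weak ≤ 2 (1/4)^J N C₀ ≤ 2 C₀ (4^J ≥ N; sum over wd (N-1)
by lev). Strong: SRT (u = [] in the filter of SRT: a [] ≤ C₀). 1 + log N ≤ C N^γ. -/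
def T_MAI : Prop := ∀ (n : ℕ) (δ γ C₀ : ℝ), 0 < δ → 0 < γ → 0 < C₀ → ∃ B C : ℝ, 1 ≤ B ∧ 0 < C ∧
  ∀ (N : ℕ) (f : Fin n → ℂ → ℂ) (h : Fin n → Fin n → ℂ → ℂ) (a : List D → ℝ), 1 ≤ N →
  Dat n δ f → HD n N h a C₀ → ∃ g, LS n f g B ∧ ‖TB N g h‖ ≤ C * (N : ℝ) ^ γ

/-! ### F. Gluing -/

/-- CWT: the Cousin problem with weights depending on the level.

PROOF. As `cousin` (Cousin.lean): S R z is the same infinite sum over the words v of the splittings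
(split_node applied with M = μ |v| + tiny, or μ |v| if positive; if μ |v| = 0 the jump is 0), every term
is at most C μ |v| th (Psi v z). The sum over the words of length l of th (Psi v z) is Sg l z ≤ 66
(sum_lv, Sg_le'), and for l ≥ k it is ≤ C (4/9)^(l-k): it is the sum over p ∈ lv k of
Sg (l-k) (Psi p z) with infDist (Psi p z) ≥ 3^k infDist z > 1.51 (infDist_Psi), so dist (Psi p z) ctr > .80
(infDist_le_dist_ctr) and Sg_far applies (see Th_le). Summability and locally uniform convergence from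
the summability of μ l (4/9)^l. -/
def T_CWT : Prop := ∃ C : ℝ, 0 < C ∧ ∀ (w : List D → ℂ → ℂ) (μ : ℕ → ℝ), (∀ l, 0 ≤ μ l) →
  (Summable fun l : ℕ => μ l * (4 / 9 : ℝ) ^ l) →
  (∀ v, DifferentiableOn ℂ (w v) {z | (74 / 100 : ℝ) < dist z ctr ∧ dist z ctr < 80 / 100}) →
  (∀ v z, (74 / 100 : ℝ) < dist z ctr → dist z ctr < 80 / 100 → ‖w v z‖ ≤ μ v.length) →
  ∃ S : Option (List D) → ℂ → ℂ, (∀ R, DifferentiableOn ℂ (S R) (Nd R)) ∧
    (∀ R, ∀ z ∈ Nd R, ∀ k : ℕ, 151 / 100 < 3 ^ k * infDist z squareCantor →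
      ‖S R z‖ ≤ C * (∑ l ∈ Finset.range (k + 1), μ l + ∑' l, μ (k + l) * (4 / 9 : ℝ) ^ l)) ∧
    ∀ v₀, ∀ z ∈ Nd (par v₀), z ∈ Nd (some v₀) →
      S (some v₀) z - S (par v₀) z = w v₀ (Psi v₀ z)

/-- GLU: gluing along the powers of two. Hypotheses hCWT : T_CWT, hLCL : T_LCL.

PROOF. Let G^(N) be the solutions of the hypothesis. For a word p with 2^(k-1) ≤ |p| < 2^k (k ≥ 1) put
g^p = G^(2^k), for p = [] and none the solutions of LCL (or G^(1) for []). NR (some p) = {Psi p z ∈ nodeV}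
is contained in OmR (73/100) N if |p| < N: for q ∈ lv N above p, q starts with p ++ [d],
dist (psi d (Psi p z)) ctr > .74 and this stays > .74 going down; for the other q dist (Psi q z) ctr ≥ 1
(as dist (Psi p z) ctr < .80). So |g^p| ≤ C (1 + |p|)^γ. The jumps w_ij v = g^v_i g^(par v)_j - (i ↔ j) (in the
coordinates of v) vanish unless |v| = 0 or |v| is a power of 2, and are ≤ μ_|v| = C (1 + |v|)^(2γ) then,
μ_l = 0 for the other l. CWT for all i, j, antisymmetrise, G = g^R - sum S^R_ij f_j as in log_corona. For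
151/100 < 3^k infDist z: the sum of μ_l over l ≤ k is ≤ C sum over powers of two 2^i ≤ k of (1 + 2^i)^(2γ)
+ C ≤ C (1 + k)^(2γ) (geometric sum), and the tail sum of μ_(k+l) (4/9)^l ≤ C sum (1 + k + l)^(2γ) (4/9)^l ≤
C (1 + k)^(2γ) ((1 + k + l) ≤ (1 + k)(1 + l)). And z ∈ Nd (some p) has |p| ≤ k + 1 or so (z ∈ Nd (some p): the point
Psi p z is within .80 of ctr, so infDist (Psi p z) ≤ 1.51 and 3^|p| infDist z ≤ 1.51 by infDist_Psi, hence
|p| < k): |g^R| ≤ C (1 + k)^γ. -/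
def T_GLU : Prop := ∀ (n : ℕ) (δ γ : ℝ), 0 < δ → 0 < γ →
  (∃ C : ℝ, 0 < C ∧ ∀ f : Fin n → ℂ → ℂ, Dat n δ f → ∀ N : ℕ, 1 ≤ N → ∃ G : Fin n → ℂ → ℂ,
    (∀ i, DifferentiableOn ℂ (G i) (OmR (73 / 100) N)) ∧
    (∀ z ∈ OmR (73 / 100) N, ∑ j, f j z * G j z = 1) ∧
    ∀ i, ∀ z ∈ OmR (73 / 100) N, ‖G i z‖ ≤ C * (N : ℝ) ^ γ) →
  ∃ C : ℝ, 0 < C ∧ ∀ f : Fin n → ℂ → ℂ, Dat n δ f → ∃ g : Fin n → ℂ → ℂ,
    (∀ j, DifferentiableOn ℂ (g j) squareCantorᶜ) ∧
    (∀ z ∈ squareCantorᶜ, ∑ j, f j z * g j z = 1) ∧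
    ∀ j, ∀ z ∈ squareCantorᶜ, ∀ k : ℕ, 151 / 100 < 3 ^ k * infDist z squareCantor →
      ‖g j z‖ ≤ C * ((k : ℝ) + 1) ^ (2 * γ)

/-- FIN: conclusion. Hypotheses hDUA : T_DUA, hMAI : T_MAI, hGLU : T_GLU.

PROOF. γ' = γ/2. DUA gives C₁; MAI with C₀ = C₁, γ' gives B, C; DUA with this B: for N ≥ 1, f, X = C N^γ':
a solution G with |G| ≤ C' (1 + C N^γ') ≤ C'' N^γ'. GLU with γ'. -/
def T_FIN : Prop := T_ALB

end Pool.Agent.CorA
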